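import Pool.Agent.Lib.H80F.Defs2

/-!
# H80F, A1: the filtration generated by weighted letters
-/

namespace Pool.Agent.Lib.H80F

open Subgroup
open scoped commutatorElement

variable {G ι : Type} [Group G] {b : ι → G} {wt : ι → ℕ}


/-- Unfold `wf`. -/
theorem wf_le_one (b : ι → G) (wt : ι → ℕ) {m : ℕ} (hm : m ≤ 1) : wf b wt m = ⊤ := by
  rw [wf]; simp [hm]

theorem a1a_unfold (b : ι → G) (wt : ι → ℕ) {m : ℕ} (hm : 2 ≤ m) :
    wf b wt m = ⨆ i : ι, if m ≤ wt i then normalClosure {b i} else
      ⁅wf b wt (m - (wt i - 1) - 1), normalClosure {b i}⁆ := by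
  rw [wf]
  have : ¬ m ≤ 1 := by omega
  simp [this]

/-- Unfold `wf` (`m - (wt i - 1) - 1 = m - wt i` as `1 ≤ wt i`). -/
theorem wf_eq (b : ι → G) (hwt : ∀ i, 1 ≤ wt i) {m : ℕ} (hm : 2 ≤ m) :
    wf b wt m = ⨆ i : ι, if m ≤ wt i then normalClosure {b i} else
      ⁅wf b wt (m - wt i), normalClosure {b i}⁆ := by
  rw [a1a_unfold b wt hm]
  apply iSup_congr
  intro i
  have h1 := hwt i
  have : m - (wt i - 1) - 1 = m - wt i := by omega
  rw [this]

theorem a1a_iSup_normal {κ : Type} (K : κ → Subgroup G) (h : ∀ i, (K i).Normal) :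
    (⨆ i, K i).Normal := by
  constructor
  intro n hn g
  have key : (⨆ i, K i) ≤ (⨆ i, K i).comap (MulAut.conj g).toMonoidHom := by
    apply iSup_le
    intro i x hx
    have h2 : g * x * g⁻¹ ∈ ⨆ i, K i := (le_iSup K i) ((h i).conj_mem x hx g)
    exact h2
  exact key hn

/-- A supremum of normal subgroups, and a commutator of normal subgroups, is normal (strong
induction on `m`; no assumption on the weights is needed). -/
theorem wf_normal (b : ι → G) (wt : ι → ℕ) (m : ℕ) : (wf b wt m).Normal := by
  induction m using Nat.strong_induction_on with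
  | _ m ih =>
    by_cases hm : m ≤ 1
    · rw [wf_le_one b wt hm]; infer_instance
    · rw [a1a_unfold b wt (by omega)]
      apply a1a_iSup_normal
      intro i
      split_ifs with h
      · infer_instance
      · haveI := ih (m - (wt i - 1) - 1) (by omega)
        infer_instance

/-- Strong induction on `m`: termwise in the supremum; if `m + 1 ≤ wt i` then `m ≤ wt i`; if
`m + 1 > wt i` and `m ≤ wt i` then `⁅_, normalClosure {b i}⁆ ≤ normalClosure {b i}` (normal); if
`m > wt i` use the induction hypothesis for `m - wt i` and `commutator_mono`. -/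
theorem wf_anti (b : ι → G) (hwt : ∀ i, 1 ≤ wt i) (m : ℕ) : wf b wt (m + 1) ≤ wf b wt m := by
  induction m using Nat.strong_induction_on with
  | _ m ih =>
    by_cases hm : m ≤ 1
    · rw [wf_le_one b wt hm]; exact le_top
    · rw [wf_eq b hwt (show 2 ≤ m + 1 by omega), wf_eq b hwt (show 2 ≤ m by omega)]
      apply iSup_mono
      intro i
      have h1 := hwt i
      by_cases h2 : m + 1 ≤ wt i
      · rw [if_pos h2, if_pos (by omega)]
      · by_cases h3 : m ≤ wt i
        · rw [if_neg h2, if_pos h3]
          haveI := wf_normal b wt (m + 1 - wt i)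
          exact Subgroup.commutator_le_right _ _
        · rw [if_neg h2, if_neg h3]
          apply Subgroup.commutator_mono _ le_rfl
          have : m + 1 - wt i = (m - wt i) + 1 := by omega
          rw [this]
          exact ih (m - wt i) (by omega)

/-- The letter `b i` has weight `wt i`. -/
theorem wf_letter (b : ι → G) (hwt : ∀ i, 1 ≤ wt i) (i : ι) : b i ∈ wf b wt (wt i) := by
  by_cases hm : wt i ≤ 1
  · rw [wf_le_one b wt hm]; trivial
  · rw [wf_eq b hwt (by omega)]
    have := le_iSup (fun j : ι => if wt i ≤ wt j then normalClosure {b j} else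
      ⁅wf b wt (wt i - wt j), normalClosure {b j}⁆) i
    apply this
    simp only [le_refl, if_true]
    exact subset_normalClosure rfl

/-- The step of the definition (`⁅wf m, normalClosure {b i}⁆` is one of the subgroups in the
supremum for `m + wt i`, as `m + wt i > wt i`). -/
theorem wf_step (b : ι → G) (hwt : ∀ i, 1 ≤ wt i) {m : ℕ} (hm : 1 ≤ m) (i : ι) :
    ⁅wf b wt m, normalClosure {b i}⁆ ≤ wf b wt (m + wt i) := by
  have h1 := hwt i
  rw [wf_eq b hwt (show 2 ≤ m + wt i by omega)]
  have := le_iSup (fun j : ι => if m + wt i ≤ wt j then normalClosure {b j} else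
      ⁅wf b wt (m + wt i - wt j), normalClosure {b j}⁆) i
  refine le_trans (le_of_eq ?_) this
  have h2 : ¬ (m + wt i ≤ wt i) := by omega
  simp only [if_neg h2, Nat.add_sub_cancel]

end Pool.Agent.Lib.H80F
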