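import Pool.Agent.Lib.H80F.A1a

/-!
# H80F, A1: `wf` is an `N`-series
-/

namespace Pool.Agent.Lib.H80F

open Subgroup
open scoped commutatorElement

variable {G ι : Type} [Group G] {b : ι → G} {wt : ι → ℕ}


theorem a1b_mem_left {H K L : Subgroup G} [hL : L.Normal] (h : ⁅H, K⁆ ≤ L) :
    K ≤ (centralizer (H.map (QuotientGroup.mk' L) : Set (G ⧸ L))).comap (QuotientGroup.mk' L) := by
  intro k hk
  rw [mem_comap, mem_centralizer_iff]
  rintro x ⟨y, hy, rfl⟩
  have h1 : ⁅y, k⁆ ∈ L := h (commutator_mem_commutator hy hk)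
  have h2 : (QuotientGroup.mk' L) ⁅y, k⁆ = 1 := by
    rw [← MonoidHom.mem_ker, QuotientGroup.ker_mk']; exact h1
  rw [map_commutatorElement, commutatorElement_eq_one_iff_mul_comm] at h2
  exact h2

theorem a1b_of_mem_left {H K L : Subgroup G} [hL : L.Normal]
    (h : K ≤ (centralizer (H.map (QuotientGroup.mk' L) : Set (G ⧸ L))).comap
      (QuotientGroup.mk' L)) : ⁅H, K⁆ ≤ L := by
  rw [commutator_le]
  intro y hy k hk
  have h1 := h hk
  rw [mem_comap, mem_centralizer_iff] at h1
  have h2 := h1 (QuotientGroup.mk' L y) ⟨y, hy, rfl⟩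
  rw [← commutatorElement_eq_one_iff_mul_comm, ← map_commutatorElement, ← MonoidHom.mem_ker,
    QuotientGroup.ker_mk'] at h2
  exact h2

theorem a1b_iSup {κ : Type} {H : Subgroup G} {K : κ → Subgroup G} {L : Subgroup G} [L.Normal]
    (h : ∀ i, ⁅H, K i⁆ ≤ L) : ⁅H, ⨆ i, K i⁆ ≤ L :=
  a1b_of_mem_left (iSup_le fun i => a1b_mem_left (h i))

theorem a1b_three {H K N L : Subgroup G} [hL : L.Normal] (h1 : ⁅⁅H, K⁆, N⁆ ≤ L)
    (h2 : ⁅⁅H, N⁆, K⁆ ≤ L) : ⁅H, ⁅K, N⁆⁆ ≤ L := by
  have e : ∀ A : Subgroup G, A ≤ L ↔ A.map (QuotientGroup.mk' L) = ⊥ := by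
    intro A
    rw [Subgroup.map_eq_bot_iff, QuotientGroup.ker_mk']
  rw [e, map_commutator, map_commutator, commutator_comm]
  apply commutator_commutator_eq_bot_of_rotate
  · rw [commutator_comm (N.map _), ← map_commutator, ← map_commutator]
    exact (e _).1 h2
  · rw [← map_commutator, ← map_commutator]
    exact (e _).1 h1

/-- For normal subgroups the commutator distributes over suprema: modulo the normal subgroup on the
right, `H` centralises every `K i`, hence their supremum. -/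
theorem commutator_iSup_le (H : Subgroup G) [H.Normal] (K : ι → Subgroup G)
    [∀ i, (K i).Normal] : ⁅H, ⨆ i, K i⁆ ≤ ⨆ i, ⁅H, K i⁆ := by
  haveI : (⨆ i, ⁅H, K i⁆).Normal := a1a_iSup_normal _ (fun i => inferInstance)
  exact a1b_iSup (fun i => le_iSup (fun i => ⁅H, K i⁆) i)

theorem a1b_anti (b : ι → G) (hwt : ∀ i, 1 ≤ wt i) {m n : ℕ} (h : m ≤ n) :
    wf b wt n ≤ wf b wt m :=
  antitone_nat_of_succ_le (wf_anti b hwt) h

theorem a1b_top (b : ι → G) (hb : closure (Set.range b) = ⊤) :
    (⨆ l : ι, normalClosure {b l}) = ⊤ := by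
  rw [eq_top_iff, ← hb, closure_le]
  rintro x ⟨l, rfl⟩
  exact (le_iSup (fun l : ι => normalClosure {b l}) l) (subset_normalClosure rfl)

theorem a1b_comm (b : ι → G) (hwt : ∀ i, 1 ≤ wt i) (hb : closure (Set.range b) = ⊤) (j : ℕ) :
    ∀ i, ⁅wf b wt i, wf b wt j⁆ ≤ wf b wt (i + j) := by
  induction j using Nat.strong_induction_on with
  | _ j ih =>
    intro i
    haveI := wf_normal b wt
    rcases Nat.eq_zero_or_pos j with hj | hj
    · subst hj
      exact commutator_le_left _ _
    rcases Nat.eq_zero_or_pos i with hi | hi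
    · subst hi
      rw [Nat.zero_add]
      exact commutator_le_right _ _
    by_cases hj1 : j = 1
    · subst hj1
      rw [wf_le_one b wt (le_refl 1), ← a1b_top b hb]
      apply a1b_iSup
      intro l
      exact le_trans (wf_step b hwt hi l) (a1b_anti b hwt (by have := hwt l; omega))
    · rw [wf_eq b hwt (show 2 ≤ j by omega)]
      apply a1b_iSup
      intro l
      have hl := hwt l
      split_ifs with h
      · exact le_trans (wf_step b hwt hi l) (a1b_anti b hwt (by omega))
      · apply a1b_three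
        · refine le_trans (commutator_mono (ih (j - wt l) (by omega) i) le_rfl) ?_
          refine le_trans (wf_step b hwt (by omega) l) (a1b_anti b hwt (by omega))
        · refine le_trans (commutator_mono (wf_step b hwt hi l) le_rfl) ?_
          refine le_trans (ih (j - wt l) (by omega) (i + wt l)) (a1b_anti b hwt (by omega))

/-- `wf` is an `N`-series. `⁅wf i, wf j⁆ ≤ wf (i + j)` by strong induction on `j`: for `i = 0` or
`j = 0` it is clear from normality (`⁅H, K⁆ ≤ H`, `≤ K`). For `j = 1`: `wf 1 = ⊤` is the supremum of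
the `normalClosure {b l}` as the `b l` generate `G`, and `⁅wf i, normalClosure {b l}⁆ ≤ wf (i + wt l)
≤ wf (i + 1)` (`wf_step`). For `j ≥ 2` use `wf_eq` for `j` and `commutator_iSup_le`: a term with
`j ≤ wt l` gives `⁅wf i, normalClosure {b l}⁆ ≤ wf (i + wt l) ≤ wf (i + j)`; a term
`⁅wf (j - wt l), N⁆`, `N = normalClosure {b l}`: by the three subgroups lemma for normal subgroups
(`Subgroup.commutator_commutator_eq_bot_of_rotate` in the quotient, or a direct lemma
`⁅H, ⁅K, N⁆⁆ ≤ ⁅⁅H, K⁆, N⁆ ⊔ ⁅⁅H, N⁆, K⁆`) it is at most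
`⁅wf (i + (j - wt l)), N⁆ ⊔ ⁅wf (i + wt l), wf (j - wt l)⁆ ≤ wf (i + j)`, by induction for
`j - wt l < j`. -/
theorem wf_nser (b : ι → G) (hwt : ∀ i, 1 ≤ wt i) (hb : closure (Set.range b) = ⊤) :
    NSer (wf b wt) where
  zero := wf_le_one b wt (by omega)
  one := wf_le_one b wt (by omega)
  anti := wf_anti b hwt
  comm := fun i j => a1b_comm b hwt hb j i

end Pool.Agent.Lib.H80F
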