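import Pool.Agent.Lib.H80F.A1a

/-!
# H80F, A1: upper bounds and images
-/

namespace Pool.Agent.Lib.H80F

open Subgroup
open scoped commutatorElement

variable {G ι : Type} [Group G] {b : ι → G} {wt : ι → ℕ}


/-- Everything of weight `m ≥ 2` lies in a normal subgroup containing the commutator subgroup and
the letters of weight `≥ m` (termwise in `wf_eq`). -/
theorem wf_le (b : ι → G) (hwt : ∀ i, 1 ≤ wt i) {m : ℕ} (hm : 2 ≤ m) (K : Subgroup G) [K.Normal]
    (hK : ⁅(⊤ : Subgroup G), (⊤ : Subgroup G)⁆ ≤ K) (h : ∀ i, m ≤ wt i → b i ∈ K) :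
    wf b wt m ≤ K := by
  rw [wf_eq b hwt hm]
  apply iSup_le
  intro i
  split_ifs with h1
  · apply normalClosure_le_normal
    rintro x rfl
    exact h i h1
  · exact le_trans (commutator_mono le_top le_top) hK

/-- Images under surjective homomorphisms (`Subgroup.map_commutator`, `map_iSup`, and
`(normalClosure s).map φ = normalClosure (φ '' s)` for surjective `φ`); strong induction on `m`. -/
theorem wf_map {H : Type} [Group H] (φ : G →* H) (hφ : Function.Surjective φ) (b : ι → G)
    (wt : ι → ℕ) (m : ℕ) : (wf b wt m).map φ = wf (fun i => φ (b i)) wt m := by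
  induction m using Nat.strong_induction_on with
  | _ m ih =>
    by_cases hm : m ≤ 1
    · rw [wf_le_one b wt hm, wf_le_one _ wt hm]
      exact map_top_of_surjective φ hφ
    · rw [a1a_unfold b wt (by omega), a1a_unfold _ wt (by omega), Subgroup.map_iSup]
      apply iSup_congr
      intro i
      split_ifs with h1
      · rw [map_normalClosure _ φ hφ, Set.image_singleton]
      · rw [map_commutator, map_normalClosure _ φ hφ, Set.image_singleton, ih _ (by omega)]

end Pool.Agent.Lib.H80F
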