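import Pool.Agent.Lib.H80F.Defs2

/-!
# H80F, A2: the filtration of a ring given by a filtration of a group
-/

namespace Pool.Agent.Lib.H80F

open Subgroup
open scoped commutatorElement

variable {G R : Type} [Group G] [Ring R] (θ : G →* R) {F : ℕ → Subgroup G}


/-- The empty list gives `1`; append the lists (`AddSubgroup.closure_induction₂`). -/
theorem J_rfilt (F : ℕ → Subgroup G) : RFilt (J θ F) := by
  have hmul : ∀ m n a b, a ∈ J θ F m → b ∈ J θ F n → a * b ∈ J θ F (m + n) := by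
    intro m n a b ha hb
    unfold J at ha
    induction ha using AddSubgroup.closure_induction with
    | mem x hx =>
      obtain ⟨l, hl, hm, rfl⟩ := hx
      unfold J at hb
      induction hb using AddSubgroup.closure_induction with
      | mem y hy =>
        obtain ⟨l', hl', hm', rfl⟩ := hy
        apply AddSubgroup.subset_closure
        refine ⟨l ++ l', ?_, ?_, ?_⟩
        · intro q hq
          rcases List.mem_append.1 hq with h | h
          · exact hl q h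
          · exact hl' q h
        · rw [List.map_append, List.sum_append]; omega
        · rw [List.map_append, List.prod_append]
      | zero => rw [mul_zero]; exact AddSubgroup.zero_mem _
      | add x y _ _ h1 h2 => rw [mul_add]; exact AddSubgroup.add_mem _ h1 h2
      | neg x _ h1 => rw [mul_neg]; exact AddSubgroup.neg_mem _ h1
    | zero => rw [zero_mul]; exact AddSubgroup.zero_mem _
    | add x y _ _ h1 h2 => rw [add_mul]; exact AddSubgroup.add_mem _ h1 h2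
    | neg x _ h1 => rw [neg_mul]; exact AddSubgroup.neg_mem _ h1
  refine ⟨?_, ?_, hmul⟩
  · apply AddSubgroup.subset_closure
    exact ⟨[], by simp, by simp, by simp⟩
  · intro m
    apply AddSubgroup.closure_mono
    rintro x ⟨l, hl, hm, rfl⟩
    exact ⟨l, hl, by omega, rfl⟩

theorem J_anti_le (F : ℕ → Subgroup G) {m n : ℕ} (h : m ≤ n) : J θ F n ≤ J θ F m := by
  exact antitone_nat_of_succ_le (J_rfilt θ F).anti h

theorem J_sub_one {m : ℕ} {g : G} (hg : g ∈ F m) : θ g - 1 ∈ J θ F m := by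
  apply AddSubgroup.subset_closure
  exact ⟨[(m, g)], by simpa using hg, by simp, by simp⟩

/-- `θ g = 1 + (θ g - 1)`, both in `J 0`. -/
theorem J_unit (hF : F 0 = ⊤) (g : G) : θ g ∈ J θ F 0 := by
  have h1 : θ g - 1 ∈ J θ F 0 := J_sub_one θ (by rw [hF]; trivial)
  have h2 := AddSubgroup.add_mem _ h1 (J_rfilt θ F).one
  rwa [sub_add_cancel] at h2

/-- `θ (a b) - 1 = (θ a - 1) + (θ b - 1) + (θ a - 1) (θ b - 1)`, and `m + m ≥ m + 1`. -/
theorem J_mul_mod {m : ℕ} (hm : 1 ≤ m) {a b : G} (ha : a ∈ F m) (hb : b ∈ F m) :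
    θ (a * b) - 1 - (θ a - 1) - (θ b - 1) ∈ J θ F (m + 1) := by
  have h1 : θ (a * b) - 1 - (θ a - 1) - (θ b - 1) = (θ a - 1) * (θ b - 1) := by
    rw [map_mul]; noncomm_ring
  rw [h1]
  exact J_anti_le θ F (show m + 1 ≤ m + m by omega)
    ((J_rfilt θ F).mul _ _ _ _ (J_sub_one θ ha) (J_sub_one θ hb))

/-- `θ a⁻¹ - 1 + (θ a - 1) = - (θ a⁻¹ - 1) (θ a - 1)`. -/
theorem J_inv_mod {m : ℕ} (hm : 1 ≤ m) {a : G} (ha : a ∈ F m) :
    θ a⁻¹ - 1 + (θ a - 1) ∈ J θ F (m + 1) := by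
  have h0 : θ a⁻¹ * θ a = 1 := by rw [← map_mul, inv_mul_cancel, map_one]
  have h1 : θ a⁻¹ - 1 + (θ a - 1) = - ((θ a⁻¹ - 1) * (θ a - 1)) := by
    rw [sub_mul, mul_sub, h0]; noncomm_ring
  rw [h1]
  apply AddSubgroup.neg_mem
  exact J_anti_le θ F (show m + 1 ≤ m + m by omega)
    ((J_rfilt θ F).mul _ _ _ _ (J_sub_one θ ((F m).inv_mem ha)) (J_sub_one θ ha))

/-- With `u = θ a - 1`, `v = θ b - 1`: `u v - v u = θ (a b) - θ (b a) = (θ ⁅a, b⁆ - 1) θ (b a)`, so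
the difference with `θ ⁅a, b⁆ - 1` is `- (θ ⁅a, b⁆ - 1) (θ (b a) - 1)`, of weight `m + n + 1` as
`⁅a, b⁆ ∈ F (m + n)` and `b a ∈ F 1`. -/
theorem J_comm_mod (hF : NSer F) {m n : ℕ} {a b : G} (ha : a ∈ F m) (hb : b ∈ F n) :
    θ ⁅a, b⁆ - 1 - ((θ a - 1) * (θ b - 1) - (θ b - 1) * (θ a - 1)) ∈ J θ F (m + n + 1) := by
  have h0 : θ ⁅a, b⁆ * θ (b * a) = θ a * θ b := by
    rw [← map_mul, ← map_mul]
    congr 1
    rw [commutatorElement_def]; group
  have h1 : θ ⁅a, b⁆ - 1 - ((θ a - 1) * (θ b - 1) - (θ b - 1) * (θ a - 1)) =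
      - ((θ ⁅a, b⁆ - 1) * (θ (b * a) - 1)) := by
    have h2 : (θ ⁅a, b⁆ - 1) * (θ (b * a) - 1) =
        θ ⁅a, b⁆ * θ (b * a) - θ ⁅a, b⁆ - θ (b * a) + 1 := by noncomm_ring
    rw [h2, h0, map_mul]; noncomm_ring
  rw [h1]
  apply AddSubgroup.neg_mem
  have h3 : b * a ∈ F 1 := by rw [hF.one]; trivial
  exact (J_rfilt θ F).mul _ _ _ _
    (J_sub_one θ (hF.comm _ _ (commutator_mem_commutator ha hb))) (J_sub_one θ h3)

/-- Conjugation by a group element does not change the leading term: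
`θ g x θ g⁻¹ - x = (θ g x - x θ g) θ g⁻¹ = ((θ g - 1) x - x (θ g - 1)) θ g⁻¹`. -/
theorem J_conj_mod (hF : NSer F) {m : ℕ} {x : R} (hx : x ∈ J θ F m) (g : G) :
    θ g * x * θ g⁻¹ - x ∈ J θ F (m + 1) := by
  have h0 : θ g * θ g⁻¹ = 1 := by rw [← map_mul, mul_inv_cancel, map_one]
  have h1 : θ g * x * θ g⁻¹ - x = ((θ g - 1) * x - x * (θ g - 1)) * θ g⁻¹ := by
    have h2 : ((θ g - 1) * x - x * (θ g - 1)) * θ g⁻¹ = θ g * x * θ g⁻¹ - x * (θ g * θ g⁻¹) := by
      noncomm_ring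
    rw [h2, h0, mul_one]
  rw [h1]
  have h3 : g ∈ F 1 := by rw [hF.one]; trivial
  have h4 := (J_rfilt θ F).mul _ _ _ _ (J_sub_one θ h3) hx
  have h5 := (J_rfilt θ F).mul _ _ _ _ hx (J_sub_one θ h3)
  rw [add_comm] at h4
  exact (J_rfilt θ F).mul (m + 1) 0 _ _ (AddSubgroup.sub_mem _ h4 h5) (J_unit θ hF.zero _)

end Pool.Agent.Lib.H80F
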