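import Pool.Agent.Lib.H80F.A1b
import Pool.Agent.Lib.H80F.A2a

/-!
# H80F, A2: leading terms are Lie polynomials
-/

namespace Pool.Agent.Lib.H80F

open Subgroup
open scoped commutatorElement

variable {G R ι : Type} [Group G] [Ring R] (θ : G →* R) {b : ι → G} {wt : ι → ℕ}


/-- A Lie word of weight `m` is in `J m`. -/
theorem lw_mem (b : ι → G) (hwt : ∀ i, 1 ≤ wt i) (i : ι) (l : List ι) :
    lw (fun i => θ (b i) - 1) i l ∈ J θ (wf b wt) (wt i + (l.map wt).sum) := by
  induction l with
  | nil =>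
    simp only [lw, List.map_nil, List.sum_nil, Nat.add_zero]
    exact J_sub_one θ (wf_letter b hwt i)
  | cons j l ih =>
    simp only [lw, List.map_cons, List.sum_cons]
    have hj : θ (b j) - 1 ∈ J θ (wf b wt) (wt j) := J_sub_one θ (wf_letter b hwt j)
    have h1 := (J_rfilt θ (wf b wt)).mul _ _ _ _ ih hj
    have h2 := (J_rfilt θ (wf b wt)).mul _ _ _ _ hj ih
    have e1 : wt i + (l.map wt).sum + wt j = wt i + (wt j + (l.map wt).sum) := by ring
    have e2 : wt j + (wt i + (l.map wt).sum) = wt i + (wt j + (l.map wt).sum) := by ring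
    rw [e1] at h1
    rw [e2] at h2
    exact AddSubgroup.sub_mem _ h1 h2

private theorem a2b_wf_anti (b : ι → G) (hwt : ∀ i, 1 ≤ wt i) {m n : ℕ} (h : m ≤ n) :
    wf b wt n ≤ wf b wt m := by
  induction n, h using Nat.le_induction with
  | base => exact le_rfl
  | succ n _ ih => exact (wf_anti b hwt n).trans ih

/-- The subgroup of the `g ∈ F m` with `θ g - 1 ∈ S`. -/
private def a2bK (F : ℕ → Subgroup G) (m : ℕ) (hm : 1 ≤ m) (S : AddSubgroup R)
    (hS : J θ F (m + 1) ≤ S) : Subgroup G where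
  carrier := {g | g ∈ F m ∧ θ g - 1 ∈ S}
  one_mem' := ⟨(F m).one_mem, by simp [S.zero_mem]⟩
  mul_mem' := by
    rintro x y ⟨hx, hx'⟩ ⟨hy, hy'⟩
    refine ⟨(F m).mul_mem hx hy, ?_⟩
    have h := hS (J_mul_mod θ hm hx hy)
    have e : θ (x * y) - 1 = (θ (x * y) - 1 - (θ x - 1) - (θ y - 1)) + (θ x - 1) + (θ y - 1) := by
      abel
    rw [e]
    exact S.add_mem (S.add_mem h hx') hy'
  inv_mem' := by
    rintro x ⟨hx, hx'⟩
    refine ⟨(F m).inv_mem hx, ?_⟩
    have h := hS (J_inv_mod θ hm hx)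
    have e : θ x⁻¹ - 1 = (θ x⁻¹ - 1 + (θ x - 1)) - (θ x - 1) := by abel
    rw [e]
    exact S.sub_mem h hx'

private theorem a2bK_normal {F : ℕ → Subgroup G} (hF : NSer F) (m : ℕ) (hm : 1 ≤ m)
    (hn : (F m).Normal) (S : AddSubgroup R)
    (hS : J θ F (m + 1) ≤ S) : (a2bK θ F m hm S hS).Normal := by
  constructor
  rintro x ⟨hx, hx'⟩ g
  refine ⟨hn.conj_mem x hx g, ?_⟩
  have h := hS (J_conj_mod θ hF (J_sub_one θ hx) g)
  have e0 : θ g * θ g⁻¹ = 1 := by rw [← map_mul]; simp
  have e : θ (g * x * g⁻¹) - 1 = (θ g * (θ x - 1) * θ g⁻¹ - (θ x - 1)) + (θ x - 1) := by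
    rw [map_mul, map_mul, mul_sub, sub_mul, mul_one, e0]
    abel
  rw [e]
  exact S.add_mem h hx'

private theorem a2b_comm {F : ℕ → Subgroup G} {n k : ℕ} {L : Set R} {v0 u v : R}
    (S : AddSubgroup R) (hL : ∀ x ∈ L, x ∈ J θ F n) (hv0 : v0 ∈ J θ F k)
    (hS : J θ F (n + k + 1) ≤ S) (hc : ∀ x ∈ L, x * v0 - v0 * x ∈ S)
    (hu : u ∈ AddSubgroup.closure L ⊔ J θ F (n + 1))
    (hv : v ∈ AddSubgroup.closure {v0} ⊔ J θ F (k + 1)) : u * v - v * u ∈ S := by
  obtain ⟨u1, hu1, u2, hu2, rfl⟩ := AddSubgroup.mem_sup.1 hu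
  obtain ⟨v1, hv1, v2, hv2, rfl⟩ := AddSubgroup.mem_sup.1 hv
  rw [AddSubgroup.mem_closure_singleton] at hv1
  obtain ⟨c, rfl⟩ := hv1
  have hJ := J_rfilt θ F
  have hu1J : u1 ∈ J θ F n := (AddSubgroup.closure_le _).2 hL hu1
  have hv1J : c • v0 ∈ J θ F k := AddSubgroup.zsmul_mem _ hv0 c
  have hv2J : v2 ∈ J θ F k := hJ.anti k hv2
  have h1 : ∀ w ∈ AddSubgroup.closure L, w * (c • v0) - (c • v0) * w ∈ S := by
    intro w hw
    induction hw using AddSubgroup.closure_induction with
    | mem x hx =>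
      have e : x * (c • v0) - (c • v0) * x = c • (x * v0 - v0 * x) := by
        rw [smul_sub, mul_smul_comm, smul_mul_assoc]
      rw [e]
      exact S.zsmul_mem (hc x hx) c
    | zero => simp [S.zero_mem]
    | add x y hx hy ihx ihy =>
      have e : (x + y) * (c • v0) - (c • v0) * (x + y) =
          (x * (c • v0) - (c • v0) * x) + (y * (c • v0) - (c • v0) * y) := by
        rw [add_mul, mul_add]; abel
      rw [e]
      exact S.add_mem ihx ihy
    | neg x hx ihx =>
      have e : (-x) * (c • v0) - (c • v0) * (-x) = -(x * (c • v0) - (c • v0) * x) := by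
        rw [neg_mul, mul_neg]; abel
      rw [e]
      exact S.neg_mem ihx
  have h2 : u1 * v2 ∈ S := hS (by
    have := hJ.mul _ _ _ _ hu1J hv2
    rwa [← Nat.add_assoc] at this)
  have h3 : v2 * u1 ∈ S := hS (by
    have := hJ.mul _ _ _ _ hv2 hu1J
    have e : k + 1 + n = n + k + 1 := by ring
    rwa [e] at this)
  have h4 : u2 * (c • v0 + v2) ∈ S := hS (by
    have := hJ.mul _ _ _ _ hu2 (AddSubgroup.add_mem _ hv1J hv2J)
    have e : n + 1 + k = n + k + 1 := by ring
    rwa [e] at this)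
  have h5 : (c • v0 + v2) * u2 ∈ S := hS (by
    have := hJ.mul _ _ _ _ (AddSubgroup.add_mem _ hv1J hv2J) hu2
    have e : k + (n + 1) = n + k + 1 := by ring
    rwa [e] at this)
  have e : (u1 + u2) * (c • v0 + v2) - (c • v0 + v2) * (u1 + u2) =
      (u1 * (c • v0) - (c • v0) * u1) + u1 * v2 - v2 * u1 + u2 * (c • v0 + v2) -
        (c • v0 + v2) * u2 := by
    simp only [add_mul, mul_add]
    abel
  rw [e]
  exact S.sub_mem (S.add_mem (S.sub_mem (S.add_mem (h1 u1 hu1) h2) h3) h4) h5

/-- **(L)** The leading term of `θ g - 1`, for `g` of weight `m ≥ 1`, is a Lie polynomial in the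
letters. Let `S m` be the right hand side; it is an additive subgroup, so by `J_mul_mod`,
`J_inv_mod` the set of the `g ∈ wf m` with `θ g - 1 ∈ S m` is a subgroup, and by `J_conj_mod` it is
normal. Strong induction on `m`. For `m = 1`: `wf 1 = ⊤` is generated by the letters; a letter of
weight `1` is `lw _ i []`, a letter of weight `≥ 2` is in `J 2`. For `m ≥ 2` use `wf_eq`:
generators are the letters `b i` with `m ≤ wt i` (weight `m`: `lw _ i []`; weight `> m`: in
`J (m + 1)`) and the commutators `⁅y, z⁆` with `y ∈ wf (m - wt i)`, `z ∈ normalClosure {b i}`.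
For `z`: `θ z - 1 ∈ AddSubgroup.closure {θ (b i) - 1} ⊔ J (wt i + 1)` (same argument with
`J_mul_mod`, `J_inv_mod`, `J_conj_mod`; `normalClosure {b i} ≤ wf (wt i)`). By `J_comm_mod`
`θ ⁅y, z⁆ - 1` is, modulo `J (m + 1)`, the ring commutator of `θ y - 1` and `θ z - 1`, hence modulo
`J (m + 1)` a combination of ring commutators of Lie words `lw _ j l` of weight `m - wt i` with
`θ (b i) - 1`, which are the Lie words `lw _ j (i :: l)`. -/
theorem wf_lie (hwt : ∀ i, 1 ≤ wt i) (hb : closure (Set.range b) = ⊤) (m : ℕ) (hm : 1 ≤ m) (g : G)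
    (hg : g ∈ wf b wt m) :
    θ g - 1 ∈ AddSubgroup.closure {x : R | ∃ (i : ι) (l : List ι), wt i + (l.map wt).sum = m ∧
      x = lw (fun i => θ (b i) - 1) i l} ⊔ J θ (wf b wt) (m + 1) := by
  have hF : NSer (wf b wt) := wf_nser b hwt hb
  induction m using Nat.strong_induction_on generalizing g with
  | _ m ih =>
  set S : AddSubgroup R := AddSubgroup.closure {x : R | ∃ (i : ι) (l : List ι),
    wt i + (l.map wt).sum = m ∧ x = lw (fun i => θ (b i) - 1) i l} ⊔ J θ (wf b wt) (m + 1)
    with hSdef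
  have hS : J θ (wf b wt) (m + 1) ≤ S := le_sup_right
  have hletter : ∀ i, m ≤ wt i → b i ∈ a2bK θ (wf b wt) m hm S hS := by
    intro i hi
    refine ⟨a2b_wf_anti b hwt hi (wf_letter b hwt i), ?_⟩
    rcases Nat.eq_or_lt_of_le hi with h | h
    · refine AddSubgroup.mem_sup_left (AddSubgroup.subset_closure ⟨i, [], ?_, rfl⟩)
      simp [h]
    · exact hS (J_anti_le θ _ h (J_sub_one θ (wf_letter b hwt i)))
  have hKn : (a2bK θ (wf b wt) m hm S hS).Normal :=
    a2bK_normal θ hF m hm (wf_normal b wt m) S hS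
  suffices h : wf b wt m ≤ a2bK θ (wf b wt) m hm S hS from (h hg).2
  rcases Nat.eq_or_lt_of_le hm with h1 | h1
  · have e : wf b wt m = ⊤ := wf_le_one b wt (by omega)
    rw [e, ← hb, Subgroup.closure_le]
    rintro _ ⟨i, rfl⟩
    exact hletter i (by have := hwt i; omega)
  · conv_lhs => rw [wf_eq b hwt h1]
    refine iSup_le fun i => ?_
    split_ifs with hi
    · refine Subgroup.normalClosure_le_normal ?_
      rw [Set.singleton_subset_iff]
      exact hletter i hi
    · push Not at hi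
      have hwi := hwt i
      -- the elements of the normal closure
      set S' : AddSubgroup R := AddSubgroup.closure {θ (b i) - 1} ⊔ J θ (wf b wt) (wt i + 1)
      have hS' : J θ (wf b wt) (wt i + 1) ≤ S' := le_sup_right
      have hn : normalClosure {b i} ≤ a2bK θ (wf b wt) (wt i) hwi S' hS' := by
        have : (a2bK θ (wf b wt) (wt i) hwi S' hS').Normal :=
          a2bK_normal θ hF (wt i) hwi (wf_normal b wt (wt i)) S' hS'
        refine Subgroup.normalClosure_le_normal ?_
        rw [Set.singleton_subset_iff]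
        exact ⟨wf_letter b hwt i,
          AddSubgroup.mem_sup_left (AddSubgroup.subset_closure rfl)⟩
      rw [Subgroup.commutator_le]
      intro y hy z hz
      obtain ⟨hz1, hz2⟩ := hn hz
      have e0 : m - wt i + wt i = m := by omega
      refine ⟨?_, ?_⟩
      · have := hF.comm (m - wt i) (wt i) (commutator_mem_commutator hy hz1)
        rwa [e0] at this
      · have hcm := J_comm_mod θ hF hy hz1
        rw [e0] at hcm
        have hy' := ih (m - wt i) (by omega) (by omega) y hy
        have key := a2b_comm θ (F := wf b wt) (n := m - wt i) (k := wt i) (v0 := θ (b i) - 1) S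
          (by
            rintro x ⟨j, l, hjl, rfl⟩
            rw [← hjl]
            exact lw_mem θ b hwt j l)
          (J_sub_one θ (wf_letter b hwt i)) (by rw [e0]; exact hS)
          (by
            rintro x ⟨j, l, hjl, rfl⟩
            refine AddSubgroup.mem_sup_left (AddSubgroup.subset_closure ⟨j, i :: l, ?_, ?_⟩)
            · simp only [List.map_cons, List.sum_cons]
              omega
            · simp only [lw]) hy' hz2
        have e : θ ⁅y, z⁆ - 1 = (θ ⁅y, z⁆ - 1 - ((θ y - 1) * (θ z - 1) - (θ z - 1) * (θ y - 1))) +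
            ((θ y - 1) * (θ z - 1) - (θ z - 1) * (θ y - 1)) := by abel
        rw [e]
        exact S.add_mem (hS hcm) key

end Pool.Agent.Lib.H80F
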