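import Pool.Agent.Lib.H80F.A2b

/-!
# H80F, A2: words
-/

namespace Pool.Agent.Lib.H80F

open Subgroup
open scoped commutatorElement

variable {G R ι : Type} [Group G] [Ring R] (θ : G →* R) {b : ι → G} {wt : ι → ℕ}


/-- Words of weight `m`. -/
def a2cW (b : ι → G) (wt : ι → ℕ) (m : ℕ) : AddSubgroup R :=
  AddSubgroup.closure {x : R | ∃ l : List ι, (l.map wt).sum = m ∧
      x = (l.map (fun i => θ (b i) - 1)).prod}

theorem a2c_W_mul {m n : ℕ} {x y : R} (hx : x ∈ a2cW θ b wt m) (hy : y ∈ a2cW θ b wt n) :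
    x * y ∈ a2cW θ b wt (m + n) := by
  unfold a2cW at hx
  induction hx using AddSubgroup.closure_induction with
  | mem x hx =>
    obtain ⟨l, hl, rfl⟩ := hx
    unfold a2cW at hy
    induction hy using AddSubgroup.closure_induction with
    | mem y hy =>
      obtain ⟨l', hl', rfl⟩ := hy
      apply AddSubgroup.subset_closure
      exact ⟨l ++ l', by rw [List.map_append, List.sum_append, hl, hl'],
        by rw [List.map_append, List.prod_append]⟩
    | zero => rw [mul_zero]; exact AddSubgroup.zero_mem _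
    | add x y _ _ h1 h2 => rw [mul_add]; exact AddSubgroup.add_mem _ h1 h2
    | neg x _ h1 => rw [mul_neg]; exact AddSubgroup.neg_mem _ h1
  | zero => rw [zero_mul]; exact AddSubgroup.zero_mem _
  | add x y _ _ h1 h2 => rw [add_mul]; exact AddSubgroup.add_mem _ h1 h2
  | neg x _ h1 => rw [neg_mul]; exact AddSubgroup.neg_mem _ h1

theorem a2c_W_le (hwt : ∀ i, 1 ≤ wt i) (m : ℕ) : a2cW θ b wt m ≤ J θ (wf b wt) m := by
  unfold a2cW
  rw [AddSubgroup.closure_le]
  rintro x ⟨l, hl, rfl⟩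
  apply AddSubgroup.subset_closure
  refine ⟨l.map (fun i => (wt i, b i)), ?_, ?_, ?_⟩
  · intro q hq
    obtain ⟨i, _, rfl⟩ := List.mem_map.1 hq
    exact wf_letter b hwt i
  · rw [List.map_map, ← hl]; exact le_of_eq rfl
  · rw [List.map_map]; rfl

theorem a2c_letter (i : ι) : θ (b i) - 1 ∈ a2cW θ b wt (wt i) := by
  apply AddSubgroup.subset_closure
  exact ⟨[i], by simp, by simp⟩

theorem a2c_lw (i : ι) (l : List ι) :
    lw (fun i => θ (b i) - 1) i l ∈ a2cW θ b wt (wt i + (l.map wt).sum) := by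
  induction l with
  | nil => simpa [lw] using a2c_letter θ i
  | cons j l ih =>
    have e1 : wt i + ((j :: l).map wt).sum = (wt i + (l.map wt).sum) + wt j := by
      rw [List.map_cons, List.sum_cons]; omega
    rw [e1, lw]
    apply AddSubgroup.sub_mem
    · exact a2c_W_mul θ ih (a2c_letter θ j)
    · rw [add_comm]
      exact a2c_W_mul θ (a2c_letter θ j) ih

theorem a2c_elt (hwt : ∀ i, 1 ≤ wt i) (hb : closure (Set.range b) = ⊤) (m : ℕ) (g : G)
    (hg : g ∈ wf b wt m) : θ g - 1 ∈ a2cW θ b wt m ⊔ J θ (wf b wt) (m + 1) := by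
  rcases Nat.eq_zero_or_pos m with hm | hm
  · subst hm
    apply (le_sup_right : J θ (wf b wt) (0 + 1) ≤ _)
    apply J_sub_one
    rw [wf_le_one b wt (by omega)]; trivial
  · have h1 := wf_lie θ hwt hb m hm g hg
    have h3 : (AddSubgroup.closure {x : R | ∃ (i : ι) (l : List ι), wt i + (l.map wt).sum = m ∧
      x = lw (fun i => θ (b i) - 1) i l} ⊔ J θ (wf b wt) (m + 1)) ≤
      a2cW θ b wt m ⊔ J θ (wf b wt) (m + 1) := by
      refine sup_le ?_ le_sup_right
      rw [AddSubgroup.closure_le]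
      rintro x ⟨i, l, h2, rfl⟩
      apply (le_sup_left : a2cW θ b wt m ≤ _)
      rw [← h2]
      exact a2c_lw θ i l
    exact h3 h1

theorem a2c_B_mul (hwt : ∀ i, 1 ≤ wt i) {m n : ℕ} {x y : R}
    (hx : x ∈ a2cW θ b wt m ⊔ J θ (wf b wt) (m + 1))
    (hy : y ∈ a2cW θ b wt n ⊔ J θ (wf b wt) (n + 1)) :
    x * y ∈ a2cW θ b wt (m + n) ⊔ J θ (wf b wt) (m + n + 1) := by
  obtain ⟨x1, h1, x2, h2, rfl⟩ := AddSubgroup.mem_sup.1 hx
  obtain ⟨y1, h3, y2, h4, rfl⟩ := AddSubgroup.mem_sup.1 hy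
  have hJ := J_rfilt θ (wf b wt)
  have e : (x1 + x2) * (y1 + y2) = x1 * y1 + (x2 * y1 + (x1 + x2) * y2) := by noncomm_ring
  rw [e]
  apply AddSubgroup.add_mem
  · exact (le_sup_left : a2cW θ b wt (m + n) ≤ _) (a2c_W_mul θ h1 h3)
  · apply (le_sup_right : J θ (wf b wt) (m + n + 1) ≤ _)
    apply AddSubgroup.add_mem
    · have h5 := hJ.mul _ _ _ _ h2 (a2c_W_le θ hwt _ h3)
      exact J_anti_le θ _ (by omega) h5
    · have h6 : x1 + x2 ∈ J θ (wf b wt) m :=
        AddSubgroup.add_mem _ (a2c_W_le θ hwt _ h1) (J_anti_le θ _ (by omega) h2)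
      have h5 := hJ.mul _ _ _ _ h6 h4
      exact J_anti_le θ _ (by omega) h5

theorem a2c_list (hwt : ∀ i, 1 ≤ wt i) (hb : closure (Set.range b) = ⊤) (l : List (ℕ × G))
    (hl : ∀ q ∈ l, q.2 ∈ wf b wt q.1) : (l.map (fun q => θ q.2 - 1)).prod ∈
      a2cW θ b wt (l.map Prod.fst).sum ⊔ J θ (wf b wt) ((l.map Prod.fst).sum + 1) := by
  induction l with
  | nil =>
    apply (le_sup_left : a2cW θ b wt _ ≤ _)
    apply AddSubgroup.subset_closure
    exact ⟨[], by simp, by simp⟩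
  | cons q l ih =>
    simp only [List.map_cons, List.prod_cons, List.sum_cons]
    apply a2c_B_mul θ hwt
    · exact a2c_elt θ hwt hb _ _ (hl q (by simp))
    · exact ih (fun r hr => hl r (by simp [hr]))

theorem a2c_B_anti (hwt : ∀ i, 1 ≤ wt i) {m n : ℕ} (h : m ≤ n) :
    a2cW θ b wt n ⊔ J θ (wf b wt) (n + 1) ≤ a2cW θ b wt m ⊔ J θ (wf b wt) (m + 1) := by
  rcases Nat.eq_or_lt_of_le h with h1 | h1
  · rw [h1]
  · apply sup_le
    · exact le_trans (a2c_W_le θ hwt n) (le_trans (J_anti_le θ _ h1) le_sup_right)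
    · exact le_trans (J_anti_le θ _ (by omega)) le_sup_right

/-- `J m` is spanned by the words in the letters of weight `m`, modulo `J (m + 1)`. Take a
generator `∏ (θ g_q - 1)` with weights `w_q`, `∑ w_q ≥ m`. If `∑ w_q ≥ m + 1` it is in `J (m + 1)`;
if some `w_q = 0` then `g_q ∈ wf 0 = ⊤ = wf 1` and the product is in `J (m + 1)` too. Otherwise
replace each factor by (L), and expand: the Lie words are combinations of words of the same
weight. -/
theorem J_words (hwt : ∀ i, 1 ≤ wt i) (hb : closure (Set.range b) = ⊤) (m : ℕ) :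
    J θ (wf b wt) m ≤ AddSubgroup.closure {x : R | ∃ l : List ι, (l.map wt).sum = m ∧
      x = (l.map (fun i => θ (b i) - 1)).prod} ⊔ J θ (wf b wt) (m + 1) := by
  show J θ (wf b wt) m ≤ a2cW θ b wt m ⊔ J θ (wf b wt) (m + 1)
  unfold J
  rw [AddSubgroup.closure_le]
  rintro x ⟨l, hl, hm, rfl⟩
  exact a2c_B_anti θ hwt hm (a2c_list θ hwt hb l hl)

end Pool.Agent.Lib.H80F
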