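import Pool.Agent.Lib.H80F.A2b

/-!
# H80F, A2: large weight means many factors
-/

namespace Pool.Agent.Lib.H80F

open Subgroup
open scoped commutatorElement

variable {G R ι : Type} [Group G] [Ring R] (θ : G →* R) {b : ι → G} {wt : ι → ℕ}

/-- The span of the products of at least `a` factors. -/
def a2dI (a : ℕ) : AddSubgroup R := AddSubgroup.closure {x : R | ∃ l : List G, a ≤ l.length ∧
      x = (l.map (fun g => θ g - 1)).prod}

theorem a2d_mul {a a' : ℕ} {x y : R} (hx : x ∈ a2dI θ a) (hy : y ∈ a2dI θ a') :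
    x * y ∈ a2dI θ (a + a') := by
  refine AddSubgroup.closure_induction (p := fun x _ => x * y ∈ a2dI θ (a + a')) ?_ ?_ ?_ ?_ hx
  · rintro _ ⟨l, hl, rfl⟩
    refine AddSubgroup.closure_induction
      (p := fun y _ => (l.map (fun g => θ g - 1)).prod * y ∈ a2dI θ (a + a')) ?_ ?_ ?_ ?_ hy
    · rintro _ ⟨l', hl', rfl⟩
      apply AddSubgroup.subset_closure
      refine ⟨l ++ l', ?_, ?_⟩
      · rw [List.length_append]; omega
      · rw [List.map_append, List.prod_append]
    · rw [mul_zero]; exact zero_mem _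
    · intro x y _ _ h1 h2; rw [mul_add]; exact add_mem h1 h2
    · intro x _ h1; rw [mul_neg]; exact neg_mem h1
  · rw [zero_mul]; exact zero_mem _
  · intro x y _ _ h1 h2; rw [add_mul]; exact add_mem h1 h2
  · intro x _ h1; rw [neg_mul]; exact neg_mem h1

theorem a2d_anti {a a' : ℕ} (h : a ≤ a') : a2dI θ a' ≤ a2dI θ a := by
  apply AddSubgroup.closure_mono
  rintro _ ⟨l, hl, rfl⟩
  exact ⟨l, h.trans hl, rfl⟩

theorem a2d_one (g : G) : θ g - 1 ∈ a2dI θ 1 :=
  AddSubgroup.subset_closure ⟨[g], by simp, by simp⟩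

theorem a2d_one_mem : (1 : R) ∈ a2dI θ 0 :=
  AddSubgroup.subset_closure ⟨[], by simp, by simp⟩

theorem a2d_zero (g : G) : θ g ∈ a2dI θ 0 := by
  have h1 := add_mem (a2d_anti θ (Nat.zero_le 1) (a2d_one θ g)) (a2d_one_mem θ)
  rwa [sub_add_cancel] at h1

theorem a2d_ml {a : ℕ} {x : R} (hx : x ∈ a2dI θ a) (g : G) : θ g * x ∈ a2dI θ a := by
  have := a2d_mul θ (a2d_zero θ g) hx
  rwa [zero_add] at this

theorem a2d_mr {a : ℕ} {x : R} (hx : x ∈ a2dI θ a) (g : G) : x * θ g ∈ a2dI θ a := by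
  have := a2d_mul θ hx (a2d_zero θ g)
  rwa [add_zero] at this

theorem a2d_inv (g : G) : θ g * θ g⁻¹ = 1 := by rw [← map_mul, mul_inv_cancel, map_one]

/-- The group elements `g` with `θ g - 1` in the span of the products of `a` factors. -/
def a2dN (a : ℕ) : Subgroup G where
  carrier := {g | θ g - 1 ∈ a2dI θ a}
  one_mem' := by
    show θ 1 - 1 ∈ a2dI θ a
    rw [map_one, sub_self]; exact zero_mem _
  mul_mem' := by
    intro g h hg hh
    show θ (g * h) - 1 ∈ a2dI θ a
    have e : θ (g * h) - 1 = (θ g - 1) * θ h + (θ h - 1) := by rw [map_mul]; noncomm_ring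
    rw [e]
    exact add_mem (a2d_mr θ hg h) hh
  inv_mem' := by
    intro g hg
    show θ g⁻¹ - 1 ∈ a2dI θ a
    have e : θ g⁻¹ - 1 = -((θ g - 1) * θ g⁻¹) := by
      rw [sub_mul, a2d_inv, one_mul, neg_sub]
    rw [e]
    exact neg_mem (a2d_mr θ hg g⁻¹)

theorem a2dN_mem {a : ℕ} {g : G} : g ∈ a2dN θ a ↔ θ g - 1 ∈ a2dI θ a := Iff.rfl

theorem a2dN_normal (a : ℕ) : (a2dN θ a).Normal := by
  constructor
  intro g hg h
  rw [a2dN_mem] at hg ⊢
  have e : θ (h * g * h⁻¹) - 1 = θ h * (θ g - 1) * θ h⁻¹ := by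
    rw [mul_sub, mul_one, sub_mul, a2d_inv, map_mul, map_mul]
  rw [e]
  exact a2d_mr θ (a2d_ml θ hg h) h⁻¹

theorem a2d_key (hwt : ∀ i, 1 ≤ wt i) (W : ℕ) (hW : ∀ i, wt i ≤ W) (hW1 : 1 ≤ W) (m : ℕ) :
    ∀ a, a * W < m + W → wf b wt m ≤ a2dN θ a := by
  induction m using Nat.strong_induction_on with
  | _ m ih =>
    intro a ha
    rcases Nat.lt_or_ge a 2 with ha2 | ha2
    · intro g _
      exact a2d_anti θ (show a ≤ 1 by omega) (a2d_one θ g)
    · obtain ⟨a', rfl⟩ : ∃ a', a = a' + 1 := ⟨a - 1, by omega⟩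
      have h1 : a' * W < m := by
        have : (a' + 1) * W = a' * W + W := by ring
        omega
      have h2 : W ≤ a' * W := Nat.le_mul_of_pos_left W (by omega)
      rw [wf_eq b hwt (by omega)]
      apply iSup_le
      intro i
      have h3 := hwt i
      have h4 := hW i
      rw [if_neg (by omega)]
      rw [Subgroup.commutator_le]
      intro y hy z _
      rw [a2dN_mem]
      have h5 : θ y - 1 ∈ a2dI θ a' := ih (m - wt i) (by omega) a' (by omega) hy
      have h6 := a2d_one θ z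
      have e : θ ⁅y, z⁆ - 1 = ((θ y - 1) * (θ z - 1) - (θ z - 1) * (θ y - 1)) * θ (z * y)⁻¹ := by
        have e1 : (θ y - 1) * (θ z - 1) - (θ z - 1) * (θ y - 1) = θ (y * z) - θ (z * y) := by
          rw [map_mul, map_mul]; noncomm_ring
        rw [e1, sub_mul, a2d_inv, ← map_mul]
        congr 2
        rw [commutatorElement_def]
        group
      rw [e]
      apply a2d_mr
      apply sub_mem
      · exact a2d_mul θ h5 h6
      · rw [add_comm]; exact a2d_mul θ h6 h5

/-- Large weight means many factors. Let `I a` be the additive subgroup spanned by the products of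
at least `a` elements `θ g - 1` (closed under products: `I a * I a' ≤ I (a + a')`; and
`θ g ∈ I 0`). Claim: for `g ∈ wf m` with `m ≥ 1` and `a * W < m + W` (that is `a ≤ ⌈m / W⌉`),
`θ g - 1 ∈ I a` (strong induction on `m`: for `m ≤ 1` take `a ≤ 1`; the set of `g` with
`θ g - 1 ∈ I a` is a normal subgroup for `a ≥ 1`; if `m ≤ wt i ≤ W` then `a ≤ 1`; for
`⁅y, z⁆`, `y ∈ wf (m - wt i)`, we have `θ y - 1 ∈ I (a - 1)`, `θ z - 1 ∈ I 1` and
`θ ⁅y, z⁆ - 1 = ((θ y - 1) (θ z - 1) - (θ z - 1) (θ y - 1)) θ (z y)⁻¹`). Then a product with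
`∑ w_q ≥ N W` is in `I N` (factors of weight `0` are in `I 1 ≤ I 0`). -/
theorem J_deep (hwt : ∀ i, 1 ≤ wt i) (W : ℕ) (hW : ∀ i, wt i ≤ W) (hW1 : 1 ≤ W)
    (hb : closure (Set.range b) = ⊤) (N : ℕ) :
    J θ (wf b wt) (N * W) ≤ AddSubgroup.closure {x : R | ∃ l : List G, N ≤ l.length ∧
      x = (l.map (fun g => θ g - 1)).prod} := by
  change J θ (wf b wt) (N * W) ≤ a2dI θ N
  unfold J
  rw [AddSubgroup.closure_le]
  rintro _ ⟨l, hl, hs, rfl⟩
  have key : ∀ l : List (ℕ × G), (∀ q ∈ l, q.2 ∈ wf b wt q.1) →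
      ∃ a : ℕ, (l.map Prod.fst).sum ≤ a * W ∧ (l.map (fun q => θ q.2 - 1)).prod ∈ a2dI θ a := by
    intro l
    induction l with
    | nil => intro _; exact ⟨0, by simp, by simpa using a2d_one_mem θ⟩
    | cons q l ih =>
      intro h
      obtain ⟨a, ha, hm⟩ := ih (fun q hq => h q (List.mem_cons_of_mem _ hq))
      have h1 : (q.1 + W - 1) / W * W ≤ q.1 + W - 1 := Nat.div_mul_le_self _ _
      have h2 : q.1 + W - 1 < (q.1 + W - 1) / W * W + W := Nat.lt_div_mul_add (by omega)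
      refine ⟨(q.1 + W - 1) / W + a, ?_, ?_⟩
      · rw [List.map_cons, List.sum_cons, add_mul]
        omega
      · rw [List.map_cons, List.prod_cons]
        apply a2d_mul
        · exact a2d_key θ hwt W hW hW1 q.1 _ (by omega) (h q List.mem_cons_self)
        · exact hm
  obtain ⟨a, ha, hm⟩ := key l hl
  apply a2d_anti θ _ hm
  exact Nat.le_of_mul_le_mul_right (hs.trans ha) (by omega)

end Pool.Agent.Lib.H80F
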