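import Pool.Agent.Lib.H80F.A2a

/-!
# H80F, A3: restriction, derivations, cyclic groups
-/

namespace Pool.Agent.Lib.H80F

open Subgroup
open scoped commutatorElement

variable {G : Type} [Group G]


theorem resF_nser {F : ℕ → Subgroup G} (hF : NSer F) (H : Subgroup G) : NSer (resF F H) := by
  refine ⟨?_, ?_, ?_, ?_⟩
  · unfold resF
    rw [hF.zero]
    exact Subgroup.top_subgroupOf H
  · unfold resF
    rw [hF.one]
    exact Subgroup.top_subgroupOf H
  · intro i x hx
    unfold resF at hx ⊢
    rw [Subgroup.mem_subgroupOf] at hx ⊢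
    exact hF.anti i hx
  · intro i j
    rw [Subgroup.commutator_le]
    intro a ha b hb
    unfold resF at ha hb ⊢
    rw [Subgroup.mem_subgroupOf] at ha hb ⊢
    exact hF.comm i j (Subgroup.commutator_mem_commutator ha hb)

/-- The map `g ↦ 1 + t g ε` to the dual numbers. -/
def a3dual {p : ℕ} (t : G →* Multiplicative (ZMod p)) : G →* TrivSqZeroExt (ZMod p) (ZMod p) where
  toFun g := TrivSqZeroExt.inl 1 + TrivSqZeroExt.inr (Multiplicative.toAdd (t g))
  map_one' := by
    rw [map_one, toAdd_one, TrivSqZeroExt.inr_zero, add_zero, TrivSqZeroExt.inl_one]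
  map_mul' a b := by
    ext
    · simp
    · simp [add_comm]

/-- Let `t : G → ZMod p` be additive. The linear map `kG → k` with `g ↦ t g` vanishes on products
of at least two factors `g - 1` (it is a derivation: `Φ (x y) = Φ x · ε y + ε x · Φ y` with the
augmentation `ε`). -/
theorem der_vanish {p : ℕ} (t : G →* Multiplicative (ZMod p)) (l : List G) (hl : 2 ≤ l.length) :
    lext p (fun g => Multiplicative.toAdd (t g)) (l.map (fun g => th p G g - 1)).prod = 0 := by
  classical
  set D : MonoidAlgebra (ZMod p) G →ₐ[ZMod p] TrivSqZeroExt (ZMod p) (ZMod p) :=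
    MonoidAlgebra.lift (ZMod p) (TrivSqZeroExt (ZMod p) (ZMod p)) G (a3dual t) with hD
  have hDof : ∀ g : G, D (th p G g) = a3dual t g := by
    intro g
    rw [hD]
    exact MonoidAlgebra.lift_of (a3dual t) g
  have h1 : ∀ x : MonoidAlgebra (ZMod p) G,
      lext p (fun g => Multiplicative.toAdd (t g)) x = TrivSqZeroExt.snd (D x) := by
    intro x
    have h2 : lext p (fun g => Multiplicative.toAdd (t g)) =
        (TrivSqZeroExt.sndHom (ZMod p) (ZMod p)) ∘ₗ D.toLinearMap := by
      apply MonoidAlgebra.lhom_ext'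
      intro g
      ext
      simp only [LinearMap.coe_comp, Function.comp_apply, MonoidAlgebra.lsingle_apply]
      have h3 := lext_of (p := p) (fun g => Multiplicative.toAdd (t g)) g
      have h4 := hDof g
      rw [MonoidAlgebra.of_apply] at h3 h4
      rw [h3]
      show _ = TrivSqZeroExt.snd (D (MonoidAlgebra.single g 1))
      rw [h4]
      simp [a3dual]
    rw [h2]; rfl
  rw [h1, map_list_prod, List.map_map]
  have h5 : (⇑D ∘ fun g => th p G g - 1) = fun g =>
      (TrivSqZeroExt.inr (Multiplicative.toAdd (t g)) : TrivSqZeroExt (ZMod p) (ZMod p)) := by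
    funext g
    simp only [Function.comp_apply, map_sub, map_one, hDof]
    ext
    · simp [a3dual]
    · simp [a3dual]
  rw [h5]
  match l, hl with
  | a :: b :: l, _ =>
    rw [List.map_cons, List.map_cons, List.prod_cons, List.prod_cons, ← mul_assoc,
      TrivSqZeroExt.inr_mul_inr, zero_mul, TrivSqZeroExt.snd_zero]

/-- The induction start: `G` is generated by `c`, of order `p`. Choose `t : G → ZMod p` with
`t c = 1` and `Φ g = t g`. A generator of `J (k + 1)`: if some `w_q ≥ k + 1` then `g_q = 1` and the
product is `0`; hence all `w_q ≤ k`, so there are at least two factors, and `der_vanish`. -/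
theorem lemmaS_base {p : ℕ} [hp : Fact p.Prime] {F : ℕ → Subgroup G} (hF : NSer F) {c : G} {k : ℕ}
    (hk : F (k + 1) = ⊥) (hc : c ≠ 1) (hcp : c ^ p = 1) (hgen : zpowers c = ⊤) :
    ∃ Φ : MonoidAlgebra (ZMod p) G →ₗ[ZMod p] ZMod p, (∀ x ∈ J (th p G) F (k + 1), Φ x = 0) ∧
      Φ (th p G c - 1) = 1 := by
  have hord : orderOf c = p := orderOf_eq_prime hcp hc
  have hsurj : Function.Surjective (zpowersHom G c) := by
    intro g
    have hg : g ∈ zpowers c := by rw [hgen]; trivial
    obtain ⟨n, hn⟩ := Subgroup.mem_zpowers_iff.1 hg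
    exact ⟨Multiplicative.ofAdd n, by simpa using hn⟩
  set φ : Multiplicative ℤ →* Multiplicative (ZMod p) :=
    AddMonoidHom.toMultiplicative (Int.castAddHom (ZMod p)) with hφ
  have hker : (zpowersHom G c).ker ≤ φ.ker := by
    intro n hn
    rw [MonoidHom.mem_ker] at hn ⊢
    have h1 : c ^ (Multiplicative.toAdd n) = 1 := by simpa using hn
    have h2 : (p : ℤ) ∣ Multiplicative.toAdd n := by
      rw [← hord]; exact orderOf_dvd_iff_zpow_eq_one.2 h1
    have h3 : ((Multiplicative.toAdd n : ℤ) : ZMod p) = 0 := (ZMod.intCast_zmod_eq_zero_iff_dvd _ _).2 h2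
    show Multiplicative.ofAdd ((Multiplicative.toAdd n : ℤ) : ZMod p) = 1
    rw [h3]; rfl
  set t : G →* Multiplicative (ZMod p) := (zpowersHom G c).liftOfSurjective hsurj ⟨φ, hker⟩ with ht
  have htc : Multiplicative.toAdd (t c) = 1 := by
    have h1 : c = zpowersHom G c (Multiplicative.ofAdd 1) := by simp
    have h2 : t (zpowersHom G c (Multiplicative.ofAdd 1)) = φ (Multiplicative.ofAdd 1) :=
      MonoidHom.liftOfRightInverse_comp_apply _ _ _ ⟨φ, hker⟩ _
    rw [← h1] at h2
    rw [h2]
    show ((1 : ℤ) : ZMod p) = 1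
    simp
  have hanti : ∀ m n : ℕ, m ≤ n → F n ≤ F m := by
    intro m n hmn
    induction hmn with
    | refl => exact le_rfl
    | step _ ih => exact (hF.anti _).trans ih
  refine ⟨lext p (fun g => Multiplicative.toAdd (t g)), ?_, ?_⟩
  · intro x hx
    unfold J at hx
    induction hx using AddSubgroup.closure_induction with
    | mem y hy =>
      obtain ⟨l, hl, hsum, rfl⟩ := hy
      by_cases hbig : ∃ q ∈ l, k + 1 ≤ q.1
      · obtain ⟨q, hq, hq1⟩ := hbig
        have h1 : q.2 ∈ F (k + 1) := hanti _ _ hq1 (hl q hq)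
        rw [hk, Subgroup.mem_bot] at h1
        have h2 : (0 : MonoidAlgebra (ZMod p) G) ∈ l.map (fun q => th p G q.2 - 1) :=
          List.mem_map.2 ⟨q, hq, by rw [h1, map_one, sub_self]⟩
        rw [List.prod_eq_zero h2, map_zero]
      · push Not at hbig
        have hlen : 2 ≤ l.length := by
          match l, hl, hsum, hbig with
          | [], _, hsum, _ => simp at hsum
          | [q], _, hsum, hbig =>
            have := hbig q (by simp)
            simp at hsum
            omega
          | _ :: _ :: _, _, _, _ => simp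
        have h3 := der_vanish t (l.map Prod.snd) (by rwa [List.length_map])
        rw [List.map_map] at h3
        exact h3
    | zero => exact map_zero _
    | add y z _ _ hy hz => rw [map_add, hy, hz, add_zero]
    | neg y _ hy => rw [map_neg, hy, neg_zero]
  · rw [map_sub]
    have h1 := lext_of (p := p) (fun g => Multiplicative.toAdd (t g)) c
    have h2 := lext_of (p := p) (fun g => Multiplicative.toAdd (t g)) (1 : G)
    rw [map_one] at h2
    show lext p (fun g => Multiplicative.toAdd (t g)) (MonoidAlgebra.of (ZMod p) G c) - _ = 1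
    rw [h1, h2, htc, map_one, toAdd_one, sub_zero]

end Pool.Agent.Lib.H80F
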