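import Pool.Agent.Lib.H80F.A2a

/-!
# H80F, A3: the subspaces `Kb`
-/

namespace Pool.Agent.Lib.H80F

open Subgroup
open scoped commutatorElement

variable {G : Type} [Group G]


theorem Kb_anti (p : ℕ) (F : ℕ → Subgroup G) (H : Subgroup G) (g : G) (i₀ b m : ℕ) :
    Kb p F H g i₀ b (m + 1) ≤ Kb p F H g i₀ b m := by
  unfold Kb
  apply iSup_mono
  intro j
  apply AddSubgroup.map_mono
  apply J_anti_le
  omega

theorem a3b_anti_le (p : ℕ) (F : ℕ → Subgroup G) (H : Subgroup G) (g : G) (i₀ b : ℕ) {m n : ℕ}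
    (h : m ≤ n) : Kb p F H g i₀ b n ≤ Kb p F H g i₀ b m := by
  have h1 : Antitone (fun m => Kb p F H g i₀ b m) :=
    antitone_nat_of_succ_le (fun m => Kb_anti p F H g i₀ b m)
  exact h1 h

theorem Kb_mono (p : ℕ) (F : ℕ → Subgroup G) (H : Subgroup G) (g : G) (i₀ b m : ℕ) :
    Kb p F H g i₀ b m ≤ Kb p F H g i₀ (b + 1) m := by
  unfold Kb
  apply iSup_le
  intro j
  exact le_iSup (fun j : Fin (b + 1 + 1) => (J ((th p G).comp H.subtype) (resF F H)
    (m - j * i₀)).map (AddMonoidHom.mulLeft ((th p G g - 1) ^ (j : ℕ)))) j.castSucc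

/-- The terms. -/
theorem a3b_mem (p : ℕ) (F : ℕ → Subgroup G) (H : Subgroup G) (g : G) (i₀ b m j : ℕ) (hj : j ≤ b)
    {y : MonoidAlgebra (ZMod p) G} (hy : y ∈ J ((th p G).comp H.subtype) (resF F H) (m - j * i₀)) :
    (th p G g - 1) ^ j * y ∈ Kb p F H g i₀ b m := by
  unfold Kb
  exact AddSubgroup.mem_iSup_of_mem (⟨j, Nat.lt_succ_of_le hj⟩ : Fin (b + 1))
    (AddSubgroup.mem_map_of_mem _ hy)

/-- Induction on the terms. -/
theorem a3b_ind {p : ℕ} {F : ℕ → Subgroup G} {H : Subgroup G} {g : G} {i₀ b m : ℕ}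
    {L : MonoidAlgebra (ZMod p) G →+ MonoidAlgebra (ZMod p) G}
    {S : AddSubgroup (MonoidAlgebra (ZMod p) G)}
    (h : ∀ j ≤ b, ∀ y ∈ J ((th p G).comp H.subtype) (resF F H) (m - j * i₀),
      L ((th p G g - 1) ^ j * y) ∈ S) {x : MonoidAlgebra (ZMod p) G}
    (hx : x ∈ Kb p F H g i₀ b m) : L x ∈ S := by
  have h1 : Kb p F H g i₀ b m ≤ S.comap L := by
    unfold Kb
    apply iSup_le
    intro j
    rintro _ ⟨y, hy, rfl⟩
    exact h j (Nat.le_of_lt_succ j.2) y hy
  exact h1 hx

/-- `(g - 1) · K b m ≤ K (b + 1) (m + i₀)`. -/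
theorem Kb_mul_g (p : ℕ) (F : ℕ → Subgroup G) (H : Subgroup G) (g : G) (i₀ b m : ℕ)
    {x : MonoidAlgebra (ZMod p) G} (hx : x ∈ Kb p F H g i₀ b m) :
    (th p G g - 1) * x ∈ Kb p F H g i₀ (b + 1) (m + i₀) := by
  refine a3b_ind (L := AddMonoidHom.mulLeft (th p G g - 1)) ?_ hx
  intro j hj y hy
  show (th p G g - 1) * ((th p G g - 1) ^ j * y) ∈ _
  rw [← mul_assoc, ← pow_succ']
  apply a3b_mem p F H g i₀ (b + 1) (m + i₀) (j + 1) (by omega)
  have e : m + i₀ - (j + 1) * i₀ = m - j * i₀ := by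
    rw [add_mul, one_mul]
    omega
  rw [e]
  exact hy

/-- For `h ∈ H` of weight `w`: `(h - 1) · K b m ≤ K b (m + w)`, by induction on `b`, for all `h`,
`w`, `m` at once. `b = 0`: `J₁` is closed under products. Step: it is enough to treat
`(g - 1) ^ (b + 1) x`, `x ∈ J₁ (m - (b + 1) i₀)`; write it as `(g - 1) X` with
`X = (g - 1) ^ b x ∈ K b (m - i₀)` (truncated subtraction: if `m < i₀` then `X ∈ K b 0` and the
claim has to be shown with `m - i₀ = 0`, which is stronger than needed after `Kb_anti`). Now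
`(h - 1) (g - 1) X = (g - 1) (h - 1) X + g h (q - 1) X` with `q = (g h)⁻¹ h g = ⁅h⁻¹, g⁻¹⁆`,
which lies in `H` and in `F (w + i₀)`. By the induction hypothesis `(h - 1) X ∈ K b (m - i₀ + w)`
and `(g - 1) (h - 1) X ∈ K (b + 1) (m - i₀ + w + i₀)`; and `(q - 1) X ∈ K b (m - i₀ + w + i₀)`,
`h · = 1 · + (h - 1) ·` and `g · = 1 · + (g - 1) ·` keep it in `K (b + 1) (m - i₀ + w + i₀)`. -/
theorem Kb_mul_H {p : ℕ} {F : ℕ → Subgroup G} (hF : NSer F) (H : Subgroup G) [H.Normal] {g : G}
    {i₀ : ℕ} (hg : g ∈ F i₀) (b : ℕ) : ∀ (m w : ℕ) (h : G), h ∈ H → h ∈ F w →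
      ∀ x ∈ Kb p F H g i₀ b m, (th p G h - 1) * x ∈ Kb p F H g i₀ b (m + w) := by
  have base : ∀ (b m w : ℕ) (h : G), h ∈ H → h ∈ F w →
      ∀ y ∈ J ((th p G).comp H.subtype) (resF F H) (m - 0 * i₀),
        (th p G h - 1) * ((th p G g - 1) ^ 0 * y) ∈ Kb p F H g i₀ b (m + w) := by
    intro b m w h hh hw y hy
    have h1 : (th p G h - 1) * y ∈ J ((th p G).comp H.subtype) (resF F H) (w + (m - 0 * i₀)) := by
      apply (J_rfilt ((th p G).comp H.subtype) (resF F H)).mul
      · have h2 : (⟨h, hh⟩ : H) ∈ resF F H w := by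
          unfold resF
          rw [Subgroup.mem_subgroupOf]
          exact hw
        exact J_sub_one ((th p G).comp H.subtype) h2
      · exact hy
    have h3 := a3b_mem p F H g i₀ b (m + w) 0 (Nat.zero_le _)
      (y := (th p G h - 1) * y) (by
        have e : m + w - 0 * i₀ = w + (m - 0 * i₀) := by omega
        rw [e]
        exact h1)
    rw [pow_zero, one_mul] at h3 ⊢
    exact h3
  induction b with
  | zero =>
    intro m w h hh hw x hx
    refine a3b_ind (L := AddMonoidHom.mulLeft (th p G h - 1)) ?_ hx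
    intro j hj y hy
    obtain rfl : j = 0 := by omega
    exact base 0 m w h hh hw y hy
  | succ b ih =>
    intro m w h hh hw x hx
    refine a3b_ind (L := AddMonoidHom.mulLeft (th p G h - 1)) ?_ hx
    intro j hj y hy
    rcases j with _ | j
    · exact base (b + 1) m w h hh hw y hy
    · show (th p G h - 1) * ((th p G g - 1) ^ (j + 1) * y) ∈ _
      have hX : (th p G g - 1) ^ j * y ∈ Kb p F H g i₀ b (m - i₀) := by
        apply a3b_mem p F H g i₀ b (m - i₀) j (by omega)
        have e : m - i₀ - j * i₀ = m - (j + 1) * i₀ := by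
          rw [add_mul, one_mul]
          omega
        rw [e]
        exact hy
      obtain ⟨X, hXe⟩ : ∃ X, X = (th p G g - 1) ^ j * y := ⟨_, rfl⟩
      rw [← hXe] at hX
      have e1 : (th p G g - 1) ^ (j + 1) * y = (th p G g - 1) * X := by
        rw [pow_succ', mul_assoc, hXe]
      rw [e1]
      -- the commutator
      have hqH : ⁅h⁻¹, g⁻¹⁆ ∈ H := by
        have h1 : g⁻¹ * h * g⁻¹⁻¹ ∈ H := Subgroup.Normal.conj_mem inferInstance h hh g⁻¹
        have h2 : ⁅h⁻¹, g⁻¹⁆ = h⁻¹ * (g⁻¹ * h * g⁻¹⁻¹) := by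
          rw [commutatorElement_def]
          group
        rw [h2]
        exact H.mul_mem (H.inv_mem hh) h1
      have hqF : ⁅h⁻¹, g⁻¹⁆ ∈ F (w + i₀) :=
        hF.comm w i₀ (commutator_mem_commutator ((F w).inv_mem hw) ((F i₀).inv_mem hg))
      obtain ⟨q, hq⟩ : ∃ q, q = ⁅h⁻¹, g⁻¹⁆ := ⟨_, rfl⟩
      rw [← hq] at hqH hqF
      have e2 : h * g = g * h * q := by
        rw [hq, commutatorElement_def]
        group
      have e3 : th p G h * th p G g = th p G g * th p G h * th p G q := by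
        rw [← map_mul, ← map_mul, ← map_mul, e2]
      have e4 : (th p G h - 1) * ((th p G g - 1) * X) =
          (th p G g - 1) * ((th p G h - 1) * X) +
            th p G g * (th p G h * ((th p G q - 1) * X)) := by
        have e5 : (th p G h - 1) * ((th p G g - 1) * X) - (th p G g - 1) * ((th p G h - 1) * X) =
            (th p G h * th p G g) * X - (th p G g * th p G h) * X := by noncomm_ring
        rw [e3] at e5
        rw [sub_eq_iff_eq_add] at e5
        rw [e5]
        noncomm_ring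
      rw [e4]
      have k1 := ih (m - i₀) w h hh hw X hX
      have k2 := Kb_mul_g p F H g i₀ b (m - i₀ + w) k1
      have k3 := ih (m - i₀) (w + i₀) q hqH hqF X hX
      have k4 : th p G h * ((th p G q - 1) * X) ∈ Kb p F H g i₀ b (m - i₀ + (w + i₀)) := by
        have e5 : th p G h * ((th p G q - 1) * X) =
            (th p G q - 1) * X + (th p G h - 1) * ((th p G q - 1) * X) := by noncomm_ring
        rw [e5]
        refine add_mem k3 ?_
        exact a3b_anti_le p F H g i₀ b (Nat.le_add_right _ _)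
          (ih (m - i₀ + (w + i₀)) w h hh hw _ k3)
      have k5 : th p G g * (th p G h * ((th p G q - 1) * X)) ∈
          Kb p F H g i₀ (b + 1) (m - i₀ + (w + i₀)) := by
        have e5 : th p G g * (th p G h * ((th p G q - 1) * X)) =
            th p G h * ((th p G q - 1) * X) +
              (th p G g - 1) * (th p G h * ((th p G q - 1) * X)) := by noncomm_ring
        rw [e5]
        refine add_mem (Kb_mono p F H g i₀ b _ k4) ?_
        exact a3b_anti_le p F H g i₀ (b + 1) (Nat.le_add_right _ _)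
          (Kb_mul_g p F H g i₀ b _ k4)
      refine add_mem ?_ ?_
      · exact a3b_anti_le p F H g i₀ (b + 1) (by omega) k2
      · exact a3b_anti_le p F H g i₀ (b + 1) (by omega) k5

end Pool.Agent.Lib.H80F
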