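import Pool.Agent.Lib.H80F.A3b

/-!
# H80F, A3: the whole filtration
-/

namespace Pool.Agent.Lib.H80F

open Subgroup
open scoped commutatorElement

variable {G : Type} [Group G]


/-- With `g ^ p ∈ H ⊓ F (p i₀)` the space `K (p - 1)` is stable under `g - 1`: the only new case is
`(g - 1) ^ p x = (g ^ p - 1) x`, `x ∈ J₁ (m - (p - 1) i₀)`, `(g ^ p - 1) x ∈ J₁ (m + i₀)`. -/
theorem Kb_stable_g {p : ℕ} [hp : Fact p.Prime] {F : ℕ → Subgroup G} (hF : NSer F)
    (H : Subgroup G) [H.Normal] {g : G} {i₀ : ℕ} (hg : g ∈ F i₀) (hgp : g ^ p ∈ H)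
    (hgp' : g ^ p ∈ F (p * i₀)) (m : ℕ) {x : MonoidAlgebra (ZMod p) G}
    (hx : x ∈ Kb p F H g i₀ (p - 1) m) :
    (th p G g - 1) * x ∈ Kb p F H g i₀ (p - 1) (m + i₀) := by
  have hp1 : 1 ≤ p := hp.out.one_lt.le
  refine a3b_ind (L := AddMonoidHom.mulLeft (th p G g - 1)) ?_ hx
  intro j hj y hy
  show (th p G g - 1) * ((th p G g - 1) ^ j * y) ∈ _
  rw [← mul_assoc, ← pow_succ']
  rcases Nat.lt_or_ge j (p - 1) with h | h
  · apply a3b_mem p F H g i₀ (p - 1) (m + i₀) (j + 1) (by omega)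
    have e : m + i₀ - (j + 1) * i₀ = m - j * i₀ := by
      rw [add_mul, one_mul]
      omega
    rw [e]
    exact hy
  · obtain rfl : j = p - 1 := by omega
    have e1 : p - 1 + 1 = p := by omega
    have hch : CharP (MonoidAlgebra (ZMod p) G) p := charP_of_injective_algebraMap
      (FaithfulSMul.algebraMap_injective (ZMod p) (MonoidAlgebra (ZMod p) G)) p
    have e2 : (th p G g - 1) ^ p = th p G (g ^ p) - 1 := by
      rw [sub_pow_char_of_commute _ (Commute.one_right (th p G g)), one_pow, map_pow]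
    rw [e1, e2]
    have h1 : (th p G (g ^ p) - 1) * y ∈ J ((th p G).comp H.subtype) (resF F H)
        (p * i₀ + (m - (p - 1) * i₀)) := by
      apply (J_rfilt ((th p G).comp H.subtype) (resF F H)).mul
      · have h2 : (⟨g ^ p, hgp⟩ : H) ∈ resF F H (p * i₀) := by
          unfold resF
          rw [Subgroup.mem_subgroupOf]
          exact hgp'
        exact J_sub_one ((th p G).comp H.subtype) h2
      · exact hy
    have h3 := a3b_mem p F H g i₀ (p - 1) (m + i₀) 0 (Nat.zero_le _)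
      (y := (th p G (g ^ p) - 1) * y) (J_anti_le _ _ (by
        obtain ⟨r, hr⟩ : ∃ r, p = r + 1 := ⟨p - 1, by omega⟩
        rw [hr, add_mul, one_mul, Nat.add_sub_cancel]
        omega) h1)
    rw [pow_zero, one_mul] at h3
    exact h3

theorem a3c_pow_g {p : ℕ} [hp : Fact p.Prime] {F : ℕ → Subgroup G} (hF : NSer F)
    (H : Subgroup G) [H.Normal] {g : G} {i₀ : ℕ} (hg : g ∈ F i₀) (hgp : g ^ p ∈ H)
    (hgp' : g ^ p ∈ F (p * i₀)) (m : ℕ) {x : MonoidAlgebra (ZMod p) G}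
    (hx : x ∈ Kb p F H g i₀ (p - 1) m) (j : ℕ) :
    (th p G (g ^ j) - 1) * x ∈ Kb p F H g i₀ (p - 1) (m + i₀) := by
  induction j with
  | zero =>
    rw [pow_zero, map_one, sub_self, zero_mul]
    exact zero_mem _
  | succ j ih =>
    have e : (th p G (g ^ (j + 1)) - 1) * x = (th p G (g ^ j) - 1) * x +
        (th p G g - 1) * ((th p G (g ^ j) - 1) * x) + (th p G g - 1) * x := by
      rw [pow_succ', map_mul]
      noncomm_ring
    rw [e]
    refine add_mem (add_mem ih ?_) ?_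
    · exact a3b_anti_le p F H g i₀ (p - 1) (Nat.le_add_right _ _)
        (Kb_stable_g hF H hg hgp hgp' _ ih)
    · exact Kb_stable_g hF H hg hgp hgp' _ hx

/-- The whole filtration: `J m ≤ K (p - 1) m`. `1 ∈ K (p - 1) 0`, and for `h ∈ F w` multiplication
by `h - 1` maps `K (p - 1) m` to `K (p - 1) (m + w)`: if `w ≤ i₀` write `h = g ^ j h₁` with
`h₁ ∈ H ⊓ F w` and `h - 1 = (g ^ j - 1) h₁ + (h₁ - 1)`, `g ^ j - 1 = (∑_{l < j} g ^ l) (g - 1)` and
`i₀ ≥ w`; if `w > i₀` then `h ∈ F (i₀ + 1) ≤ H`. -/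
theorem J_le_Kb {p : ℕ} [hp : Fact p.Prime] {F : ℕ → Subgroup G} (hF : NSer F)
    (H : Subgroup G) [H.Normal] (hidx : H.index = p) {g : G} {i₀ : ℕ} (hg : g ∈ F i₀)
    (hgH : g ∉ H) (hi₀ : F (i₀ + 1) ≤ H) (hgp' : g ^ p ∈ F (p * i₀)) (m : ℕ) :
    J (th p G) F m ≤ Kb p F H g i₀ (p - 1) m := by
  have hFanti : ∀ a b, a ≤ b → F b ≤ F a := by
    have h1 : Antitone F := antitone_nat_of_succ_le hF.anti
    exact fun a b h => h1 h
  have hcard : Nat.card (G ⧸ H) = p := hidx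
  have hgp : g ^ p ∈ H := by
    have h1 := Subgroup.pow_index_mem H g
    rwa [hidx] at h1
  have hg1 : (g : G ⧸ H) ≠ 1 := by
    intro h
    exact hgH ((QuotientGroup.eq_one_iff g).1 h)
  have key : ∀ (w : ℕ) (h : G), h ∈ F w → ∀ (m : ℕ) (x : MonoidAlgebra (ZMod p) G),
      x ∈ Kb p F H g i₀ (p - 1) m → (th p G h - 1) * x ∈ Kb p F H g i₀ (p - 1) (m + w) := by
    intro w h hw m x hx
    rcases Nat.lt_or_ge i₀ w with hwi | hwi
    · exact Kb_mul_H hF H hg (p - 1) m w h (hi₀ (hFanti _ _ hwi hw)) hw x hx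
    · obtain ⟨j, hj⟩ := mem_powers_of_prime_card hcard hg1 (g' := (h : G ⧸ H))
      have hj' : ((g ^ j : G) : G ⧸ H) = (h : G ⧸ H) := hj
      rw [QuotientGroup.eq] at hj'
      obtain ⟨h₁, hh₁⟩ : ∃ h₁, h₁ = (g ^ j)⁻¹ * h := ⟨_, rfl⟩
      rw [← hh₁] at hj'
      have hgw : g ∈ F w := hFanti _ _ hwi hg
      have hh₁w : h₁ ∈ F w := by
        rw [hh₁]
        exact (F w).mul_mem ((F w).inv_mem ((F w).pow_mem hgw j)) hw
      have e1 : h = g ^ j * h₁ := by rw [hh₁, mul_inv_cancel_left]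
      have k1 := Kb_mul_H hF H hg (p - 1) m w h₁ hj' hh₁w x hx
      have k2 : th p G h₁ * x ∈ Kb p F H g i₀ (p - 1) m := by
        have e2 : th p G h₁ * x = x + (th p G h₁ - 1) * x := by noncomm_ring
        rw [e2]
        exact add_mem hx (a3b_anti_le p F H g i₀ (p - 1) (Nat.le_add_right _ _) k1)
      have k3 := a3c_pow_g hF H hg hgp hgp' m k2 j
      have e3 : (th p G h - 1) * x = (th p G (g ^ j) - 1) * (th p G h₁ * x) +
          (th p G h₁ - 1) * x := by
        rw [e1, map_mul]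
        noncomm_ring
      rw [e3]
      exact add_mem (a3b_anti_le p F H g i₀ (p - 1) (by omega) k3) k1
  have hlist : ∀ l : List (ℕ × G), (∀ q ∈ l, q.2 ∈ F q.1) →
      (l.map (fun q => th p G q.2 - 1)).prod ∈
        Kb p F H g i₀ (p - 1) (l.map Prod.fst).sum := by
    intro l
    induction l with
    | nil =>
      intro _
      have h1 := a3b_mem p F H g i₀ (p - 1) 0 0 (Nat.zero_le _) (y := 1) (by
        rw [Nat.zero_sub]
        exact (J_rfilt ((th p G).comp H.subtype) (resF F H)).one)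
      rw [pow_zero, one_mul] at h1
      simpa using h1
    | cons q l ih =>
      intro hq
      simp only [List.map_cons, List.prod_cons, List.sum_cons]
      rw [add_comm q.1]
      exact key q.1 q.2 (hq q (List.mem_cons_self)) _ _
        (ih (fun q' hq' => hq q' (List.mem_cons_of_mem _ hq')))
  unfold J
  rw [AddSubgroup.closure_le]
  rintro _ ⟨l, hl, hm, rfl⟩
  exact a3b_anti_le p F H g i₀ (p - 1) hm (hlist l hl)

end Pool.Agent.Lib.H80F
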