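import Pool.Agent.Lib.H80F.Defs2

/-!
# H80F, A3: the projection
-/

namespace Pool.Agent.Lib.H80F

open Subgroup
open scoped commutatorElement

variable {G : Type} [Group G]


/-- Every element of `G` is uniquely `g ^ j h`, `j < p`, `h ∈ H`. The map `pr : G → H`,
`g ^ j h ↦ h`, extended linearly. It is the identity on `k H` and maps `(g - 1) ^ j x`, `x ∈ k H`,
`1 ≤ j < p`, to `0` (as `∑_i (-1) ^ (j - i) (j choose i) = 0`). -/
theorem exists_pr {p : ℕ} [hp : Fact p.Prime] (H : Subgroup G) [H.Normal] (hidx : H.index = p)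
    {g : G} (hgH : g ∉ H) :
    ∃ pr : MonoidAlgebra (ZMod p) G →ₗ[ZMod p] MonoidAlgebra (ZMod p) H,
      ∀ (j : ℕ) (_ : j < p) (x : MonoidAlgebra (ZMod p) H),
        pr ((th p G g - 1) ^ j * MonoidAlgebra.mapDomainRingHom (ZMod p) H.subtype x) =
          if j = 0 then x else 0 := by
  have hcard : Nat.card (G ⧸ H) = p := hidx
  have hne : (g : G ⧸ H) ≠ 1 := by
    intro h
    exact hgH ((QuotientGroup.eq_one_iff g).1 h)
  have hord : orderOf (g : G ⧸ H) = p := by
    refine orderOf_eq_prime ?_ hne
    rw [← hcard]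
    exact pow_card_eq_one'
  have hdec : ∀ x : G, ∃ j : ℕ, j < p ∧ ∃ h : H, x = g ^ j * h := by
    intro x
    obtain ⟨n, hn⟩ : ((x : G ⧸ H)) ∈ Submonoid.powers (g : G ⧸ H) :=
      mem_powers_of_prime_card hcard hne
    have hn' : ((g : G ⧸ H)) ^ n = (x : G ⧸ H) := hn
    refine ⟨n % p, Nat.mod_lt _ hp.out.pos, ⟨(g ^ (n % p))⁻¹ * x, ?_⟩, by simp⟩
    rw [← QuotientGroup.eq, QuotientGroup.mk_pow, ← hn', ← hord, pow_mod_orderOf]
  choose jj hjj tt htt using hdec
  have htu : ∀ (i : ℕ) (_ : i < p) (h : H), tt (g ^ i * h) = h := by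
    intro i hi h
    have h1 := htt (g ^ i * h)
    have h2 : (g : G ⧸ H) ^ i = (g : G ⧸ H) ^ (jj (g ^ i * h)) := by
      have h3 := congrArg (fun y : G => (y : G ⧸ H)) h1
      simpa using h3
    have h4 : i = jj (g ^ i * h) := by
      refine pow_injOn_Iio_orderOf ?_ ?_ h2
      · rw [hord]; exact hi
      · rw [hord]; exact hjj _
    rw [← h4] at h1
    exact (Subtype.ext (mul_left_cancel h1)).symm
  refine ⟨lext p (fun x => th p H (tt x)), ?_⟩
  have key : ∀ (i : ℕ) (_ : i < p) (x : MonoidAlgebra (ZMod p) H),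
      lext p (fun x => th p H (tt x)) ((th p G g) ^ i *
        MonoidAlgebra.mapDomainRingHom (ZMod p) H.subtype x) = x := by
    intro i hi x
    have h0 : (((lext p (fun x => th p H (tt x))).toAddMonoidHom.comp
        (AddMonoidHom.mulLeft ((th p G g) ^ i))).comp
        (MonoidAlgebra.mapDomainRingHom (ZMod p) H.subtype).toAddMonoidHom) =
        AddMonoidHom.id _ := by
      apply hom_ext_of
      intro y
      show lext p (fun x => th p H (tt x)) ((th p G g) ^ i *
        MonoidAlgebra.mapDomainRingHom (ZMod p) H.subtype (MonoidAlgebra.of (ZMod p) H y)) = _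
      have h1 : (th p G g) ^ i * MonoidAlgebra.mapDomainRingHom (ZMod p) H.subtype
          (MonoidAlgebra.of (ZMod p) H y) = MonoidAlgebra.of (ZMod p) G (g ^ i * y) := by
        rw [map_mul, map_pow]
        congr 1
        simp
      rw [h1, lext_of, htu i hi y]
      rfl
    exact DFunLike.congr_fun h0 x
  have key2 : ∀ (j i : ℕ) (_ : i + j < p) (x : MonoidAlgebra (ZMod p) H),
      lext p (fun x => th p H (tt x)) ((th p G g) ^ i * ((th p G g - 1) ^ j *
        MonoidAlgebra.mapDomainRingHom (ZMod p) H.subtype x)) = if j = 0 then x else 0 := by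
    intro j
    induction j with
    | zero =>
      intro i hi x
      rw [pow_zero, one_mul, if_pos rfl]
      exact key i (by omega) x
    | succ j ih =>
      intro i hi x
      have h1 : (th p G g) ^ i * ((th p G g - 1) ^ (j + 1) *
          MonoidAlgebra.mapDomainRingHom (ZMod p) H.subtype x) =
          (th p G g) ^ (i + 1) * ((th p G g - 1) ^ j *
            MonoidAlgebra.mapDomainRingHom (ZMod p) H.subtype x) -
          (th p G g) ^ i * ((th p G g - 1) ^ j *
            MonoidAlgebra.mapDomainRingHom (ZMod p) H.subtype x) := by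
        rw [pow_succ' (th p G g - 1) j, pow_succ (th p G g) i]
        noncomm_ring
      rw [h1, map_sub, ih (i + 1) (by omega) x, ih i (by omega) x, sub_self, if_neg (by omega)]
  intro j hj x
  have := key2 j 0 (by omega) x
  rwa [pow_zero, one_mul] at this

end Pool.Agent.Lib.H80F
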