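import Pool.Agent.Lib.H80F.A3a
import Pool.Agent.Lib.H80F.A3c
import Pool.Agent.Lib.H80F.A3d

/-!
# H80F, A3: Lemma S
-/

namespace Pool.Agent.Lib.H80F

open Subgroup
open scoped commutatorElement

/-- Maximal subgroups of finite `p`-groups have index `p`. -/
theorem index_coatom_A3e {p : ℕ} [hp : Fact p.Prime] {G : Type} [Group G] [Finite G]
    (hG : IsPGroup p G) {M : Subgroup G} (hM : IsCoatom M) : M.index = p := by
  obtain ⟨k, hk⟩ := IsPGroup.iff_card.mp hG
  obtain ⟨m, hm⟩ := IsPGroup.iff_card.mp (hG.to_subgroup M)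
  have h1 : m < k := by
    by_contra h
    push Not at h
    have h2 : Nat.card G ≤ Nat.card M := by
      rw [hk, hm]; exact Nat.pow_le_pow_right hp.out.pos h
    exact hM.1 (eq_top_of_le_card M h2)
  obtain ⟨K, hK, hMK⟩ := Sylow.exists_subgroup_card_pow_prime_le p (n := m) (m := m + 1)
    (by rw [hk]; exact pow_dvd_pow p h1) M hm (Nat.le_succ m)
  have h3 : M < K := by
    refine lt_of_le_of_ne hMK ?_
    rintro rfl
    rw [hm] at hK
    have := Nat.pow_right_injective hp.out.two_le hK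
    omega
  have h4 := hM.2 K h3
  have h5 := M.card_mul_index
  rw [h4, card_top] at hK
  rw [hK, hm, pow_succ] at h5
  exact Nat.eq_of_mul_eq_mul_left (pow_pos hp.out.pos m) h5

/-- The image of the filtration of the group algebra of a subgroup. -/
theorem J_comp_le_A3e {p : ℕ} {G : Type} [Group G] (H : Subgroup G) (F' : ℕ → Subgroup H)
    (m : ℕ) {x : MonoidAlgebra (ZMod p) G} (hx : x ∈ J ((th p G).comp H.subtype) F' m) :
    ∃ y ∈ J (th p H) F' m, MonoidAlgebra.mapDomainRingHom (ZMod p) H.subtype y = x := by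
  have h : J ((th p G).comp H.subtype) F' m ≤ (J (th p H) F' m).map
      (MonoidAlgebra.mapDomainRingHom (ZMod p) H.subtype).toAddMonoidHom := by
    refine (AddSubgroup.closure_le _).2 ?_
    rintro z ⟨l, hl, hm, rfl⟩
    refine ⟨(l.map (fun q => th p H q.2 - 1)).prod, AddSubgroup.subset_closure ⟨l, hl, hm, rfl⟩, ?_⟩
    show MonoidAlgebra.mapDomainRingHom (ZMod p) H.subtype _ = _
    rw [map_list_prod, List.map_map]
    congr 1
    apply List.map_congr_left
    intro q _
    show MonoidAlgebra.mapDomainRingHom (ZMod p) H.subtype (th p H q.2 - 1) =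
      ((th p G).comp H.subtype) q.2 - 1
    rw [map_sub, map_one]
    congr 1
    simp [th]
  exact h hx

/-- **Lemma S.** Induction on the order of `G`. If `zpowers c = ⊤` use `lemmaS_base`. Otherwise
`c` lies in a maximal subgroup `H` of `G`, which is normal of index `p` (`G` a finite `p`-group).
Let `i₀` be maximal with `F i₀` not contained in `H` (it exists: `F 1 = ⊤`, `F (k + 1) = ⊥`), and
`g ∈ F i₀`, `g ∉ H`. By induction there is `Φ₁` for `H`, `resF F H`, `c`. Put `Φ = Φ₁ ∘ pr`. By
`J_le_Kb` an element of `J (k + 1)` is a sum of elements `(g - 1) ^ j x`, `j < p`, `x` in the image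
of the term of weight `k + 1 - j i₀`; `pr` kills those with `j > 0`, and those with `j = 0` go to
the term of weight `k + 1` of `k H`, killed by `Φ₁`. -/
theorem lemmaS {p : ℕ} [hp : Fact p.Prime] (n : ℕ) : ∀ (G : Type) [Group G] [Finite G]
    (F : ℕ → Subgroup G) (c : G) (k : ℕ), Nat.card G = n → IsPGroup p G → NSer F →
    F (k + 1) = ⊥ → c ≠ 1 → c ^ p = 1 → (∀ i g, g ∈ F i → g ^ p ∈ F (p * i)) →
    ∃ Φ : MonoidAlgebra (ZMod p) G →ₗ[ZMod p] ZMod p, (∀ x ∈ J (th p G) F (k + 1), Φ x = 0) ∧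
      Φ (th p G c - 1) = 1 := by
  induction n using Nat.strong_induction_on with
  | _ n ih =>
  intro G _ _ F c k hn hG hF hk hc hcp hpow
  by_cases hgen : zpowers c = ⊤
  · exact lemmaS_base hF hk hc hcp hgen
  obtain ⟨H, hH, hcH⟩ : ∃ H : Subgroup G, IsCoatom H ∧ zpowers c ≤ H := by
    rcases eq_top_or_exists_le_coatom (zpowers c) with h | h
    · exact absurd h hgen
    · exact h
  have hnil : Group.IsNilpotent G := hG.isNilpotent
  have hN : H.Normal := NormalizerCondition.normal_of_coatom H Group.normalizerCondition_of_isNilpotent hH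
  have hidx : H.index = p := index_coatom_A3e hG hH
  have hcH' : c ∈ H := hcH (mem_zpowers c)
  have hex : ∃ i, F i ≤ H := ⟨k + 1, by rw [hk]; exact bot_le⟩
  classical
  obtain ⟨i₀, hi₀, hi₁⟩ : ∃ i₀, ¬ F i₀ ≤ H ∧ F (i₀ + 1) ≤ H := by
    have h0 : Nat.find hex ≠ 0 := by
      intro h
      have := Nat.find_spec hex
      rw [h, hF.zero] at this
      exact hH.1 (top_le_iff.1 this)
    refine ⟨Nat.find hex - 1, Nat.find_min hex (by omega), ?_⟩
    rw [Nat.sub_add_cancel (by omega)]
    exact Nat.find_spec hex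
  obtain ⟨g, hg, hgH⟩ := SetLike.not_le_iff_exists.1 hi₀
  obtain ⟨Φ₁, h1, h2⟩ := ih (Nat.card H) (by
      have h := H.card_mul_index
      rw [hidx, hn] at h
      have h3 := hp.out.two_le
      have h4 : 0 < Nat.card H := Nat.card_pos
      nlinarith) H (resF F H) ⟨c, hcH'⟩ k rfl (hG.to_subgroup H) (resF_nser hF H)
    (by simp [resF, hk]) (by
      intro h
      exact hc (congrArg Subtype.val h)) (by
      ext
      simpa using hcp) (by
      intro i x hx
      rw [resF, mem_subgroupOf] at hx ⊢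
      simpa using hpow i _ hx)
  obtain ⟨pr, hpr⟩ := exists_pr (p := p) H hidx hgH
  refine ⟨Φ₁ ∘ₗ pr, ?_, ?_⟩
  · intro x hx
    have hx' := J_le_Kb hF H hidx hg hgH hi₁ (hpow i₀ g hg) (k + 1) hx
    have hle : Kb p F H g i₀ (p - 1) (k + 1) ≤ (Φ₁ ∘ₗ pr).toAddMonoidHom.ker := by
      refine iSup_le ?_
      rintro ⟨j, hj⟩
      rintro z ⟨y, hy, rfl⟩
      obtain ⟨y', hy', rfl⟩ := J_comp_le_A3e H (resF F H) _ hy
      have hjp : j < p := by have := hp.out.pos; omega
      show Φ₁ (pr ((th p G g - 1) ^ j * _)) = 0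
      rw [hpr j hjp]
      split_ifs with h
      · subst h
        apply h1
        simpa using hy'
      · exact map_zero _
    exact hle hx'
  · have h3 := hpr 0 hp.out.pos (th p H ⟨c, hcH'⟩ - 1)
    have h4 : (th p G g - 1) ^ 0 * MonoidAlgebra.mapDomainRingHom (ZMod p) H.subtype
        (th p H ⟨c, hcH'⟩ - 1) = th p G c - 1 := by
      rw [pow_zero, one_mul, map_sub, map_one]
      congr 1
      simp [th]
    rw [h4, if_pos rfl] at h3
    show Φ₁ (pr (th p G c - 1)) = 1
    rw [h3, h2]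

end Pool.Agent.Lib.H80F
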