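import Pool.Agent.Lib.H80F.Defs2

/-!
# H80F, A4: characteristic five
-/

namespace Pool.Agent.Lib.H80F

open Subgroup
open scoped commutatorElement


/-- `(4 choose j) (-1) ^ (4 - j) = 1` in characteristic `5`. -/
theorem sub_one_pow_four {R : Type} [Ring R] (h5 : (5 : R) = 0) (h : R) :
    (h - 1) ^ 4 = ∑ j ∈ Finset.range 5, h ^ j := by
  have e : (h - 1) ^ 4 - ∑ j ∈ Finset.range 5, h ^ j = 5 * (-h ^ 3 + h ^ 2 - h) := by
    simp only [Finset.sum_range_succ, Finset.sum_range_zero]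
    noncomm_ring
  rw [h5, zero_mul] at e
  exact sub_eq_zero.mp e

theorem sub_one_pow_five {R : Type} [Ring R] (h5 : (5 : R) = 0) (h : R) :
    (h - 1) ^ 5 = h ^ 5 - 1 := by
  have e : (h - 1) ^ 5 - (h ^ 5 - 1) = 5 * (-h ^ 4 + 2 * h ^ 3 - 2 * h ^ 2 + h) := by
    noncomm_ring
  rw [h5, zero_mul] at e
  exact sub_eq_zero.mp e

theorem a4a_five {R : Type} [Ring R] [Algebra (ZMod 5) R] : (5 : R) = 0 := by
  have h : (5 : R) = algebraMap (ZMod 5) R 5 := by rw [map_ofNat]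
  rw [h, show (5 : ZMod 5) = 0 from by decide, map_zero]

theorem a4a_two {R : Type} [Ring R] [Algebra (ZMod 5) R] (x : R) : (2 : ZMod 5) • x = 2 * x := by
  rw [Algebra.smul_def, map_ofNat]

theorem a4a_three {R : Type} [Ring R] [Algebra (ZMod 5) R] (x : R) :
    (3 : ZMod 5) • x = 3 * x := by
  rw [Algebra.smul_def, map_ofNat]

theorem a4a_four {R : Type} [Ring R] [Algebra (ZMod 5) R] (x : R) :
    (4 : ZMod 5) • x = 4 * x := by
  rw [Algebra.smul_def, map_ofNat]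

/-- `g ^ a = ∑_m (a choose m) (g - 1) ^ m` (`m ≤ 4`) for `a = 0, ..., 4`; check the five values
of `a`. -/
theorem pow_eq_X5 {R : Type} [Ring R] [Algebra (ZMod 5) R] (g : R) (a : ZMod 5) :
    g ^ a.val = ∑ i ∈ Finset.range 5, a ^ i • X5 g i := by
  have h5 : (5 : R) = 0 := a4a_five
  obtain ⟨y, rfl⟩ : ∃ y, g = y + 1 := ⟨g - 1, by abel⟩
  have ha : a = 0 ∨ a = 1 ∨ a = 2 ∨ a = 3 ∨ a = 4 := by
    revert a; decide
  rcases ha with rfl | rfl | rfl | rfl | rfl
  · simp [Finset.sum_range_succ, X5]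
  · rw [show (1 : ZMod 5).val = 1 from rfl]
    simp only [Finset.sum_range_succ, Finset.sum_range_zero, X5, add_sub_cancel_right, one_pow,
      one_smul]
    rw [← sub_eq_zero]
    have e : (5 : R) * (-y ^ 2 - y ^ 3 - 2 * y ^ 4) = 0 := by rw [h5, zero_mul]
    refine Eq.trans ?_ e
    noncomm_ring
  · rw [show (2 : ZMod 5).val = 2 from rfl]
    simp only [Finset.sum_range_succ, Finset.sum_range_zero, X5, add_sub_cancel_right]
    rw [show (2 : ZMod 5) ^ 2 = 4 from by decide, show (2 : ZMod 5) ^ 3 = 3 from by decide,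
      show (2 : ZMod 5) ^ 4 = 1 from by decide, pow_zero, pow_one, one_smul, one_smul, a4a_two,
      a4a_three, a4a_four]
    rw [← sub_eq_zero]
    have e : (5 : R) * (-(3 * y ^ 2) - 3 * y ^ 3 - 5 * y ^ 4) = 0 := by rw [h5, zero_mul]
    refine Eq.trans ?_ e
    noncomm_ring
  · rw [show (3 : ZMod 5).val = 3 from rfl]
    simp only [Finset.sum_range_succ, Finset.sum_range_zero, X5, add_sub_cancel_right]
    rw [show (3 : ZMod 5) ^ 2 = 4 from by decide, show (3 : ZMod 5) ^ 3 = 2 from by decide,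
      show (3 : ZMod 5) ^ 4 = 1 from by decide, pow_zero, pow_one, one_smul, one_smul, a4a_two,
      a4a_three, a4a_four]
    rw [← sub_eq_zero]
    have e : (5 : R) * (-(3 * y ^ 2) - 3 * y ^ 3 - 5 * y ^ 4) = 0 := by rw [h5, zero_mul]
    refine Eq.trans ?_ e
    noncomm_ring
  · rw [show (4 : ZMod 5).val = 4 from rfl]
    simp only [Finset.sum_range_succ, Finset.sum_range_zero, X5, add_sub_cancel_right]
    rw [show (4 : ZMod 5) ^ 2 = 1 from by decide, show (4 : ZMod 5) ^ 3 = 4 from by decide,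
      show (4 : ZMod 5) ^ 4 = 1 from by decide, pow_zero, pow_one, one_smul, one_smul, one_smul,
      a4a_four, a4a_four]
    rw [← sub_eq_zero]
    have e : (5 : R) * (-y ^ 2 - 2 * y ^ 3 - 3 * y ^ 4) = 0 := by rw [h5, zero_mul]
    refine Eq.trans ?_ e
    noncomm_ring

theorem a4a_sum {M : Type} [AddCommMonoid M] (f : ZMod 5 → M) :
    ∑ a : ZMod 5, f a = f 0 + f 1 + f 2 + f 3 + f 4 := by
  exact Fin.sum_univ_five f

/-- For `g ^ 5 = 1` and `1 ≤ i ≤ 3` the element `X5 g i` is `- ∑_a a ^ (4 - i) g ^ a`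
(`pow_eq_X5` and `∑_a a ^ n = -1` if `4 ∣ n`, `n > 0`, and `0` otherwise). It is also true without
`g ^ 5 = 1`. -/
theorem X5_eq_sum {R : Type} [Ring R] [Algebra (ZMod 5) R] (g : R) {i : ℕ} (h1 : 1 ≤ i)
    (h3 : i ≤ 3) : X5 g i = - ∑ a : ZMod 5, a ^ (4 - i) • g ^ a.val := by
  have h5 : (5 : R) = 0 := a4a_five
  obtain ⟨y, rfl⟩ : ∃ y, g = y + 1 := ⟨g - 1, by abel⟩
  rw [a4a_sum, show (0 : ZMod 5).val = 0 from rfl, show (1 : ZMod 5).val = 1 from rfl,
    show (2 : ZMod 5).val = 2 from rfl, show (3 : ZMod 5).val = 3 from rfl,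
    show (4 : ZMod 5).val = 4 from rfl]
  obtain rfl | rfl | rfl : i = 1 ∨ i = 2 ∨ i = 3 := by omega
  · rw [show 4 - 1 = 3 from rfl, show (0 : ZMod 5) ^ 3 = 0 from by decide,
      show (1 : ZMod 5) ^ 3 = 1 from by decide, show (2 : ZMod 5) ^ 3 = 3 from by decide,
      show (3 : ZMod 5) ^ 3 = 2 from by decide, show (4 : ZMod 5) ^ 3 = 4 from by decide,
      zero_smul, one_smul, a4a_two, a4a_three, a4a_four, X5, add_sub_cancel_right, ← sub_eq_zero]
    have e : (5 : R) * (1 + 1 + 6 * y + 7 * y ^ 2 + 4 * y ^ 3 + y ^ 4) = 0 := by rw [h5, zero_mul]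
    refine Eq.trans ?_ e
    noncomm_ring
  · rw [show 4 - 2 = 2 from rfl, show (0 : ZMod 5) ^ 2 = 0 from by decide,
      show (1 : ZMod 5) ^ 2 = 1 from by decide, show (2 : ZMod 5) ^ 2 = 4 from by decide,
      show (3 : ZMod 5) ^ 2 = 4 from by decide, show (4 : ZMod 5) ^ 2 = 1 from by decide,
      zero_smul, one_smul, one_smul, a4a_four, a4a_four, X5, add_sub_cancel_right, ← sub_eq_zero]
    have e : (5 : R) * (1 + 1 + 5 * y + 5 * y ^ 2 + 2 * y ^ 3 + y ^ 4) = 0 := by rw [h5, zero_mul]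
    refine Eq.trans ?_ e
    noncomm_ring
  · rw [show 4 - 3 = 1 from rfl, show (0 : ZMod 5) ^ 1 = 0 from by decide,
      show (1 : ZMod 5) ^ 1 = 1 from by decide, show (2 : ZMod 5) ^ 1 = 2 from by decide,
      show (3 : ZMod 5) ^ 1 = 3 from by decide, show (4 : ZMod 5) ^ 1 = 4 from by decide,
      zero_smul, one_smul, a4a_two, a4a_three, a4a_four, X5, add_sub_cancel_right, ← sub_eq_zero]
    have e : (5 : R) * (1 + 1 + 6 * y + 7 * y ^ 2 + 4 * y ^ 3 + y ^ 4) = 0 := by rw [h5, zero_mul]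
    refine Eq.trans ?_ e
    noncomm_ring

theorem a4a_pow_add_four (a : ZMod 5) (n : ℕ) (hn : 1 ≤ n) : a ^ (n + 4) = a ^ n := by
  obtain ⟨m, rfl⟩ : ∃ m, n = m + 1 := ⟨n - 1, by omega⟩
  have h : a ^ 5 = a := by revert a; decide
  rw [show m + 1 + 4 = m + 5 from by ring, pow_add, h, ← pow_succ]

/-- `∑_{a ∈ F₅} a ^ n = -1` if `4 ∣ n` and `n > 0`, and `0` otherwise. -/
theorem sum_pow_zmod5 (n : ℕ) :
    ∑ a : ZMod 5, a ^ n = if 0 < n ∧ n % 4 = 0 then -1 else 0 := by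
  induction n using Nat.strong_induction_on with
  | _ n ih =>
    by_cases h : n < 5
    · interval_cases n <;> decide
    · obtain ⟨m, rfl⟩ : ∃ m, n = m + 4 := ⟨n - 4, by omega⟩
      have e : ∑ a : ZMod 5, a ^ (m + 4) = ∑ a : ZMod 5, a ^ m :=
        Finset.sum_congr rfl fun a _ => a4a_pow_add_four a m (by omega)
      rw [e, ih m (by omega)]
      have : (0 < m ∧ m % 4 = 0) ↔ (0 < m + 4 ∧ (m + 4) % 4 = 0) := by omega
      simp only [this]

end Pool.Agent.Lib.H80F
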