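import Pool.Agent.Lib.H80F.Defs2

/-!
# H80F, A4: fourfold commutators
-/

namespace Pool.Agent.Lib.H80F

open Subgroup
open scoped commutatorElement


/-- The words with `W` at place `j`. -/
def a4b_F {R : Type} [Ring R] (W : R) (V : Fin 4 → R) (j : ℕ) (σ : Equiv.Perm (Fin 4)) : R :=
  if j = 0 then W * V (σ 0) * V (σ 1) * V (σ 2) * V (σ 3)
  else if j = 1 then V (σ 0) * W * V (σ 1) * V (σ 2) * V (σ 3)
  else if j = 2 then V (σ 0) * V (σ 1) * W * V (σ 2) * V (σ 3)
  else if j = 3 then V (σ 0) * V (σ 1) * V (σ 2) * W * V (σ 3)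
  else V (σ 0) * V (σ 1) * V (σ 2) * V (σ 3) * W

/-- A permutation given by the list of its values. -/
def a4b_p (f g : Fin 4 → Fin 4) (h1 : ∀ i, g (f i) = i) (h2 : ∀ i, f (g i) = i) :
    Equiv.Perm (Fin 4) := ⟨f, g, h1, h2⟩

theorem a4b_sum {R : Type} [Ring R] (W : R) (V : Fin 4 → R) (j : ℕ) (τ : Equiv.Perm (Fin 4)) :
    ∑ σ : Equiv.Perm (Fin 4), a4b_F W V j (σ * τ) = ∑ σ : Equiv.Perm (Fin 4), a4b_F W V j σ :=
  Equiv.sum_comp (Equiv.mulRight τ) (fun σ => a4b_F W V j σ)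

theorem a4b_expand {R : Type} [Ring R] (W a b c d : R) :
    (((W * a - a * W) * b - b * (W * a - a * W)) * c -
        c * ((W * a - a * W) * b - b * (W * a - a * W))) * d -
      d * (((W * a - a * W) * b - b * (W * a - a * W)) * c -
        c * ((W * a - a * W) * b - b * (W * a - a * W))) =
    W * a * b * c * d
    - (a * W * b * c * d + b * W * a * c * d + c * W * a * b * d + d * W * a * b * c)
    + (b * a * W * c * d + c * a * W * b * d + d * a * W * b * c + c * b * W * a * d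
      + d * b * W * a * c + d * c * W * a * b)
    - (c * b * a * W * d + d * b * a * W * c + d * c * a * W * b + d * c * b * W * a)
    + d * c * b * a * W := by
  noncomm_ring

theorem a4b_lhs {R : Type} [Ring R] (W : R) (V : Fin 4 → R) (σ : Equiv.Perm (Fin 4)) :
    lw (Fin.cons W V : Fin 5 → R) 0 [(σ 3).succ, (σ 2).succ, (σ 1).succ, (σ 0).succ] =
      (a4b_F W V 0 (σ * (a4b_p ![0,1,2,3] ![0,1,2,3] (by decide) (by decide)))) -
      (a4b_F W V 1 (σ * (a4b_p ![0,1,2,3] ![0,1,2,3] (by decide) (by decide))) +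
      a4b_F W V 1 (σ * (a4b_p ![1,0,2,3] ![1,0,2,3] (by decide) (by decide))) +
      a4b_F W V 1 (σ * (a4b_p ![2,0,1,3] ![1,2,0,3] (by decide) (by decide))) +
      a4b_F W V 1 (σ * (a4b_p ![3,0,1,2] ![1,2,3,0] (by decide) (by decide)))) +
      (a4b_F W V 2 (σ * (a4b_p ![1,0,2,3] ![1,0,2,3] (by decide) (by decide))) +
      a4b_F W V 2 (σ * (a4b_p ![2,0,1,3] ![1,2,0,3] (by decide) (by decide))) +
      a4b_F W V 2 (σ * (a4b_p ![3,0,1,2] ![1,2,3,0] (by decide) (by decide))) +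
      a4b_F W V 2 (σ * (a4b_p ![2,1,0,3] ![2,1,0,3] (by decide) (by decide))) +
      a4b_F W V 2 (σ * (a4b_p ![3,1,0,2] ![2,1,3,0] (by decide) (by decide))) +
      a4b_F W V 2 (σ * (a4b_p ![3,2,0,1] ![2,3,1,0] (by decide) (by decide)))) -
      (a4b_F W V 3 (σ * (a4b_p ![2,1,0,3] ![2,1,0,3] (by decide) (by decide))) +
      a4b_F W V 3 (σ * (a4b_p ![3,1,0,2] ![2,1,3,0] (by decide) (by decide))) +
      a4b_F W V 3 (σ * (a4b_p ![3,2,0,1] ![2,3,1,0] (by decide) (by decide))) +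
      a4b_F W V 3 (σ * (a4b_p ![3,2,1,0] ![3,2,1,0] (by decide) (by decide)))) +
      (a4b_F W V 4 (σ * (a4b_p ![3,2,1,0] ![3,2,1,0] (by decide) (by decide)))) := by
  simp only [lw, Fin.cons_zero, Fin.cons_succ]
  rw [a4b_expand]
  rfl

theorem a4b_lhs_sum {R : Type} [Ring R] (W : R) (V : Fin 4 → R) :
    ∑ σ : Equiv.Perm (Fin 4), lw (Fin.cons W V : Fin 5 → R) 0
      [(σ 3).succ, (σ 2).succ, (σ 1).succ, (σ 0).succ] =
    ∑ σ : Equiv.Perm (Fin 4), a4b_F W V 0 σ - 4 * ∑ σ : Equiv.Perm (Fin 4), a4b_F W V 1 σ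
      + 6 * ∑ σ : Equiv.Perm (Fin 4), a4b_F W V 2 σ - 4 * ∑ σ : Equiv.Perm (Fin 4), a4b_F W V 3 σ
      + ∑ σ : Equiv.Perm (Fin 4), a4b_F W V 4 σ := by
  rw [Finset.sum_congr rfl fun σ _ => a4b_lhs W V σ]
  simp only [Finset.sum_add_distrib, Finset.sum_sub_distrib, a4b_sum]
  noncomm_ring

theorem a4b_word {R : Type} [Ring R] (X : Fin 5 → R) (σ : Equiv.Perm (Fin 5)) :
    (List.ofFn (fun i => X (σ i))).prod = X (σ 0) * X (σ 1) * X (σ 2) * X (σ 3) * X (σ 4) := by
  simp [List.ofFn_succ, mul_assoc]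

/-- The inverse of the permutation which sends `0` to `j`. -/
theorem a4b_inv (j : Fin 5) (e : Equiv.Perm (Fin 4)) :
    (Equiv.Perm.decomposeFin.symm (j, e⁻¹))⁻¹ j = 0 ∧
      ∀ k : Fin 4, (Equiv.Perm.decomposeFin.symm (j, e⁻¹))⁻¹ (Equiv.swap 0 j k.succ)
        = (e k).succ := by
  constructor
  · rw [Equiv.Perm.inv_eq_iff_eq, Equiv.Perm.decomposeFin_symm_apply_zero]
  · intro k
    rw [Equiv.Perm.inv_eq_iff_eq, Equiv.Perm.decomposeFin_symm_apply_succ]
    simp

theorem a4b_rhs_sum {R : Type} [Ring R] (W : R) (V : Fin 4 → R) :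
    ∑ σ : Equiv.Perm (Fin 5), (List.ofFn (fun i => (Fin.cons W V : Fin 5 → R) (σ i))).prod =
    ∑ σ : Equiv.Perm (Fin 4), a4b_F W V 0 σ + ∑ σ : Equiv.Perm (Fin 4), a4b_F W V 1 σ
      + ∑ σ : Equiv.Perm (Fin 4), a4b_F W V 2 σ + ∑ σ : Equiv.Perm (Fin 4), a4b_F W V 3 σ
      + ∑ σ : Equiv.Perm (Fin 4), a4b_F W V 4 σ := by
  rw [← Equiv.sum_comp (Equiv.inv (Equiv.Perm (Fin 5)))]
  rw [← Equiv.sum_comp (Equiv.Perm.decomposeFin (n := 4)).symm]
  rw [Fintype.sum_prod_type]
  have key : ∀ j : Fin 5, ∑ e : Equiv.Perm (Fin 4), (List.ofFn (fun i => (Fin.cons W V : Fin 5 → R)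
      ((Equiv.inv (Equiv.Perm (Fin 5))) (Equiv.Perm.decomposeFin.symm (j, e)) i))).prod =
      ∑ e : Equiv.Perm (Fin 4), (List.ofFn (fun i => (Fin.cons W V : Fin 5 → R)
      ((Equiv.Perm.decomposeFin.symm (j, e⁻¹))⁻¹ i))).prod := by
    intro j
    rw [← Equiv.sum_comp (Equiv.inv (Equiv.Perm (Fin 4)))]
    rfl
  rw [Finset.sum_congr rfl fun j _ => key j]
  rw [Fin.sum_univ_five]
  congr 1
  · congr 1
    · congr 1
      · congr 1
        · refine Finset.sum_congr rfl fun e _ => ?_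
          obtain ⟨h0, h1⟩ := a4b_inv 0 e
          have k0 := h1 0
          have k1 := h1 1
          have k2 := h1 2
          have k3 := h1 3
          rw [show (Equiv.swap (0 : Fin 5) 0) (Fin.succ 0) = 1 from by decide] at k0
          rw [show (Equiv.swap (0 : Fin 5) 0) (Fin.succ 1) = 2 from by decide] at k1
          rw [show (Equiv.swap (0 : Fin 5) 0) (Fin.succ 2) = 3 from by decide] at k2
          rw [show (Equiv.swap (0 : Fin 5) 0) (Fin.succ 3) = 4 from by decide] at k3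
          rw [a4b_word, h0, k0, k1, k2, k3]
          rfl
        · refine Finset.sum_congr rfl fun e _ => ?_
          obtain ⟨h0, h1⟩ := a4b_inv 1 e
          have k0 := h1 0
          have k1 := h1 1
          have k2 := h1 2
          have k3 := h1 3
          rw [show (Equiv.swap (0 : Fin 5) 1) (Fin.succ 0) = 0 from by decide] at k0
          rw [show (Equiv.swap (0 : Fin 5) 1) (Fin.succ 1) = 2 from by decide] at k1
          rw [show (Equiv.swap (0 : Fin 5) 1) (Fin.succ 2) = 3 from by decide] at k2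
          rw [show (Equiv.swap (0 : Fin 5) 1) (Fin.succ 3) = 4 from by decide] at k3
          rw [a4b_word, h0, k0, k1, k2, k3]
          rfl
      · rw [← a4b_sum W V 2 (a4b_p ![1,0,2,3] ![1,0,2,3] (by decide) (by decide))]
        refine Finset.sum_congr rfl fun e _ => ?_
        obtain ⟨h0, h1⟩ := a4b_inv 2 e
        have k0 := h1 0
        have k1 := h1 1
        have k2 := h1 2
        have k3 := h1 3
        rw [show (Equiv.swap (0 : Fin 5) 2) (Fin.succ 0) = 1 from by decide] at k0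
        rw [show (Equiv.swap (0 : Fin 5) 2) (Fin.succ 1) = 0 from by decide] at k1
        rw [show (Equiv.swap (0 : Fin 5) 2) (Fin.succ 2) = 3 from by decide] at k2
        rw [show (Equiv.swap (0 : Fin 5) 2) (Fin.succ 3) = 4 from by decide] at k3
        rw [a4b_word, h0, k0, k1, k2, k3]
        rfl
    · rw [← a4b_sum W V 3 (a4b_p ![2,0,1,3] ![1,2,0,3] (by decide) (by decide))]
      refine Finset.sum_congr rfl fun e _ => ?_
      obtain ⟨h0, h1⟩ := a4b_inv 3 e
      have k0 := h1 0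
      have k1 := h1 1
      have k2 := h1 2
      have k3 := h1 3
      rw [show (Equiv.swap (0 : Fin 5) 3) (Fin.succ 0) = 1 from by decide] at k0
      rw [show (Equiv.swap (0 : Fin 5) 3) (Fin.succ 1) = 2 from by decide] at k1
      rw [show (Equiv.swap (0 : Fin 5) 3) (Fin.succ 2) = 0 from by decide] at k2
      rw [show (Equiv.swap (0 : Fin 5) 3) (Fin.succ 3) = 4 from by decide] at k3
      rw [a4b_word, h0, k0, k1, k2, k3]
      rfl
  · rw [← a4b_sum W V 4 (a4b_p ![3,0,1,2] ![1,2,3,0] (by decide) (by decide))]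
    refine Finset.sum_congr rfl fun e _ => ?_
    obtain ⟨h0, h1⟩ := a4b_inv 4 e
    have k0 := h1 0
    have k1 := h1 1
    have k2 := h1 2
    have k3 := h1 3
    rw [show (Equiv.swap (0 : Fin 5) 4) (Fin.succ 0) = 1 from by decide] at k0
    rw [show (Equiv.swap (0 : Fin 5) 4) (Fin.succ 1) = 2 from by decide] at k1
    rw [show (Equiv.swap (0 : Fin 5) 4) (Fin.succ 2) = 3 from by decide] at k2
    rw [show (Equiv.swap (0 : Fin 5) 4) (Fin.succ 3) = 0 from by decide] at k3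
    rw [a4b_word, h0, k0, k1, k2, k3]
    rfl

/-- In characteristic `5` the symmetrised fourfold commutator is the symmetrised product of five
elements: the coefficient of a product with `W` at place `j` is `(-1) ^ j (4 choose j) = 1`. -/
theorem ad_four {R : Type} [Ring R] (h5 : (5 : R) = 0) (W : R) (V : Fin 4 → R) :
    ∑ σ : Equiv.Perm (Fin 4), lw (Fin.cons W V : Fin 5 → R) 0
      [(σ 3).succ, (σ 2).succ, (σ 1).succ, (σ 0).succ] =
    ∑ σ : Equiv.Perm (Fin 5), (List.ofFn (fun i => (Fin.cons W V : Fin 5 → R) (σ i))).prod := by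
  rw [a4b_lhs_sum, a4b_rhs_sum, ← sub_eq_zero]
  generalize ∑ σ : Equiv.Perm (Fin 4), a4b_F W V 0 σ = s0
  generalize ∑ σ : Equiv.Perm (Fin 4), a4b_F W V 1 σ = s1
  generalize ∑ σ : Equiv.Perm (Fin 4), a4b_F W V 2 σ = s2
  generalize ∑ σ : Equiv.Perm (Fin 4), a4b_F W V 3 σ = s3
  generalize ∑ σ : Equiv.Perm (Fin 4), a4b_F W V 4 σ = s4
  have e : (5 : R) * (s2 - s1 - s3) = 0 := by rw [h5, zero_mul]
  refine Eq.trans ?_ e
  noncomm_ring

end Pool.Agent.Lib.H80F
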