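import Pool.Agent.Lib.H80F.A2a
import Pool.Agent.Lib.H80F.A4a

/-!
# H80F, A4: functions of parameters
-/

namespace Pool.Agent.Lib.H80F

open Subgroup
open scoped commutatorElement

variable {R : Type} [Ring R] [Algebra (ZMod 5) R] {ι : Type} [Fintype ι] [DecidableEq ι]


omit [Algebra (ZMod 5) R] in
theorem a4c_anti {J : ℕ → AddSubgroup R} (hJ : RFilt J) {m n : ℕ} (h : m ≤ n) : J n ≤ J m := by
  induction n, h using Nat.le_induction with
  | base => exact le_rfl
  | succ n _ ih => exact (hJ.anti n).trans ih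

omit [Algebra (ZMod 5) R] in
theorem a4c_pow {J : ℕ → AddSubgroup R} (hJ : RFilt J) {x : R} {v : ℕ} (hx : x ∈ J v) (m : ℕ) :
    x ^ m ∈ J (m * v) := by
  induction m with
  | zero => simpa using hJ.one
  | succ m ih =>
    rw [pow_succ, Nat.succ_mul]
    exact hJ.mul _ _ _ _ ih hx

omit [DecidableEq ι] in
theorem a4c_gen {J : ℕ → AddSubgroup R} (w : ι → ℕ) {d : ℕ} (s : ι → ℕ) {r : R}
    (hd : d ≤ ∑ i, s i) (hr : r ∈ J (∑ i, s i * w i)) :
    (fun a : ι → ZMod 5 => (∏ i, a i ^ s i) • r) ∈ PF J w d :=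
  AddSubgroup.subset_closure ⟨s, r, hd, hr, rfl⟩

theorem PF_one {J : ℕ → AddSubgroup R} (hJ : RFilt J) (w : ι → ℕ) :
    (1 : (ι → ZMod 5) → R) ∈ PF J w 0 := by
  have h := a4c_gen (J := J) w (d := 0) (fun _ => 0) (r := 1) (by simp) (by simpa using hJ.one)
  have e : (fun a : ι → ZMod 5 => (∏ i, a i ^ 0) • (1 : R)) = 1 := by
    funext a
    simp
  rw [← e]
  exact h

theorem PF_anti {J : ℕ → AddSubgroup R} (w : ι → ℕ) {d e : ℕ} (h : d ≤ e) :
    PF J w e ≤ PF J w d := by
  apply AddSubgroup.closure_mono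
  rintro q ⟨s, r, h1, h2, h3⟩
  exact ⟨s, r, h.trans h1, h2, h3⟩

theorem PF_mul {J : ℕ → AddSubgroup R} (hJ : RFilt J) (w : ι → ℕ) {d e : ℕ}
    {q q' : (ι → ZMod 5) → R} (hq : q ∈ PF J w d) (hq' : q' ∈ PF J w e) :
    q * q' ∈ PF J w (d + e) := by
  unfold PF at hq
  induction hq using AddSubgroup.closure_induction with
  | mem x hx =>
    obtain ⟨s, r, h1, h2, rfl⟩ := hx
    unfold PF at hq'
    induction hq' using AddSubgroup.closure_induction with
    | mem y hy =>
      obtain ⟨s', r', h1', h2', rfl⟩ := hy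
      have h := a4c_gen (J := J) w (d := d + e) (fun i => s i + s' i) (r := r * r')
        (by rw [Finset.sum_add_distrib]; omega) (by
          have : ∑ i, (s i + s' i) * w i = ∑ i, s i * w i + ∑ i, s' i * w i := by
            rw [← Finset.sum_add_distrib]
            exact Finset.sum_congr rfl fun i _ => add_mul _ _ _
          rw [this]
          exact hJ.mul _ _ _ _ h2 h2')
      convert h using 1
      funext a
      simp only [Pi.mul_apply, pow_add, Finset.prod_mul_distrib]
      rw [smul_mul_smul_comm]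
    | zero => rw [mul_zero]; exact zero_mem _
    | add y z hy hz h1 h2 => rw [mul_add]; exact add_mem h1 h2
    | neg y hy h => rw [mul_neg]; exact neg_mem h
  | zero => rw [zero_mul]; exact zero_mem _
  | add x y hx hy h1 h2 => rw [add_mul]; exact add_mem h1 h2
  | neg x hx h => rw [neg_mul]; exact neg_mem h

theorem kap_add (q q' : (ι → ZMod 5) → R) : kap (q + q') = kap q + kap q' := by
  simp only [kap, Pi.add_apply, smul_add, Finset.sum_add_distrib]

/-- `kap` of a monomial is `∏ᵢ (∑_a a ^ (sᵢ + 3))` (`Finset.prod_univ_sum`,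
`Fintype.piFinset_univ`), `sum_pow_zmod5`. -/
theorem kap_mono (s : ι → ℕ) (r : R) :
    kap (fun a : ι → ZMod 5 => (∏ i, a i ^ s i) • r) =
      (if ∀ i, s i % 4 = 1 then (-1 : R) ^ Fintype.card ι * r else 0) := by
  have e : kap (fun a : ι → ZMod 5 => (∏ i, a i ^ s i) • r) =
      (∏ i, ∑ x : ZMod 5, x ^ (s i + 3)) • r := by
    rw [Finset.prod_univ_sum, Fintype.piFinset_univ, Finset.sum_smul]
    unfold kap
    refine Finset.sum_congr rfl fun a _ => ?_
    rw [smul_smul, ← Finset.prod_mul_distrib]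
    congr 1
    refine Finset.prod_congr rfl fun i _ => ?_
    rw [← pow_add, add_comm]
  rw [e]
  simp only [sum_pow_zmod5]
  split_ifs with h
  · have : ∀ i, (if 0 < s i + 3 ∧ (s i + 3) % 4 = 0 then (-1 : ZMod 5) else 0) = -1 := by
      intro i
      have := h i
      rw [if_pos]
      omega
    simp only [this, Finset.prod_const, Finset.card_univ]
    rw [Algebra.smul_def, map_pow, map_neg, map_one]
  · push Not at h
    obtain ⟨i, hi⟩ := h
    rw [Finset.prod_eq_zero (Finset.mem_univ i), zero_smul]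
    rw [if_neg]
    omega

theorem a4c_zero : kap (0 : (ι → ZMod 5) → R) = 0 := by
  simp [kap]

theorem a4c_neg (q : (ι → ZMod 5) → R) : kap (-q) = -kap q := by
  simp [kap]

/-- If the degree is larger than the number of parameters, the multilinear part is in
`J (∑ wᵢ + 1)`: by `kap_mono` only monomials with all `sᵢ ≡ 1 (mod 4)` contribute, so all `sᵢ ≥ 1`
and some `sᵢ ≥ 5`, and `∑ sᵢ wᵢ ≥ ∑ wᵢ + 4`. -/
theorem kap_mem {J : ℕ → AddSubgroup R} (hJ : RFilt J) (w : ι → ℕ) (hw : ∀ i, 1 ≤ w i)
    {q : (ι → ZMod 5) → R} (hq : q ∈ PF J w (Fintype.card ι + 1)) :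
    kap q ∈ J ((∑ i, w i) + 1) := by
  unfold PF at hq
  induction hq using AddSubgroup.closure_induction with
  | mem q h =>
    obtain ⟨s, r, h1, h2, rfl⟩ := h
    rw [kap_mono]
    split_ifs with h
    · have hi : ∃ i, 5 ≤ s i := by
        by_contra hc
        push Not at hc
        have : ∀ i, s i = 1 := fun i => by
          have := hc i
          have := h i
          omega
        simp [this] at h1
      obtain ⟨i, hi⟩ := hi
      have hle : ∑ i, w i + 1 ≤ ∑ i, s i * w i := by
        have : ∑ i, w i < ∑ i, s i * w i := by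
          apply Finset.sum_lt_sum
          · intro j _
            have hj : 1 ≤ s j := by
              have := h j
              omega
            exact Nat.le_mul_of_pos_left _ hj
          · refine ⟨i, Finset.mem_univ i, ?_⟩
            have := hw i
            nlinarith
        omega
      have hr := a4c_anti hJ hle h2
      rcases neg_one_pow_eq_or R (Fintype.card ι) with h' | h' <;> rw [h']
      · rwa [one_mul]
      · rw [neg_one_mul]
        exact neg_mem hr
    · exact zero_mem _
  | zero => rw [a4c_zero]; exact zero_mem _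
  | add x y hx hy h1 h2 => rw [kap_add]; exact add_mem h1 h2
  | neg x hx h => rw [a4c_neg]; exact neg_mem h

theorem a4c_X5 {J : ℕ → AddSubgroup R} (hJ : RFilt J) {g : R} {v : ℕ} (hg : g - 1 ∈ J v) (j : ℕ) :
    X5 g j ∈ J (j * v) := by
  have hp : ∀ m, j ≤ m → (g - 1) ^ m ∈ J (j * v) := fun m hm =>
    a4c_anti hJ (Nat.mul_le_mul_right v hm) (a4c_pow hJ hg m)
  have h2 : ∀ x ∈ J (j * v), 2 * x ∈ J (j * v) := fun x hx => by
    rw [two_mul]; exact add_mem hx hx
  have h3 : ∀ x ∈ J (j * v), 3 * x ∈ J (j * v) := fun x hx => by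
    have : (3 : R) * x = x + x + x := by noncomm_ring
    rw [this]; exact add_mem (add_mem hx hx) hx
  have h4 : ∀ x ∈ J (j * v), 4 * x ∈ J (j * v) := fun x hx => by
    have : (4 : R) * x = x + x + x + x := by noncomm_ring
    rw [this]; exact add_mem (add_mem (add_mem hx hx) hx) hx
  match j with
  | 0 => simpa [X5] using hJ.one
  | 1 =>
    have := hp 1 le_rfl
    rw [pow_one] at this
    exact add_mem (add_mem (add_mem this (h2 _ (hp 2 (by omega)))) (h2 _ (hp 3 (by omega))))
      (hp 4 (by omega))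
  | 2 =>
    exact add_mem (add_mem (h3 _ (hp 2 (by omega))) (h2 _ (hp 3 (by omega))))
      (h4 _ (hp 4 (by omega)))
  | 3 => exact add_mem (hp 3 (by omega)) (hp 4 (by omega))
  | 4 => exact h4 _ (hp 4 (by omega))
  | (n + 5) => exact zero_mem _

theorem a4c_single {J : ℕ → AddSubgroup R} (hJ : RFilt J) (w : ι → ℕ) (i : ι) {g : R}
    (hg : g - 1 ∈ J (w i)) (j d : ℕ) (hd : d ≤ j) :
    (fun a : ι → ZMod 5 => (a i) ^ j • X5 g j) ∈ PF J w d := by
  have h := a4c_gen (J := J) w (d := d) (Pi.single i j) (r := X5 g j) (by simpa using hd) (by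
    have : ∑ k, (Pi.single i j : ι → ℕ) k * w k = j * w i := by
      rw [Finset.sum_eq_single i]
      · simp
      · intro b _ hb
        simp [Pi.single_eq_of_ne hb]
      · simp
    rw [this]
    exact a4c_X5 hJ hg j)
  convert h using 1
  funext a
  congr 1
  rw [Finset.prod_eq_single i]
  · simp
  · intro b _ hb
    simp [Pi.single_eq_of_ne hb]
  · simp

/-- `a ↦ g ^ (a i) - 1 - (a i) X₁` has degree `≥ 2` if `g - 1 ∈ J (w i)`: `pow_eq_X5`, and
`X5 g j ∈ J (j w i)` for `j ≤ 4`. -/
theorem PF_pow {J : ℕ → AddSubgroup R} (hJ : RFilt J) (w : ι → ℕ) (i : ι) {g : R}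
    (hg : g - 1 ∈ J (w i)) :
    (fun a : ι → ZMod 5 => g ^ (a i).val - 1 - (a i) • X5 g 1) ∈ PF J w 2 ∧
      (fun a : ι → ZMod 5 => (a i) • X5 g 1) ∈ PF J w 1 := by
  constructor
  · have h := add_mem (add_mem (a4c_single hJ w i hg 2 2 le_rfl)
      (a4c_single hJ w i hg 3 2 (by omega))) (a4c_single hJ w i hg 4 2 (by omega))
    convert h using 1
    funext a
    rw [pow_eq_X5]
    simp only [Finset.sum_range_succ, Finset.sum_range_zero, Pi.add_apply, pow_zero, pow_one,
      one_smul, zero_add]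
    rw [show X5 g 0 = 1 from rfl]
    abel
  · have h := a4c_single hJ w i hg 1 1 le_rfl
    simpa only [pow_one] using h

end Pool.Agent.Lib.H80F
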