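import Pool.Agent.Lib.H80F.A4c

/-!
# H80F, A4: expansion of a power of a sum
-/

namespace Pool.Agent.Lib.H80F

open Subgroup
open scoped commutatorElement

variable {R : Type} [Ring R] [Algebra (ZMod 5) R] {ι : Type} [Fintype ι] [DecidableEq ι]


/-- Expansion of a power of a sum into words. -/
theorem sum_pow_words {S : Type} [Ring S] {κ : Type} [Fintype κ] (y : κ → S) (n : ℕ) :
    (∑ k, y k) ^ n = ∑ f : Fin n → κ, (List.ofFn (fun j => y (f j))).prod := by
  classical
  induction n with
  | zero => simp
  | succ n ih =>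
    rw [pow_succ', ih, Finset.sum_mul_sum, ← Equiv.sum_comp (Fin.consEquiv (fun _ => κ)),
      Fintype.sum_prod_type]
    refine Finset.sum_congr rfl fun k _ => Finset.sum_congr rfl fun f _ => ?_
    rw [List.ofFn_succ, List.prod_cons]
    simp [Fin.consEquiv]

theorem a4d_word {n : ℕ} (m : ℕ) (x : Fin n → R) (a : Fin n → ZMod 5) (f : Fin m → Fin n) :
    (List.ofFn (fun j => a (f j) • x (f j))).prod =
      (∏ j, a (f j)) • (List.ofFn (fun j => x (f j))).prod := by
  induction m with
  | zero => simp
  | succ m ih =>
    rw [List.ofFn_succ, List.prod_cons, ih (fun j => f j.succ), Fin.prod_univ_succ,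
      List.ofFn_succ, List.prod_cons, smul_mul_smul_comm]

theorem a4d_kap_sum {κ : Type} (s : Finset κ) (q : κ → (ι → ZMod 5) → R) :
    kap (fun a => ∑ k ∈ s, q k a) = ∑ k ∈ s, kap (q k) := by
  classical
  induction s using Finset.induction_on with
  | empty =>
    simp only [Finset.sum_empty]
    exact a4c_zero
  | insert k s hk ih =>
    rw [Finset.sum_insert hk, ← ih, ← kap_add]
    congr 1
    funext a
    rw [Finset.sum_insert hk]
    rfl

/-- The multilinear part of `(∑ aᵢ xᵢ) ^ n` (`n` parameters): expand by `sum_pow_words`; a word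
`f : Fin n → Fin n` contributes the monomial with `sᵢ = #f⁻¹(i)`, which has all `sᵢ ≡ 1 (mod 4)`
if and only if `f` is a permutation (`∑ sᵢ = n`, so all `sᵢ ≥ 1` forces all `sᵢ = 1`). -/
theorem kap_linear {n : ℕ} (x : Fin n → R) :
    kap (fun a : Fin n → ZMod 5 => (∑ i, a i • x i) ^ n) =
      (-1 : R) ^ n * ∑ σ : Equiv.Perm (Fin n), (List.ofFn (fun i => x (σ i))).prod := by
  classical
  have e1 : (fun a : Fin n → ZMod 5 => (∑ i, a i • x i) ^ n) =
      fun a => ∑ f : Fin n → Fin n, (∏ i, a i ^ (Finset.univ.filter (fun j => f j = i)).card) •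
        (List.ofFn (fun j => x (f j))).prod := by
    funext a
    rw [sum_pow_words]
    refine Finset.sum_congr rfl fun f _ => ?_
    rw [a4d_word]
    congr 1
    rw [← Finset.prod_fiberwise_of_maps_to (g := f) (t := Finset.univ) (fun _ _ => Finset.mem_univ _)]
    refine Finset.prod_congr rfl fun i _ => ?_
    rw [Finset.prod_congr rfl (g := fun _ => a i)]
    · rw [Finset.prod_const]
    · intro j hj
      rw [(Finset.mem_filter.mp hj).2]
  rw [e1, a4d_kap_sum]
  simp only [kap_mono, Fintype.card_fin]
  rw [Finset.mul_sum]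
  symm
  apply Fintype.sum_of_injective (fun σ : Equiv.Perm (Fin n) => (σ : Fin n → Fin n))
    DFunLike.coe_injective
  · intro f hf
    rw [if_neg]
    intro h
    apply hf
    have hs : Function.Surjective f := by
      intro i
      have := h i
      have hne : (Finset.univ.filter (fun j => f j = i)).Nonempty := by
        rw [← Finset.card_pos]
        omega
      obtain ⟨j, hj⟩ := hne
      exact ⟨j, (Finset.mem_filter.mp hj).2⟩
    exact ⟨Equiv.ofBijective f (Finite.surjective_iff_bijective.mp hs), rfl⟩
  · intro σ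
    rw [if_pos]
    intro i
    have : (Finset.univ.filter (fun j => σ j = i)) = {σ.symm i} := by
      ext j
      simp [Equiv.eq_symm_apply]
    show (Finset.univ.filter (fun j => σ j = i)).card % 4 = 1
    rw [this]
    rfl

end Pool.Agent.Lib.H80F
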