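import Pool.Agent.Lib.H80F.A4d

/-!
# H80F, A4: polarisation
-/

namespace Pool.Agent.Lib.H80F

open Subgroup
open scoped commutatorElement

variable {R : Type} [Ring R] [Algebra (ZMod 5) R] {ι : Type} [Fintype ι] [DecidableEq ι]


theorem a4e_sub_mem {J : ℕ → AddSubgroup R} (hJ : RFilt J) {n : ℕ} (g : Fin n → R)
    (w : Fin n → ℕ) (hg : ∀ i, g i - 1 ∈ J (w i)) (i : Fin n) :
    (fun a : Fin n → ZMod 5 => g i ^ (a i).val) - 1 ∈ PF J w 1 ∧
      (fun a : Fin n → ZMod 5 => g i ^ (a i).val) - 1 -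
        (fun a : Fin n → ZMod 5 => (a i) • X5 (g i) 1) ∈ PF J w 2 ∧
      (fun a : Fin n → ZMod 5 => (a i) • X5 (g i) 1) ∈ PF J w 1 := by
  obtain ⟨h1, h2⟩ := PF_pow hJ w i (hg i)
  have h1' : (fun a : Fin n → ZMod 5 => g i ^ (a i).val) - 1 -
        (fun a : Fin n → ZMod 5 => (a i) • X5 (g i) 1) ∈ PF J w 2 := h1
  refine ⟨?_, h1', h2⟩
  have := add_mem (PF_anti w (show 1 ≤ 2 by omega) h1') h2
  rwa [sub_add_cancel] at this

theorem a4e_list {J : ℕ → AddSubgroup R} (hJ : RFilt J) {n : ℕ} (g : Fin n → R)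
    (w : Fin n → ℕ) (hg : ∀ i, g i - 1 ∈ J (w i)) (l : List (Fin n)) :
    (l.map (fun i => (fun a : Fin n → ZMod 5 => g i ^ (a i).val))).prod - 1 ∈ PF J w 1 ∧
      (l.map (fun i => (fun a : Fin n → ZMod 5 => g i ^ (a i).val))).prod - 1 -
        (l.map (fun i => (fun a : Fin n → ZMod 5 => (a i) • X5 (g i) 1))).sum ∈ PF J w 2 ∧
      (l.map (fun i => (fun a : Fin n → ZMod 5 => (a i) • X5 (g i) 1))).sum ∈ PF J w 1 := by
  induction l with
  | nil =>
    simp only [List.map_nil, List.prod_nil, List.sum_nil, sub_self]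
    exact ⟨zero_mem _, zero_mem _, zero_mem _⟩
  | cons i l ih =>
    obtain ⟨h1, h2, h3⟩ := a4e_sub_mem hJ g w hg i
    obtain ⟨k1, k2, k3⟩ := ih
    simp only [List.map_cons, List.prod_cons, List.sum_cons]
    generalize (fun a : Fin n → ZMod 5 => g i ^ (a i).val) = G at *
    generalize (fun a : Fin n → ZMod 5 => (a i) • X5 (g i) 1) = L at *
    generalize (l.map (fun i => (fun a : Fin n → ZMod 5 => g i ^ (a i).val))).prod = P at *
    generalize (l.map (fun i => (fun a : Fin n → ZMod 5 => (a i) • X5 (g i) 1))).sum = Q at *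
    have h4 : (G - 1) * (P - 1) ∈ PF J w (1 + 1) := PF_mul hJ w h1 k1
    have h5 : G * P - 1 - (L + Q) ∈ PF J w 2 := by
      have e : G * P - 1 - (L + Q) = (G - 1 - L) + (P - 1 - Q) + (G - 1) * (P - 1) := by
        noncomm_ring
      rw [e]
      exact add_mem (add_mem h2 k2) h4
    have h6 : L + Q ∈ PF J w 1 := add_mem h3 k3
    refine ⟨?_, h5, h6⟩
    have := add_mem (PF_anti w (show 1 ≤ 2 by omega) h5) h6
    rwa [sub_add_cancel] at this

theorem a4e_pow_mem {J : ℕ → AddSubgroup R} (hJ : RFilt J) (w : ι → ℕ)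
    {u : (ι → ZMod 5) → R} (hu : u ∈ PF J w 1) (n : ℕ) : u ^ n ∈ PF J w n := by
  induction n with
  | zero => rw [pow_zero]; exact PF_one hJ w
  | succ n ih => rw [pow_succ]; exact PF_mul hJ w ih hu

theorem a4e_pow_sub {J : ℕ → AddSubgroup R} (hJ : RFilt J) (w : ι → ℕ)
    {u v : (ι → ZMod 5) → R} (hu : u ∈ PF J w 1) (hv : v ∈ PF J w 1) (huv : u - v ∈ PF J w 2)
    (n : ℕ) : u ^ n - v ^ n ∈ PF J w (n + 1) := by
  induction n with
  | zero => rw [pow_zero, pow_zero, sub_self]; exact zero_mem _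
  | succ n ih =>
    have e : u ^ (n + 1) - v ^ (n + 1) = u ^ n * (u - v) + (u ^ n - v ^ n) * v := by
      rw [pow_succ, pow_succ]; noncomm_ring
    rw [e]
    have h1 := PF_mul hJ w (a4e_pow_mem hJ w hu n) huv
    have h2 := PF_mul hJ w ih hv
    exact add_mem h1 h2

theorem a4e_word_mem {J : ℕ → AddSubgroup R} (hJ : RFilt J) {κ : Type} (w : κ → ℕ) (x : κ → R)
    (hx : ∀ i, x i ∈ J (w i)) (l : List κ) : (l.map x).prod ∈ J (l.map w).sum := by
  induction l with
  | nil => exact hJ.one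
  | cons i l ih =>
    simp only [List.map_cons, List.prod_cons, List.sum_cons]
    exact hJ.mul _ _ _ _ (hx i) ih

theorem a4e_word_sub {J : ℕ → AddSubgroup R} (hJ : RFilt J) {κ : Type} (w : κ → ℕ) (x y : κ → R)
    (hx : ∀ i, x i ∈ J (w i)) (hy : ∀ i, y i ∈ J (w i)) (hxy : ∀ i, x i - y i ∈ J (w i + 1))
    (l : List κ) : (l.map x).prod - (l.map y).prod ∈ J ((l.map w).sum + 1) := by
  induction l with
  | nil => simp only [List.map_nil, sub_self]; exact zero_mem _
  | cons i l ih =>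
    simp only [List.map_cons, List.prod_cons, List.sum_cons]
    have e : x i * (l.map x).prod - y i * (l.map y).prod =
        x i * ((l.map x).prod - (l.map y).prod) + (x i - y i) * (l.map y).prod := by
      noncomm_ring
    rw [e]
    refine add_mem ?_ ?_
    · have := hJ.mul _ _ _ _ (hx i) ih
      rwa [← add_assoc] at this
    · have := hJ.mul _ _ _ _ (hxy i) (a4e_word_mem hJ w y hy l)
      rwa [show w i + 1 + (l.map w).sum = w i + (l.map w).sum + 1 by ring] at this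

theorem a4e_X5 {J : ℕ → AddSubgroup R} (hJ : RFilt J) {g : R} {v : ℕ} (hv : 1 ≤ v)
    (hg : g - 1 ∈ J v) : X5 g 1 - (g - 1) ∈ J (v + 1) := by
  have hp : ∀ m, 2 ≤ m → (g - 1) ^ m ∈ J (v + 1) := fun m hm =>
    a4c_anti hJ (by nlinarith) (a4c_pow hJ hg m)
  have h2 : ∀ x ∈ J (v + 1), 2 * x ∈ J (v + 1) := fun x hx => by
    rw [two_mul]; exact add_mem hx hx
  have e : X5 g 1 - (g - 1) = 2 * (g - 1) ^ 2 + 2 * (g - 1) ^ 3 + (g - 1) ^ 4 := by
    rw [X5]; abel
  rw [e]
  exact add_mem (add_mem (h2 _ (hp 2 le_rfl)) (h2 _ (hp 3 (by omega)))) (hp 4 (by omega))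

/-- **Polarisation.** `h a = ∏ gᵢ ^ (aᵢ)`, ordered product. `h - 1 = ∑ aᵢ X5 gᵢ 1 + (PF 2)` (induction
on the number of factors), so `(h - 1) ^ n = (∑ aᵢ X5 gᵢ 1) ^ n + (PF (n + 1))` (`PF_mul`), and by
`kap_mem`, `kap_linear` the left sum is `(-1) ^ n` times the symmetrised product of the `X5 gᵢ 1`
modulo `J (∑ w + 1)`; finally `X5 gᵢ 1 - (gᵢ - 1) ∈ J (wᵢ + 1)` and the symmetrised product is
multilinear. -/
theorem param {J : ℕ → AddSubgroup R} (hJ : RFilt J) {n : ℕ} (hn : 1 ≤ n) (g : Fin n → R)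
    (w : Fin n → ℕ) (hw : ∀ i, 1 ≤ w i) (hg : ∀ i, g i - 1 ∈ J (w i)) :
    (∑ a : Fin n → ZMod 5, (∏ i, a i ^ 3) •
      (((List.ofFn (fun i => g i ^ (a i).val)).prod - 1) ^ n)) -
      (-1 : R) ^ n * ∑ σ : Equiv.Perm (Fin n), (List.ofFn (fun i => g (σ i) - 1)).prod ∈
      J ((∑ i, w i) + 1) := by
  obtain ⟨h1, h2, h3⟩ := a4e_list hJ g w hg (List.finRange n)
  have hpow := a4e_pow_sub hJ w h1 h3 h2 n
  have hkap := kap_mem hJ w hw (q := _) (by rw [Fintype.card_fin]; exact hpow)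
  set P : (Fin n → ZMod 5) → R :=
    ((List.finRange n).map (fun i => (fun a : Fin n → ZMod 5 => g i ^ (a i).val))).prod with hP
  set L : (Fin n → ZMod 5) → R :=
    ((List.finRange n).map (fun i => (fun a : Fin n → ZMod 5 => (a i) • X5 (g i) 1))).sum with hL
  have hPa : ∀ a, P a = (List.ofFn (fun i => g i ^ (a i).val)).prod := by
    intro a
    rw [hP, List.ofFn_eq_map]
    induction List.finRange n with
    | nil => rfl
    | cons i l ih =>
      simp only [List.map_cons, List.prod_cons, Pi.mul_apply, ih]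
  have hLa : L = fun a => ∑ i, a i • X5 (g i) 1 := by
    funext a
    rw [← List.sum_ofFn, hL, List.ofFn_eq_map]
    induction List.finRange n with
    | nil => rfl
    | cons i l ih =>
      simp only [List.map_cons, List.sum_cons, Pi.add_apply, ih]
  have hk1 : kap ((P - 1) ^ n) = ∑ a : Fin n → ZMod 5, (∏ i, a i ^ 3) •
      (((List.ofFn (fun i => g i ^ (a i).val)).prod - 1) ^ n) := by
    unfold kap
    refine Finset.sum_congr rfl fun a _ => ?_
    rw [Pi.pow_apply, Pi.sub_apply, hPa, Pi.one_apply]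
  have hk2 : kap (L ^ n) =
      (-1 : R) ^ n * ∑ σ : Equiv.Perm (Fin n), (List.ofFn (fun i => X5 (g (σ i)) 1)).prod := by
    have h := kap_linear (fun i => X5 (g i) 1)
    rw [← h, hLa]
    rfl
  rw [sub_eq_add_neg, kap_add, a4c_neg, hk1, hk2, ← sub_eq_add_neg] at hkap
  have hw2 : ∀ σ : Equiv.Perm (Fin n), (List.ofFn (fun i => X5 (g (σ i)) 1)).prod -
      (List.ofFn (fun i => g (σ i) - 1)).prod ∈ J ((∑ i, w i) + 1) := by
    intro σ
    have h := a4e_word_sub hJ (fun i => w (σ i)) (fun i => X5 (g (σ i)) 1)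
      (fun i => g (σ i) - 1) (fun i => by simpa using a4c_X5 hJ (hg (σ i)) 1) (fun i => hg (σ i))
      (fun i => a4e_X5 hJ (hw _) (hg (σ i))) (List.finRange n)
    rw [← List.ofFn_eq_map, ← List.ofFn_eq_map, ← List.ofFn_eq_map, List.sum_ofFn,
      Equiv.sum_comp σ w] at h
    exact h
  have hsum : ∑ σ : Equiv.Perm (Fin n), (List.ofFn (fun i => X5 (g (σ i)) 1)).prod -
      ∑ σ : Equiv.Perm (Fin n), (List.ofFn (fun i => g (σ i) - 1)).prod ∈ J ((∑ i, w i) + 1) := by
    rw [← Finset.sum_sub_distrib]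
    exact sum_mem fun σ _ => hw2 σ
  have hsum' : (-1 : R) ^ n * (∑ σ : Equiv.Perm (Fin n), (List.ofFn (fun i => X5 (g (σ i)) 1)).prod -
      ∑ σ : Equiv.Perm (Fin n), (List.ofFn (fun i => g (σ i) - 1)).prod) ∈ J ((∑ i, w i) + 1) := by
    rcases neg_one_pow_eq_or R n with h' | h' <;> rw [h']
    · rwa [one_mul]
    · rw [neg_one_mul]
      exact neg_mem hsum
  have := add_mem hkap hsum'
  convert this using 1
  rw [mul_sub]
  abel

end Pool.Agent.Lib.H80F
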