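import Pool.Agent.Lib.H80F.Defs

/-!
# H80F, more definitions
-/

namespace Pool.Agent.Lib.H80F

open Subgroup
open scoped commutatorElement


/-- The embedding `G → kG`. -/
noncomputable abbrev th (p : ℕ) (G : Type) [Group G] : G →* MonoidAlgebra (ZMod p) G :=
  MonoidAlgebra.of (ZMod p) G

section

variable {G : Type} [Group G]

/-- The filtration restricted to a subgroup. -/
def resF {G : Type} [Group G] (F : ℕ → Subgroup G) (H : Subgroup G) (m : ℕ) : Subgroup H :=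
  (F m).subgroupOf H

/-- The subspaces `K b m = ∑_{j ≤ b} (g - 1) ^ j J₁ (m - j i₀)`, where `J₁ n` is the image in `kG`
of the `n`-th term of the filtration of `k G₁` (`n` a natural number, `m - j i₀` truncated). -/
noncomputable def Kb (p : ℕ) (F : ℕ → Subgroup G) (H : Subgroup G) (g : G) (i₀ b m : ℕ) :
    AddSubgroup (MonoidAlgebra (ZMod p) G) :=
  ⨆ j : Fin (b + 1), (J ((th p G).comp H.subtype) (resF F H) (m - j * i₀)).map
    (AddMonoidHom.mulLeft ((th p G g - 1) ^ (j : ℕ)))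

end

/-- `X₁, X₂, X₃, X₄`: the coefficients of `g ^ a` as a polynomial in `a ∈ F₅`, for `g ^ 5 = 1`. -/
def X5 {R : Type} [Ring R] (g : R) : ℕ → R
  | 0 => 1
  | 1 => (g - 1) + 2 * (g - 1) ^ 2 + 2 * (g - 1) ^ 3 + (g - 1) ^ 4
  | 2 => 3 * (g - 1) ^ 2 + 2 * (g - 1) ^ 3 + 4 * (g - 1) ^ 4
  | 3 => (g - 1) ^ 3 + (g - 1) ^ 4
  | 4 => 4 * (g - 1) ^ 4
  | _ => 0

section

variable {R : Type} [Ring R] [Algebra (ZMod 5) R] {ι : Type} [Fintype ι] [DecidableEq ι]

/-- The functions of the parameters `a ∈ F₅ ^ ι` which are combinations of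
`a ↦ (∏ aᵢ ^ sᵢ) r` with `r ∈ J (∑ sᵢ wᵢ)`, `∑ sᵢ ≥ d`. -/
def PF (J : ℕ → AddSubgroup R) (w : ι → ℕ) (d : ℕ) : AddSubgroup ((ι → ZMod 5) → R) :=
  AddSubgroup.closure {q | ∃ (s : ι → ℕ) (r : R), d ≤ ∑ i, s i ∧ r ∈ J (∑ i, s i * w i) ∧
    q = fun a => (∏ i, a i ^ s i) • r}

/-- The extraction of the multilinear part. -/
def kap (q : (ι → ZMod 5) → R) : R := ∑ a : ι → ZMod 5, (∏ i, a i ^ 3) • q a

end

/-- The alphabet: group elements with a weight. -/
abbrev AlF {G : Type} [Group G] (F : ℕ → Subgroup G) : Type := {q : ℕ × G // 1 ≤ q.1 ∧ q.2 ∈ F q.1}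

/-- The bracket. -/
def brF {G : Type} [Group G] {F : ℕ → Subgroup G} (hF : NSer F) (a b : AlF F) : AlF F :=
  ⟨(a.1.1 + b.1.1, ⁅a.1.2, b.1.2⁆), by
    have h1 := a.2.1
    show 1 ≤ a.1.1 + b.1.1
    omega, hF.comm _ _ (commutator_mem_commutator a.2.2 b.2.2)⟩

/-- The total weight. -/
def wtF {G : Type} [Group G] {F : ℕ → Subgroup G} (w : List (AlF F)) : ℕ :=
  (w.map (fun q => q.1.1)).sum

section

variable {G R : Type} [Group G] [Ring R] (θ : G →* R) {F : ℕ → Subgroup G}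

/-- The iterated commutator of `θ y - 1` with the `θ g - 1`, `g` in the word `w`, in order. -/
def adw (y : AlF F) (w : List (AlF F)) : R := lw (fun q : AlF F => θ q.1.2 - 1) y w.reverse

open Classical in
/-- The adjoint functional in total weight `k`. -/
noncomputable def adE (k : ℕ) (y : AlF F) (w : List (AlF F)) : R ⧸ J θ F (k + 1) :=
  if y.1.1 + wtF w = k then (QuotientAddGroup.mk (adw θ y w)) else 0

end

theorem w4_pos (Λ : ℕ) (i : Fin 4) : 1 ≤ w4 Λ i := by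
  unfold w4; split_ifs <;> omega

section

variable {R : Type} [Ring R] [Algebra (ZMod 5) R]

/-- The functions of two parameters which are combinations of `(l, m) ↦ (l ^ s m ^ t) r` with
`r ∈ J ((s + t) W)`, `t ≥ d`. -/
def PG (J : ℕ → AddSubgroup R) (W d : ℕ) : AddSubgroup (ZMod 5 → ZMod 5 → R) :=
  AddSubgroup.closure {q | ∃ (s t : ℕ) (r : R), d ≤ t ∧ r ∈ J ((s + t) * W) ∧
    q = fun l m => (l ^ s * m ^ t) • r}

/-- The extraction of the coefficient of `l ^ 3 m`. -/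
def kp : (ZMod 5 → ZMod 5 → R) →+ R where
  toFun q := ∑ l : ZMod 5, ∑ m : ZMod 5, (l * m ^ 3) • q l m
  map_zero' := by simp
  map_add' q q' := by simp [smul_add, Finset.sum_add_distrib]

end

section

variable {G : Type} [Group G]

/-- The homomorphism `x₀ ↦ b₀ b₃ ^ l`, `x₁ ↦ b₁`, `x₂ ↦ b₂`. -/
def sg (b : Fin 4 → G) (l : ZMod 5) : FreeGroup (Fin 3) →* G :=
  FreeGroup.lift (fun i => if i = 0 then b 0 * b 3 ^ l.val else b i.castSucc)

/-- The function which appears as the exponent in `prod_conj`. -/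
def ff (g : FreeGroup (Fin 3)) (l m : ZMod 5) : ZMod 5 :=
  Multiplicative.toAdd (e3 0 g) * Multiplicative.toAdd (e3 1 g) ^ 4 *
    Multiplicative.toAdd (e3 2 g) ^ 4 *
    ((l * Multiplicative.toAdd (e3 0 g) + m) ^ 4 - (l * Multiplicative.toAdd (e3 0 g)) ^ 4)

/-- The function `(l, m) ↦ v (b₃ ^ m - 1) v⁻¹` (`v` replaced by `sg b l v`). -/
noncomputable def Wf (b : Fin 4 → G) (v : FreeGroup (Fin 3)) :
    ZMod 5 → ZMod 5 → MonoidAlgebra (ZMod 5) G :=
  fun l m => th 5 G (sg b l v) * (th 5 G (b 3) ^ m.val - 1) * th 5 G (sg b l v)⁻¹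

/-- The function on the free group on three letters. -/
noncomputable def phiF (b : Fin 4 → G) (Φ : MonoidAlgebra (ZMod 5) G →ₗ[ZMod 5] ZMod 5)
    (v : FreeGroup (Fin 3)) : ZMod 5 := Φ (kp (Wf b v))

end

/-- A ring with elements `θ g` for which `1 + θ g + ... + (θ g) ^ 4 = ψ (g) ν`. -/
structure RM {R : Type} [Ring R] [Algebra (ZMod 5) R] (θ : FreeGroup (Fin 3) →* R) (ν : R) :
    Prop where
  pow : ∀ g, ∑ j ∈ Finset.range 5, θ g ^ j = psi g • ν
  left : ∀ g, (θ g - 1) * ν = 0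
  right : ∀ g, ν * (θ g - 1) = 0
  nil : ∃ N, ∀ l : List (FreeGroup (Fin 3)), N ≤ l.length → (l.map (fun g => θ g - 1)).prod = 0

section

variable {R : Type} [Ring R] [Algebra (ZMod 5) R]

open Classical in
/-- The product functional in total weight `n`. -/
noncomputable def wE {G : Type} [Group G] (θ : G →* R) {F : ℕ → Subgroup G} (n : ℕ)
    (w : List (AlF F)) : R ⧸ J θ F (n + 1) :=
  if wtF w = n then (QuotientAddGroup.mk ((w.map (fun q => θ q.1.2 - 1)).prod)) else 0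

/-- The weights with one heavy letter. -/
def w3 (Λ : ℕ) (i j : Fin 3) : ℕ := if j = i then Λ + 1 else 1

theorem w3_pos (Λ : ℕ) (i j : Fin 3) : 1 ≤ w3 Λ i j := by
  unfold w3; split_ifs <;> omega

/-- The multifiltration: degree `s i` in the letter `i`. -/
def KK (θ : FreeGroup (Fin 3) →* R) (Λ : ℕ) (s : Fin 3 → ℕ) : AddSubgroup R :=
  ⨅ i, J θ (wf FreeGroup.of (w3 Λ i)) ((Λ + 1) * s i)

/-- The product of six factors. -/
def pr6 (X Y Z : ℕ → R) (i j k : ℕ) : R := X i * Y j * Z k * X (4 - i) * Y (4 - j) * Z (4 - k)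

/-- The standard weights. -/
def w1 (_ : Fin 3) : ℕ := 1

theorem w1_pos (i : Fin 3) : 1 ≤ w1 i := le_rfl

/-- The endomorphism `xᵢ ↦ xᵢ ^ (τᵢ)`. -/
def st (τ : Fin 3 → (ZMod 5)ˣ) : FreeGroup (Fin 3) →* FreeGroup (Fin 3) :=
  FreeGroup.lift (fun i => FreeGroup.of i ^ (τ i : ZMod 5).val)

/-- The representation in the ring of functions on the torus. -/
def thT (θ : FreeGroup (Fin 3) →* R) : FreeGroup (Fin 3) →* ((Fin 3 → (ZMod 5)ˣ) → R) where
  toFun g τ := θ (st τ g)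
  map_one' := by funext τ; simp
  map_mul' a b := by funext τ; simp

/-- The functions on the torus which are combinations of `τ ↦ (∏ τᵢ ^ sᵢ) r` with `r` of multidegree
`s`, `∑ s ≥ d`. -/
def QF (θ : FreeGroup (Fin 3) →* R) (Λ d : ℕ) : AddSubgroup ((Fin 3 → (ZMod 5)ˣ) → R) :=
  AddSubgroup.closure {q | ∃ (s : Fin 3 → ℕ) (r : R), d ≤ ∑ i, s i ∧ r ∈ KK θ Λ s ∧
    q = fun τ => (∏ i, (τ i : ZMod 5) ^ s i) • r}

end

end Pool.Agent.Lib.H80F
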