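import Pool.Agent.Lib.H80U.Setup
import Pool.Agent.Lib.H80F.Defs2

/-!
# H80F, A4: the augmentation ideal is nilpotent
-/

namespace Pool.Agent.Lib.H80F

open Subgroup
open scoped commutatorElement


theorem a4f_step {p : ℕ} [NeZero p] {G : Type} [Group G] (φ : G → ZMod p) (y : G)
    (X : MonoidAlgebra (ZMod p) G) :
    lext p φ ((MonoidAlgebra.of (ZMod p) G y - 1) * X) = lext p (H80U.delta y φ) X := by
  have h : (lext p φ).toAddMonoidHom.comp
      (AddMonoidHom.mulLeft (MonoidAlgebra.of (ZMod p) G y - 1)) =
      (lext p (H80U.delta y φ)).toAddMonoidHom := by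
    apply hom_ext_of
    intro x
    show lext p φ ((MonoidAlgebra.of (ZMod p) G y - 1) * MonoidAlgebra.of (ZMod p) G x) =
      lext p (H80U.delta y φ) (MonoidAlgebra.of (ZMod p) G x)
    rw [sub_mul, one_mul, ← map_mul, map_sub, lext_of, lext_of, lext_of]
    rfl
  exact DFunLike.congr_fun h X

theorem a4f_Dl {p : ℕ} [NeZero p] {G : Type} [Group G] (l : List G) (φ : G → ZMod p) :
    lext p φ ((l.map (fun g => MonoidAlgebra.of (ZMod p) G g - 1)).prod) = H80U.Dl φ l := by
  induction l generalizing φ with
  | nil =>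
    rw [List.map_nil, List.prod_nil, ← map_one (MonoidAlgebra.of (ZMod p) G), lext_of]
    rfl
  | cons y l ih =>
    rw [List.map_cons, List.prod_cons, a4f_step, ih]
    rfl

open Classical in
theorem a4f_coeff {p : ℕ} {G : Type} [Group G] (x : G) (X : MonoidAlgebra (ZMod p) G) :
    lext p (Pi.single x 1 : G → ZMod p) X = (MonoidAlgebra.coeffLinearEquiv (ZMod p) X) x := by
  simp only [lext, LinearMap.comp_apply, LinearEquiv.coe_coe, Finsupp.lift_apply]
  generalize (MonoidAlgebra.coeffLinearEquiv (ZMod p) X) = f
  rw [Finsupp.sum, Finset.sum_eq_single x]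
  · simp
  · intro b _ hb
    simp [Pi.single_eq_of_ne hb]
  · intro hx
    rw [Finsupp.notMem_support_iff.mp hx, zero_smul]

/-- The augmentation ideal of the group algebra of a finite `p`-group is nilpotent. One way: by
`Pool.Agent.Lib.H80U.nilF_all` (in `Pool.Agent.Lib.H80U.Setup`) every function `φ : G → ZMod p` has
vanishing deviations of large order, and the deviation `Dl φ l` is the value of the linear extension
of `φ` at `∏ (g - 1)`; apply this to the translates of the finitely many coordinate functions.
Another way: induction on the order, with a central subgroup of order `p`. -/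
theorem aug_nilpotent {p : ℕ} [hp : Fact p.Prime] {G : Type} [Group G] [Finite G]
    (hG : IsPGroup p G) : ∃ N, ∀ l : List G, N ≤ l.length →
      (l.map (fun g => MonoidAlgebra.of (ZMod p) G g - 1)).prod = 0 := by
  classical
  haveI : NeZero p := ⟨hp.out.ne_zero⟩
  haveI := Fintype.ofFinite G
  have h : ∀ x : G, ∃ k, ∀ l : List G, k ≤ l.length → H80U.Dl (Pi.single x 1 : G → ZMod p) l = 0 :=
    fun x => H80U.nilF_all hG _
  choose k hk using h
  refine ⟨Finset.univ.sup k, fun l hl => ?_⟩
  apply (MonoidAlgebra.coeffLinearEquiv (ZMod p)).injective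
  rw [map_zero]
  ext x
  rw [← a4f_coeff, a4f_Dl, hk x l ((Finset.le_sup (Finset.mem_univ x)).trans hl)]
  rfl

end Pool.Agent.Lib.H80F
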