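import Pool.Agent.Lib.H80F.Defs2

/-!
# H80F, A5: from functionals on words to rings
-/

namespace Pool.Agent.Lib.H80F

open Subgroup
open scoped commutatorElement


section A5

variable {α M : Type} [AddCommGroup M]

/-- The right shift of functions on words. -/
def a5shift (a : α) : (List α → M) →+ (List α → M) where
  toFun f := fun x => f (x ++ [a])
  map_zero' := rfl
  map_add' _ _ := rfl

/-- The functions `x ↦ E (x ++ v)`. -/
def a5f (E : List α → M) (v : List α) : List α → M := fun x => E (x ++ v)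

/-- The additive group generated by these functions. -/
def a5N (E : List α → M) : AddSubgroup (List α → M) := AddSubgroup.closure (Set.range (a5f E))

theorem a5shift_f (E : List α → M) (a : α) (v : List α) :
    a5shift a (a5f E v) = a5f E (a :: v) := by
  funext x
  show E (x ++ [a] ++ v) = E (x ++ a :: v)
  rw [List.append_assoc]; rfl

theorem a5shift_mem (E : List α → M) (a : α) {f : List α → M} (hf : f ∈ a5N E) :
    a5shift a f ∈ a5N E := by
  have h1 : (a5N E).map (a5shift a) ≤ a5N E := by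
    rw [a5N, AddMonoidHom.map_closure, AddSubgroup.closure_le]
    rintro _ ⟨_, ⟨v, rfl⟩, rfl⟩
    rw [a5shift_f]
    exact AddSubgroup.subset_closure ⟨_, rfl⟩
  exact h1 ⟨f, hf, rfl⟩

/-- The shift as an endomorphism. -/
def a5T (E : List α → M) (a : α) : AddMonoid.End (a5N E) :=
  ((a5shift a).comp (a5N E).subtype).codRestrict (a5N E) (fun x => a5shift_mem E a x.2)

/-- The generators. -/
def a5g (E : List α → M) (v : List α) : a5N E := ⟨a5f E v, AddSubgroup.subset_closure ⟨v, rfl⟩⟩

theorem a5T_g (E : List α → M) (a : α) (v : List α) : a5T E a (a5g E v) = a5g E (a :: v) :=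
  Subtype.ext (a5shift_f E a v)

theorem a5_ext {E : List α → M} {φ ψ : AddMonoid.End (a5N E)}
    (h : ∀ v, φ (a5g E v) = ψ (a5g E v)) : φ = ψ := by
  apply AddMonoidHom.ext
  rintro ⟨f, hf⟩
  induction hf using AddSubgroup.closure_induction with
  | mem y hy =>
    obtain ⟨v, rfl⟩ := hy
    exact h v
  | zero => exact (map_zero φ).trans (map_zero ψ).symm
  | add y z hy1 hz1 hy hz =>
    exact (map_add φ ⟨y, hy1⟩ ⟨z, hz1⟩).trans
      ((congrArg₂ (· + ·) hy hz).trans (map_add ψ ⟨y, hy1⟩ ⟨z, hz1⟩).symm)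
  | neg y hy1 hy =>
    exact (map_neg φ ⟨y, hy1⟩).trans ((congrArg (- ·) hy).trans (map_neg ψ ⟨y, hy1⟩).symm)

theorem a5_mul {E : List α → M} (φ ψ : AddMonoid.End (a5N E)) (x : a5N E) :
    (φ * ψ) x = φ (ψ x) := rfl

theorem a5_sub {E : List α → M} (φ ψ : AddMonoid.End (a5N E)) (x : a5N E) :
    (φ - ψ) x = φ x - ψ x := rfl

theorem a5_prod (E : List α → M) (w v : List α) :
    ((w.map (a5T E)).prod : AddMonoid.End (a5N E)) (a5g E v) = a5g E (w ++ v) := by
  induction w with
  | nil => rfl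
  | cons a w ih =>
    rw [List.map_cons, List.prod_cons, a5_mul, ih, a5T_g]; rfl

end A5

/-- **From words to a ring.** Make `M` a `ZMod 5`-module (`AddCommGroup.zmodModule`), let
`P = MonoidAlgebra (ZMod 5) (FreeMonoid α)` and `Ē = lext 5 E : P → M`. The set
`I = {a | ∀ u v : FreeMonoid α, Ē (of u * a * of v) = 0}` is a two-sided ideal; let `A = P ⧸ I`
(`TwoSidedIdeal`, `RingCon.Quotient`), `mk a` the class of the word `[a]`, `ev` induced by `Ē`. The
identities of `WF4` say that the corresponding elements of `P` are in `I`. -/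
theorem words_ring {α M : Type} [AddCommGroup M] (h5 : ∀ m : M, (5 : ℕ) • m = 0)
    {br : α → α → α} {E : List α → M} (hE : WF4 br E) :
    ∃ (A : Type) (_ : Ring A) (mk : α → A) (ev : A →+ M), (5 : A) = 0 ∧
      LieSet (Set.range mk) ∧ (∀ a b, mk (br a b) = mk a * mk b - mk b * mk a) ∧
      (∀ w : List α, ev ((w.map mk).prod) = E w) ∧
      (∀ a : α, (∀ u v, E (u ++ a :: v) = 0) → mk a = 0) := by
  have hbr : ∀ a b, a5T E (br a b) = a5T E a * a5T E b - a5T E b * a5T E a := by
    intro a b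
    apply a5_ext
    intro v
    rw [a5_sub]
    rw [a5_mul, a5_mul, a5T_g, a5T_g, a5T_g, a5T_g, a5T_g]
    apply Subtype.ext
    funext x
    exact hE.br x v a b
  refine ⟨AddMonoid.End (a5N E), inferInstance, a5T E,
    { toFun := fun φ => (φ (a5g E [])).1 [], map_zero' := rfl, map_add' := fun _ _ => rfl },
    ?_, ⟨?_, ?_⟩, hbr, ?_, ?_⟩
  · apply a5_ext
    intro v
    have h1 : (5 : AddMonoid.End (a5N E)) = ((5 : ℕ) : AddMonoid.End (a5N E)) := by norm_num
    rw [h1, AddMonoid.End.natCast_apply]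
    apply Subtype.ext
    funext x
    exact h5 _
  · rintro _ ⟨a, rfl⟩ _ ⟨b, rfl⟩
    exact ⟨br a b, hbr a b⟩
  · intro a ha
    choose c hc using ha
    apply a5_ext
    intro v
    have h1 : ∀ σ : Equiv.Perm (Fin 4), (a (σ 0) * a (σ 1) * a (σ 2) * a (σ 3)) (a5g E v) =
        a5g E (c (σ 0) :: c (σ 1) :: c (σ 2) :: c (σ 3) :: v) := by
      intro σ
      rw [← hc, ← hc, ← hc, ← hc, a5_mul, a5_mul,
        a5_mul, a5T_g, a5T_g, a5T_g, a5T_g]
    have h2 : (∑ σ : Equiv.Perm (Fin 4), a (σ 0) * a (σ 1) * a (σ 2) * a (σ 3)) (a5g E v) =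
        ∑ σ : Equiv.Perm (Fin 4), (a (σ 0) * a (σ 1) * a (σ 2) * a (σ 3)) (a5g E v) :=
      AddMonoidHom.finsetSum_apply _ _ _
    rw [h2]
    simp_rw [h1]
    apply Subtype.ext
    funext x
    rw [AddSubgroup.val_finsetSum, Finset.sum_apply]
    exact hE.s4 x v c
  · intro w
    show ((((w.map (a5T E)).prod : AddMonoid.End (a5N E)) (a5g E [])).1 []) = E w
    rw [a5_prod]
    show E ([] ++ (w ++ [])) = E w
    simp
  · intro a ha
    apply a5_ext
    intro v
    rw [a5T_g]
    apply Subtype.ext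
    funext x
    exact ha x v

end Pool.Agent.Lib.H80F
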