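import Pool.Agent.Lib.H80F.C1b

/-!
# H80F, C1c: the reduction
-/

namespace Pool.Agent.Lib.H80F

theorem c1c_list {A : Type} (l : List (Option A)) : ∀ n, l.countP Option.isSome = n →
    ∃ (b : Fin n → A) (l' : List (Option (Fin n))), l'.map (Option.map b) = l ∧
      ∀ i, l'.count (some i) = 1 := by
  induction l with
  | nil =>
    rintro n hn
    simp only [List.countP_nil] at hn
    subst hn
    exact ⟨fun i => i.elim0, [], rfl, fun i => i.elim0⟩
  | cons a l ih =>
    intro n hn
    cases a with
    | none =>
      obtain ⟨b, l', h1, h2⟩ := ih n (by simpa [List.countP_cons] using hn)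
      refine ⟨b, none :: l', ?_, fun i => ?_⟩
      · rw [List.map_cons, h1]
        rfl
      · rw [List.count_cons, h2]
        simp
    | some a =>
      obtain ⟨m, rfl⟩ : ∃ m, n = m + 1 := ⟨l.countP Option.isSome, by
        rw [← hn, List.countP_cons]
        simp⟩
      obtain ⟨b, l', h1, h2⟩ := ih m (by
        rw [List.countP_cons] at hn
        simpa using hn)
      refine ⟨Fin.cons a b, some 0 :: l'.map (Option.map Fin.succ), ?_, fun i => ?_⟩
      · rw [List.map_cons, List.map_map, ← h1]
        congr 1
        apply List.map_congr_left
        intro o _
        cases o <;> simp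
      · rw [List.count_cons]
        refine Fin.cases ?_ (fun k => ?_) i
        · have h3 : (l'.map (Option.map Fin.succ)).count (some (0 : Fin (m + 1))) = 0 := by
            rw [List.count_eq_zero]
            intro h4
            obtain ⟨o, _, ho⟩ := List.mem_map.1 h4
            cases o with
            | none => simp at ho
            | some k =>
              simp only [Option.map_some, Option.some.injEq] at ho
              exact absurd ho (Fin.succ_ne_zero k)
          rw [h3]
          simp
        · have h3 : (l'.map (Option.map Fin.succ)).count (some (Fin.succ k)) =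
              l'.count (some k) :=
            List.count_map_of_injective l' (Option.map Fin.succ)
              (Option.map_injective (Fin.succ_injective m)) (some k)
          rw [h3, h2]
          have h4 : (some (0 : Fin (m + 1)) == some (Fin.succ k)) = false := by
            rw [beq_eq_false_iff_ne]
            intro h5
            exact absurd (Option.some.inj h5).symm (Fin.succ_ne_zero k)
          rw [h4]
          simp

theorem c1c_cw {r : ℕ} (l : List (Option (Fin r))) :
    cw (l.map (FreeMagma.of)) = fun o => l.count o := by
  induction l with
  | nil =>
    funext o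
    simp [cw]
  | cons a l ih =>
    have h : cw ((a :: l).map (FreeMagma.of)) = Pi.single a 1 + cw (l.map (FreeMagma.of)) := by
      simp [cw, ct]
    rw [h, ih]
    funext o
    rw [Pi.add_apply, List.count_cons]
    by_cases ho : a = o
    · subst ho
      simp [add_comm]
    · rw [Pi.single_eq_of_ne (Ne.symm ho)]
      simp [ho]

/-- Let `l` be a word with exactly `r` other letters (if it has fewer, the induction hypothesis
applies), `b i`, `i < r`, the other letters in order, `y none = x`, `y (some i) = b i`, and `l'` the word
in `Option (Fin r)` with `l = l'.map ...`, in which every `some i` occurs once. With `κ` the content of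
`l'` apply `words_ring` to `Ec_wf4`: a ring `A'`, `mk`, `ev`. In `A'` the elements `mk (some i)` commute:
`mk (some i) mk (some j) - mk (some j) mk (some i) = mk [some i, some j] = 0` by `Ec_comm_zero` and the
last clause of `words_ring`. So the product of the `mk` of the letters of `l'` vanishes by `Nc7c` for
`A'`, `Set.range mk`; apply `ev`. -/
theorem nc7r_of_nc7c (h : Nc7c) : ∀ r, Nc7r r := by
  intro r
  induction r with
  | zero =>
    intro A _ h5 L hL x hx l hl hs h7
    have h0 : ∀ b, some b ∉ l := by
      intro b hb
      have h1 : l.countP Option.isSome = 0 := Nat.le_zero.1 hs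
      rw [List.countP_eq_zero] at h1
      exact h1 _ hb rfl
    exact h A h5 L hL x hx l hl (fun b b' hb _ => absurd hb (h0 b)) h7
  | succ r ih =>
    intro A _ h5 L hL x hx l hl hs h7
    by_cases hr : l.countP Option.isSome ≤ r
    · exact ih A h5 L hL x hx l hl hr h7
    have hr' : l.countP Option.isSome = r + 1 := by omega
    obtain ⟨b, l', h1, h2⟩ := c1c_list l (r + 1) hr'
    obtain ⟨y, hy⟩ : ∃ y : Option (Fin (r + 1)) → A, y = fun o => o.elim x b := ⟨_, rfl⟩
    have hyn : y none = x := by rw [hy]; rfl
    have hys : ∀ i, y (some i) = b i := fun i => by rw [hy]; rfl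
    have hyL : ∀ o, y o ∈ L := by
      intro o
      cases o with
      | none => rw [hyn]; exact hx
      | some i =>
        rw [hys]
        apply hl
        rw [← h1]
        refine List.mem_map.2 ⟨some i, ?_, rfl⟩
        rw [← List.count_pos_iff, h2]
        exact one_pos
    have hn : l'.count none = l.countP Option.isNone := by
      rw [← c1b_countP_none, ← h1, List.countP_map]
      apply List.countP_congr
      intro a _
      cases a <;> simp
    obtain ⟨κ, hκ⟩ : ∃ κ : Option (Fin (r + 1)) → ℕ, κ = fun o => l'.count o := ⟨_, rfl⟩
    have h5' : ∀ m : A, (5 : ℕ) • m = 0 := by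
      intro m
      rw [nsmul_eq_mul]
      have : ((5 : ℕ) : A) = 0 := by exact_mod_cast h5
      rw [this, zero_mul]
    obtain ⟨A', _, mk, ev, hA5, hL', hbr, hev, hz⟩ := words_ring h5' (Ec_wf4 hL y hyL κ)
    have hcomm : ∀ i j : Fin (r + 1), mk (.of (some i)) * mk (.of (some j)) =
        mk (.of (some j)) * mk (.of (some i)) := by
      intro i j
      by_cases hij : i = j
      · rw [hij]
      have e1 := hbr (.of (some i)) (.of (some j))
      have e2 := hz (FreeMagma.mul (.of (some i)) (.of (some j))) (fun u v =>
        Ec_comm_zero h5 hL y hyL ih (by rw [hκ]; show 7 ≤ l'.count none; rw [hn]; exact h7)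
          (fun k => by rw [hκ]; exact h2 k) hij u v)
      have e3 : mk (FreeMagma.mul (.of (some i)) (.of (some j))) =
        mk (.of (some i)) * mk (.of (some j)) - mk (.of (some j)) * mk (.of (some i)) := e1
      rw [e2] at e3
      exact (sub_eq_zero.1 e3.symm)
    have key := h A' hA5 (Set.range mk) hL' (mk (.of none)) ⟨_, rfl⟩
      (l'.map (Option.map (fun i => mk (.of (some i))))) ?_ ?_ ?_
    · have e1 : ((l'.map (Option.map (fun i => mk (.of (some i))))).map
          (fun o => o.getD (mk (.of none)))) = (l'.map FreeMagma.of).map mk := by
        rw [List.map_map, List.map_map]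
        apply List.map_congr_left
        intro o _
        cases o <;> rfl
      rw [e1] at key
      have e2 := hev (l'.map FreeMagma.of)
      rw [key, map_zero] at e2
      have e3 : Ec y κ (l'.map FreeMagma.of) = ((l'.map FreeMagma.of).map (vl y)).prod := by
        unfold Ec
        rw [if_pos]
        rw [c1c_cw, hκ]
      rw [e3] at e2
      rw [← h1, List.map_map]
      rw [List.map_map] at e2
      rw [e2]
      congr 1
      apply List.map_congr_left
      intro o _
      cases o with
      | none => exact hyn.symm
      | some i => exact (hys i).symm
    · intro c hc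
      obtain ⟨o, _, ho⟩ := List.mem_map.1 hc
      cases o with
      | none => simp at ho
      | some i =>
        simp only [Option.map_some, Option.some.injEq] at ho
        exact ⟨_, ho⟩
    · intro c c' hc hc'
      obtain ⟨o, _, ho⟩ := List.mem_map.1 hc
      obtain ⟨o', _, ho'⟩ := List.mem_map.1 hc'
      cases o with
      | none => simp at ho
      | some i =>
        cases o' with
        | none => simp at ho'
        | some j =>
          simp only [Option.map_some, Option.some.injEq] at ho ho'
          rw [← ho, ← ho']
          exact hcomm i j
    · rw [List.countP_map]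
      have e1 : l'.countP (Option.isNone ∘ Option.map (fun i => mk (.of (some i)))) =
          l'.countP Option.isNone := by
        apply List.countP_congr
        intro a _
        cases a <;> simp
      rw [e1, c1b_countP_none, hn]
      exact h7

/-- The statement `nc7` of `B0`, with `l.map (Option.map b)`. -/
theorem nc7_of_nc7c (hc : Nc7c) {A : Type} [Ring A] (h5 : (5 : A) = 0) {L : Set A}
    (hL : LieSet L) {x : A} (hx : x ∈ L) {κ : Type} (b : κ → A) (hb : ∀ i, b i ∈ L)
    (l : List (Option κ)) (h : 7 ≤ l.countP Option.isNone) :
    (l.map (fun o => o.elim x b)).prod = 0 := by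
  have key := nc7r_of_nc7c hc _ A h5 L hL x hx (l.map (Option.map b)) ?_ le_rfl ?_
  · rw [List.map_map] at key
    rw [← key]
    congr 1
    apply List.map_congr_left
    intro o _
    cases o <;> rfl
  · intro c hc
    obtain ⟨o, _, ho⟩ := List.mem_map.1 hc
    cases o with
    | none => simp at ho
    | some i =>
      simp only [Option.map_some, Option.some.injEq] at ho
      rw [← ho]
      exact hb i
  · rw [List.countP_map]
    have e1 : l.countP (Option.isNone ∘ Option.map b) = l.countP Option.isNone := by
      apply List.countP_congr
      intro a _
      cases a <;> simp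
    rw [e1]
    exact h

end Pool.Agent.Lib.H80F
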