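import Pool.Agent.Lib.H80F.G
import Pool.Agent.Lib.H80F.D3

/-!
# H80F, checks (generated)
-/

namespace Pool.Agent.Lib.H80F

set_option maxRecDepth 1000000

theorem rA220 : chkR upP dnP (Ts2 TL2 220) (tb2 TL2 220) (8191 * rep (tb2 TL2 220).d) = true := by
  decide +kernel

end Pool.Agent.Lib.H80F
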