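import Pool.Agent.Lib.H80F.G
import Pool.Agent.Lib.H80F.D3

/-!
# H80F, checks (generated)
-/

namespace Pool.Agent.Lib.H80F

set_option maxRecDepth 1000000

theorem tA220_t : chks (E2 TL2 (de2 220)) (tk2 220) (Ts2 TL2 220) lA220 = true := by
  decide +kernel

theorem sA164 : SB upP dnP (Ts2 TL2 164) (tb2 TL2 164) (lA164.map Prod.snd) fA164 = true := by
  decide +kernel

theorem bA164_0 : LB upP dnP (Ts2 TL2 164) (tb2 TL2 164) (lA164.map Prod.snd) fA164 mA164_0 0 = true := by
  decide +kernel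

end Pool.Agent.Lib.H80F
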