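import Pool.Agent.Lib.H80F.S2a1

/-!
# H80F, S2a: low degree
-/

namespace Pool.Agent.Lib.H80F

variable {A : Type} [Ring A] {TL : List (List (List Tab))}

theorem s2a2_nth {X : Type} {l : List X} (x₀ : X) {i n : ℕ} (h : l.length ≤ n) (hi : n ≤ i) :
    nth l x₀ i = x₀ := by
  rw [nth_eq]
  exact List.getD_eq_default _ _ (h.trans hi)

theorem s2a2_mem {X : Type} (l : List X) (x₀ : X) (i : ℕ) : nth l x₀ i ∈ l ∨ nth l x₀ i = x₀ := by
  rw [nth_eq]
  rcases lt_or_ge i l.length with h | h
  · left
    rw [List.getD_eq_getElem _ _ h]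
    exact List.getElem_mem h
  · right
    exact List.getD_eq_default _ _ h

theorem s2a2_vd {c : ℕ} (hc : vd2 c = false) : 5 ≤ c / 64 ∨ 5 ≤ c / 8 % 8 ∨ 5 ≤ c % 8 := by
  by_contra h
  push Not at h
  obtain ⟨h1, h2, h3⟩ := h
  have : vd2 c = true := by
    unfold vd2
    rw [an_iff, an_iff]
    refine ⟨Nat.ble_eq_true_of_le ?_, Nat.ble_eq_true_of_le ?_, Nat.ble_eq_true_of_le ?_⟩
    · show c / 64 ≤ 4
      omega
    · show c / 8 % 8 ≤ 4
      omega
    · show c % 8 ≤ 4
      omega
  rw [this] at hc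
  exact absurd hc (by simp)

/-- `Low2.inv` from the lengths of the nested lists: a digit of an invalid code is at least `5`. -/
theorem inv_of_len (h1 : TL.length ≤ 5) (h2 : ∀ l ∈ TL, l.length ≤ 5)
    (h3 : ∀ l ∈ TL, ∀ l' ∈ l, l'.length ≤ 5) (c : ℕ) (hc : vd2 c = false) : tb2 TL c = z3 := by
  show nth (nth (nth TL [] (c / 64)) [] (c / 8 % 8)) z3 (c % 8) = z3
  rcases s2a2_vd hc with h | h | h
  · rw [s2a2_nth [] h1 h, nth_nil, nth_nil]
  · rcases s2a2_mem TL [] (c / 64) with hm | hm
    · rw [s2a2_nth [] (h2 _ hm) h, nth_nil]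
    · rw [hm, nth_nil, nth_nil]
  · rcases s2a2_mem TL [] (c / 64) with hm | hm
    · rcases s2a2_mem (nth TL [] (c / 64)) [] (c / 8 % 8) with hn | hn
      · exact s2a2_nth z3 (h3 _ hm _ hn) h
      · rw [hn, nth_nil]
    · rw [hm, nth_nil, nth_nil]

theorem s2a2_sel {X : Type} (l : List X) : sel l 0 = [] := by
  induction l with
  | nil => rfl
  | cons x l ih => rw [sel_cons, if_neg (by norm_num), Nat.zero_div, ih]

theorem s2a2_nv (x : ℕ → A) (U : ℕ → List A) : nv 3 x U [0, 0, 0] = [] := by
  unfold nv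
  rw [List.flatMap_eq_nil_iff]
  intro a ha
  rw [List.mem_range] at ha
  have : nth [0, 0, 0] 0 a = 0 := by
    interval_cases a <;> rfl
  rw [this, s2a2_sel]

/-- An invalid code has no values: `Low2.inv`, the bit masks of `z3` are `0`. -/
theorem V2_inv (hT : Low2 TL) (X : ℕ → A) (n : ℕ) {c : ℕ} (hc : vd2 c = false) :
    V2 TL X n c = [] := by
  cases n with
  | zero =>
    show (if c = 0 then [1] else []) = ([] : List A)
    rw [if_neg]
    rintro rfl
    have : vd2 0 = true := rfl
    rw [this] at hc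
    exact absurd hc (by simp)
  | succ n =>
    show nv 3 X (fun a => V2 TL X n (pc2 c a)) (tb2 TL c).bm = []
    rw [hT.inv c hc]
    exact s2a2_nv _ _

/-- The empty table is correct. -/
theorem z3_ok (x : ℕ → A) (U : ℕ → List A) (hU : ∀ a < 3, U a = []) : NodeOK 3 x U z3 [] := by
  have hL : ∀ a < 3, nth z3.L [] a = [] := by
    intro a ha
    interval_cases a <;> rfl
  have hR : ∀ a < 3, nth z3.R [] a = [] := by
    intro a ha
    interval_cases a <;> rfl
  exact
    { val := (s2a2_nv x U).symm
      bm := rfl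
      len := rfl
      d := by norm_num [z3]
      bL := fun a ha r hr => by
        rw [hL a ha] at hr
        exact absurd hr (by simp)
      bR := fun a ha r hr => by
        rw [hR a ha] at hr
        exact absurd hr (by simp)
      left := fun a ha => by rw [hL a ha, hU a ha]; rfl
      right := fun a ha => by rw [hR a ha, hU a ha]; rfl }

theorem s2a2_B1 {r : ℕ} (h : r = 1) : Bn 7 1 r := by
  subst h
  exact ⟨by norm_num, rfl⟩

theorem s2a2_ev (v : A) : ev [v] 1 = v := ev_one v []

/-- The nodes of degree one. -/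
theorem node_one (hT : Low2 TL) (X : ℕ → A) {c : ℕ} (hc : c = 64 ∨ c = 8 ∨ c = 1) :
    NodeOK 3 X (fun a => V2 TL X 0 (pc2 c a)) (tb2 TL c) (V2 TL X 1 c) := by
  rcases hc with rfl | rfl | rfl
  · have e0 : V2 TL X 0 (pc2 64 0) = [1] := rfl
    have e1 : V2 TL X 0 (pc2 64 1) = [] := rfl
    have e2 : V2 TL X 0 (pc2 64 2) = [] := rfl
    have eV : V2 TL X 1 64 = [X 0 * 1] := by
      show nv 3 X (fun a => V2 TL X 0 (pc2 64 a)) (tb2 TL 64).bm = _
      rw [hT.t1]
      rfl
    rw [eV, hT.t1]
    refine ⟨?_, rfl, rfl, by norm_num, ?_, ?_, ?_, ?_⟩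
    · rfl
    · intro a ha r hr
      interval_cases a
      · exact s2a2_B1 (List.mem_singleton.1 (show r ∈ [1] from hr))
      · exact absurd (show r ∈ ([] : List ℕ) from hr) List.not_mem_nil
      · exact absurd (show r ∈ ([] : List ℕ) from hr) List.not_mem_nil
    · intro a ha r hr
      interval_cases a
      · exact s2a2_B1 (List.mem_singleton.1 (show r ∈ [1] from hr))
      · exact absurd (show r ∈ ([] : List ℕ) from hr) List.not_mem_nil
      · exact absurd (show r ∈ ([] : List ℕ) from hr) List.not_mem_nil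
    · intro a ha
      interval_cases a
      · show [X 0 * 1] = [ev [X 0 * 1] 1]
        rw [s2a2_ev]
      · rfl
      · rfl
    · intro a ha
      interval_cases a
      · show [1 * X 0] = [ev [X 0 * 1] 1]
        rw [s2a2_ev, one_mul, mul_one]
      · rfl
      · rfl
  · have eV : V2 TL X 1 8 = [X 1 * 1] := by
      show nv 3 X (fun a => V2 TL X 0 (pc2 8 a)) (tb2 TL 8).bm = _
      rw [hT.t2]
      rfl
    rw [eV, hT.t2]
    refine ⟨?_, rfl, rfl, by norm_num, ?_, ?_, ?_, ?_⟩
    · rfl
    · intro a ha r hr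
      interval_cases a
      · exact absurd (show r ∈ ([] : List ℕ) from hr) List.not_mem_nil
      · exact s2a2_B1 (List.mem_singleton.1 (show r ∈ [1] from hr))
      · exact absurd (show r ∈ ([] : List ℕ) from hr) List.not_mem_nil
    · intro a ha r hr
      interval_cases a
      · exact absurd (show r ∈ ([] : List ℕ) from hr) List.not_mem_nil
      · exact s2a2_B1 (List.mem_singleton.1 (show r ∈ [1] from hr))
      · exact absurd (show r ∈ ([] : List ℕ) from hr) List.not_mem_nil
    · intro a ha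
      interval_cases a
      · rfl
      · show [X 1 * 1] = [ev [X 1 * 1] 1]
        rw [s2a2_ev]
      · rfl
    · intro a ha
      interval_cases a
      · rfl
      · show [1 * X 1] = [ev [X 1 * 1] 1]
        rw [s2a2_ev, one_mul, mul_one]
      · rfl
  · have eV : V2 TL X 1 1 = [X 2 * 1] := by
      show nv 3 X (fun a => V2 TL X 0 (pc2 1 a)) (tb2 TL 1).bm = _
      rw [hT.t3]
      rfl
    rw [eV, hT.t3]
    refine ⟨?_, rfl, rfl, by norm_num, ?_, ?_, ?_, ?_⟩
    · rfl
    · intro a ha r hr
      interval_cases a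
      · exact absurd (show r ∈ ([] : List ℕ) from hr) List.not_mem_nil
      · exact absurd (show r ∈ ([] : List ℕ) from hr) List.not_mem_nil
      · exact s2a2_B1 (List.mem_singleton.1 (show r ∈ [1] from hr))
    · intro a ha r hr
      interval_cases a
      · exact absurd (show r ∈ ([] : List ℕ) from hr) List.not_mem_nil
      · exact absurd (show r ∈ ([] : List ℕ) from hr) List.not_mem_nil
      · exact s2a2_B1 (List.mem_singleton.1 (show r ∈ [1] from hr))
    · intro a ha
      interval_cases a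
      · rfl
      · rfl
      · show [X 2 * 1] = [ev [X 2 * 1] 1]
        rw [s2a2_ev]
    · intro a ha
      interval_cases a
      · rfl
      · rfl
      · show [1 * X 2] = [ev [X 2 * 1] 1]
        rw [s2a2_ev, one_mul, mul_one]

end Pool.Agent.Lib.H80F
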