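import Pool.Agent.Lib.H80F.K2_00
import Pool.Agent.Lib.H80F.K2_01
import Pool.Agent.Lib.H80F.K2_02
import Pool.Agent.Lib.H80F.K2_03
import Pool.Agent.Lib.H80F.K2_04
import Pool.Agent.Lib.H80F.K2_05
import Pool.Agent.Lib.H80F.K2_06
import Pool.Agent.Lib.H80F.K2_07
import Pool.Agent.Lib.H80F.K2_08
import Pool.Agent.Lib.H80F.K2_09
import Pool.Agent.Lib.H80F.K2_10
import Pool.Agent.Lib.H80F.K2_11
import Pool.Agent.Lib.H80F.K2_12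
import Pool.Agent.Lib.H80F.K2_13
import Pool.Agent.Lib.H80F.K2_14
import Pool.Agent.Lib.H80F.K2_15
import Pool.Agent.Lib.H80F.K2_16
import Pool.Agent.Lib.H80F.K2_17
import Pool.Agent.Lib.H80F.K2_18
import Pool.Agent.Lib.H80F.K2_19
import Pool.Agent.Lib.H80F.K2_20
import Pool.Agent.Lib.H80F.K2_21
import Pool.Agent.Lib.H80F.K2_22
import Pool.Agent.Lib.H80F.K2_23
import Pool.Agent.Lib.H80F.K2_24
import Pool.Agent.Lib.H80F.K2_25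
import Pool.Agent.Lib.H80F.K2_26
import Pool.Agent.Lib.H80F.K2_27
import Pool.Agent.Lib.H80F.K2_28
import Pool.Agent.Lib.H80F.K2_29
import Pool.Agent.Lib.H80F.K2_30
import Pool.Agent.Lib.H80F.K2_31
import Pool.Agent.Lib.H80F.K2_32
import Pool.Agent.Lib.H80F.K2_33
import Pool.Agent.Lib.H80F.K2_34
import Pool.Agent.Lib.H80F.K2_35
import Pool.Agent.Lib.H80F.K2_36
import Pool.Agent.Lib.H80F.K2_37
import Pool.Agent.Lib.H80F.K2_38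
import Pool.Agent.Lib.H80F.K2_39
import Pool.Agent.Lib.H80F.K2_40
import Pool.Agent.Lib.H80F.K2_41
import Pool.Agent.Lib.H80F.K2_42
import Pool.Agent.Lib.H80F.K2_43
import Pool.Agent.Lib.H80F.K2_44
import Pool.Agent.Lib.H80F.K2_45
import Pool.Agent.Lib.H80F.K2_46
import Pool.Agent.Lib.H80F.K2_47
import Pool.Agent.Lib.H80F.K2_48
import Pool.Agent.Lib.H80F.K2_49
import Pool.Agent.Lib.H80F.K2_50
import Pool.Agent.Lib.H80F.K2_51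
import Pool.Agent.Lib.H80F.K2_52
import Pool.Agent.Lib.H80F.K2_53
import Pool.Agent.Lib.H80F.K2_54
import Pool.Agent.Lib.H80F.K2_55
import Pool.Agent.Lib.H80F.K2_56
import Pool.Agent.Lib.H80F.K2_57
import Pool.Agent.Lib.H80F.K2_58
import Pool.Agent.Lib.H80F.K2_59
import Pool.Agent.Lib.H80F.K2_60
import Pool.Agent.Lib.H80F.K2_61
import Pool.Agent.Lib.H80F.K2_62
import Pool.Agent.Lib.H80F.S2a2

/-!
# H80F, all checks for three letters (generated)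
-/

namespace Pool.Agent.Lib.H80F

set_option maxRecDepth 1000000

theorem ck2_218 : CK2 TL2 218 :=
  ck2_mk3 lA218 fA218 mA218_0 mA218_1 mA218_2 sA218 bA218_0 bA218_1 bA218_2 rA218 tA218_t

theorem ck2_211 : CK2 TL2 211 :=
  ck2_mk3 lA211 fA211 mA211_0 mA211_1 mA211_2 sA211 bA211_0 bA211_1 bA211_2 rA211 tA211_t

theorem ck2_155 : CK2 TL2 155 :=
  ck2_mk3 lA155 fA155 mA155_0 mA155_1 mA155_2 sA155 bA155_0 bA155_1 bA155_2 rA155 tA155_t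

theorem ck2_282 : CK2 TL2 282 :=
  ck2_mk3 lA282 fA282 mA282_0 mA282_1 mA282_2 sA282 bA282_0 bA282_1 bA282_2 rA282 tA282_t

theorem ck2_275 : CK2 TL2 275 :=
  ck2_mk3 lA275 fA275 mA275_0 mA275_1 mA275_2 sA275 bA275_0 bA275_1 bA275_2 rA275 tA275_t

theorem ck2_226 : CK2 TL2 226 :=
  ck2_mk3 lA226 fA226 mA226_0 mA226_1 mA226_2 sA226 bA226_0 bA226_1 bA226_2 rA226 tA226_t

theorem ck2_219 : CK2 TL2 219 :=
  ck2_mk3 lA219 fA219 mA219_0 mA219_1 mA219_2 sA219 bA219_0 bA219_1 bA219_2 rA219 tA219_t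

theorem ck2_212 : CK2 TL2 212 :=
  ck2_mk3 lA212 fA212 mA212_0 mA212_1 mA212_2 sA212 bA212_0 bA212_1 bA212_2 rA212 tA212_t

theorem ck2_163 : CK2 TL2 163 :=
  ck2_mk3 lA163 fA163 mA163_0 mA163_1 mA163_2 sA163 bA163_0 bA163_1 bA163_2 rA163 tA163_t

theorem ck2_156 : CK2 TL2 156 :=
  ck2_mk3 lA156 fA156 mA156_0 mA156_1 mA156_2 sA156 bA156_0 bA156_1 bA156_2 rA156 tA156_t

theorem ck2_290 : CK2 TL2 290 :=
  ck2_mk3 lA290 fA290 mA290_0 mA290_1 mA290_2 sA290 bA290_0 bA290_1 bA290_2 rA290 tA290_t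

theorem ck2_283 : CK2 TL2 283 :=
  ck2_mk3 lA283 fA283 mA283_0 mA283_1 mA283_2 sA283 bA283_0 bA283_1 bA283_2 rA283 tA283_t

theorem ck2_276 : CK2 TL2 276 :=
  ck2_mk3 lA276 fA276 mA276_0 mA276_1 mA276_2 sA276 bA276_0 bA276_1 bA276_2 rA276 tA276_t

theorem ck2_227 : CK2 TL2 227 :=
  ck2_mk3 lA227 fA227 mA227_0 mA227_1 mA227_2 sA227 bA227_0 bA227_1 bA227_2 rA227 tA227_t

theorem ck2_220 : CK2 TL2 220 :=
  ck2_mk3 lA220 fA220 mA220_0 mA220_1 mA220_2 sA220 bA220_0 bA220_1 bA220_2 rA220 tA220_t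

theorem ck2_164 : CK2 TL2 164 :=
  ck2_mk3 lA164 fA164 mA164_0 mA164_1 mA164_2 sA164 bA164_0 bA164_1 bA164_2 rA164 tA164_t

theorem ck2_291 : CK2 TL2 291 :=
  ck2_mk3 lA291 fA291 mA291_0 mA291_1 mA291_2 sA291 bA291_0 bA291_1 bA291_2 rA291 tA291_t

theorem ck2_284 : CK2 TL2 284 :=
  ck2_mk3 lA284 fA284 mA284_0 mA284_1 mA284_2 sA284 bA284_0 bA284_1 bA284_2 rA284 tA284_t

theorem ck2_228 : CK2 TL2 228 :=
  ck2_mk3 lA228 fA228 mA228_0 mA228_1 mA228_2 sA228 bA228_0 bA228_1 bA228_2 rA228 tA228_t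

theorem ck2_292 : CK2 TL2 292 :=
  ck2_mk3 lA292 fA292 mA292_0 mA292_1 mA292_2 sA292 bA292_0 bA292_1 bA292_2 rA292 tA292_t

theorem k2b_0 : ∀ c ∈ [128, 72, 65, 16, 9, 2, 192, 136, 129, 80, 73, 66, 24, 17, 10, 3, 256, 200, 193, 144], CK2 TL2 c :=
  List.forall_mem_cons.2 ⟨ck2_128, List.forall_mem_cons.2 ⟨ck2_72, List.forall_mem_cons.2 ⟨ck2_65, List.forall_mem_cons.2 ⟨ck2_16, List.forall_mem_cons.2 ⟨ck2_9, List.forall_mem_cons.2 ⟨ck2_2, List.forall_mem_cons.2 ⟨ck2_192, List.forall_mem_cons.2 ⟨ck2_136, List.forall_mem_cons.2 ⟨ck2_129, List.forall_mem_cons.2 ⟨ck2_80, List.forall_mem_cons.2 ⟨ck2_73, List.forall_mem_cons.2 ⟨ck2_66, List.forall_mem_cons.2 ⟨ck2_24, List.forall_mem_cons.2 ⟨ck2_17, List.forall_mem_cons.2 ⟨ck2_10, List.forall_mem_cons.2 ⟨ck2_3, List.forall_mem_cons.2 ⟨ck2_256, List.forall_mem_cons.2 ⟨ck2_200, List.forall_mem_cons.2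 ⟨ck2_193, List.forall_mem_cons.2 ⟨ck2_144, List.forall_mem_nil _⟩⟩⟩⟩⟩⟩⟩⟩⟩⟩⟩⟩⟩⟩⟩⟩⟩⟩⟩⟩

theorem k2b_1 : ∀ c ∈ [137, 130, 88, 81, 74, 67, 32, 25, 18, 11, 4, 264, 257, 208, 201, 194, 152, 145, 138, 131], CK2 TL2 c :=
  List.forall_mem_cons.2 ⟨ck2_137, List.forall_mem_cons.2 ⟨ck2_130, List.forall_mem_cons.2 ⟨ck2_88, List.forall_mem_cons.2 ⟨ck2_81, List.forall_mem_cons.2 ⟨ck2_74, List.forall_mem_cons.2 ⟨ck2_67, List.forall_mem_cons.2 ⟨ck2_32, List.forall_mem_cons.2 ⟨ck2_25, List.forall_mem_cons.2 ⟨ck2_18, List.forall_mem_cons.2 ⟨ck2_11, List.forall_mem_cons.2 ⟨ck2_4, List.forall_mem_cons.2 ⟨ck2_264, List.forall_mem_cons.2 ⟨ck2_257, List.forall_mem_cons.2 ⟨ck2_208, List.forall_mem_cons.2 ⟨ck2_201, List.forall_mem_cons.2 ⟨ck2_194, List.forall_mem_cons.2 ⟨ck2_152, List.forall_mem_cons.2 ⟨ck2_145, List.forall_mem_cons.2 ⟨ck2_138, List.forall_mem_cons.2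 ⟨ck2_131, List.forall_mem_nil _⟩⟩⟩⟩⟩⟩⟩⟩⟩⟩⟩⟩⟩⟩⟩⟩⟩⟩⟩⟩

theorem k2b_2 : ∀ c ∈ [96, 89, 82, 75, 68, 33, 26, 19, 12, 272, 265, 258, 216, 209, 202, 195, 160, 153, 146, 139], CK2 TL2 c :=
  List.forall_mem_cons.2 ⟨ck2_96, List.forall_mem_cons.2 ⟨ck2_89, List.forall_mem_cons.2 ⟨ck2_82, List.forall_mem_cons.2 ⟨ck2_75, List.forall_mem_cons.2 ⟨ck2_68, List.forall_mem_cons.2 ⟨ck2_33, List.forall_mem_cons.2 ⟨ck2_26, List.forall_mem_cons.2 ⟨ck2_19, List.forall_mem_cons.2 ⟨ck2_12, List.forall_mem_cons.2 ⟨ck2_272, List.forall_mem_cons.2 ⟨ck2_265, List.forall_mem_cons.2 ⟨ck2_258, List.forall_mem_cons.2 ⟨ck2_216, List.forall_mem_cons.2 ⟨ck2_209, List.forall_mem_cons.2 ⟨ck2_202, List.forall_mem_cons.2 ⟨ck2_195, List.forall_mem_cons.2 ⟨ck2_160, List.forall_mem_cons.2 ⟨ck2_153, List.forall_mem_cons.2 ⟨ck2_146, List.forall_mem_cons.2 ⟨ck2_139, List.forall_mem_nil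 _⟩⟩⟩⟩⟩⟩⟩⟩⟩⟩⟩⟩⟩⟩⟩⟩⟩⟩⟩⟩

theorem k2b_3 : ∀ c ∈ [132, 97, 90, 83, 76, 34, 27, 20, 280, 273, 266, 259, 224, 217, 210, 203, 196, 161, 154, 147], CK2 TL2 c :=
  List.forall_mem_cons.2 ⟨ck2_132, List.forall_mem_cons.2 ⟨ck2_97, List.forall_mem_cons.2 ⟨ck2_90, List.forall_mem_cons.2 ⟨ck2_83, List.forall_mem_cons.2 ⟨ck2_76, List.forall_mem_cons.2 ⟨ck2_34, List.forall_mem_cons.2 ⟨ck2_27, List.forall_mem_cons.2 ⟨ck2_20, List.forall_mem_cons.2 ⟨ck2_280, List.forall_mem_cons.2 ⟨ck2_273, List.forall_mem_cons.2 ⟨ck2_266, List.forall_mem_cons.2 ⟨ck2_259, List.forall_mem_cons.2 ⟨ck2_224, List.forall_mem_cons.2 ⟨ck2_217, List.forall_mem_cons.2 ⟨ck2_210, List.forall_mem_cons.2 ⟨ck2_203, List.forall_mem_cons.2 ⟨ck2_196, List.forall_mem_cons.2 ⟨ck2_161, List.forall_mem_cons.2 ⟨ck2_154, List.forall_mem_cons.2 ⟨ck2_147, List.forall_mem_nil _⟩⟩⟩⟩⟩⟩⟩⟩⟩⟩⟩⟩⟩⟩⟩⟩⟩⟩⟩⟩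

theorem k2b_4 : ∀ c ∈ [140, 98, 91, 84, 35, 28, 288, 281, 274, 267, 260, 225, 218, 211, 204, 162, 155, 148, 99, 92], CK2 TL2 c :=
  List.forall_mem_cons.2 ⟨ck2_140, List.forall_mem_cons.2 ⟨ck2_98, List.forall_mem_cons.2 ⟨ck2_91, List.forall_mem_cons.2 ⟨ck2_84, List.forall_mem_cons.2 ⟨ck2_35, List.forall_mem_cons.2 ⟨ck2_28, List.forall_mem_cons.2 ⟨ck2_288, List.forall_mem_cons.2 ⟨ck2_281, List.forall_mem_cons.2 ⟨ck2_274, List.forall_mem_cons.2 ⟨ck2_267, List.forall_mem_cons.2 ⟨ck2_260, List.forall_mem_cons.2 ⟨ck2_225, List.forall_mem_cons.2 ⟨ck2_218, List.forall_mem_cons.2 ⟨ck2_211, List.forall_mem_cons.2 ⟨ck2_204, List.forall_mem_cons.2 ⟨ck2_162, List.forall_mem_cons.2 ⟨ck2_155, List.forall_mem_cons.2 ⟨ck2_148, List.forall_mem_cons.2 ⟨ck2_99, List.forall_mem_cons.2 ⟨ck2_92, List.forall_mem_nil _⟩⟩⟩⟩⟩⟩⟩⟩⟩⟩⟩⟩⟩⟩⟩⟩⟩⟩⟩⟩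

theorem k2b_5 : ∀ c ∈ [36, 289, 282, 275, 268, 226, 219, 212, 163, 156, 100, 290, 283, 276, 227, 220, 164, 291, 284, 228], CK2 TL2 c :=
  List.forall_mem_cons.2 ⟨ck2_36, List.forall_mem_cons.2 ⟨ck2_289, List.forall_mem_cons.2 ⟨ck2_282, List.forall_mem_cons.2 ⟨ck2_275, List.forall_mem_cons.2 ⟨ck2_268, List.forall_mem_cons.2 ⟨ck2_226, List.forall_mem_cons.2 ⟨ck2_219, List.forall_mem_cons.2 ⟨ck2_212, List.forall_mem_cons.2 ⟨ck2_163, List.forall_mem_cons.2 ⟨ck2_156, List.forall_mem_cons.2 ⟨ck2_100, List.forall_mem_cons.2 ⟨ck2_290, List.forall_mem_cons.2 ⟨ck2_283, List.forall_mem_cons.2 ⟨ck2_276, List.forall_mem_cons.2 ⟨ck2_227, List.forall_mem_cons.2 ⟨ck2_220, List.forall_mem_cons.2 ⟨ck2_164, List.forall_mem_cons.2 ⟨ck2_291, List.forall_mem_cons.2 ⟨ck2_284, List.forall_mem_cons.2 ⟨ck2_228, List.forall_mem_nil _⟩⟩⟩⟩⟩⟩⟩⟩⟩⟩⟩⟩⟩⟩⟩⟩⟩⟩⟩⟩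

theorem k2b_6 : ∀ c ∈ [292], CK2 TL2 c :=
  List.forall_mem_cons.2 ⟨ck2_292, List.forall_mem_nil _⟩

theorem k2_cover : (List.range 320).all (fun c => !(vd2 c) ||
    (!(Nat.ble 2 (de2 c)) || (([128, 72, 65, 16, 9, 2, 192, 136, 129, 80, 73, 66, 24, 17, 10, 3, 256, 200, 193, 144] : List ℕ).contains c ||
    (([137, 130, 88, 81, 74, 67, 32, 25, 18, 11, 4, 264, 257, 208, 201, 194, 152, 145, 138, 131] : List ℕ).contains c ||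
    (([96, 89, 82, 75, 68, 33, 26, 19, 12, 272, 265, 258, 216, 209, 202, 195, 160, 153, 146, 139] : List ℕ).contains c ||
    (([132, 97, 90, 83, 76, 34, 27, 20, 280, 273, 266, 259, 224, 217, 210, 203, 196, 161, 154, 147] : List ℕ).contains c ||
    (([140, 98, 91, 84, 35, 28, 288, 281, 274, 267, 260, 225, 218, 211, 204, 162, 155, 148, 99, 92] : List ℕ).contains c ||
    (([36, 289, 282, 275, 268, 226, 219, 212, 163, 156, 100, 290, 283, 276, 227, 220, 164, 291, 284, 228] : List ℕ).contains c ||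
    (([292] : List ℕ).contains c))))))))) = true := by
  decide +kernel

theorem ck2_all (c : ℕ) (hc : vd2 c = true) (h2 : 2 ≤ de2 c) : CK2 TL2 c := by
  have h5 := List.all_eq_true.mp k2_cover c (List.mem_range.mpr (vd2_lt hc))
  rw [hc] at h5
  simp only [Bool.or_eq_true, Bool.not_eq_true', List.contains_iff_mem] at h5
  rcases h5 with h | h | h | h | h | h | h | h | h
  · exact absurd h (by decide)
  · rw [Nat.ble_eq_true_of_le h2] at h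
    exact absurd h (by decide)
  · exact k2b_0 c h
  · exact k2b_1 c h
  · exact k2b_2 c h
  · exact k2b_3 c h
  · exact k2b_4 c h
  · exact k2b_5 c h
  · exact k2b_6 c h

theorem low_TL2 : Low2 TL2 where
  t0 := rfl
  t1 := rfl
  t2 := rfl
  t3 := rfl
  inv := inv_of_len (by decide +kernel) (by decide +kernel) (by decide +kernel)

end Pool.Agent.Lib.H80F
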