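import Pool.Agent.Lib.H80F.Defs
import Pool.Agent.Lib.H80F.A5

/-!
# H80F, C1: reduction of `nc7` to commuting letters (definitions)
-/

namespace Pool.Agent.Lib.H80F

/-- The statement for commuting letters: `x ∈ L` (the letter `none`), the other letters are in `L` and
commute. -/
def Nc7c : Prop := ∀ (A : Type) [Ring A] (_ : (5 : A) = 0) (L : Set A) (_ : LieSet L) (x : A)
    (_ : x ∈ L) (l : List (Option A)) (_ : ∀ b, some b ∈ l → b ∈ L)
    (_ : ∀ b b', some b ∈ l → some b' ∈ l → b * b' = b' * b) (_ : 7 ≤ l.countP Option.isNone),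
    (l.map (fun o => o.getD x)).prod = 0

/-- The same statement without the commutation, for at most `r` other letters. -/
def Nc7r (r : ℕ) : Prop := ∀ (A : Type) [Ring A] (_ : (5 : A) = 0) (L : Set A) (_ : LieSet L)
    (x : A) (_ : x ∈ L) (l : List (Option A)) (_ : ∀ b, some b ∈ l → b ∈ L)
    (_ : l.countP Option.isSome ≤ r) (_ : 7 ≤ l.countP Option.isNone),
    (l.map (fun o => o.getD x)).prod = 0

/-- The alphabet: Lie monomials in the letters `none` and `some i`, `i < r`. -/
abbrev Al (r : ℕ) : Type := FreeMagma (Option (Fin r))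

/-- The value of a Lie monomial. -/
def vl {A : Type} [Ring A] {r : ℕ} (y : Option (Fin r) → A) : Al r → A
  | .of o => y o
  | .mul a b => vl y a * vl y b - vl y b * vl y a

/-- The content of a Lie monomial. -/
def ct {r : ℕ} : Al r → (Option (Fin r) → ℕ)
  | .of o => Pi.single o 1
  | .mul a b => ct a + ct b

/-- The content of a word. -/
def cw {r : ℕ} (w : List (Al r)) : Option (Fin r) → ℕ := (w.map ct).sum

open Classical in
/-- The functional: the product of the values in content `κ`. -/
noncomputable def Ec {A : Type} [Ring A] {r : ℕ} (y : Option (Fin r) → A)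
    (κ : Option (Fin r) → ℕ) (w : List (Al r)) : A :=
  if cw w = κ then (w.map (vl y)).prod else 0

/-- The additive subgroup spanned by the products of letters of content `κ`. -/
def Wd {A : Type} [Ring A] {r : ℕ} (y : Option (Fin r) → A) (κ : Option (Fin r) → ℕ) :
    AddSubgroup A :=
  AddSubgroup.closure {z | ∃ l : List (Option (Fin r)), (∀ o, l.count o = κ o) ∧
    z = (l.map y).prod}

end Pool.Agent.Lib.H80F
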