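import Pool.Agent.Lib.H80F.S1c3
import Pool.Agent.Lib.H80F.C1

/-!
# H80F, S1d: seven letters `x` and commuting letters
-/

namespace Pool.Agent.Lib.H80F

variable {TL : List (List Tab)}

theorem ev_mem_closure {A : Type} [AddCommGroup A] (vs : List A) (t : ℕ) :
    ev vs t ∈ AddSubgroup.closure {z | z ∈ vs} := by
  induction vs generalizing t with
  | nil => exact zero_mem _
  | cons v vs ih =>
    show (t % 65536) • v + ev vs (t / 65536) ∈ _
    refine add_mem (nsmul_mem (AddSubgroup.subset_closure ?_) _) ?_
    · exact List.mem_cons_self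
    · exact AddSubgroup.closure_mono (fun z hz => List.mem_cons_of_mem _ hz) (ih _)

theorem s1d_av {kk m : ℕ} : av1 kk m = true ↔ 1 ≤ kk ∧
    ((kk ≤ 7 ∧ m ≤ 6) ∨ (kk = 8 ∧ m ≤ 5) ∨ (kk ≤ 6 ∧ m ≤ 7)) := by
  constructor
  · intro h
    obtain ⟨h1, _, h3⟩ := s1c3_av h
    refine ⟨h1, ?_⟩
    omega
  · rintro ⟨h1, h2⟩
    unfold av1
    rw [an_iff]
    refine ⟨Nat.ble_eq_true_of_le h1, ?_⟩
    cases e1 : an (Nat.ble kk 7) (Nat.ble m 6) with
    | true => rfl
    | false =>
      have c : ¬ (kk ≤ 7 ∧ m ≤ 6) := by
        rintro ⟨c1, c2⟩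
        rw [Nat.ble_eq_true_of_le c1, Nat.ble_eq_true_of_le c2] at e1
        exact absurd e1 (by decide)
      change Bool.rec (motive := fun _ => Bool) (an (Nat.ble kk 6) (Nat.ble m 7))
        (Nat.ble m 5) (Nat.beq kk 8) = true
      cases e2 : Nat.beq kk 8 with
      | true =>
        have a := Nat.eq_of_beq_eq_true e2
        change Nat.ble m 5 = true
        apply Nat.ble_eq_true_of_le
        omega
      | false =>
        change an (Nat.ble kk 6) (Nat.ble m 7) = true
        rw [an_iff]
        have a : kk ≠ 8 := by
          rintro rfl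
          exact absurd e2 (by decide)
        exact ⟨Nat.ble_eq_true_of_le (by omega), Nat.ble_eq_true_of_le (by omega)⟩

/-- An element of the span of the values, multiplied by a letter. -/
theorem s1d_step {A : Type} [Ring A] {V V' : List A} {x : A} {rows : List ℕ}
    (h : V.map (fun v => x * v) = rows.map (ev V')) {z : A}
    (hz : z ∈ AddSubgroup.closure {z | z ∈ V}) : x * z ∈ AddSubgroup.closure {z | z ∈ V'} := by
  refine AddSubgroup.closure_induction (p := fun z _ => x * z ∈ AddSubgroup.closure {z | z ∈ V'})
    ?_ ?_ ?_ ?_ hz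
  · intro z hz
    have h1 : x * z ∈ V.map (fun v => x * v) := List.mem_map.2 ⟨z, hz, rfl⟩
    rw [h] at h1
    obtain ⟨r, _, hr⟩ := List.mem_map.1 h1
    rw [← hr]
    exact ev_mem_closure _ _
  · rw [mul_zero]
    exact zero_mem _
  · intro a b _ _ h1 h2
    rw [mul_add]
    exact add_mem h1 h2
  · intro a _ h1
    rw [mul_neg]
    exact neg_mem h1

/-- A node without values. -/
theorem s1d_nil {A : Type} [Ring A] {L : Set A} {x : A}
    (hok : ∀ D, Ok1 TL L x D) {kk : ℕ} {v : List A} (hav : av1 kk v.length = true)
    (h1 : 1 ≤ kk - 1 + v.length) (hv : ∀ b ∈ v, b ∈ L) (hc : ∀ b ∈ v, ∀ b' ∈ v, b * b' = b' * b)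
    (hd : (tb1 TL kk v.length).d = 0) {z : A}
    (hz : z ∈ AddSubgroup.closure {z | z ∈ V1 TL x (kk - 1 + v.length) kk v}) : z = 0 := by
  have h := (hok (kk - 1 + v.length + 1) kk v hav h1 (Nat.lt_succ_self _) hv hc).len
  rw [hd] at h
  have h2 := List.length_eq_zero_iff.1 h
  rw [h2] at hz
  have h3 : {z : A | z ∈ ([] : List A)} = ∅ := by
    ext z
    simp
  rw [h3, AddSubgroup.closure_empty] at hz
  exact AddSubgroup.mem_bot.1 hz

/-- Let `w` be a word with `k` letters `x` and the other letters `v` (in order). Either its product is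
`0`, or the node `(k, v.length)` is available and the product is in the span of its values. Induction on
the word (a new letter is put in front): a new letter `x`: if the node `(k + 1, m)` is available use
`NodeOK.left` for the label `0` (every element of `(U 0).map (x * ·)` is an `ev V r`,
`ev_mem_closure`); otherwise `(k, m)` is one of the nodes of `Zero1`, without values, and the product
is `0`. A new letter `b`: the same with the node `(k, m + 1)`, tuple `b :: v`, label `1`. -/
theorem word_val {A : Type} [Ring A] {L : Set A} {x : A} (hT : Low1 TL) (hZ : Zero1 TL)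
    (hok : ∀ D, Ok1 TL L x D) (w : List (Option A)) (hw : ∀ b, some b ∈ w → b ∈ L)
    (hc : ∀ b b', some b ∈ w → some b' ∈ w → b * b' = b' * b) :
    (w.map (fun o => o.getD x)).prod = 0 ∨
      (av1 (w.countP Option.isNone + 1) (w.filterMap id).length = true ∧
        (w.map (fun o => o.getD x)).prod ∈ AddSubgroup.closure {z |
          z ∈ V1 TL x (w.countP Option.isNone + (w.filterMap id).length)
            (w.countP Option.isNone + 1) (w.filterMap id)}) := by
  induction w with
  | nil =>
    right
    refine ⟨s1d_av.2 (by simp), ?_⟩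
    apply AddSubgroup.subset_closure
    simp [V1]
  | cons a w ih =>
    have ih' := ih (fun b hb => hw b (List.mem_cons_of_mem _ hb))
      (fun b b' hb hb' => hc b b' (List.mem_cons_of_mem _ hb) (List.mem_cons_of_mem _ hb'))
    have hmem : ∀ b, b ∈ w.filterMap id → some b ∈ w := by
      intro b hb
      obtain ⟨o, ho, e⟩ := List.mem_filterMap.1 hb
      have e' : o = some b := e
      rw [← e']
      exact ho
    have hvL : ∀ b ∈ w.filterMap id, b ∈ L := fun b hb =>
      hw b (List.mem_cons_of_mem _ (hmem b hb))
    have hvc : ∀ b ∈ w.filterMap id, ∀ b' ∈ w.filterMap id, b * b' = b' * b := fun b hb b' hb' =>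
      hc b b' (List.mem_cons_of_mem _ (hmem b hb)) (List.mem_cons_of_mem _ (hmem b' hb'))
    rw [List.map_cons, List.prod_cons]
    rcases ih' with h0 | ⟨hav, hz⟩
    · left
      rw [h0, mul_zero]
    obtain ⟨P, hP⟩ : ∃ P, P = (w.map (fun o => o.getD x)).prod := ⟨_, rfl⟩
    rw [← hP] at hz ⊢
    obtain ⟨k, hk⟩ : ∃ k, k = w.countP Option.isNone := ⟨_, rfl⟩
    obtain ⟨v, hv⟩ : ∃ v, v = w.filterMap id := ⟨_, rfl⟩
    rw [← hv] at hz hav hvL hvc
    rw [← hk] at hz hav
    have hlow := s1d_av.1 hav
    -- `(k, m)` has no values
    have hnil : (tb1 TL (k + 1) v.length).d = 0 → 1 ≤ k + v.length → P = 0 := by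
      intro hd h1
      have := s1d_nil hok hav (by rw [Nat.add_sub_cancel]; exact h1) hvL hvc hd (z := P)
      rw [Nat.add_sub_cancel] at this
      exact this hz
    cases a with
    | none =>
      have e1 : (none :: w).countP Option.isNone = k + 1 := by
        rw [List.countP_cons, ← hk]
        rfl
      have e2 : (none :: w).filterMap id = v := by
        rw [hv]
        rfl
      rw [e1, e2]
      show x * P = 0 ∨ _
      by_cases hnew : av1 (k + 1 + 1) v.length = true
      · right
        refine ⟨hnew, ?_⟩
        have hN := hok (k + 1 + 1 - 1 + v.length + 1) (k + 1 + 1) v hnew (by omega)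
          (Nat.lt_succ_self _) hvL hvc
        have hl := hN.left 0 (Nat.succ_pos _)
        have e3 : k + 1 + 1 - 1 + v.length = k + 1 + v.length := by omega
        have e4 : k + 1 + v.length - 1 = k + v.length := by omega
        rw [e3, e4] at hl
        exact s1d_step hl hz
      · left
        have hnot : ¬ (1 ≤ k + 1 + 1 ∧ ((k + 1 + 1 ≤ 7 ∧ v.length ≤ 6) ∨
          (k + 1 + 1 = 8 ∧ v.length ≤ 5) ∨ (k + 1 + 1 ≤ 6 ∧ v.length ≤ 7))) := fun h =>
          hnew (s1d_av.2 h)
        have hd : (tb1 TL (k + 1) v.length).d = 0 := by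
          by_cases h8 : k + 1 = 8
          · rw [h8]
            exact hZ.a _ (by omega)
          by_cases h7 : k + 1 = 7
          · have h6 : v.length = 6 := by omega
            rw [h7, h6]
            exact hZ.b
          · have h7' : v.length = 7 := by omega
            rw [h7']
            exact hZ.c _ (by omega) (by omega)
        rw [hnil hd (by omega), mul_zero]
    | some b =>
      have e1 : (some b :: w).countP Option.isNone = k := by
        rw [List.countP_cons, ← hk]
        rfl
      have e2 : (some b :: w).filterMap id = b :: v := by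
        rw [hv]
        rfl
      rw [e1, e2]
      show b * P = 0 ∨ _
      by_cases hnew : av1 (k + 1) (b :: v).length = true
      · right
        refine ⟨hnew, ?_⟩
        have hbw : some b ∈ some b :: w := List.mem_cons_self
        have hvL' : ∀ c ∈ b :: v, c ∈ L := by
          intro c hc'
          rcases List.mem_cons.1 hc' with h | h
          · rw [h]
            exact hw b hbw
          · exact hvL c h
        have hvw : ∀ c ∈ v, some c ∈ some b :: w := fun c hc' => by
          rw [hv] at hc'
          exact List.mem_cons_of_mem _ (hmem c hc')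
        have hvc' : ∀ c ∈ b :: v, ∀ c' ∈ b :: v, c * c' = c' * c := by
          intro c hc1 c' hc2
          have m1 : some c ∈ some b :: w := by
            rcases List.mem_cons.1 hc1 with h | h
            · rw [h]
              exact hbw
            · exact hvw c h
          have m2 : some c' ∈ some b :: w := by
            rcases List.mem_cons.1 hc2 with h | h
            · rw [h]
              exact hbw
            · exact hvw c' h
          exact hc c c' m1 m2
        have hN := hok (k + 1 - 1 + (b :: v).length + 1) (k + 1) (b :: v) hnew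
          (by rw [List.length_cons]; omega) (Nat.lt_succ_self _) hvL' hvc'
        have hl := hN.left 1 (by rw [List.length_cons]; omega)
        have e3 : k + 1 - 1 + (b :: v).length = k + (b :: v).length := by omega
        have e4 : k + (b :: v).length - 1 = k + v.length := by rw [List.length_cons]; omega
        rw [e3, e4] at hl
        exact s1d_step hl hz
      · left
        have hnot : ¬ (1 ≤ k + 1 ∧ ((k + 1 ≤ 7 ∧ (b :: v).length ≤ 6) ∨
          (k + 1 = 8 ∧ (b :: v).length ≤ 5) ∨ (k + 1 ≤ 6 ∧ (b :: v).length ≤ 7))) := fun h =>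
          hnew (s1d_av.2 h)
        rw [List.length_cons] at hnot
        have hd : (tb1 TL (k + 1) v.length).d = 0 := by
          by_cases h8 : k + 1 = 8
          · rw [h8]
            exact hZ.a _ (by omega)
          by_cases h7 : k + 1 = 7
          · have h6 : v.length = 6 := by omega
            rw [h7, h6]
            exact hZ.b
          · have h7' : v.length = 7 := by omega
            rw [h7']
            exact hZ.c _ (by omega) (by omega)
        rw [hnil hd (by omega), mul_zero]

/-- `word_val`; a word with at least `7` letters `x` and an available node is in one of the nodes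
`(7, m)`, `m ≤ 5`, without values. -/
theorem nc7c_of (hT : Low1 TL) (hZ : Zero1 TL) (hk : CKc TL)
    (hck : ∀ kk m, av1 kk m = true → 2 ≤ kk - 1 + m → ¬(kk = 1 ∧ m = 2) → CK1 TL kk m) :
    Nc7c := by
  intro A _ h5 L hL x hx l hl hc h7
  have hok : ∀ D, Ok1 TL L x D := fun D => all1_ok hT hk hck h5 hL hx D
  rcases word_val hT hZ hok l hl hc with h | ⟨hav, hz⟩
  · exact h
  · have hlow := s1d_av.1 hav
    have h8 : l.countP Option.isNone + 1 = 8 := by omega
    have hmem : ∀ b, b ∈ l.filterMap id → some b ∈ l := by
      intro b hb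
      obtain ⟨o, ho, e⟩ := List.mem_filterMap.1 hb
      have e' : o = some b := e
      rw [← e']
      exact ho
    refine s1d_nil hok hav (by omega) (fun b hb => hl b (hmem b hb))
      (fun b hb b' hb' => hc b b' (hmem b hb) (hmem b' hb')) ?_ ?_
    · rw [h8]
      exact hZ.a _ (by omega)
    · rw [Nat.add_sub_cancel]
      exact hz

end Pool.Agent.Lib.H80F
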