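import Pool.Agent.Lib.H80F.S2c1

/-!
# H80F, S2c: the identity
-/

namespace Pool.Agent.Lib.H80F

variable {A : Type} [Ring A] {TL : List (List (List Tab))}

theorem s2c2_five {A : Type} [Ring A] (h5 : (5 : A) = 0) (a : A) : (5 : ℕ) • a = 0 := by
  rw [nsmul_eq_mul, Nat.cast_ofNat, h5, zero_mul]

theorem s2c2_four {A : Type} [Ring A] (h5 : (5 : A) = 0) (a : A) : (4 : ℕ) • a = - a := by
  have h := s2c2_five h5 a
  have h1 : (5 : ℕ) • a = (4 : ℕ) • a + a := by
    rw [show (5 : ℕ) = 4 + 1 from rfl, add_smul, one_smul]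
  rw [h1] at h
  exact eq_neg_of_add_eq_zero_left h

theorem s2c2_map {A : Type} (x y z : A) (i j k : ℕ) :
    (qword 0 1 2 i j k).map (fun a : ℕ => if a = 0 then x else if a = 1 then y else z) =
      qword x y z i j k := by
  unfold qword
  simp

theorem s2c2_icc {A : Type} [AddCommMonoid A] (f : ℕ → A) :
    ∑ i ∈ Finset.Icc 1 3, f i = f 1 + (f 2 + (f 3 + 0)) := rfl

/-- The sum over `q27` is the sum in `q444` (`X = x, y, z, z, ...`). -/
theorem q27_sum (h5 : (5 : A) = 0) (x y z : A) :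
    (q27.map (fun q => q.1 • (q.2.map (fun a : ℕ => if a = 0 then x else if a = 1 then y else
      z)).prod)).sum =
    ∑ i ∈ Finset.Icc 1 3, ∑ j ∈ Finset.Icc 1 3, ∑ k ∈ Finset.Icc 1 3,
      (cf i * cf j * cf k) • (qword x y z i j k).prod := by
  simp only [s2c2_icc]
  unfold q27
  simp only [List.flatMap_cons, List.flatMap_nil, List.map_cons, List.map_nil, List.map_append,
    List.sum_append, List.sum_cons, List.sum_nil, List.append_nil, s2c2_map]
  have c1 : cf 1 = 1 := by decide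
  have c2 : cf 2 = -1 := by decide
  have c3 : cf 3 = 1 := by decide
  simp only [c1, c2, c3]
  norm_num [s2c2_four h5]

/-- `all2_ok`, `env2`, `wc_spec`, `zc_ev`, `q27_sum`. -/
theorem q444_of (hT : Low2 TL) (hck : ∀ c, vd2 c = true → 2 ≤ de2 c → CK2 TL c)
    (hq : wck (E2 TL 13) 292 q27 = true)
    (hzc : zc (8191 * rep (tb2 TL 292).d) (wc (E2 TL 13) q27) = true)
    {A : Type} [Ring A] (h5 : (5 : A) = 0) {L : Set A} (hL : LieSet L) {x y z : A}
    (hx : x ∈ L) (hy : y ∈ L) (hz : z ∈ L) :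
    ∑ i ∈ Finset.Icc 1 3, ∑ j ∈ Finset.Icc 1 3, ∑ k ∈ Finset.Icc 1 3,
      (cf i * cf j * cf k) • (qword x y z i j k).prod = 0 := by
  have hX : ∀ a : ℕ, (fun a : ℕ => if a = 0 then x else if a = 1 then y else z) a ∈ L := by
    intro a
    show (if a = 0 then x else if a = 1 then y else z) ∈ L
    split
    · exact hx
    · split
      · exact hy
      · exact hz
  have hok := all2_ok hT hck h5 hL (fun a : ℕ => if a = 0 then x else if a = 1 then y else z)
    hX 13
  have hE := env2 hT (fun a : ℕ => if a = 0 then x else if a = 1 then y else z) hok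
  obtain ⟨-, w2⟩ := wc_spec h5 hE 292 q27 (by decide) hq
  rw [q27_sum h5] at w2
  rw [← w2]
  exact zc_ev (s2c2_five h5) hzc _

end Pool.Agent.Lib.H80F
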