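import Pool.Agent.Lib.H80F.K1
import Pool.Agent.Lib.H80F.K2
import Pool.Agent.Lib.H80F.C1c
import Pool.Agent.Lib.H80F.S1d
import Pool.Agent.Lib.H80F.S2c2

/-!
# H80F, B0: the two identities in algebras with `S⁴ (L) = 0`
-/

namespace Pool.Agent.Lib.H80F

theorem nc7c : Nc7c := nc7c_of low_TL1 zero_TL1 ckc_TL1 ck1_all

/-- In a ring of characteristic `5` with a set `L` closed under commutators in which the
symmetrised products of four elements vanish, every product of elements of `L` with at least seven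
factors `x` vanishes. -/
theorem nc7 {A : Type} [Ring A] (h5 : (5 : A) = 0) {L : Set A} (hL : LieSet L) {x : A}
    (hx : x ∈ L) {κ : Type} (b : κ → A) (hb : ∀ i, b i ∈ L) (l : List (Option κ))
    (h : 7 ≤ l.countP Option.isNone) : (l.map (fun o => o.elim x b)).prod = 0 :=
  nc7_of_nc7c nc7c h5 hL hx b hb l h

theorem q27_wck : wck (E2 TL2 13) 292 q27 = true := by decide +kernel

theorem q27_zc : zc (8191 * rep (tb2 TL2 292).d) (wc (E2 TL2 13) q27) = true := by decide +kernel

/-- The identity in degree `(4, 4, 4)`. -/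
theorem q444 {A : Type} [Ring A] (h5 : (5 : A) = 0) {L : Set A} (hL : LieSet L) {x y z : A}
    (hx : x ∈ L) (hy : y ∈ L) (hz : z ∈ L) :
    ∑ i ∈ Finset.Icc 1 3, ∑ j ∈ Finset.Icc 1 3, ∑ k ∈ Finset.Icc 1 3,
      (cf i * cf j * cf k) • (qword x y z i j k).prod = 0 :=
  q444_of low_TL2 ck2_all q27_wck q27_zc h5 hL hx hy hz

end Pool.Agent.Lib.H80F
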