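import Pool.Agent.Lib.H80F.A5
import Pool.Agent.Lib.H80F.B0

/-!
# H80F, A5: the two identities for functionals on words
-/

namespace Pool.Agent.Lib.H80F

open Subgroup
open scoped commutatorElement


/-- `words_ring` and `nc7` with `κ = α`, the list `w.map (fun a => if a = x then none else some a)`. -/
theorem nc7_words {α M : Type} [DecidableEq α] [AddCommGroup M] (h5 : ∀ m : M, (5 : ℕ) • m = 0)
    {br : α → α → α} {E : List α → M} (hE : WF4 br E) (x : α) (w : List α)
    (h : 7 ≤ w.count x) : E w = 0 := by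
  obtain ⟨A, _, mk, ev, hA5, hL, _, hev, _⟩ := words_ring h5 hE
  have h1 := nc7 hA5 hL (x := mk x) ⟨x, rfl⟩ (κ := α) mk (fun i => ⟨i, rfl⟩)
    (w.map (fun a => if a = x then none else some a)) (by
      rw [List.countP_map]
      refine h.trans (le_of_eq ?_)
      unfold List.count
      apply List.countP_congr
      intro a _
      by_cases ha : a = x
      · simp [ha]
      · simp [ha])
  rw [List.map_map] at h1
  have h2 : ((fun o : Option α => o.elim (mk x) mk) ∘ fun a => if a = x then none else some a) = mk := by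
    funext a
    by_cases ha : a = x
    · simp [ha]
    · simp [ha]
  rw [h2] at h1
  rw [← hev w, h1, map_zero]

/-- `words_ring` and `q444`. -/
theorem q444_words {α M : Type} [AddCommGroup M] (h5 : ∀ m : M, (5 : ℕ) • m = 0)
    {br : α → α → α} {E : List α → M} (hE : WF4 br E) (x y z : α) :
    ∑ i ∈ Finset.Icc 1 3, ∑ j ∈ Finset.Icc 1 3, ∑ k ∈ Finset.Icc 1 3,
      (cf i * cf j * cf k) • E (qword x y z i j k) = 0 := by
  obtain ⟨A, _, mk, ev, hA5, hL, _, hev, _⟩ := words_ring h5 hE
  have h1 := q444 hA5 hL (x := mk x) (y := mk y) (z := mk z) ⟨x, rfl⟩ ⟨y, rfl⟩ ⟨z, rfl⟩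
  have h2 : ∀ i j k : ℕ, E (qword x y z i j k) = ev (qword (mk x) (mk y) (mk z) i j k).prod := by
    intro i j k
    rw [← hev]
    congr 2
    simp [qword, List.map_append, List.map_replicate]
  simp_rw [h2, ← map_zsmul, ← map_sum]
  rw [h1, map_zero]

end Pool.Agent.Lib.H80F
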