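import Pool.Agent.Lib.H80F.A1b
import Pool.Agent.Lib.H80F.A1c
import Pool.Agent.Lib.H80F.A2a

/-!
# H80F, A6: realisations
-/

namespace Pool.Agent.Lib.H80F

open Subgroup
open scoped commutatorElement

variable {G : Type} [Group G] {b : Fin 4 → G} {e : G →* Multiplicative (Fin 4 → ZMod 5)} {c : G}


theorem a61a_comm {A : Type} [CommGroup A] (f : G →* A) :
    ⁅(⊤ : Subgroup G), (⊤ : Subgroup G)⁆ ≤ f.ker := by
  rw [commutator_le]
  intro x _ y _
  rw [MonoidHom.mem_ker, map_commutatorElement, commutatorElement_eq_one_iff_mul_comm]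
  exact mul_comm _ _

/-- `wf_le` with `m = 2` and the kernel of the component `0` of `e`. -/
theorem e_zero (h : Rz b e c) {Λ m : ℕ} (hm : 2 ≤ m) {g : G} (hg : g ∈ wf b (w4 Λ) m) :
    Multiplicative.toAdd (e g) 0 = 0 := by
  have key : wf b (w4 Λ) m ≤
      ((AddMonoidHom.toMultiplicative (Pi.evalAddMonoidHom (fun _ : Fin 4 => ZMod 5) 0)).comp
        e).ker := by
    apply wf_le b (w4_pos Λ) hm _ (a61a_comm _)
    intro i hi
    have h3 : i = 3 := by
      by_contra h4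
      unfold w4 at hi
      rw [if_neg h4] at hi
      omega
    subst h3
    rw [MonoidHom.mem_ker, MonoidHom.comp_apply, h.he]
    rfl
  exact key hg

/-- `wf_le` with the kernel of `e` (no letter has weight `≥ Λ + 2`). -/
theorem e_all_zero (h : Rz b e c) {Λ m : ℕ} (hm : Λ + 2 ≤ m) {g : G} (hg : g ∈ wf b (w4 Λ) m) :
    e g = 1 := by
  have key : wf b (w4 Λ) m ≤ e.ker := by
    apply wf_le b (w4_pos Λ) (by omega) _ (a61a_comm _)
    intro i hi
    exfalso
    unfold w4 at hi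
    split_ifs at hi <;> omega
  exact key hg

/-- `(b 0 b 1 b 2 b 3) ^ 5 = c` and `(b 0 b 1 b 2) ^ 5 = 1`, so `c` is in the normal closure of
`b 3`, which is contained in `wf (Λ + 1)`. -/
theorem c_mem (h : Rz b e c) (Λ : ℕ) : c ∈ wf b (w4 Λ) (Λ + 1) := by
  have hN : normalClosure {b 3} ≤ wf b (w4 Λ) (Λ + 1) := by
    haveI := wf_normal b (w4 Λ) (Λ + 1)
    apply normalClosure_le_normal
    rintro x rfl
    have h1 := wf_letter b (w4_pos Λ) 3
    simpa [w4] using h1
  apply hN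
  have h1 : (b 0 * b 1 * b 2 * b 3) ^ 5 = c := by
    rw [h.pow, e.map_mul, e.map_mul, e.map_mul, h.he, h.he, h.he, h.he]
    have : f4 (Multiplicative.toAdd (Multiplicative.ofAdd (Pi.single (0 : Fin 4) (1 : ZMod 5)) *
        Multiplicative.ofAdd (Pi.single (1 : Fin 4) (1 : ZMod 5)) *
        Multiplicative.ofAdd (Pi.single (2 : Fin 4) (1 : ZMod 5)) *
        Multiplicative.ofAdd (Pi.single (3 : Fin 4) (1 : ZMod 5)))) = 1 := by
      rw [toAdd_mul, toAdd_mul, toAdd_mul]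
      unfold f4
      decide
    rw [this]
    have : (1 : ZMod 5).val = 1 := by decide
    rw [this, pow_one]
  have h2 : (b 0 * b 1 * b 2) ^ 5 = 1 := by
    rw [h.pow, e.map_mul, e.map_mul, h.he, h.he, h.he]
    have : f4 (Multiplicative.toAdd (Multiplicative.ofAdd (Pi.single (0 : Fin 4) (1 : ZMod 5)) *
        Multiplicative.ofAdd (Pi.single (1 : Fin 4) (1 : ZMod 5)) *
        Multiplicative.ofAdd (Pi.single (2 : Fin 4) (1 : ZMod 5)))) = 0 := by
      rw [toAdd_mul, toAdd_mul]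
      unfold f4
      decide
    rw [this, ZMod.val_zero, pow_zero]
  rw [← QuotientGroup.eq_one_iff, ← h1, QuotientGroup.mk_pow, QuotientGroup.mk_mul]
  have h3 : ((b 3 : G) : G ⧸ normalClosure {b 3}) = 1 := by
    rw [QuotientGroup.eq_one_iff]
    exact subset_normalClosure rfl
  rw [h3, mul_one, ← QuotientGroup.mk_pow, h2]
  rfl

/-- The condition on the fifth powers: for `i ≥ 2` they are `1` (`e_zero`), for `i ≤ 1` they are
powers of `c ∈ wf (Λ + 1) ≤ wf 5`. -/
theorem pow_cond (h : Rz b e c) {Λ : ℕ} (hΛ : 4 ≤ Λ) (i : ℕ) (g : G) (hg : g ∈ wf b (w4 Λ) i) :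
    g ^ 5 ∈ wf b (w4 Λ) (5 * i) := by
  rw [h.pow]
  by_cases hi : 2 ≤ i
  · have h1 := e_zero h hi hg
    have h2 : f4 (Multiplicative.toAdd (e g)) = 0 := by
      unfold f4; rw [h1]; ring
    rw [h2, ZMod.val_zero, pow_zero]
    exact one_mem _
  · apply Subgroup.pow_mem
    exact antitone_nat_of_succ_le (wf_anti b (w4_pos Λ)) (show 5 * i ≤ Λ + 1 by omega) (c_mem h Λ)

/-- `c ^ a - 1 = a (c - 1)` modulo `J (2 k)`, if `c ∈ F k`. -/
theorem c_pow_mod {F : ℕ → Subgroup G} {k : ℕ} (hc : c ∈ F k) (a : ℕ) :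
    th 5 G (c ^ a) - 1 - a • (th 5 G c - 1) ∈ J (th 5 G) F (2 * k) := by
  have h1 : ∀ a : ℕ, th 5 G (c ^ a) - 1 ∈ J (th 5 G) F k := fun a =>
    J_sub_one _ ((F k).pow_mem hc a)
  induction a with
  | zero =>
    rw [pow_zero, map_one, zero_nsmul, sub_self, sub_zero]
    exact AddSubgroup.zero_mem _
  | succ a ih =>
    have e1 : th 5 G (c ^ (a + 1)) - 1 - (a + 1) • (th 5 G c - 1) =
        (th 5 G (c ^ a) - 1 - a • (th 5 G c - 1)) + (th 5 G (c ^ a) - 1) * (th 5 G c - 1) := by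
      rw [pow_succ, map_mul, succ_nsmul]; noncomm_ring
    rw [e1]
    apply AddSubgroup.add_mem _ ih
    rw [two_mul]
    have h2 := h1 1
    rw [pow_one] at h2
    exact (J_rfilt _ F).mul _ _ _ _ (h1 a) h2

end Pool.Agent.Lib.H80F
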