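import Pool.Agent.Lib.H80F.A4e
import Pool.Agent.Lib.H80F.A61a

/-!
# H80F, A6: symmetrised products of five elements
-/

namespace Pool.Agent.Lib.H80F

open Subgroup
open scoped commutatorElement

variable {G : Type} [Group G] {b : Fin 4 → G} {e : G →* Multiplicative (Fin 4 → ZMod 5)} {c : G}

theorem a61b_smul {R : Type} [Ring R] [Algebra (ZMod 5) R] (J : AddSubgroup R) (a : ZMod 5) {x : R}
    (hx : x ∈ J) : a • x ∈ J := by
  have h : a • x = a.val • x := by
    rw [← Nat.cast_smul_eq_nsmul (ZMod 5) a.val x, ZMod.natCast_zmod_val]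
  rw [h]
  exact J.nsmul_mem hx _

/-- The scaling of one coordinate. -/
def a61bEquiv (i₀ : Fin 5) : (Fin 5 → ZMod 5) ≃ (Fin 5 → ZMod 5) where
  toFun a := fun i => (if i = i₀ then (2 : ZMod 5) else 1) * a i
  invFun a := fun i => (if i = i₀ then (3 : ZMod 5) else 1) * a i
  left_inv a := by
    funext i
    beta_reduce
    split_ifs with h
    · rw [← mul_assoc, show (3 : ZMod 5) * 2 = 1 from by decide, one_mul]
    · rw [one_mul, one_mul]
  right_inv a := by
    funext i
    beta_reduce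
    split_ifs with h
    · rw [← mul_assoc, show (2 : ZMod 5) * 3 = 1 from by decide, one_mul]
    · rw [one_mul, one_mul]

theorem a61bEquiv_apply (i₀ : Fin 5) (a : Fin 5 → ZMod 5) (i : Fin 5) :
    a61bEquiv i₀ a i = (if i = i₀ then (2 : ZMod 5) else 1) * a i := rfl

theorem a61b_sum_zero (i₀ : Fin 5) (F : (Fin 5 → ZMod 5) → ZMod 5)
    (hF : ∀ a, F (a61bEquiv i₀ a) = F a) :
    ∑ a : Fin 5 → ZMod 5, (∏ i, a i ^ 3) * F a = 0 := by
  have h1 : ∑ a : Fin 5 → ZMod 5, (∏ i, a i ^ 3) * F a =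
      3 * ∑ a : Fin 5 → ZMod 5, (∏ i, a i ^ 3) * F a := by
    conv_lhs => rw [← Equiv.sum_comp (a61bEquiv i₀)]
    rw [Finset.mul_sum]
    apply Finset.sum_congr rfl
    intro a _
    rw [hF]
    have h2 : ∏ i, (a61bEquiv i₀ a i) ^ 3 = 3 * ∏ i, a i ^ 3 := by
      simp only [a61bEquiv_apply, mul_pow, Finset.prod_mul_distrib]
      congr 1
      have h3 : ∀ i : Fin 5, (if i = i₀ then (2 : ZMod 5) else 1) ^ 3 =
          if i = i₀ then (3 : ZMod 5) else 1 := by
        intro i; split_ifs <;> decide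
      simp only [h3]
      simp
    rw [h2, mul_assoc]
  have h4 : (2 : ZMod 5) * ∑ a : Fin 5 → ZMod 5, (∏ i, a i ^ 3) * F a = 0 := by
    linear_combination - h1
  calc ∑ a : Fin 5 → ZMod 5, (∏ i, a i ^ 3) * F a
      = (3 * 2) * ∑ a : Fin 5 → ZMod 5, (∏ i, a i ^ 3) * F a := by
        rw [show (3 : ZMod 5) * 2 = 1 from by decide, one_mul]
    _ = 0 := by rw [mul_assoc, h4, mul_zero]

/-- Symmetrised products of five elements have larger weight, in total weight `≤ k`, if
`c ∈ wf k` and `k > 5 (Λ + 1)`. By `param` (`n = 5`) the sum is, up to sign and up to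
`J (∑ m + 1)`, `∑_a ∏ aᵢ ^ 3 • (h a - 1) ^ 5` with `h a = ∏ gᵢ ^ (aᵢ)`, and
`(h a - 1) ^ 5 = (h a) ^ 5 - 1 = c ^ f4 (e (h a)) - 1`, `e (h a) = ∑ aᵢ e (gᵢ)`. If `∑ m < k` all
these are in `J k ≤ J (∑ m + 1)`. If `∑ m = k` then `c ^ f - 1 = f (c - 1)` modulo
`J (2 k) ≤ J (k + 1)`, and `∑_a ∏ aᵢ ^ 3 f4 (∑ aᵢ e (gᵢ)) = 0`, because some `m i ≥ Λ + 2`, so
`e (g i) = 0` (`e_all_zero`), the value of `f4` does not depend on `aᵢ`, and `∑_a a ^ 3 = 0`. -/
theorem sym5 (h : Rz b e c) {Λ k : ℕ} (hk : 5 * (Λ + 1) < k) (hck : c ∈ wf b (w4 Λ) k)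
    (g : Fin 5 → G) (m : Fin 5 → ℕ) (hm : ∀ i, 1 ≤ m i) (hg : ∀ i, g i ∈ wf b (w4 Λ) (m i))
    (hs : ∑ i, m i ≤ k) :
    ∑ σ : Equiv.Perm (Fin 5), (List.ofFn (fun i => th 5 G (g (σ i)) - 1)).prod ∈
      J (th 5 G) (wf b (w4 Λ)) ((∑ i, m i) + 1) := by
  have h5 : (5 : MonoidAlgebra (ZMod 5) G) = 0 := by
    have := congrArg (algebraMap (ZMod 5) (MonoidAlgebra (ZMod 5) G))
      (show (5 : ZMod 5) = 0 from by decide)
    rwa [map_ofNat, map_zero] at this
  have hp := param (J_rfilt (th 5 G) (wf b (w4 Λ))) (n := 5) (by norm_num)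
    (fun i => th 5 G (g i)) m hm (fun i => J_sub_one (th 5 G) (hg i))
  set S := ∑ σ : Equiv.Perm (Fin 5), (List.ofFn (fun i => th 5 G (g (σ i)) - 1)).prod with hS
  -- the product of powers in the group
  let H : (Fin 5 → ZMod 5) → G := fun a => (List.ofFn (fun i => g i ^ (a i).val)).prod
  have hH : ∀ a : Fin 5 → ZMod 5,
      (List.ofFn (fun i => th 5 G (g i) ^ (a i).val)).prod = th 5 G (H a) := by
    intro a
    simp only [H, map_list_prod, List.map_ofFn, Function.comp_def, map_pow]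
  have hterm : ∀ a : Fin 5 → ZMod 5,
      ((List.ofFn (fun i => th 5 G (g i) ^ (a i).val)).prod - 1) ^ 5 =
        th 5 G (c ^ (f4 (Multiplicative.toAdd (e (H a)))).val) - 1 := by
    intro a
    rw [hH, sub_one_pow_five h5, ← map_pow, h.pow]
  -- it is enough that the first sum is in `J`
  have key : (∑ a : Fin 5 → ZMod 5, (∏ i, a i ^ 3) •
      (((List.ofFn (fun i => th 5 G (g i) ^ (a i).val)).prod - 1) ^ 5)) ∈
      J (th 5 G) (wf b (w4 Λ)) ((∑ i, m i) + 1) := by
    simp only [hterm]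
    rcases Nat.lt_or_ge (∑ i, m i) k with hlt | hge
    · apply AddSubgroup.sum_mem
      intro a _
      apply a61b_smul
      apply J_anti_le (th 5 G) (wf b (w4 Λ)) (show (∑ i, m i) + 1 ≤ k by omega)
      exact J_sub_one (th 5 G) (Subgroup.pow_mem _ hck _)
    · have hsk : ∑ i, m i = k := le_antisymm hs hge
      rw [hsk]
      -- some index has large weight
      obtain ⟨i₀, hi₀⟩ : ∃ i, Λ + 2 ≤ m i := by
        by_contra hcon
        push Not at hcon
        have : ∑ i, m i ≤ ∑ i : Fin 5, (Λ + 1) := Finset.sum_le_sum (fun i _ => by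
          have := hcon i; omega)
        simp at this
        omega
      have he0 : e (g i₀) = 1 := e_all_zero h hi₀ (hg i₀)
      have hz : ∑ a : Fin 5 → ZMod 5, (∏ i, a i ^ 3) *
          f4 (Multiplicative.toAdd (e (H a))) = 0 := by
        apply a61b_sum_zero i₀
        intro a
        congr 2
        simp only [H, map_list_prod, List.map_ofFn, Function.comp_def, map_pow]
        congr 2
        funext i
        by_cases hi : i = i₀
        · subst hi; rw [he0, one_pow, one_pow]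
        · rw [a61bEquiv_apply, if_neg hi, one_mul]
      have hsplit : (∑ a : Fin 5 → ZMod 5, (∏ i, a i ^ 3) •
          (th 5 G (c ^ (f4 (Multiplicative.toAdd (e (H a)))).val) - 1)) =
          ∑ a : Fin 5 → ZMod 5, (∏ i, a i ^ 3) •
            (th 5 G (c ^ (f4 (Multiplicative.toAdd (e (H a)))).val) - 1 -
              (f4 (Multiplicative.toAdd (e (H a)))).val • (th 5 G c - 1)) := by
        have h6 : ∑ a : Fin 5 → ZMod 5, (∏ i, a i ^ 3) •
            ((f4 (Multiplicative.toAdd (e (H a)))).val • (th 5 G c - 1)) = 0 := by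
          have h7 : ∀ a : Fin 5 → ZMod 5, (∏ i, a i ^ 3) •
              ((f4 (Multiplicative.toAdd (e (H a)))).val • (th 5 G c - 1)) =
              ((∏ i, a i ^ 3) * f4 (Multiplicative.toAdd (e (H a)))) • (th 5 G c - 1) := by
            intro a
            rw [← Nat.cast_smul_eq_nsmul (ZMod 5), ZMod.natCast_zmod_val, mul_smul]
          simp only [h7]
          rw [← Finset.sum_smul, hz, zero_smul]
        simp only [smul_sub (∏ i, _ ^ 3) (_ - 1 : MonoidAlgebra (ZMod 5) G) (_ • _)]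
        rw [Finset.sum_sub_distrib, h6, sub_zero]
      rw [hsplit]
      apply AddSubgroup.sum_mem
      intro a _
      apply a61b_smul
      apply J_anti_le (th 5 G) (wf b (w4 Λ)) (show k + 1 ≤ 2 * k by omega)
      exact c_pow_mod hck _
  have h8 := AddSubgroup.sub_mem _ key hp
  have h9 : (-1 : MonoidAlgebra (ZMod 5) G) ^ 5 * S = - S := by
    have : (-1 : MonoidAlgebra (ZMod 5) G) ^ 5 = -1 := Odd.neg_one_pow (by decide)
    rw [this, neg_one_mul]
  rw [sub_sub_cancel, h9] at h8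
  exact (AddSubgroup.neg_mem_iff _).1 h8

end Pool.Agent.Lib.H80F
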