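import Pool.Agent.Lib.H80F.A6c
import Pool.Agent.Lib.H80F.A61b
import Pool.Agent.Lib.H80F.A2b
import Pool.Agent.Lib.H80F.A2c

/-!
# H80F, A6: the weight of the central element is smaller than `8 Λ`
-/

namespace Pool.Agent.Lib.H80F

open Subgroup
open scoped commutatorElement

variable {G : Type} [Group G] {b : Fin 4 → G} {e : G →* Multiplicative (Fin 4 → ZMod 5)} {c : G}


/-- A Lie word in the letters of length `≥ Λ` vanishes: expanded it is a combination of words of
the same length. -/
theorem lw_long {Λ : ℕ} (hN : ∀ l : List G, Λ ≤ l.length → (l.map (fun g => th 5 G g - 1)).prod = 0)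
    (i : Fin 4) (l : List (Fin 4)) (hl : Λ ≤ l.length + 1) :
    lw (fun i => th 5 G (b i) - 1) i l = 0 := by
  have h1 := a2c_lw (th 5 G) (b := b) (wt := fun _ => 1) i l
  have h2 : a2cW (th 5 G) b (fun _ => 1) (1 + (l.map (fun _ => 1)).sum) ≤ ⊥ := by
    unfold a2cW
    rw [AddSubgroup.closure_le]
    rintro x ⟨l', hl', rfl⟩
    have h3 : l'.length = 1 + l.length := by simpa using hl'
    have h4 := hN (l'.map b) (by rw [List.length_map]; omega)
    rw [List.map_map] at h4
    exact h4
  exact h2 h1

theorem a61c_lw_map {R ι κ : Type} [Ring R] (u : κ → R) (f : ι → κ) (i : ι) (l : List ι) :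
    lw u (f i) (l.map f) = lw (fun i => u (f i)) i l := by
  induction l with
  | nil => rfl
  | cons j l ih => simp only [List.map_cons, lw, ih]

theorem a61c_sum (Λ : ℕ) (l : List (Fin 4)) :
    (l.map (w4 Λ)).sum = l.length + Λ * l.count 3 := by
  induction l with
  | nil => simp
  | cons j l ih =>
    rw [List.map_cons, List.sum_cons, ih, List.length_cons, List.count_cons]
    unfold w4
    by_cases h : j = 3
    · simp [h]; ring
    · simp [h]; ring

/-- **Stage 4.** Let `Φ` be as in Lemma S. Suppose `8 Λ ≤ k`. By (L) (`wf_lie`) `c - 1` is, modulo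
`J (k + 1)`, a combination of Lie words in the letters of weight `k`. Let `lw _ i l` be one of
them, `n = l.length + 1` its length and `j` the number of its letters `3`; its weight is
`j Λ + n = k ≥ 8 Λ`. If `n ≥ Λ` it is `0` (`lw_long`). Otherwise `j Λ > 7 Λ`, so `j ≥ 8` and the
list `l` contains at least seven letters `3`, and `lw _ i l ∈ J (k + 1)` by `adw_nc7` (with `sym5`;
`5 (Λ + 1) < 8 Λ` as `Λ ≥ 4`; the letters are the elements `(w4 Λ i, b i)` of the alphabet). Hence
`c - 1 ∈ J (k + 1)`, so `Φ (c - 1) = 0`, a contradiction. -/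
theorem stage4 (h : Rz b e c) {Λ k : ℕ} (hΛ : 4 ≤ Λ)
    (hN : ∀ l : List G, Λ ≤ l.length → (l.map (fun g => th 5 G g - 1)).prod = 0)
    (hck : c ∈ wf b (w4 Λ) k) (Φ : MonoidAlgebra (ZMod 5) G →ₗ[ZMod 5] ZMod 5)
    (hΦ : ∀ x ∈ J (th 5 G) (wf b (w4 Λ)) (k + 1), Φ x = 0) (hΦc : Φ (th 5 G c - 1) = 1) :
    k < 8 * Λ := by
  classical
  by_contra hk
  push Not at hk
  have hF := wf_nser b (w4_pos Λ) h.gen
  have h5 : (5 : MonoidAlgebra (ZMod 5) G) = 0 := by
    have h6 : ((5 : ZMod 5) : ZMod 5) = 0 := by decide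
    have h7 := congrArg (algebraMap (ZMod 5) (MonoidAlgebra (ZMod 5) G)) h6
    rw [map_ofNat, map_zero] at h7
    exact h7
  have h1 := wf_lie (th 5 G) (w4_pos Λ) h.gen k (by omega) c hck
  have h2 : th 5 G c - 1 ∈ J (th 5 G) (wf b (w4 Λ)) (k + 1) := by
    have h3 : AddSubgroup.closure {x : MonoidAlgebra (ZMod 5) G | ∃ (i : Fin 4) (l : List (Fin 4)),
        w4 Λ i + (l.map (w4 Λ)).sum = k ∧ x = lw (fun i => th 5 G (b i) - 1) i l} ⊔
        J (th 5 G) (wf b (w4 Λ)) (k + 1) ≤ J (th 5 G) (wf b (w4 Λ)) (k + 1) := by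
      refine sup_le ?_ le_rfl
      rw [AddSubgroup.closure_le]
      rintro x ⟨i, l, hil, rfl⟩
      by_cases hl : Λ ≤ l.length + 1
      · rw [lw_long hN i l hl]
        exact AddSubgroup.zero_mem _
      · have hc : 7 ≤ l.count 3 := by
          rw [a61c_sum] at hil
          have hi : w4 Λ i ≤ Λ + 1 := by unfold w4; split_ifs <;> omega
          by_contra h7
          have h8 : l.count 3 ≤ 6 := by omega
          have h9 : Λ * l.count 3 ≤ Λ * 6 := Nat.mul_le_mul_left _ h8
          omega
        let lt : Fin 4 → AlF (wf b (w4 Λ)) := fun i =>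
          ⟨(w4 Λ i, b i), w4_pos Λ i, wf_letter b (w4_pos Λ) i⟩
        have hw : (lt i).1.1 + wtF (l.reverse.map lt) = k := by
          rw [← hil]
          unfold wtF
          rw [List.map_map]
          have h10 : ((l.reverse.map ((fun q : AlF (wf b (w4 Λ)) => q.1.1) ∘ lt))).sum =
              (l.map (w4 Λ)).sum := by
            rw [List.map_reverse, List.sum_reverse]
            rfl
          rw [h10]
        have hcount : 7 ≤ @List.count (AlF (wf b (w4 Λ))) instBEqOfDecidableEq (lt 3)
            (l.reverse.map lt) := by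
          refine le_trans ?_ (@List.count_le_count_map _ _ _ _ instBEqOfDecidableEq _
            l.reverse lt 3)
          rw [List.count_reverse]
          exact hc
        have h11 := adw_nc7 (th 5 G) h5 hF (k := k)
          (fun g m hm hg hs => sym5 h (by omega) hck g m hm hg hs) (lt 3) (lt i)
          (l.reverse.map lt) hw hcount
        unfold adw at h11
        rw [← List.map_reverse, List.reverse_reverse, a61c_lw_map] at h11
        exact h11
    exact h3 h1
  have h12 := hΦ _ h2
  rw [hΦc] at h12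
  exact absurd h12 (by decide)

end Pool.Agent.Lib.H80F
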