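import Pool.Agent.Lib.H80F.A2d
import Pool.Agent.Lib.H80F.A4f
import Pool.Agent.Lib.H80F.A61a

/-!
# H80F, A6: passing to a quotient
-/

namespace Pool.Agent.Lib.H80F

open Subgroup
open scoped commutatorElement

variable {G : Type} [Group G] {b : Fin 4 → G} {e : G →* Multiplicative (Fin 4 → ZMod 5)} {c : G}

private theorem a61d_anti (b : Fin 4 → G) (Λ : ℕ) {m n : ℕ} (h : m ≤ n) :
    wf b (w4 Λ) n ≤ wf b (w4 Λ) m := by
  induction n, h using Nat.le_induction with
  | base => exact le_rfl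
  | succ n _ ih => exact (wf_anti b (w4_pos Λ) n).trans ih

/-- The filtration reaches the trivial subgroup. -/
private theorem a61d_bot (hb : closure (Set.range b) = ⊤) {Λ : ℕ}
    (hN : ∀ l : List G, Λ ≤ l.length → (l.map (fun g => th 5 G g - 1)).prod = 0) :
    wf b (w4 Λ) (Λ * (Λ + 1)) = ⊥ := by
  rw [eq_bot_iff]
  intro g hg
  have : Fact (Nat.Prime 5) := ⟨by norm_num⟩
  have h1 : th 5 G g - 1 ∈ J (th 5 G) (wf b (w4 Λ)) (Λ * (Λ + 1)) := J_sub_one (th 5 G) hg
  have hW : ∀ i, w4 Λ i ≤ Λ + 1 := by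
    intro i; unfold w4; split_ifs <;> omega
  have h2 := J_deep (th 5 G) (b := b) (wt := w4 Λ) (w4_pos Λ) (Λ + 1) hW (by omega) hb Λ h1
  have h3 : AddSubgroup.closure {x : MonoidAlgebra (ZMod 5) G | ∃ l : List G, Λ ≤ l.length ∧
      x = (l.map (fun g => th 5 G g - 1)).prod} ≤ ⊥ := by
    rw [AddSubgroup.closure_le]
    rintro _ ⟨l, hl, rfl⟩
    rw [hN l hl]
    exact AddSubgroup.zero_mem _
  have h4 : th 5 G g - 1 = 0 := by simpa using h3 h2
  have h5 : th 5 G g = th 5 G 1 := by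
    rw [map_one]
    exact sub_eq_zero.1 h4
  exact Subgroup.mem_bot.2 (MonoidAlgebra.of_injective h5)

/-- Passing to a quotient, we may assume that `c` is in the last nontrivial term of the filtration:
let `k` be maximal with `c ∈ wf k` (`wf m = ⊥` for large `m`: by `J_deep` and `aug_nilpotent` the
elements of `wf (N (Λ + 1))` are `1`, as `g - 1 = 0` in the group algebra; also `k ≥ Λ + 1` by
`c_mem`), and `G' = G ⧸ wf (k + 1)` (normal). `e` factors through `G'` as `k + 1 ≥ Λ + 2`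
(`e_all_zero`); `wf_map`. The nilpotency passes to the quotient (`MonoidAlgebra.mapDomainRingHom`).
-/
theorem exists_last [Finite G] (hG : IsPGroup 5 G) (h : Rz b e c) :
    ∃ (G' : Type) (_ : Group G') (_ : Finite G') (b' : Fin 4 → G')
      (e' : G' →* Multiplicative (Fin 4 → ZMod 5)) (c' : G') (Λ k : ℕ), IsPGroup 5 G' ∧
      Rz b' e' c' ∧ 4 ≤ Λ ∧
      (∀ l : List G', Λ ≤ l.length → (l.map (fun g => th 5 G' g - 1)).prod = 0) ∧
      c' ∈ wf b' (w4 Λ) k ∧ wf b' (w4 Λ) (k + 1) = ⊥ := by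
  classical
  have : Fact (Nat.Prime 5) := ⟨by norm_num⟩
  obtain ⟨N₀, hN₀⟩ := aug_nilpotent (p := 5) hG
  obtain ⟨Λ, hΛ4, hΛN⟩ : ∃ Λ : ℕ, 4 ≤ Λ ∧ N₀ ≤ Λ := ⟨max 4 N₀, le_max_left _ _, le_max_right _ _⟩
  have hN : ∀ l : List G, Λ ≤ l.length → (l.map (fun g => th 5 G g - 1)).prod = 0 :=
    fun l hl => hN₀ l (hΛN.trans hl)
  have hbot := a61d_bot h.gen hN
  have hex : ∃ n, c ∉ wf b (w4 Λ) n := ⟨Λ * (Λ + 1), by
    rw [hbot, Subgroup.mem_bot]
    exact h.c1⟩
  have hn := Nat.find_spec hex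
  have hmin := fun m (hm : m < Nat.find hex) => Nat.find_min hex hm
  have hlow : Λ + 1 < Nat.find hex := by
    by_contra hcon
    push Not at hcon
    exact hn (a61d_anti b Λ hcon (c_mem h Λ))
  obtain ⟨k, hk⟩ : ∃ k, Nat.find hex = k + 1 := ⟨Nat.find hex - 1, by omega⟩
  rw [hk] at hn hmin hlow
  have hck : c ∈ wf b (w4 Λ) k := by
    have := hmin k (by omega)
    push Not at this
    exact this
  have hnorm : (wf b (w4 Λ) (k + 1)).Normal := wf_normal b (w4 Λ) (k + 1)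
  have hker : ∀ g ∈ wf b (w4 Λ) (k + 1), e g = 1 := fun g hg =>
    e_all_zero h (by omega) hg
  have hsurj : Function.Surjective (QuotientGroup.mk' (wf b (w4 Λ) (k + 1))) :=
    QuotientGroup.mk'_surjective _
  refine ⟨G ⧸ wf b (w4 Λ) (k + 1), inferInstance, inferInstance,
    fun i => QuotientGroup.mk' (wf b (w4 Λ) (k + 1)) (b i),
    QuotientGroup.lift (wf b (w4 Λ) (k + 1)) e hker,
    QuotientGroup.mk' (wf b (w4 Λ) (k + 1)) c, Λ, k, hG.to_quotient _, ?_, hΛ4, ?_, ?_, ?_⟩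
  · refine ⟨?_, ?_, ?_, ?_, ?_, ?_⟩
    · have e1 : Set.range (fun i => QuotientGroup.mk' (wf b (w4 Λ) (k + 1)) (b i)) =
          (QuotientGroup.mk' (wf b (w4 Λ) (k + 1))) '' Set.range b := by
        rw [← Set.range_comp]; rfl
      rw [e1, ← MonoidHom.map_closure, h.gen, ← MonoidHom.range_eq_map,
        MonoidHom.range_eq_top.2 hsurj]
    · intro i
      show e (b i) = _
      exact h.he i
    · intro hc
      exact hn ((QuotientGroup.eq_one_iff c).1 hc)
    · rw [← map_pow, h.c5, map_one]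
    · intro g
      obtain ⟨g, rfl⟩ := hsurj g
      exact (h.cc g).map _
    · intro g
      obtain ⟨g, rfl⟩ := hsurj g
      rw [← map_pow, h.pow, map_pow]
      rfl
  · intro l hl
    obtain ⟨l', rfl⟩ : ∃ l' : List G, l'.map (QuotientGroup.mk' (wf b (w4 Λ) (k + 1))) = l :=
      (List.map_surjective_iff.2 hsurj) l
    rw [List.length_map] at hl
    have h1 := congrArg (MonoidAlgebra.mapDomainRingHom (ZMod 5)
      (QuotientGroup.mk' (wf b (w4 Λ) (k + 1)))) (hN l' hl)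
    rw [map_zero, map_list_prod, List.map_map] at h1
    rw [List.map_map, ← h1]
    congr 2
    funext g
    show th 5 _ (QuotientGroup.mk' (wf b (w4 Λ) (k + 1)) g) - 1 =
      MonoidAlgebra.mapDomainRingHom (ZMod 5) (QuotientGroup.mk' (wf b (w4 Λ) (k + 1)))
        (th 5 G g - 1)
    rw [map_sub, map_one]
    refine congrArg (fun t => t - 1) ?_
    simp [MonoidAlgebra.of_apply]
  · rw [← wf_map (QuotientGroup.mk' (wf b (w4 Λ) (k + 1))) hsurj b (w4 Λ) k]
    exact Subgroup.mem_map_of_mem _ hck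
  · rw [← wf_map (QuotientGroup.mk' (wf b (w4 Λ) (k + 1))) hsurj b (w4 Λ) (k + 1)]
    exact QuotientGroup.map_mk'_self _

end Pool.Agent.Lib.H80F
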