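import Pool.Agent.Lib.H80F.A2a

/-!
# H80F, A6: iterated commutators
-/

namespace Pool.Agent.Lib.H80F

open Subgroup
open scoped commutatorElement

variable {G R : Type} [Group G] [Ring R] (θ : G →* R) {F : ℕ → Subgroup G}


theorem adw_append (y : AlF F) (w : List (AlF F)) (a : AlF F) :
    adw θ y (w ++ [a]) = adw θ y w * (θ a.1.2 - 1) - (θ a.1.2 - 1) * adw θ y w := by
  unfold adw
  rw [List.reverse_append]
  rfl

theorem a6a_wtF_append (w : List (AlF F)) (a : AlF F) : wtF (w ++ [a]) = wtF w + a.1.1 := by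
  simp [wtF]

/-- The weight of an iterated commutator. -/
theorem adw_mem (y : AlF F) (w : List (AlF F)) : adw θ y w ∈ J θ F (y.1.1 + wtF w) := by
  induction w using List.reverseRecOn with
  | nil => exact J_sub_one θ y.2.2
  | append_singleton w a ih =>
    rw [adw_append, a6a_wtF_append]
    have h1 := (J_rfilt θ F).mul _ _ _ _ ih (J_sub_one θ a.2.2)
    have h2 := (J_rfilt θ F).mul _ _ _ _ (J_sub_one θ a.2.2) ih
    have e1 : y.1.1 + wtF w + a.1.1 = y.1.1 + (wtF w + a.1.1) := by omega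
    have e2 : a.1.1 + (y.1.1 + wtF w) = y.1.1 + (wtF w + a.1.1) := by omega
    rw [e1] at h1
    rw [e2] at h2
    exact AddSubgroup.sub_mem _ h1 h2

/-- The iterated commutator is, up to higher terms, `θ g - 1` for the iterated group commutator
`g`. Induction on `w` from the right, `J_comm_mod`. -/
theorem adw_lead (hF : NSer F) (y : AlF F) (w : List (AlF F)) : ∃ g ∈ F (y.1.1 + wtF w),
    adw θ y w - (θ g - 1) ∈ J θ F (y.1.1 + wtF w + 1) := by
  induction w using List.reverseRecOn with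
  | nil =>
    refine ⟨y.1.2, y.2.2, ?_⟩
    have h : adw θ y [] - (θ y.1.2 - 1) = 0 := sub_self _
    rw [h]
    exact AddSubgroup.zero_mem _
  | append_singleton w a ih =>
    obtain ⟨g, hg, hd⟩ := ih
    refine ⟨⁅g, a.1.2⁆, ?_, ?_⟩
    · rw [a6a_wtF_append, ← add_assoc]
      exact hF.comm _ _ (commutator_mem_commutator hg a.2.2)
    · rw [adw_append, a6a_wtF_append]
      have h1 := J_comm_mod θ hF hg a.2.2
      have h2 := (J_rfilt θ F).mul _ _ _ _ hd (J_sub_one θ a.2.2)
      have h3 := (J_rfilt θ F).mul _ _ _ _ (J_sub_one θ a.2.2) hd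
      have e1 : y.1.1 + wtF w + a.1.1 + 1 = y.1.1 + (wtF w + a.1.1) + 1 := by omega
      have e2 : y.1.1 + wtF w + 1 + a.1.1 = y.1.1 + (wtF w + a.1.1) + 1 := by omega
      have e3 : a.1.1 + (y.1.1 + wtF w + 1) = y.1.1 + (wtF w + a.1.1) + 1 := by omega
      rw [e1] at h1
      rw [e2] at h2
      rw [e3] at h3
      have h4 := AddSubgroup.sub_mem _ (AddSubgroup.sub_mem _ h2 h3) h1
      have e4 : adw θ y w * (θ a.1.2 - 1) - (θ a.1.2 - 1) * adw θ y w - (θ ⁅g, a.1.2⁆ - 1) =
          (adw θ y w - (θ g - 1)) * (θ a.1.2 - 1) - (θ a.1.2 - 1) * (adw θ y w - (θ g - 1)) -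
          (θ ⁅g, a.1.2⁆ - 1 - ((θ g - 1) * (θ a.1.2 - 1) - (θ a.1.2 - 1) * (θ g - 1))) := by
        noncomm_ring
      rw [e4]
      exact h4

end Pool.Agent.Lib.H80F
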