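import Pool.Agent.Lib.H80F.A4b
import Pool.Agent.Lib.H80F.A6a

/-!
# H80F, A6: the adjoint functional
-/

namespace Pool.Agent.Lib.H80F

open Subgroup
open scoped commutatorElement

variable {G R : Type} [Group G] [Ring R] (θ : G →* R) {F : ℕ → Subgroup G}

/-- The iterated bracket of `x` with the letters of `w`. -/
private def a6b_brk (w : List (AlF F)) : R →+ R :=
  match w with
  | [] => AddMonoidHom.id R
  | a :: w => (a6b_brk w).comp
      (AddMonoidHom.mulRight (θ a.1.2 - 1) - AddMonoidHom.mulLeft (θ a.1.2 - 1))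

private theorem a6b_nil (x : R) : a6b_brk θ ([] : List (AlF F)) x = x := rfl

private theorem a6b_cons (a : AlF F) (w : List (AlF F)) (x : R) :
    a6b_brk θ (a :: w) x = a6b_brk θ w (x * (θ a.1.2 - 1) - (θ a.1.2 - 1) * x) := rfl

private theorem a6b_adw (y : AlF F) (u w : List (AlF F)) :
    adw θ y (u ++ w) = a6b_brk θ w (adw θ y u) := by
  induction w generalizing u with
  | nil => simp [a6b_nil]
  | cons a w ih =>
    rw [a6b_cons, ← adw_append, ← ih]
    simp

private theorem a6b_mem (w : List (AlF F)) {n : ℕ} {x : R} (hx : x ∈ J θ F n) :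
    a6b_brk θ w x ∈ J θ F (n + wtF w) := by
  induction w generalizing n x with
  | nil => simpa [a6b_nil, wtF] using hx
  | cons a w ih =>
    rw [a6b_cons]
    have ha : θ a.1.2 - 1 ∈ J θ F a.1.1 := J_sub_one θ a.2.2
    have h1 := (J_rfilt θ F).mul _ _ _ _ hx ha
    have h2 := (J_rfilt θ F).mul _ _ _ _ ha hx
    rw [Nat.add_comm] at h2
    have h3 := ih (AddSubgroup.sub_mem _ h1 h2)
    have e : n + a.1.1 + wtF w = n + wtF (a :: w) := by
      simp only [wtF, List.map_cons, List.sum_cons]; ring
    rwa [e] at h3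

private theorem a6b_wt_append (u v : List (AlF F)) : wtF (u ++ v) = wtF u + wtF v := by
  simp [wtF]

private theorem a6b_wt_cons (a : AlF F) (v : List (AlF F)) : wtF (a :: v) = a.1.1 + wtF v := by
  simp [wtF]

private theorem a6b_fold4 (x : R) (V : Fin 4 → R) (σ : Equiv.Perm (Fin 4)) :
    lw (Fin.cons x V : Fin 5 → R) 0
      [(σ 3).succ, (σ 2).succ, (σ 1).succ, (σ 0).succ] =
    (fun z => z * V (σ 3) - V (σ 3) * z) ((fun z => z * V (σ 2) - V (σ 2) * z)
      ((fun z => z * V (σ 1) - V (σ 1) * z) ((fun z => z * V (σ 0) - V (σ 0) * z) x))) := by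
  simp only [lw, Fin.cons_zero, Fin.cons_succ]

/-- **The adjoint functional.** Suppose that in total weight `≤ k` the symmetrised products of five
elements `θ g - 1` have larger weight. Then the adjoint functional of total weight `k` satisfies
`WF4`. The identity `br`: if `X = adw y u`, then modulo `J` of weight one more than the total,
`[X, θ ⁅a, b⁆ - 1] = [X, [A, B]] = [[X, A], B] - [[X, B], A]` with `A = θ a - 1`, `B = θ b - 1`
(`J_comm_mod`), and bracketing with the rest of the word preserves this. The identity `s4`: write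
`X = adw y u = (θ g - 1) + (higher)` (`adw_lead`), so the symmetrised sum of the fourfold
commutators of `X` is, modulo higher terms, the one for `W = θ g - 1`, that is (`ad_four`) the
symmetrised product of the five elements `W, A₀, ..., A₃`, which is in `J (weight + 1)` by `H`. -/
theorem adE_wf4 (h5 : (5 : R) = 0) (hF : NSer F) {k : ℕ}
    (H : ∀ (g : Fin 5 → G) (m : Fin 5 → ℕ), (∀ i, 1 ≤ m i) → (∀ i, g i ∈ F (m i)) →
      ∑ i, m i ≤ k → ∑ σ : Equiv.Perm (Fin 5), (List.ofFn (fun i => θ (g (σ i)) - 1)).prod ∈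
        J θ F ((∑ i, m i) + 1)) (y : AlF F) :
    WF4 (brF hF) (adE θ k y) := by
  classical
  constructor
  · intro u v a b
    have e1 : wtF (u ++ brF hF a b :: v) = wtF u + (a.1.1 + b.1.1) + wtF v := by
      rw [a6b_wt_append, a6b_wt_cons]; simp only [brF]; ring
    have e2 : wtF (u ++ a :: b :: v) = wtF u + (a.1.1 + b.1.1) + wtF v := by
      rw [a6b_wt_append, a6b_wt_cons, a6b_wt_cons]; ring
    have e3 : wtF (u ++ b :: a :: v) = wtF u + (a.1.1 + b.1.1) + wtF v := by
      rw [a6b_wt_append, a6b_wt_cons, a6b_wt_cons]; ring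
    unfold adE
    rw [e1, e2, e3]
    split_ifs with hk
    · rw [← QuotientAddGroup.mk_sub, QuotientAddGroup.eq]
      rw [a6b_adw, a6b_adw, a6b_adw, a6b_cons, a6b_cons, a6b_cons, a6b_cons, a6b_cons,
        ← map_sub, ← map_neg, ← map_add]
      have hX : adw θ y u ∈ J θ F (y.1.1 + wtF u) := adw_mem θ y u
      set X := adw θ y u
      set A := θ a.1.2 - 1
      set B := θ b.1.2 - 1
      have hE : θ (brF hF a b).1.2 - 1 - (A * B - B * A) ∈ J θ F (a.1.1 + b.1.1 + 1) :=
        J_comm_mod θ hF a.2.2 b.2.2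
      set C := θ (brF hF a b).1.2 - 1
      have e : -(X * C - C * X) + ((X * A - A * X) * B - B * (X * A - A * X) -
          ((X * B - B * X) * A - A * (X * B - B * X))) =
          (C - (A * B - B * A)) * X - X * (C - (A * B - B * A)) := by
        noncomm_ring
      rw [e]
      have h1 := (J_rfilt θ F).mul _ _ _ _ hE hX
      have h2 := (J_rfilt θ F).mul _ _ _ _ hX hE
      rw [Nat.add_comm] at h1
      have h3 := a6b_mem θ v (AddSubgroup.sub_mem _ h1 h2)
      have e4 : y.1.1 + wtF u + (a.1.1 + b.1.1 + 1) + wtF v = k + 1 := by omega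
      rwa [e4] at h3
    · simp
  · intro u v a
    have e1 : ∀ σ : Equiv.Perm (Fin 4), wtF (u ++ a (σ 0) :: a (σ 1) :: a (σ 2) :: a (σ 3) :: v) =
        wtF u + (∑ i, (a i).1.1) + wtF v := by
      intro σ
      rw [a6b_wt_append, a6b_wt_cons, a6b_wt_cons, a6b_wt_cons, a6b_wt_cons,
        ← Equiv.sum_comp σ (fun i => (a i).1.1), Fin.sum_univ_four]
      ring
    unfold adE
    simp only [e1]
    split_ifs with hk
    · rw [← QuotientAddGroup.mk_sum, QuotientAddGroup.eq_zero_iff]
      obtain ⟨g, hg, hgX⟩ := adw_lead θ hF y u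
      set A : Fin 4 → R := fun i => θ (a i).1.2 - 1 with hA
      have e2 : ∀ σ : Equiv.Perm (Fin 4), adw θ y (u ++ a (σ 0) :: a (σ 1) :: a (σ 2) :: a (σ 3) :: v)
          = a6b_brk θ v (a6b_brk θ [a (σ 0), a (σ 1), a (σ 2), a (σ 3)]
              (adw θ y u - (θ g - 1)) + a6b_brk θ [a (σ 0), a (σ 1), a (σ 2), a (σ 3)]
              (θ g - 1)) := by
        intro σ
        rw [← map_add, sub_add_cancel, ← a6b_adw, ← a6b_adw]
        simp
      simp only [e2]
      rw [← map_sum, Finset.sum_add_distrib]
      have hm1 : ∑ σ : Equiv.Perm (Fin 4), a6b_brk θ [a (σ 0), a (σ 1), a (σ 2), a (σ 3)]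
              (adw θ y u - (θ g - 1)) ∈ J θ F (y.1.1 + wtF u + 1 + ∑ i, (a i).1.1) := by
        refine AddSubgroup.sum_mem _ fun σ _ => ?_
        have h := a6b_mem θ [a (σ 0), a (σ 1), a (σ 2), a (σ 3)] hgX
        have e3 : wtF [a (σ 0), a (σ 1), a (σ 2), a (σ 3)] = ∑ i, (a i).1.1 := by
          rw [← Equiv.sum_comp σ (fun i => (a i).1.1), Fin.sum_univ_four]
          simp [wtF]
          ring
        rwa [e3] at h
      have hm2 : ∑ σ : Equiv.Perm (Fin 4), a6b_brk θ [a (σ 0), a (σ 1), a (σ 2), a (σ 3)]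
              (θ g - 1) ∈ J θ F (y.1.1 + wtF u + 1 + ∑ i, (a i).1.1) := by
        have e4 : ∀ σ : Equiv.Perm (Fin 4), a6b_brk θ [a (σ 0), a (σ 1), a (σ 2), a (σ 3)]
              (θ g - 1) = lw (Fin.cons (θ g - 1) A : Fin 5 → R) 0
                [(σ 3).succ, (σ 2).succ, (σ 1).succ, (σ 0).succ] := by
          intro σ
          rw [a6b_fold4]
          rfl
        simp only [e4]
        rw [ad_four h5]
        have h := H (Fin.cons g (fun i => (a i).1.2)) (Fin.cons (y.1.1 + wtF u) (fun i => (a i).1.1))
          (by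
            intro i
            refine Fin.cases ?_ (fun j => ?_) i
            · simp only [Fin.cons_zero]
              have := y.2.1
              omega
            · simp only [Fin.cons_succ]
              exact (a j).2.1)
          (by
            intro i
            refine Fin.cases ?_ (fun j => ?_) i
            · simp only [Fin.cons_zero]
              exact hg
            · simp only [Fin.cons_succ]
              exact (a j).2.2)
          (by
            rw [Fin.sum_univ_succ]
            simp only [Fin.cons_zero, Fin.cons_succ]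
            omega)
        rw [Fin.sum_univ_succ] at h
        simp only [Fin.cons_zero, Fin.cons_succ] at h
        have e5 : ∀ i : Fin 5, θ ((Fin.cons g (fun i => (a i).1.2) : Fin 5 → G) i) - 1 =
            (Fin.cons (θ g - 1) A : Fin 5 → R) i := by
          intro i
          refine Fin.cases ?_ (fun j => ?_) i
          · simp only [Fin.cons_zero]
          · simp only [Fin.cons_succ, hA]
        simp only [e5] at h
        have e6 : y.1.1 + wtF u + ∑ i, (a i).1.1 + 1 = y.1.1 + wtF u + 1 + ∑ i, (a i).1.1 := by ring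
        rwa [e6] at h
      have h3 := a6b_mem θ v (AddSubgroup.add_mem _ hm1 hm2)
      have e7 : y.1.1 + wtF u + 1 + ∑ i, (a i).1.1 + wtF v = k + 1 := by omega
      rwa [e7] at h3
    · simp

end Pool.Agent.Lib.H80F
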