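import Pool.Agent.Lib.H80F.A5b
import Pool.Agent.Lib.H80F.A6b

/-!
# H80F, A6: seven letters
-/

namespace Pool.Agent.Lib.H80F

open Subgroup
open scoped commutatorElement

variable {G R : Type} [Group G] [Ring R] (θ : G →* R) {F : ℕ → Subgroup G}


/-- In total weight `k` the words with at least seven letters `x` are killed: `nc7_words` for
`adE`. (`5 • m = 0` in `R ⧸ J` as `5 = 0` in `R`.) -/
theorem adw_nc7 (h5 : (5 : R) = 0) (hF : NSer F) {k : ℕ}
    (H : ∀ (g : Fin 5 → G) (m : Fin 5 → ℕ), (∀ i, 1 ≤ m i) → (∀ i, g i ∈ F (m i)) →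
      ∑ i, m i ≤ k → ∑ σ : Equiv.Perm (Fin 5), (List.ofFn (fun i => θ (g (σ i)) - 1)).prod ∈
        J θ F ((∑ i, m i) + 1)) [DecidableEq (AlF F)] (x y : AlF F) (w : List (AlF F))
    (hk : y.1.1 + wtF w = k) (h7 : 7 ≤ w.count x) : adw θ y w ∈ J θ F (k + 1) := by
  have hz : ∀ m : R ⧸ J θ F (k + 1), (5 : ℕ) • m = 0 := by
    intro m
    obtain ⟨r, rfl⟩ := QuotientAddGroup.mk_surjective m
    rw [← QuotientAddGroup.mk_nsmul, nsmul_eq_mul]
    have h : ((5 : ℕ) : R) = 0 := by exact_mod_cast h5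
    rw [h, zero_mul]
    rfl
  have h := nc7_words hz (adE_wf4 θ h5 hF H y) x w h7
  unfold adE at h
  rw [if_pos hk] at h
  exact (QuotientAddGroup.eq_zero_iff _).1 h

end Pool.Agent.Lib.H80F
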