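import Pool.Agent.Lib.H80F.A2a
import Pool.Agent.Lib.H80F.A4a

/-!
# H80F, A7: functions of two parameters
-/

namespace Pool.Agent.Lib.H80F

open Subgroup
open scoped commutatorElement

variable {R : Type} [Ring R] [Algebra (ZMod 5) R]

theorem a7a_anti {J : ℕ → AddSubgroup R} (hJ : RFilt J) {m n : ℕ} (h : m ≤ n) :
    J n ≤ J m := by
  induction n, h using Nat.le_induction with
  | base => exact le_rfl
  | succ n _ ih => exact (hJ.anti n).trans ih

theorem a7a_smul (S : AddSubgroup R) (a : ZMod 5) {r : R} (hr : r ∈ S) : a • r ∈ S := by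
  have : a • r = a.val • r := by
    conv_lhs => rw [← ZMod.natCast_zmod_val a]
    rw [Nat.cast_smul_eq_nsmul]
  rw [this]
  exact S.nsmul_mem hr _

theorem a7a_pow {J : ℕ → AddSubgroup R} (hJ : RFilt J) {W : ℕ} {x : R} (hx : x ∈ J W) (j : ℕ) :
    x ^ j ∈ J (j * W) := by
  induction j with
  | zero => simpa using hJ.one
  | succ j ih =>
    rw [pow_succ, Nat.succ_mul]
    exact hJ.mul _ _ _ _ ih hx

theorem a7a_nsmul_mem {J : ℕ → AddSubgroup R} {n : ℕ} (k : ℕ) {x : R} (hx : x ∈ J n) :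
    (k : R) * x ∈ J n := by
  rw [← nsmul_eq_mul]
  exact (J n).nsmul_mem hx _

theorem a7a_X5 {J : ℕ → AddSubgroup R} (hJ : RFilt J) {W : ℕ} {g : R} (hg : g - 1 ∈ J W) (j : ℕ) :
    X5 g j ∈ J (j * W) := by
  have hp : ∀ a, (g - 1) ^ a ∈ J (a * W) := a7a_pow hJ hg
  have hq : ∀ a b, b ≤ a → (g - 1) ^ a ∈ J (b * W) := fun a b hab =>
    a7a_anti hJ (Nat.mul_le_mul_right W hab) (hp a)
  match j with
  | 0 => simpa [X5] using hJ.one
  | 1 =>
    show (g - 1) + 2 * (g - 1) ^ 2 + 2 * (g - 1) ^ 3 + (g - 1) ^ 4 ∈ J (1 * W)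
    have h1 := hq 1 1 (by norm_num)
    rw [pow_one] at h1
    exact (J _).add_mem ((J _).add_mem ((J _).add_mem h1
      (by exact_mod_cast a7a_nsmul_mem 2 (hq 2 1 (by norm_num))))
      (by exact_mod_cast a7a_nsmul_mem 2 (hq 3 1 (by norm_num)))) (hq 4 1 (by norm_num))
  | 2 =>
    show 3 * (g - 1) ^ 2 + 2 * (g - 1) ^ 3 + 4 * (g - 1) ^ 4 ∈ J (2 * W)
    exact (J _).add_mem ((J _).add_mem
      (by exact_mod_cast a7a_nsmul_mem 3 (hq 2 2 (by norm_num)))
      (by exact_mod_cast a7a_nsmul_mem 2 (hq 3 2 (by norm_num))))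
      (by exact_mod_cast a7a_nsmul_mem 4 (hq 4 2 (by norm_num)))
  | 3 =>
    show (g - 1) ^ 3 + (g - 1) ^ 4 ∈ J (3 * W)
    exact (J _).add_mem (hq 3 3 (by norm_num)) (hq 4 3 (by norm_num))
  | 4 =>
    show 4 * (g - 1) ^ 4 ∈ J (4 * W)
    exact_mod_cast a7a_nsmul_mem 4 (hq 4 4 (by norm_num))
  | (k + 5) =>
    show (0 : R) ∈ _
    exact (J _).zero_mem

theorem PG_const {J : ℕ → AddSubgroup R} (W : ℕ) {r : R} (hr : r ∈ J 0) :
    (fun _ _ => r) ∈ PG J W 0 := by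
  refine AddSubgroup.subset_closure ⟨0, 0, r, le_rfl, ?_, ?_⟩
  · simpa using hr
  · funext l m
    simp

theorem PG_anti {J : ℕ → AddSubgroup R} (W : ℕ) {d e : ℕ} (h : d ≤ e) :
    PG J W e ≤ PG J W d := by
  apply AddSubgroup.closure_mono
  rintro q ⟨s, t, r, ht, hr, rfl⟩
  exact ⟨s, t, r, h.trans ht, hr, rfl⟩

theorem PG_mul {J : ℕ → AddSubgroup R} (hJ : RFilt J) (W : ℕ) {d e : ℕ}
    {q q' : ZMod 5 → ZMod 5 → R} (hq : q ∈ PG J W d) (hq' : q' ∈ PG J W e) :
    q * q' ∈ PG J W (d + e) := by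
  refine AddSubgroup.closure_induction (p := fun x _ => x * q' ∈ PG J W (d + e)) ?_ ?_ ?_ ?_ hq
  · rintro x ⟨s, t, r, ht, hr, rfl⟩
    refine AddSubgroup.closure_induction
      (p := fun y _ => (fun l m : ZMod 5 => (l ^ s * m ^ t) • r) * y ∈ PG J W (d + e))
      ?_ ?_ ?_ ?_ hq'
    · rintro y ⟨s', t', r', ht', hr', rfl⟩
      refine AddSubgroup.subset_closure ⟨s + s', t + t', r * r', by omega, ?_, ?_⟩
      · have := hJ.mul _ _ _ _ hr hr'
        have e1 : (s + s' + (t + t')) * W = (s + t) * W + (s' + t') * W := by ring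
        rw [e1]
        exact this
      · funext l m
        show (l ^ s * m ^ t) • r * (l ^ s' * m ^ t') • r' = (l ^ (s + s') * m ^ (t + t')) • (r * r')
        rw [smul_mul_smul_comm]
        congr 1
        ring
    · rw [mul_zero]
      exact AddSubgroup.zero_mem _
    · intro y z _ _ h1 h2
      rw [mul_add]
      exact AddSubgroup.add_mem _ h1 h2
    · intro y _ h1
      rw [mul_neg]
      exact AddSubgroup.neg_mem _ h1
  · rw [zero_mul]
    exact AddSubgroup.zero_mem _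
  · intro x y _ _ h1 h2
    rw [add_mul]
    exact AddSubgroup.add_mem _ h1 h2
  · intro x _ h1
    rw [neg_mul]
    exact AddSubgroup.neg_mem _ h1

/-- `pow_eq_X5`, `X5 g j ∈ J (j W)` for `j ≤ 4`. -/
theorem PG_left {J : ℕ → AddSubgroup R} (hJ : RFilt J) (W : ℕ) {g : R} (hg : g - 1 ∈ J W) :
    (fun l _ => g ^ l.val) ∈ PG J W 0 := by
  have e : (fun (l : ZMod 5) (_ : ZMod 5) => g ^ l.val) =
      ∑ i ∈ Finset.range 5, (fun (l m : ZMod 5) => (l ^ i * m ^ 0) • X5 g i) := by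
    funext l m
    rw [Finset.sum_apply, Finset.sum_apply, pow_eq_X5 g l]
    simp
  rw [e]
  refine AddSubgroup.sum_mem _ fun i _ => ?_
  refine AddSubgroup.subset_closure ⟨i, 0, X5 g i, le_rfl, ?_, rfl⟩
  rw [add_zero]
  exact a7a_X5 hJ hg i

theorem PG_right {J : ℕ → AddSubgroup R} (hJ : RFilt J) (W : ℕ) {g : R} (hg : g - 1 ∈ J W) :
    (fun _ m => g ^ m.val - 1) ∈ PG J W 1 := by
  have e : (fun (_ : ZMod 5) (m : ZMod 5) => g ^ m.val - 1) =
      ∑ i ∈ Finset.range 4, (fun (l m : ZMod 5) => (l ^ 0 * m ^ (i + 1)) • X5 g (i + 1)) := by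
    funext l m
    rw [Finset.sum_apply, Finset.sum_apply, pow_eq_X5 g m, Finset.sum_range_succ']
    simp [X5]
  rw [e]
  refine AddSubgroup.sum_mem _ fun i _ => ?_
  refine AddSubgroup.subset_closure ⟨0, i + 1, X5 g (i + 1), by omega, ?_, rfl⟩
  rw [zero_add]
  exact a7a_X5 hJ hg (i + 1)

theorem a7a_ring {A : Type} [Ring A] (q P S : A) :
    (1 + q) * P - 1 - (q + S) = (P - 1 - S) + q * ((P - 1 - S) + S) := by
  rw [sub_add_cancel, mul_sub, mul_one, add_mul, one_mul]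
  abel

/-- The product of the `1 + q`, `q ∈ PG 1`, up to terms in `PG 2` (induction on the list). -/
theorem PG_prod {J : ℕ → AddSubgroup R} (hJ : RFilt J) (W : ℕ) (L : List (ZMod 5 → ZMod 5 → R))
    (hL : ∀ q ∈ L, q ∈ PG J W 1) :
    (L.map (fun q => 1 + q)).prod - 1 - L.sum ∈ PG J W 2 ∧ L.sum ∈ PG J W 1 := by
  induction L with
  | nil =>
    simp only [List.map_nil, List.prod_nil, List.sum_nil, sub_self]
    exact ⟨AddSubgroup.zero_mem _, AddSubgroup.zero_mem _⟩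
  | cons q L ih =>
    obtain ⟨ih1, ih2⟩ := ih (fun q' hq' => hL q' (List.mem_cons_of_mem _ hq'))
    have hq : q ∈ PG J W 1 := hL q List.mem_cons_self
    constructor
    · simp only [List.map_cons, List.prod_cons, List.sum_cons]
      rw [a7a_ring]
      have h3 : (L.map (fun q => 1 + q)).prod - 1 - L.sum + L.sum ∈ PG J W 1 :=
        AddSubgroup.add_mem _ (PG_anti W (d := 1) (e := 2) (by norm_num) ih1) ih2
      have h4 := PG_mul hJ W (d := 1) (e := 1) hq h3
      exact AddSubgroup.add_mem _ ih1 h4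
    · rw [List.sum_cons]
      exact AddSubgroup.add_mem _ hq ih2

/-- On `(l ^ s m ^ t) r`, `kp` is `(∑ l ^ (s + 1)) (∑ m ^ (t + 3)) r`, which is `0` unless
`s ≡ 3`, `t ≡ 1 (mod 4)` (`sum_pow_zmod5`); with `t ≥ 2` this gives `s ≥ 3`, `t ≥ 5`. -/
theorem kp_mem {J : ℕ → AddSubgroup R} (hJ : RFilt J) (W : ℕ) {q : ZMod 5 → ZMod 5 → R}
    (hq : q ∈ PG J W 2) : kp q ∈ J (8 * W) := by
  refine AddSubgroup.closure_induction (p := fun x _ => kp x ∈ J (8 * W)) ?_ ?_ ?_ ?_ hq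
  · rintro x ⟨s, t, r, ht, hr, rfl⟩
    have e : kp (fun l m : ZMod 5 => (l ^ s * m ^ t) • r) =
        ((∑ l : ZMod 5, l ^ (s + 1)) * (∑ m : ZMod 5, m ^ (t + 3))) • r := by
      show ∑ l : ZMod 5, ∑ m : ZMod 5, (l * m ^ 3) • (l ^ s * m ^ t) • r = _
      rw [Finset.sum_mul_sum, Finset.sum_smul]
      refine Finset.sum_congr rfl fun l _ => ?_
      rw [Finset.sum_smul]
      refine Finset.sum_congr rfl fun m _ => ?_
      rw [smul_smul]
      congr 1
      ring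
    rw [e, sum_pow_zmod5, sum_pow_zmod5]
    by_cases h1 : 0 < s + 1 ∧ (s + 1) % 4 = 0
    · by_cases h2 : 0 < t + 3 ∧ (t + 3) % 4 = 0
      · apply a7a_smul
        have h8 : 8 ≤ s + t := by omega
        exact a7a_anti hJ (Nat.mul_le_mul_right W h8) hr
      · rw [if_neg h2, mul_zero, zero_smul]
        exact (J _).zero_mem
    · rw [if_neg h1, zero_mul, zero_smul]
      exact (J _).zero_mem
  · rw [map_zero]
    exact (J _).zero_mem
  · intro x y _ _ h1 h2
    rw [map_add]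
    exact (J _).add_mem h1 h2
  · intro x _ h1
    rw [map_neg]
    exact (J _).neg_mem h1

end Pool.Agent.Lib.H80F
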