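import Pool.Agent.Lib.H80F.Defs2

/-!
# H80F, A7: a product of conjugates
-/

namespace Pool.Agent.Lib.H80F

open Subgroup
open scoped commutatorElement

variable {G : Type} [Group G] {b : Fin 4 → G} {e : G →* Multiplicative (Fin 4 → ZMod 5)} {c : G}

theorem a7b_e3 (i j : Fin 3) :
    Multiplicative.toAdd (e3 i (FreeGroup.of j)) = if j = i then 1 else 0 := by
  simp [e3]

theorem a7b_sg (b : Fin 4 → G) (l : ZMod 5) (i : Fin 3) :
    sg b l (FreeGroup.of i) = if i = 0 then b 0 * b 3 ^ l.val else b i.castSucc := by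
  simp [sg]

theorem a7b_single (l : ZMod 5) :
    l.val • (Pi.single 3 1 : Fin 4 → ZMod 5) = Pi.single 3 l := by
  funext j
  rw [Pi.smul_apply, nsmul_eq_mul, Pi.single_apply, Pi.single_apply]
  split_ifs
  · rw [mul_one, ZMod.natCast_zmod_val]
  · rw [mul_zero]

theorem a7b_of (h : Rz b e c) (l : ZMod 5) (i : Fin 3) :
    Multiplicative.toAdd (e (sg b l (FreeGroup.of i))) =
      ![Multiplicative.toAdd (e3 0 (FreeGroup.of i)),
      Multiplicative.toAdd (e3 1 (FreeGroup.of i)), Multiplicative.toAdd (e3 2 (FreeGroup.of i)),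
      l * Multiplicative.toAdd (e3 0 (FreeGroup.of i))] := by
  rw [a7b_sg, a7b_e3, a7b_e3, a7b_e3]
  fin_cases i
  · simp only [Fin.zero_eta, Fin.isValue, if_true, map_mul, map_pow, h.he, toAdd_mul, toAdd_pow,
      toAdd_ofAdd, a7b_single]
    funext j
    fin_cases j <;> simp [Pi.single_apply]
  · simp only [Fin.mk_one, Fin.isValue, one_ne_zero, if_false, h.he, toAdd_ofAdd, if_true]
    funext j
    fin_cases j <;> simp [Pi.single_apply, Fin.ext_iff]
  · have h2 : (Fin.castSucc (2 : Fin 3) : Fin 4) = 2 := rfl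
    have h3 : Multiplicative.toAdd (e (b 2)) = Pi.single 2 1 := by rw [h.he, toAdd_ofAdd]
    simp only [Fin.reduceFinMk, Fin.isValue, h2, h3]
    funext j
    fin_cases j <;> simp [h3, Pi.single_apply, Fin.ext_iff]

/-- The exponents of `sg b l v`: two homomorphisms to `Multiplicative (Fin 4 → ZMod 5)` which agree on
the generators. -/
theorem e_sg (h : Rz b e c) (l : ZMod 5) (v : FreeGroup (Fin 3)) :
    Multiplicative.toAdd (e (sg b l v)) = ![Multiplicative.toAdd (e3 0 v),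
      Multiplicative.toAdd (e3 1 v), Multiplicative.toAdd (e3 2 v),
      l * Multiplicative.toAdd (e3 0 v)] := by
  induction v using FreeGroup.induction_on with
  | C1 =>
    funext j
    fin_cases j <;> simp
  | of i => exact a7b_of h l i
  | inv_of i ih =>
    rw [map_inv, map_inv, toAdd_inv, ih]
    funext j
    fin_cases j <;> simp
  | mul x y ihx ihy =>
    rw [map_mul, map_mul, toAdd_mul, ihx, ihy]
    funext j
    fin_cases j <;> simp [mul_add]

theorem a7b_dec : ∀ a : ZMod 5, ∑ l : ZMod 5, ∑ m : ZMod 5,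
    (l * m ^ 3) * (a * ((l * a + m) ^ 4 - (l * a) ^ 4)) = 4 * a ^ 4 := by
  decide +revert

/-- Check over `ZMod 5` (`decide` for the value of `e3 0 g`; `e3 1 g`, `e3 2 g` factor out). -/
theorem kp_ff (g : FreeGroup (Fin 3)) :
    ∑ l : ZMod 5, ∑ m : ZMod 5, (l * m ^ 3) * ff g l m = 4 * psi g := by
  have h1 := a7b_dec (Multiplicative.toAdd (e3 0 g))
  have h2 : 4 * psi g = (4 * (Multiplicative.toAdd (e3 0 g)) ^ 4) *
      ((Multiplicative.toAdd (e3 1 g)) ^ 4 * (Multiplicative.toAdd (e3 2 g)) ^ 4) := by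
    rw [psi, Fin.prod_univ_three]
    ring
  rw [h2, ← h1, Finset.sum_mul]
  refine Finset.sum_congr rfl fun l _ => ?_
  rw [Finset.sum_mul]
  refine Finset.sum_congr rfl fun m _ => ?_
  rw [ff]
  ring

theorem a7b_pow (c : G) (c5 : c ^ 5 = 1) (x y : ZMod 5) :
    c ^ x.val * (c ^ y.val)⁻¹ = c ^ (x - y).val := by
  rw [mul_inv_eq_iff_eq_mul, ← pow_add, pow_eq_pow_mod ((x - y).val + y.val) c5, ← ZMod.val_add,
    sub_add_cancel]

theorem a7b_group (u g w : G) :
    u * w * u⁻¹ * ((u * g) * w * (u * g)⁻¹ * ((u * g ^ 2) * w * (u * g ^ 2)⁻¹ *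
      ((u * g ^ 3) * w * (u * g ^ 3)⁻¹ * ((u * g ^ 4) * w * (u * g ^ 4)⁻¹)))) =
      u * ((w * g) ^ 5 * (g ^ 5)⁻¹) * u⁻¹ := by
  have e : (w * g) ^ 5 = w * g * (w * g) * (w * g) * (w * g) * (w * g) := by
    simp only [pow_succ, pow_zero, one_mul]
  rw [e]
  group

/-- With `w = u' b₃ ^ m u'⁻¹` (letters replaced by `sg b l`), the product is
`u (w (g w g⁻¹) (g² w g⁻²) (g³ w g⁻³) (g⁴ w g⁻⁴)) u⁻¹ = u (w g) ^ 5 g ^ (-5) u⁻¹`, and
`(w g) ^ 5`, `g ^ 5` are powers of `c` by `h.pow`; `e_sg`. -/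
theorem prod_conj (h : Rz b e c) (u g u' : FreeGroup (Fin 3)) (l m : ZMod 5) :
    (List.ofFn (fun j : Fin 5 => sg b l (u * g ^ (j : ℕ) * u') * b 3 ^ m.val *
      (sg b l (u * g ^ (j : ℕ) * u'))⁻¹)).prod = c ^ (ff g l m).val := by
  set U := sg b l u with hU
  set Γ := sg b l g with hΓ
  set U' := sg b l u' with hU'
  set w := U' * b 3 ^ m.val * U'⁻¹ with hw
  have e1 : (List.ofFn (fun j : Fin 5 => sg b l (u * g ^ (j : ℕ) * u') * b 3 ^ m.val *
      (sg b l (u * g ^ (j : ℕ) * u'))⁻¹)).prod =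
      U * w * U⁻¹ * ((U * Γ) * w * (U * Γ)⁻¹ * ((U * Γ ^ 2) * w * (U * Γ ^ 2)⁻¹ *
      ((U * Γ ^ 3) * w * (U * Γ ^ 3)⁻¹ * ((U * Γ ^ 4) * w * (U * Γ ^ 4)⁻¹)))) := by
    have e2 : ∀ j : ℕ, sg b l (u * g ^ j * u') * b 3 ^ m.val * (sg b l (u * g ^ j * u'))⁻¹ =
        (U * Γ ^ j) * w * (U * Γ ^ j)⁻¹ := by
      intro j
      rw [map_mul, map_mul, map_pow, ← hU, ← hΓ, ← hU', hw]
      group
    have e3 : (fun j : Fin 5 => sg b l (u * g ^ (j : ℕ) * u') * b 3 ^ m.val *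
      (sg b l (u * g ^ (j : ℕ) * u'))⁻¹) = fun j : Fin 5 =>
        (U * Γ ^ (j : ℕ)) * w * (U * Γ ^ (j : ℕ))⁻¹ := by
      funext j
      exact e2 j
    rw [e3]
    simp [List.ofFn_succ, mul_assoc]
  rw [e1, a7b_group]
  have e4 : Multiplicative.toAdd (e (w * Γ)) = ![Multiplicative.toAdd (e3 0 g),
      Multiplicative.toAdd (e3 1 g), Multiplicative.toAdd (e3 2 g),
      l * Multiplicative.toAdd (e3 0 g) + m] := by
    have e5 : e w = e (b 3) ^ m.val := by
      rw [hw, map_mul, map_mul, map_inv, map_pow]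
      rw [mul_comm (e U'), mul_assoc, mul_inv_cancel, mul_one]
    rw [map_mul, toAdd_mul, hΓ, e_sg h l g, e5, h.he, toAdd_pow, toAdd_ofAdd, a7b_single]
    funext j
    fin_cases j <;> simp [Pi.single_apply, add_comm]
  rw [h.pow, h.pow, e4, hΓ, e_sg h l g, a7b_pow c h.c5]
  have e6 : f4 ![Multiplicative.toAdd (e3 0 g), Multiplicative.toAdd (e3 1 g),
      Multiplicative.toAdd (e3 2 g), l * Multiplicative.toAdd (e3 0 g) + m] -
      f4 ![Multiplicative.toAdd (e3 0 g), Multiplicative.toAdd (e3 1 g),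
      Multiplicative.toAdd (e3 2 g), l * Multiplicative.toAdd (e3 0 g)] = ff g l m := by
    simp only [f4, ff, Matrix.cons_val_zero, Matrix.cons_val_one, Matrix.cons_val]
    ring
  rw [e6]
  have e7 : Commute (c ^ (ff g l m).val) U := (h.cc U).pow_left _
  rw [← e7.eq, mul_inv_cancel_right]

end Pool.Agent.Lib.H80F
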