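import Pool.Agent.Lib.H80F.A7a
import Pool.Agent.Lib.H80F.A7b
import Pool.Agent.Lib.H80F.A61a

/-!
# H80F, A7: the relation
-/

namespace Pool.Agent.Lib.H80F

open Subgroup
open scoped commutatorElement

variable {G : Type} [Group G] {b : Fin 4 → G} {e : G →* Multiplicative (Fin 4 → ZMod 5)} {c : G}


private theorem a7c_sg_mem (b : Fin 4 → G) (Λ : ℕ) (v : FreeGroup (Fin 3)) :
    (fun (l _ : ZMod 5) => th 5 G (sg b l v)) ∈
      PG (J (th 5 G) (wf b (w4 Λ))) (Λ + 1) 0 := by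
  have hJ := J_rfilt (th 5 G) (wf b (w4 Λ))
  have h0 : wf b (w4 Λ) 0 = ⊤ := wf_le_one b (w4 Λ) (by omega)
  have hu : ∀ g : G, th 5 G g ∈ J (th 5 G) (wf b (w4 Λ)) 0 := J_unit (th 5 G) h0
  have hb3 : b 3 ∈ wf b (w4 Λ) (Λ + 1) := by
    have := wf_letter b (w4_pos Λ) 3
    simpa [w4] using this
  have h3 : th 5 G (b 3) - 1 ∈ J (th 5 G) (wf b (w4 Λ)) (Λ + 1) := J_sub_one (th 5 G) hb3
  have h3' : th 5 G (b 3)⁻¹ - 1 ∈ J (th 5 G) (wf b (w4 Λ)) (Λ + 1) :=
    J_sub_one (th 5 G) (inv_mem hb3)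
  have hof : ∀ i : Fin 3, (fun (l _ : ZMod 5) => th 5 G (sg b l (FreeGroup.of i))) ∈
      PG (J (th 5 G) (wf b (w4 Λ))) (Λ + 1) 0 := by
    intro i
    by_cases hi : i = 0
    · subst hi
      have h := PG_mul hJ (Λ + 1) (PG_const (Λ + 1) (hu (b 0))) (PG_left hJ (Λ + 1) h3)
      have e : (fun (l _ : ZMod 5) => th 5 G (sg b l (FreeGroup.of 0))) =
          (fun _ _ => th 5 G (b 0)) * (fun l _ => th 5 G (b 3) ^ l.val) := by
        funext l m
        simp [sg]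
      rw [e]
      exact h
    · have e : (fun (l _ : ZMod 5) => th 5 G (sg b l (FreeGroup.of i))) =
          (fun _ _ => th 5 G (b i.castSucc)) := by
        funext l m
        simp [sg, hi]
      rw [e]
      exact PG_const (Λ + 1) (hu _)
  have hofi : ∀ i : Fin 3, (fun (l _ : ZMod 5) => th 5 G (sg b l (FreeGroup.of i)⁻¹)) ∈
      PG (J (th 5 G) (wf b (w4 Λ))) (Λ + 1) 0 := by
    intro i
    by_cases hi : i = 0
    · subst hi
      have h := PG_mul hJ (Λ + 1) (PG_left hJ (Λ + 1) h3') (PG_const (Λ + 1) (hu (b 0)⁻¹))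
      have e : (fun (l _ : ZMod 5) => th 5 G (sg b l (FreeGroup.of 0)⁻¹)) =
          (fun l _ => th 5 G (b 3)⁻¹ ^ l.val) * (fun _ _ => th 5 G (b 0)⁻¹) := by
        funext l m
        have : sg b l (FreeGroup.of 0)⁻¹ = (b 3)⁻¹ ^ l.val * (b 0)⁻¹ := by
          rw [map_inv]
          simp [sg]
        show th 5 G (sg b l (FreeGroup.of 0)⁻¹) = th 5 G (b 3)⁻¹ ^ l.val * th 5 G (b 0)⁻¹
        rw [this, map_mul, map_pow]
      rw [e]
      exact h
    · have e : (fun (l _ : ZMod 5) => th 5 G (sg b l (FreeGroup.of i)⁻¹)) =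
          (fun _ _ => th 5 G (b i.castSucc)⁻¹) := by
        funext l m
        have : sg b l (FreeGroup.of i)⁻¹ = (b i.castSucc)⁻¹ := by
          rw [map_inv]
          simp [sg, hi]
        rw [this]
      rw [e]
      exact PG_const (Λ + 1) (hu _)
  induction v using FreeGroup.induction_on with
  | C1 =>
    have e : (fun (l _ : ZMod 5) => th 5 G (sg b l 1)) = (fun _ _ => th 5 G 1) := by
      funext l m
      simp
    rw [e]
    exact PG_const (Λ + 1) (hu _)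
  | of i => exact hof i
  | inv_of i _ => exact hofi i
  | mul x y hx hy =>
    have h := PG_mul hJ (Λ + 1) hx hy
    have e : (fun (l _ : ZMod 5) => th 5 G (sg b l (x * y))) =
        (fun (l _ : ZMod 5) => th 5 G (sg b l x)) * (fun (l _ : ZMod 5) => th 5 G (sg b l y)) := by
      funext l m
      simp
    rw [e]
    exact h

/-- The functions `(l, m) ↦ th (sg b l v)`, `(l, m) ↦ th (sg b l v)⁻¹` are in `PG 0`
(`FreeGroup.induction_on`, `PG_left` for `b₃` and for `b₃⁻¹`, `PG_const` with `J_unit`), and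
`PG_right`. -/
theorem Wf_mem (b : Fin 4 → G) (hb : closure (Set.range b) = ⊤) (Λ : ℕ) (v : FreeGroup (Fin 3)) :
    Wf b v ∈ PG (J (th 5 G) (wf b (w4 Λ))) (Λ + 1) 1 := by
  have hJ := J_rfilt (th 5 G) (wf b (w4 Λ))
  have hb3 : b 3 ∈ wf b (w4 Λ) (Λ + 1) := by
    have := wf_letter b (w4_pos Λ) 3
    simpa [w4] using this
  have h3 : th 5 G (b 3) - 1 ∈ J (th 5 G) (wf b (w4 Λ)) (Λ + 1) := J_sub_one (th 5 G) hb3
  have h := PG_mul hJ (Λ + 1) (PG_mul hJ (Λ + 1) (a7c_sg_mem b Λ v) (PG_right hJ (Λ + 1) h3))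
    (a7c_sg_mem b Λ v⁻¹)
  have e : Wf b v = ((fun (l _ : ZMod 5) => th 5 G (sg b l v)) *
      (fun _ m => th 5 G (b 3) ^ m.val - 1)) * (fun (l _ : ZMod 5) => th 5 G (sg b l v⁻¹)) := by
    funext l m
    show th 5 G (sg b l v) * (th 5 G (b 3) ^ m.val - 1) * th 5 G (sg b l v)⁻¹ =
      th 5 G (sg b l v) * (th 5 G (b 3) ^ m.val - 1) * th 5 G (sg b l v⁻¹)
    rw [map_inv (sg b l)]
  rw [e]
  exact h

private theorem a7c_smul {n : ℕ} {F : ℕ → Subgroup G} (z : ZMod 5) {x : MonoidAlgebra (ZMod 5) G}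
    (hx : x ∈ J (th 5 G) F n) : z • x ∈ J (th 5 G) F n := by
  have e : z • x = z.val • x := by
    conv_lhs => rw [← ZMod.natCast_zmod_val z]
    rw [Nat.cast_smul_eq_nsmul]
  rw [e]
  exact AddSubgroup.nsmul_mem _ hx _

/-- By `prod_conj` the product of the `1 + Wf b (u g ^ j u')` is `(l, m) ↦ c ^ (ff g l m)`, which is
`1 + ff g l m (c - 1)` modulo `J (2 k)` (`c_pow_mod`); `PG_prod`, `kp_mem`, `kp_ff`. -/
theorem kp_W (h : Rz b e c) {Λ k : ℕ} (hk1 : 1 ≤ k) (hk : k < 8 * (Λ + 1))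
    (hck : c ∈ wf b (w4 Λ) k) (u g u' : FreeGroup (Fin 3)) :
    kp (∑ j : Fin 5, Wf b (u * g ^ (j : ℕ) * u')) - (4 * psi g) • (th 5 G c - 1) ∈
      J (th 5 G) (wf b (w4 Λ)) (k + 1) := by
  have hJ := J_rfilt (th 5 G) (wf b (w4 Λ))
  set L : List (ZMod 5 → ZMod 5 → MonoidAlgebra (ZMod 5) G) :=
    List.ofFn (fun j : Fin 5 => Wf b (u * g ^ (j : ℕ) * u')) with hL
  have hLm : ∀ q ∈ L, q ∈ PG (J (th 5 G) (wf b (w4 Λ))) (Λ + 1) 1 := by
    intro q hq
    rw [hL, List.mem_ofFn] at hq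
    obtain ⟨j, rfl⟩ := hq
    exact Wf_mem b h.gen Λ _
  have h1 := kp_mem hJ (Λ + 1) (PG_prod hJ (Λ + 1) L hLm).1
  have h1' := J_anti_le (th 5 G) (wf b (w4 Λ)) (show k + 1 ≤ 8 * (Λ + 1) by omega) h1
  have hsum : L.sum = ∑ j : Fin 5, Wf b (u * g ^ (j : ℕ) * u') := by
    rw [hL, List.sum_ofFn]
  have hprod : (L.map (fun q => 1 + q)).prod = fun l m => th 5 G (c ^ (ff g l m).val) := by
    funext l m
    have e1 : ∀ L' : List (ZMod 5 → ZMod 5 → MonoidAlgebra (ZMod 5) G),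
        L'.prod l m = (L'.map (fun q => q l m)).prod := by
      intro L'
      induction L' with
      | nil => simp
      | cons q L' ih => simp [ih]
    rw [e1, ← prod_conj h u g u' l m, map_list_prod, hL, List.map_ofFn, List.map_ofFn,
      List.map_ofFn]
    congr 1
    congr 1
    funext j
    simp only [Function.comp]
    set s := sg b l (u * g ^ (j : ℕ) * u')
    show (1 : MonoidAlgebra (ZMod 5) G) + th 5 G s * (th 5 G (b 3) ^ m.val - 1) * th 5 G s⁻¹ =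
      th 5 G (s * b 3 ^ m.val * s⁻¹)
    rw [map_mul, map_mul, map_pow, mul_sub, sub_mul, mul_one, ← map_mul (th 5 G) s s⁻¹,
      mul_inv_cancel, map_one]
    abel
  rw [hprod, hsum, map_sub] at h1'
  have h2 : kp ((fun l m => th 5 G (c ^ (ff g l m).val)) - 1) - (4 * psi g) • (th 5 G c - 1) ∈
      J (th 5 G) (wf b (w4 Λ)) (k + 1) := by
    have e2 : kp ((fun l m => th 5 G (c ^ (ff g l m).val)) - 1) - (4 * psi g) • (th 5 G c - 1) =
        ∑ l : ZMod 5, ∑ m : ZMod 5, (l * m ^ 3) • (th 5 G (c ^ (ff g l m).val) - 1 -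
          (ff g l m).val • (th 5 G c - 1)) := by
      rw [← kp_ff g, Finset.sum_smul, ]
      simp only [kp, AddMonoidHom.coe_mk, ZeroHom.coe_mk, Finset.sum_smul]
      rw [← Finset.sum_sub_distrib]
      refine Finset.sum_congr rfl fun l _ => ?_
      rw [← Finset.sum_sub_distrib]
      refine Finset.sum_congr rfl fun m _ => ?_
      rw [smul_sub (l * m ^ 3), mul_smul (l * m ^ 3) (ff g l m)]
      congr 2
      conv_lhs => rw [← ZMod.natCast_zmod_val (ff g l m)]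
      rw [Nat.cast_smul_eq_nsmul]
    rw [e2]
    refine AddSubgroup.sum_mem _ fun l _ => AddSubgroup.sum_mem _ fun m _ => a7c_smul _ ?_
    exact J_anti_le (th 5 G) _ (by omega) (c_pow_mod hck _)
  have h3 := AddSubgroup.sub_mem _ h2 h1'
  have e3 : kp ((fun l m => th 5 G (c ^ (ff g l m).val)) - 1) - (4 * psi g) • (th 5 G c - 1) -
      (kp ((fun l m => th 5 G (c ^ (ff g l m).val)) - 1) -
        kp (∑ j : Fin 5, Wf b (u * g ^ (j : ℕ) * u'))) =
      kp (∑ j : Fin 5, Wf b (u * g ^ (j : ℕ) * u')) - (4 * psi g) • (th 5 G c - 1) := by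
    abel
  rwa [e3] at h3

theorem phi_rel (h : Rz b e c) {Λ k : ℕ} (hk1 : 1 ≤ k) (hk : k < 8 * (Λ + 1))
    (hck : c ∈ wf b (w4 Λ) k) (Φ : MonoidAlgebra (ZMod 5) G →ₗ[ZMod 5] ZMod 5)
    (hΦ : ∀ x ∈ J (th 5 G) (wf b (w4 Λ)) (k + 1), Φ x = 0) (hΦc : Φ (th 5 G c - 1) = 1)
    (u g u' : FreeGroup (Fin 3)) :
    ∑ j ∈ Finset.range 5, phiF b Φ (u * g ^ j * u') = 4 * psi g := by
  have h1 := hΦ _ (kp_W h hk1 hk hck u g u')
  rw [map_sub, map_smul, hΦc, sub_eq_zero, map_sum, map_sum] at h1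
  rw [Finset.sum_range]
  simpa [phiF] using h1

end Pool.Agent.Lib.H80F
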