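import Pool.Agent.Lib.H80F.A4f

/-!
# H80F, A7: nilpotency
-/

namespace Pool.Agent.Lib.H80F

open Subgroup
open scoped commutatorElement

variable {G : Type} [Group G] {b : Fin 4 → G} {e : G →* Multiplicative (Fin 4 → ZMod 5)} {c : G}


theorem a7d_comp {V H : Type} [AddCommGroup V] [Module (ZMod 5) V] [Group H]
    (s : FreeGroup (Fin 3) →* H) (T : H → V) (x : MonoidAlgebra (ZMod 5) (FreeGroup (Fin 3))) :
    lext 5 (fun v => T (s v)) x = lext 5 T (MonoidAlgebra.mapDomainRingHom (ZMod 5) s x) := by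
  have e : (lext 5 (fun v => T (s v))).toAddMonoidHom =
      (lext 5 T).toAddMonoidHom.comp
        (MonoidAlgebra.mapDomainRingHom (ZMod 5) s).toAddMonoidHom := by
    apply hom_ext_of
    intro u
    change lext 5 (fun v => T (s v)) (MonoidAlgebra.of (ZMod 5) _ u) =
      lext 5 T (MonoidAlgebra.mapDomain s (MonoidAlgebra.of (ZMod 5) _ u))
    rw [lext_of, MonoidAlgebra.of_apply, MonoidAlgebra.mapDomain_single,
      ← MonoidAlgebra.of_apply, lext_of]
  exact DFunLike.congr_fun e x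

/-- `phiF b Φ` factors through the homomorphism `v ↦ (sg b l v)ₗ` to the finite `5`-group
`ZMod 5 → G`; `aug_nilpotent`, and `MonoidAlgebra.mapDomainRingHom`. -/
theorem phi_nil [Finite G] (hG : IsPGroup 5 G) (b : Fin 4 → G)
    (Φ : MonoidAlgebra (ZMod 5) G →ₗ[ZMod 5] ZMod 5) :
    ∃ N, ∀ l : List (FreeGroup (Fin 3)), N ≤ l.length →
      ∀ x y : MonoidAlgebra (ZMod 5) (FreeGroup (Fin 3)),
        lext 5 (phiF b Φ) (x * (l.map (fun g => th 5 _ g - 1)).prod * y) = 0 := by
  classical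
  have : Fact (Nat.Prime 5) := ⟨by norm_num⟩
  let s : FreeGroup (Fin 3) →* (ZMod 5 → G) := MonoidHom.pi (fun l => sg b l)
  have hP : IsPGroup 5 (ZMod 5 → G) := by
    obtain ⟨n, hn⟩ := IsPGroup.iff_card.1 hG
    refine IsPGroup.iff_card.2 ⟨n * Nat.card (ZMod 5), ?_⟩
    rw [Nat.card_fun, hn, pow_mul]
  obtain ⟨N, hN⟩ := aug_nilpotent hP
  refine ⟨N, fun l hl x y => ?_⟩
  let T : (ZMod 5 → G) → ZMod 5 := fun h => Φ (kp (fun l m =>
    th 5 G (h l) * (th 5 G (b 3) ^ m.val - 1) * th 5 G (h l)⁻¹))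
  have e : phiF b Φ = fun v => T (s v) := rfl
  have e2 : (l.map ((MonoidAlgebra.mapDomainRingHom (ZMod 5) s) ∘
      (fun g => th 5 _ g - 1))).prod = 0 := by
    have := hN (l.map s) (by rw [List.length_map]; exact hl)
    rw [List.map_map] at this
    rw [← this]
    congr 1
    apply List.map_congr_left
    intro g _
    change MonoidAlgebra.mapDomainRingHom (ZMod 5) s (MonoidAlgebra.of (ZMod 5) _ g - 1) =
      MonoidAlgebra.of (ZMod 5) _ (s g) - 1
    rw [map_sub, map_one]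
    change MonoidAlgebra.mapDomain s (MonoidAlgebra.of (ZMod 5) _ g) - 1 = _
    rw [MonoidAlgebra.of_apply, MonoidAlgebra.mapDomain_single, ← MonoidAlgebra.of_apply]
  rw [e, a7d_comp s T]
  have e3 : MonoidAlgebra.mapDomainRingHom (ZMod 5) s
      (x * (l.map (fun g => th 5 _ g - 1)).prod * y) = 0 := by
    rw [map_mul, map_mul, map_list_prod, List.map_map, e2, mul_zero, zero_mul]
  rw [e3, map_zero]

end Pool.Agent.Lib.H80F
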