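import Pool.Agent.Lib.H80F.Defs2

/-!
# H80F, A7: the ring
-/

namespace Pool.Agent.Lib.H80F

open Subgroup
open scoped commutatorElement


/-- The polynomial ring. -/
abbrev A7eP : Type := MonoidAlgebra (ZMod 5) (FreeGroup (Fin 3))

/-- The ideal. -/
noncomputable def a7e_I (φ : FreeGroup (Fin 3) → ZMod 5) : Ideal A7eP where
  carrier := {a | ∀ x y : A7eP, lext 5 φ (x * a * y) = 0}
  add_mem' := by
    intro a b ha hb x y
    rw [mul_add, add_mul, map_add, ha, hb, add_zero]
  zero_mem' := by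
    intro x y
    rw [mul_zero, zero_mul, map_zero]
  smul_mem' := by
    intro c a ha x y
    rw [smul_eq_mul, ← mul_assoc]
    exact ha _ _

instance a7e_two (φ : FreeGroup (Fin 3) → ZMod 5) : (a7e_I φ).IsTwoSided := ⟨by
  intro a b ha x y
  rw [← mul_assoc, mul_assoc (x * a)]
  exact ha _ _⟩

theorem a7e_mem {φ : FreeGroup (Fin 3) → ZMod 5} {a : A7eP}
    (h : ∀ u u' : FreeGroup (Fin 3), lext 5 φ (th 5 _ u * a * th 5 _ u') = 0) : a ∈ a7e_I φ := by
  intro x y
  have h1 : ∀ u' : FreeGroup (Fin 3), ∀ x : A7eP, lext 5 φ (x * a * th 5 _ u') = 0 := by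
    intro u' x
    have e : ((lext 5 φ).toAddMonoidHom.comp (AddMonoidHom.mulRight (a * th 5 _ u'))) =
        (0 : A7eP →+ ZMod 5) := by
      apply hom_ext_of
      intro u
      have := h u u'
      rw [mul_assoc] at this
      exact this
    have := DFunLike.congr_fun e x
    rw [mul_assoc]
    exact this
  have e : ((lext 5 φ).toAddMonoidHom.comp (AddMonoidHom.mulLeft (x * a))) =
      (0 : A7eP →+ ZMod 5) := by
    apply hom_ext_of
    intro u'
    exact h1 u' x
  exact DFunLike.congr_fun e y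

theorem a7e_core (φ : FreeGroup (Fin 3) → ZMod 5)
    (hφ : ∀ u g u', ∑ j ∈ Finset.range 5, φ (u * g ^ j * u') = 4 * psi g)
    (hN : ∃ N, ∀ l : List (FreeGroup (Fin 3)), N ≤ l.length →
      ∀ x y : MonoidAlgebra (ZMod 5) (FreeGroup (Fin 3)),
        lext 5 φ (x * (l.map (fun g => th 5 _ g - 1)).prod * y) = 0)
    (R : Type) [Ring R] (q : A7eP →+* R) (hqs : Function.Surjective q)
    (hqk : ∀ x, q x = 0 ↔ x ∈ a7e_I φ) :
    ∃ (_ : Algebra (ZMod 5) R) (θ : FreeGroup (Fin 3) →* R) (ν : R), RM θ ν ∧ ν ≠ 0 := by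
  set w : FreeGroup (Fin 3) := FreeGroup.of 0 * FreeGroup.of 1 * FreeGroup.of 2 with hw
  have hpw : psi w = 1 := by
    unfold psi
    rw [Fin.prod_univ_three]
    have h0 : Multiplicative.toAdd (e3 0 w) = 1 := by
      simp [hw, e3]
    have h1 : Multiplicative.toAdd (e3 1 w) = 1 := by
      simp [hw, e3]
    have h2 : Multiplicative.toAdd (e3 2 w) = 1 := by
      simp [hw, e3]
    rw [h0, h1, h2]
    norm_num
  set S : FreeGroup (Fin 3) → A7eP := fun g => ∑ j ∈ Finset.range 5, th 5 _ g ^ j with hS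
  have hval : ∀ u g u' : FreeGroup (Fin 3),
      lext 5 φ (th 5 _ u * S g * th 5 _ u') = 4 * psi g := by
    intro u g u'
    rw [← hφ u g u', hS]
    simp only [Finset.mul_sum, Finset.sum_mul, map_sum]
    refine Finset.sum_congr rfl fun j _ => ?_
    rw [← map_pow, ← map_mul, ← map_mul, lext_of]
  letI alg : Algebra (ZMod 5) R :=
    (q.comp (algebraMap (ZMod 5) A7eP)).toAlgebra' (by
      intro c x
      obtain ⟨x, rfl⟩ := hqs x
      change q _ * q x = q x * q _
      rw [← map_mul, ← map_mul, Algebra.commutes])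
  have hsm : ∀ (c : ZMod 5) (x : A7eP), c • q x = q (c • x) := by
    intro c x
    rw [Algebra.smul_def, Algebra.smul_def, map_mul]
    rfl
  have hq0 : ∀ x : A7eP, x ∈ a7e_I φ → q x = 0 := fun x hx => (hqk x).2 hx
  have hqsub : ∀ x y : A7eP, x - y ∈ a7e_I φ → q x = q y := fun x y hx => by
    rw [← sub_eq_zero, ← map_sub]
    exact hq0 _ hx
  refine ⟨alg, (q : A7eP →* _).comp (th 5 _), q (S w),
    ⟨?_, ?_, ?_, ?_⟩, ?_⟩
  · intro g
    rw [hsm]
    have e : ∑ j ∈ Finset.range 5, ((q : A7eP →* _).comp (th 5 _)) g ^ j = q (S g) := by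
      rw [hS, map_sum]
      refine Finset.sum_congr rfl fun j _ => ?_
      rw [map_pow]
      rfl
    rw [e]
    apply hqsub
    apply a7e_mem
    intro u u'
    rw [mul_sub, sub_mul, map_sub, hval, mul_smul_comm, smul_mul_assoc, map_smul, hval, hpw]
    rw [smul_eq_mul]
    ring
  · intro g
    have e : ((q : A7eP →* _).comp (th 5 _)) g - 1 = q (th 5 _ g - 1) := by
      rw [map_sub, map_one]
      rfl
    rw [e, ← map_mul]
    apply hq0
    apply a7e_mem
    intro u u'
    have e1 : th 5 _ u * ((th 5 _ g - 1) * S w) * th 5 _ u' =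
        th 5 _ (u * g) * S w * th 5 _ u' - th 5 _ u * S w * th 5 _ u' := by
      rw [map_mul]
      noncomm_ring
    rw [e1, map_sub, hval, hval, sub_self]
  · intro g
    have e : ((q : A7eP →* _).comp (th 5 _)) g - 1 = q (th 5 _ g - 1) := by
      rw [map_sub, map_one]
      rfl
    rw [e, ← map_mul]
    apply hq0
    apply a7e_mem
    intro u u'
    have e1 : th 5 _ u * (S w * (th 5 _ g - 1)) * th 5 _ u' =
        th 5 _ u * S w * th 5 _ (g * u') - th 5 _ u * S w * th 5 _ u' := by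
      rw [map_mul]
      noncomm_ring
    rw [e1, map_sub, hval, hval, sub_self]
  · obtain ⟨N, hN⟩ := hN
    refine ⟨N, fun l hl => ?_⟩
    have e : (l.map (fun g => ((q : A7eP →* _).comp (th 5 _)) g - 1)).prod =
        q ((l.map (fun g => th 5 _ g - 1)).prod) := by
      rw [map_list_prod, List.map_map]
      congr 1
      apply List.map_congr_left
      intro g _
      change _ = q (th 5 _ g - 1)
      rw [map_sub, map_one]
      rfl
    rw [e]
    exact hq0 _ (fun x y => hN l hl x y)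
  · intro h0
    have h1 : S w ∈ a7e_I φ := (hqk _).1 h0
    have h2 := h1 (th 5 _ 1) (th 5 _ 1)
    rw [hval, hpw] at h2
    exact absurd h2 (by decide)

/-- `R` is the quotient of `P = MonoidAlgebra (ZMod 5) (FreeGroup (Fin 3))` by the two-sided ideal of
the `a` with `lext 5 φ (x a y) = 0` for all `x`, `y` (it is enough to take `x`, `y` in the group),
`ν` the class of `∑_{j < 5} (x₀ x₁ x₂) ^ j`; `ψ (x₀ x₁ x₂) = 1`. `ν ≠ 0` as `lext 5 φ` is `4` on it.
-/
theorem exists_RM (φ : FreeGroup (Fin 3) → ZMod 5)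
    (hφ : ∀ u g u', ∑ j ∈ Finset.range 5, φ (u * g ^ j * u') = 4 * psi g)
    (hN : ∃ N, ∀ l : List (FreeGroup (Fin 3)), N ≤ l.length →
      ∀ x y : MonoidAlgebra (ZMod 5) (FreeGroup (Fin 3)),
        lext 5 φ (x * (l.map (fun g => th 5 _ g - 1)).prod * y) = 0) :
    ∃ (R : Type) (_ : Ring R) (_ : Algebra (ZMod 5) R) (θ : FreeGroup (Fin 3) →* R) (ν : R),
      RM θ ν ∧ ν ≠ 0 := by
  obtain ⟨alg, θ, ν, h1, h2⟩ := a7e_core φ hφ hN (A7eP ⧸ a7e_I φ) (Ideal.Quotient.mk (a7e_I φ))
    Ideal.Quotient.mk_surjective (fun x => Ideal.Quotient.eq_zero_iff_mem)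
  exact ⟨A7eP ⧸ a7e_I φ, inferInstance, alg, θ, ν, h1, h2⟩

end Pool.Agent.Lib.H80F
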