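import Pool.Agent.Lib.H80F.A3e
import Pool.Agent.Lib.H80F.A61c
import Pool.Agent.Lib.H80F.A61d
import Pool.Agent.Lib.H80F.A7c
import Pool.Agent.Lib.H80F.A7d
import Pool.Agent.Lib.H80F.A7e

/-!
# H80F, A7: summary
-/

namespace Pool.Agent.Lib.H80F

open Subgroup
open scoped commutatorElement

variable {G : Type} [Group G] {b : Fin 4 → G} {e : G →* Multiplicative (Fin 4 → ZMod 5)} {c : G}


/-- Stages 3, 4, 5 together: `exists_last`, `lemmaS` (`pow_cond`), `stage4`, `phi_rel` (`k ≥ 1` as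
`Λ + 1 ≤ k`: `c ∈ wf (Λ + 1)` and `wf (k + 1) = ⊥`), `phi_nil`, `exists_RM`. -/
theorem RM_of_Rz [Finite G] (hG : IsPGroup 5 G) (h : Rz b e c) :
    ∃ (R : Type) (_ : Ring R) (_ : Algebra (ZMod 5) R) (θ : FreeGroup (Fin 3) →* R) (ν : R),
      RM θ ν ∧ ν ≠ 0 := by
  obtain ⟨G', _, _, b', e', c', Λ, k, hG', h', hΛ, hN, hck, hbot⟩ := exists_last hG h
  haveI : Fact (Nat.Prime 5) := ⟨by norm_num⟩
  have hF := wf_nser b' (w4_pos Λ) h'.gen
  obtain ⟨Φ, hΦ, hΦc⟩ := lemmaS (p := 5) (Nat.card G') G' (wf b' (w4 Λ)) c' k rfl hG' hF hbot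
    h'.c1 h'.c5 (fun i g hg => pow_cond h' hΛ i g hg)
  have hk := stage4 h' hΛ hN hck Φ hΦ hΦc
  have hk1 : 1 ≤ k := by
    by_contra h0
    have h1 : k = 0 := by omega
    subst h1
    rw [wf_le_one b' (w4 Λ) (by omega)] at hbot
    apply h'.c1
    have h2 : c' ∈ (⊤ : Subgroup G') := trivial
    rw [hbot] at h2
    exact h2
  exact exists_RM (phiF b' Φ) (fun u g u' => phi_rel h' hk1 (by omega) hck Φ hΦ hΦc u g u')
    (phi_nil hG' b' Φ)

end Pool.Agent.Lib.H80F
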