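import Pool.Agent.Lib.H80F.A1b
import Pool.Agent.Lib.H80F.A1c
import Pool.Agent.Lib.H80F.A4e

/-!
# H80F, A8: symmetrised products of four elements
-/

namespace Pool.Agent.Lib.H80F

open Subgroup
open scoped commutatorElement

variable {R : Type} [Ring R] [Algebra (ZMod 5) R] {θ : FreeGroup (Fin 3) →* R} {ν : R}


/-- The letters of the free group on three letters generate. -/
theorem fg_gen : closure (Set.range (FreeGroup.of : Fin 3 → FreeGroup (Fin 3))) = ⊤ :=
  FreeGroup.closure_range_of (Fin 3)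

/-- Elements whose weight is larger than the weights of all letters have exponent sums `0`
(`wf_le` with the kernel of `e3 i`). -/
theorem e3_one {wt : Fin 3 → ℕ} (hwt : ∀ i, 1 ≤ wt i) {W m : ℕ} (hW : ∀ i, wt i ≤ W) (hm : W < m)
    {g : FreeGroup (Fin 3)} (hg : g ∈ wf FreeGroup.of wt m) (i : Fin 3) : e3 i g = 1 := by
  have hm2 : 2 ≤ m := by
    have h1 := hwt 0
    have h2 := hW 0
    omega
  have h := wf_le FreeGroup.of hwt hm2 (e3 i).ker (by
    rw [Subgroup.commutator_le]
    intro x _ y _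
    rw [MonoidHom.mem_ker, map_commutatorElement, commutatorElement_eq_one_iff_mul_comm]
    exact mul_comm _ _) (by
    intro j hj
    have h1 := hW j
    omega)
  exact h hg

/-- The product of a word. -/
theorem a8a_word {G R : Type} [Group G] [Ring R] (θ : G →* R) {F : ℕ → Subgroup G}
    (u : List (AlF F)) : (u.map (fun q => θ q.1.2 - 1)).prod ∈ J θ F (wtF u) := by
  induction u with
  | nil => exact (J_rfilt θ F).one
  | cons q u ih =>
    have h := (J_rfilt θ F).mul _ _ _ _ (J_sub_one θ q.2.2) ih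
    simpa [wtF] using h

/-- A function of the parameters which does not depend on one of them. -/
theorem a8a_sum_zero (i : Fin 4) (f : (Fin 4 → ZMod 5) → ZMod 5)
    (hf : ∀ c x, f (Function.update c i x) = f c) :
    ∑ c : Fin 4 → ZMod 5, (∏ j, c j ^ 3) * f c = 0 := by
  rw [← (Fin.insertNthEquiv (fun _ => ZMod 5) i).sum_comp]
  rw [Fintype.sum_prod_type_right]
  apply Finset.sum_eq_zero
  intro c _
  have h : ∀ x : ZMod 5, (∏ j, (Fin.insertNthEquiv (fun _ => ZMod 5) i (x, c)) j ^ 3) *
      f (Fin.insertNthEquiv (fun _ => ZMod 5) i (x, c)) =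
      x ^ 3 * ((∏ j, c j ^ 3) * f (i.insertNth (0 : ZMod 5) c)) := by
    intro x
    have h1 : f (i.insertNth x c) = f (i.insertNth (0 : ZMod 5) c) := by
      rw [← hf (i.insertNth x c) 0, Fin.update_insertNth]
    show (∏ j, (i.insertNth x c : Fin 4 → ZMod 5) j ^ 3) * f (i.insertNth x c) = _
    rw [h1, Fin.prod_univ_succAbove _ i, Fin.insertNth_apply_same]
    simp only [Fin.insertNth_apply_succAbove]
    ring
  rw [Finset.sum_congr rfl (fun x _ => h x), ← Finset.sum_mul, sum_pow_zmod5 3]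
  simp

/-- The independence. -/
theorem a8a_indep {wt : Fin 3 → ℕ} (hwt : ∀ i, 1 ≤ wt i) {W : ℕ} (hW : ∀ i, wt i ≤ W)
    (a : Fin 4 → AlF (wf FreeGroup.of wt)) {i : Fin 4} (hi : W < (a i).1.1) (c : Fin 4 → ZMod 5)
    (x : ZMod 5) :
    psi (List.ofFn (fun j => (a j).1.2 ^ ((Function.update c i x) j).val)).prod =
      psi (List.ofFn (fun j => (a j).1.2 ^ (c j).val)).prod := by
  unfold psi
  apply Finset.prod_congr rfl
  intro k _
  have h : ((e3 k : FreeGroup (Fin 3) → Multiplicative (ZMod 5)) ∘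
      fun j => (a j).1.2 ^ ((Function.update c i x) j).val) =
      ((e3 k : FreeGroup (Fin 3) → Multiplicative (ZMod 5)) ∘ fun j => (a j).1.2 ^ (c j).val) := by
    funext j
    simp only [Function.comp_apply, map_pow]
    by_cases hj : j = i
    · subst hj
      rw [e3_one hwt hW hi (a j).2.2 k, one_pow, one_pow]
    · rw [Function.update_of_ne hj]
  have h2 : e3 k (List.ofFn (fun j => (a j).1.2 ^ ((Function.update c i x) j).val)).prod =
      e3 k (List.ofFn (fun j => (a j).1.2 ^ (c j).val)).prod := by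
    rw [map_list_prod (e3 k), map_list_prod (e3 k), List.map_ofFn, List.map_ofFn, h]
  rw [h2]

/-- The symmetrised product of four elements, between two words `u`, `v`. By `param` (`n = 4`) the
sum of the products of four is, up to `J (∑ m + 1)`, `∑_a ∏ aᵢ ^ 3 • (h a - 1) ^ 4` with
`h a = ∏ gᵢ ^ (aᵢ)` and `(h a - 1) ^ 4 = ∑_j (h a) ^ j = ψ (h a) • ν` (`sub_one_pow_four`). If `u` or
`v` is nonempty, the product with `ν` vanishes (`RM.left`, `RM.right`). If both are empty, the total
weight is `∑ m > 4 W`, so some `m i > W`, `e3 _ (g i) = 1`, `ψ (h a)` does not depend on `aᵢ`, and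
`∑_a a ^ 3 = 0`. -/
theorem wE_s4 (h : RM θ ν) {wt : Fin 3 → ℕ} (hwt : ∀ i, 1 ≤ wt i) {W : ℕ} (hW : ∀ i, wt i ≤ W)
    {n : ℕ} (hn : 4 * W < n) (u v : List (AlF (wf FreeGroup.of wt)))
    (a : Fin 4 → AlF (wf FreeGroup.of wt)) (hw : wtF u + ∑ i, (a i).1.1 + wtF v = n) :
    ∑ σ : Equiv.Perm (Fin 4), (u.map (fun q => θ q.1.2 - 1)).prod *
      (List.ofFn (fun i => θ (a (σ i)).1.2 - 1)).prod * (v.map (fun q => θ q.1.2 - 1)).prod ∈
        J θ (wf FreeGroup.of wt) (n + 1) := by
  have h5 : (5 : R) = 0 := a4a_five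
  have hJ := J_rfilt θ (wf (FreeGroup.of : Fin 3 → FreeGroup (Fin 3)) wt)
  have hp := param hJ (n := 4) (by norm_num) (fun i => θ (a i).1.2) (fun i => (a i).1.1)
    (fun i => (a i).2.1) (fun i => J_sub_one θ (a i).2.2)
  have hX : ∀ c : Fin 4 → ZMod 5,
      ((List.ofFn (fun i => θ (a i).1.2 ^ (c i).val)).prod - 1) ^ 4 =
        psi (List.ofFn (fun j => (a j).1.2 ^ (c j).val)).prod • ν := by
    intro c
    rw [sub_one_pow_four h5, ← h.pow]
    have e : (List.ofFn (fun i => θ (a i).1.2 ^ (c i).val)).prod =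
        θ (List.ofFn (fun j => (a j).1.2 ^ (c j).val)).prod := by
      rw [map_list_prod, List.map_ofFn]
      congr 2
      funext j
      rw [Function.comp_apply, map_pow]
    rw [e]
  simp only [hX, smul_smul] at hp
  rw [← Finset.sum_smul] at hp
  have hXz : ∀ i, W < (a i).1.1 → ∑ c : Fin 4 → ZMod 5, (∏ j, c j ^ 3) *
      psi (List.ofFn (fun j => (a j).1.2 ^ (c j).val)).prod = 0 := fun i hi =>
    a8a_sum_zero i (fun c => psi (List.ofFn (fun j => (a j).1.2 ^ (c j).val)).prod)
            (fun c x => a8a_indep hwt hW a hi c x)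
  generalize (∑ c : Fin 4 → ZMod 5, (∏ j, c j ^ 3) *
      psi (List.ofFn (fun j => (a j).1.2 ^ (c j).val)).prod) = X at hp hXz
  have hzero : (u.map (fun q => θ q.1.2 - 1)).prod * (X • ν) *
      (v.map (fun q => θ q.1.2 - 1)).prod = 0 := by
    rcases List.eq_nil_or_concat u with hu | ⟨u', q, hu⟩
    · rcases v with _ | ⟨q, v'⟩
      · have hsum : ∑ i, (a i).1.1 = n := by
          rw [hu] at hw
          simpa [wtF] using hw
        have hex : ∃ i, W < (a i).1.1 := by
          by_contra hcon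
          push Not at hcon
          have h1 : ∑ i, (a i).1.1 ≤ ∑ _i : Fin 4, W := Finset.sum_le_sum (fun i _ => hcon i)
          rw [hsum, Finset.sum_const, Finset.card_univ, Fintype.card_fin, smul_eq_mul] at h1
          omega
        obtain ⟨i, hi⟩ := hex
        rw [hXz i hi, zero_smul, mul_zero, zero_mul]
      · rw [List.map_cons, List.prod_cons, mul_assoc, ← mul_assoc (X • ν), smul_mul_assoc, h.right,
          smul_zero, zero_mul, mul_zero]
    · rw [hu, List.concat_eq_append, List.map_append, List.prod_append, List.map_singleton,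
        List.prod_singleton, mul_assoc (List.prod _), mul_smul_comm, h.left, smul_zero, mul_zero,
        zero_mul]
  have hmem : (u.map (fun q => θ q.1.2 - 1)).prod * (X • ν - (-1 : R) ^ 4 *
      ∑ σ : Equiv.Perm (Fin 4), (List.ofFn (fun i => θ (a (σ i)).1.2 - 1)).prod) *
      (v.map (fun q => θ q.1.2 - 1)).prod ∈ J θ (wf FreeGroup.of wt) (n + 1) := by
    have h1 := hJ.mul _ _ _ _ (hJ.mul _ _ _ _ (a8a_word θ u) hp) (a8a_word θ v)
    have e : wtF u + (∑ i, (a i).1.1 + 1) + wtF v = n + 1 := by omega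
    rw [e] at h1
    exact h1
  rw [mul_sub, sub_mul, hzero, zero_sub] at hmem
  have h2 := neg_mem hmem
  rw [neg_neg] at h2
  have e1 : (-1 : R) ^ 4 = 1 := by norm_num
  rw [e1, one_mul, Finset.mul_sum, Finset.sum_mul] at h2
  exact h2

end Pool.Agent.Lib.H80F
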