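import Pool.Agent.Lib.H80F.A8a

/-!
# H80F, A8: the word functional
-/

namespace Pool.Agent.Lib.H80F

open Subgroup
open scoped commutatorElement

variable {R : Type} [Ring R] [Algebra (ZMod 5) R] {θ : FreeGroup (Fin 3) →* R} {ν : R}


theorem a8b_prod_mem {G : Type} [Group G] (θ : G →* R) {F : ℕ → Subgroup G} (w : List (AlF F)) :
    (w.map (fun q => θ q.1.2 - 1)).prod ∈ J θ F (wtF w) := by
  apply AddSubgroup.subset_closure
  refine ⟨w.map (fun q => q.1), ?_, ?_, ?_⟩
  · intro q hq
    rw [List.mem_map] at hq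
    obtain ⟨r, _, rfl⟩ := hq
    exact r.2.2
  · rw [List.map_map]
    exact le_rfl
  · rw [List.map_map]
    rfl

theorem a8b_wt_append {G : Type} [Group G] {F : ℕ → Subgroup G} (u v : List (AlF F)) :
    wtF (u ++ v) = wtF u + wtF v := by
  unfold wtF
  rw [List.map_append, List.sum_append]

theorem a8b_wt_cons {G : Type} [Group G] {F : ℕ → Subgroup G} (a : AlF F) (v : List (AlF F)) :
    wtF (a :: v) = a.1.1 + wtF v := by
  unfold wtF
  rw [List.map_cons, List.sum_cons]

/-- **The word functional.** `br` by `J_comm_mod`, `s4` by `wE_s4`. -/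
theorem wE_wf4 (h : RM θ ν) {wt : Fin 3 → ℕ} (hwt : ∀ i, 1 ≤ wt i) {W : ℕ} (hW : ∀ i, wt i ≤ W)
    {n : ℕ} (hn : 4 * W < n) :
    WF4 (brF (wf_nser FreeGroup.of hwt fg_gen)) (wE θ n) := by
  constructor
  · intro u v a b
    have hb : (brF (wf_nser FreeGroup.of hwt fg_gen) a b).1.1 = a.1.1 + b.1.1 := rfl
    unfold wE
    simp only [a8b_wt_append, a8b_wt_cons, hb]
    by_cases hw : wtF u + (a.1.1 + b.1.1 + wtF v) = n
    · rw [if_pos hw, if_pos (by omega), if_pos (by omega)]
      rw [← QuotientAddGroup.mk_sub, QuotientAddGroup.eq]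
      have h1 := J_comm_mod θ (wf_nser FreeGroup.of hwt fg_gen) a.2.2 b.2.2
      have hR := J_rfilt θ (wf FreeGroup.of wt)
      have h2 := hR.mul _ _ _ _ (hR.mul _ _ _ _ (a8b_prod_mem θ u) h1) (a8b_prod_mem θ v)
      have h3 := J_anti_le θ (wf FreeGroup.of wt) (show n + 1 ≤ wtF u + (a.1.1 + b.1.1 + 1) + wtF v
        by omega) h2
      have h4 := neg_mem h3
      convert h4 using 1
      simp only [List.map_append, List.map_cons, List.prod_append, List.prod_cons]
      have hb2 : (brF (wf_nser FreeGroup.of hwt fg_gen) a b).1.2 = ⁅a.1.2, b.1.2⁆ := rfl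
      rw [hb2]
      noncomm_ring
    · rw [if_neg hw, if_neg (by omega), if_neg (by omega), sub_zero]
  · intro u v a
    have hs : ∀ σ : Equiv.Perm (Fin 4), wtF (u ++ a (σ 0) :: a (σ 1) :: a (σ 2) :: a (σ 3) :: v) =
        wtF u + ∑ i, (a i).1.1 + wtF v := by
      intro σ
      rw [← Equiv.sum_comp σ (fun i => (a i).1.1), Fin.sum_univ_four]
      simp only [a8b_wt_append, a8b_wt_cons]
      ring
    unfold wE
    simp only [hs]
    by_cases hw : wtF u + ∑ i, (a i).1.1 + wtF v = n
    · simp only [if_pos hw]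
      have h1 := wE_s4 h hwt hW hn u v a hw
      have h2 : ∑ σ : Equiv.Perm (Fin 4), (QuotientAddGroup.mk (((u ++ a (σ 0) :: a (σ 1) ::
          a (σ 2) :: a (σ 3) :: v).map (fun q => θ q.1.2 - 1)).prod) :
            R ⧸ J θ (wf FreeGroup.of wt) (n + 1)) =
          (QuotientAddGroup.mk (∑ σ : Equiv.Perm (Fin 4), (u.map (fun q => θ q.1.2 - 1)).prod *
      (List.ofFn (fun i => θ (a (σ i)).1.2 - 1)).prod * (v.map (fun q => θ q.1.2 - 1)).prod) :
            R ⧸ J θ (wf FreeGroup.of wt) (n + 1)) := by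
        have h3 := map_sum (QuotientAddGroup.mk' (J θ (wf FreeGroup.of wt) (n + 1)))
          (fun σ : Equiv.Perm (Fin 4) => (u.map (fun q => θ q.1.2 - 1)).prod *
      (List.ofFn (fun i => θ (a (σ i)).1.2 - 1)).prod * (v.map (fun q => θ q.1.2 - 1)).prod)
          Finset.univ
        rw [QuotientAddGroup.mk'_apply] at h3
        rw [h3]
        refine Finset.sum_congr rfl fun σ _ => ?_
        rw [QuotientAddGroup.mk'_apply]
        congr 1
        simp only [List.map_append, List.map_cons, List.prod_append, List.prod_cons,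
          List.ofFn_succ, List.ofFn_zero, List.prod_nil, mul_one, mul_assoc]
        rfl
      rw [h2, QuotientAddGroup.eq_zero_iff]
      exact h1
    · simp only [if_neg hw, Finset.sum_const_zero]

end Pool.Agent.Lib.H80F
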