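import Pool.Agent.Lib.H80F.A2c
import Pool.Agent.Lib.H80F.A2d
import Pool.Agent.Lib.H80F.A5b
import Pool.Agent.Lib.H80F.A8b

/-!
# H80F, A8: words with eight heavy letters vanish
-/

namespace Pool.Agent.Lib.H80F

open Subgroup
open scoped commutatorElement

variable {R : Type} [Ring R] [Algebra (ZMod 5) R] {θ : FreeGroup (Fin 3) →* R} {ν : R}


/-- For `n ≥ 8 Λ`, `J n ≤ J (n + 1)`: by `J_words` it is enough to treat a word in the letters of
weight `n = j Λ + len`. If `len ≥ Λ` it is `0`. Otherwise `j Λ > 7 Λ`, so `j ≥ 8`, and `nc7_words` for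
`wE_wf4` (`W = Λ + 1`, `4 (Λ + 1) < 8 Λ`). -/
theorem J_step (h : RM θ ν) {Λ : ℕ} (hΛ : 2 ≤ Λ)
    (hN : ∀ l : List (FreeGroup (Fin 3)), Λ ≤ l.length → (l.map (fun g => θ g - 1)).prod = 0)
    (i : Fin 3) {n : ℕ} (hn : 8 * Λ ≤ n) :
    J θ (wf FreeGroup.of (w3 Λ i)) n ≤ J θ (wf FreeGroup.of (w3 Λ i)) (n + 1) := by
  classical
  have hwt : ∀ j, 1 ≤ w3 Λ i j := w3_pos Λ i
  have hW : ∀ j, w3 Λ i j ≤ Λ + 1 := by
    intro j
    unfold w3
    split_ifs <;> omega
  refine (J_words θ hwt fg_gen n).trans (sup_le ?_ le_rfl)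
  rw [AddSubgroup.closure_le]
  rintro _ ⟨l, hl, rfl⟩
  by_cases hlen : Λ ≤ l.length
  · have h0 := hN (l.map FreeGroup.of) (by rw [List.length_map]; exact hlen)
    rw [List.map_map] at h0
    have h1 : (l.map (fun i => θ (FreeGroup.of i) - 1)).prod = 0 := h0
    rw [h1]
    exact zero_mem _
  · have hsum : ∀ l : List (Fin 3), (l.map (w3 Λ i)).sum = l.count i * Λ + l.length := by
      intro l
      induction l with
      | nil => simp
      | cons a l ih =>
        rw [List.map_cons, List.sum_cons, ih, List.count_cons, List.length_cons]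
        unfold w3
        by_cases ha : a = i
        · simp only [ha, if_true, beq_self_eq_true, add_mul, one_mul]
          omega
        · have hb : (a == i) = false := by simpa using ha
          rw [if_neg ha, hb]
          simp only [Bool.false_eq_true, if_false, add_zero]
          omega
    have hcount : 7 ≤ l.count i := by
      by_contra hc
      have h1 : l.count i ≤ 6 := by omega
      have h2 : l.count i * Λ ≤ 6 * Λ := Nat.mul_le_mul_right _ h1
      have h3 := hsum l
      omega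
    obtain ⟨let', hlet⟩ : ∃ f : Fin 3 → AlF (wf (FreeGroup.of : Fin 3 → FreeGroup (Fin 3)) (w3 Λ i)),
        ∀ j, (f j).1 = (w3 Λ i j, FreeGroup.of j) :=
      ⟨fun j => ⟨(w3 Λ i j, FreeGroup.of j), hwt j, wf_letter FreeGroup.of hwt j⟩, fun _ => rfl⟩
    have hE := wE_wf4 h hwt hW (n := n) (by omega)
    have h5 : ∀ m : R ⧸ J θ (wf (FreeGroup.of : Fin 3 → FreeGroup (Fin 3)) (w3 Λ i)) (n + 1),
        (5 : ℕ) • m = 0 := by
      intro m
      obtain ⟨x, rfl⟩ := QuotientAddGroup.mk_surjective m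
      have h1 : (5 : ℕ) • x = 0 := by
        rw [nsmul_eq_mul, Nat.cast_ofNat, a4a_five, zero_mul]
      rw [← QuotientAddGroup.mk_nsmul, h1, QuotientAddGroup.mk_zero]
    have hc : ∀ (α : Type) (_ : DecidableEq α) (f : Fin 3 → α), l.count i ≤ (l.map f).count (f i) :=
      fun α _ f => List.count_le_count_map
    have h7 := nc7_words h5 hE (let' i) (l.map let') (hcount.trans (hc _ _ let'))
    unfold wE at h7
    have hw : wtF (l.map let') = n := by
      unfold wtF
      rw [List.map_map, ← hl]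
      congr 1
      apply List.map_congr_left
      intro j _
      rw [Function.comp_apply, hlet]
    rw [if_pos hw, QuotientAddGroup.eq_zero_iff, List.map_map] at h7
    have h8 : ((fun q : AlF (wf (FreeGroup.of : Fin 3 → FreeGroup (Fin 3)) (w3 Λ i)) =>
        θ q.1.2 - 1) ∘ let') = fun j => θ (FreeGroup.of j) - 1 := by
      funext j
      rw [Function.comp_apply, hlet]
    rw [h8] at h7
    exact h7

/-- `J_step` and `J_deep`. -/
theorem J_bot (h : RM θ ν) {Λ : ℕ} (hΛ : 2 ≤ Λ)
    (hN : ∀ l : List (FreeGroup (Fin 3)), Λ ≤ l.length → (l.map (fun g => θ g - 1)).prod = 0)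
    (i : Fin 3) {n : ℕ} (hn : 8 * Λ ≤ n) :
    J θ (wf FreeGroup.of (w3 Λ i)) n = ⊥ := by
  have hwt : ∀ j, 1 ≤ w3 Λ i j := w3_pos Λ i
  have hW : ∀ j, w3 Λ i j ≤ Λ + 1 := by
    intro j
    unfold w3
    split_ifs <;> omega
  have hstep : ∀ k, J θ (wf FreeGroup.of (w3 Λ i)) n ≤ J θ (wf FreeGroup.of (w3 Λ i)) (n + k) := by
    intro k
    induction k with
    | zero => exact le_rfl
    | succ k ih => exact ih.trans (J_step h hΛ hN i (by omega))
  rw [eq_bot_iff]
  refine (hstep (Λ * (Λ + 1))).trans ?_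
  refine (J_anti_le θ _ (Nat.le_add_left _ _)).trans ?_
  refine (J_deep θ hwt (Λ + 1) hW (by omega) fg_gen Λ).trans ?_
  rw [AddSubgroup.closure_le]
  rintro _ ⟨l, hl, rfl⟩
  rw [hN l hl]
  exact zero_mem _

end Pool.Agent.Lib.H80F
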