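import Pool.Agent.Lib.H80F.A8c

/-!
# H80F, A8: the multifiltration
-/

namespace Pool.Agent.Lib.H80F

open Subgroup
open scoped commutatorElement

variable {R : Type} [Ring R] [Algebra (ZMod 5) R] {θ : FreeGroup (Fin 3) →* R} {ν : R}


theorem KK_one (Λ : ℕ) : (1 : R) ∈ KK θ Λ 0 := by
  unfold KK
  rw [AddSubgroup.mem_iInf]
  intro i
  have := (J_rfilt θ (wf FreeGroup.of (w3 Λ i))).one
  simpa using this

theorem KK_mul (Λ : ℕ) {s t : Fin 3 → ℕ} {x y : R} (hx : x ∈ KK θ Λ s) (hy : y ∈ KK θ Λ t) :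
    x * y ∈ KK θ Λ (s + t) := by
  unfold KK at *
  rw [AddSubgroup.mem_iInf] at *
  intro i
  have := (J_rfilt θ (wf FreeGroup.of (w3 Λ i))).mul _ _ _ _ (hx i) (hy i)
  rw [← mul_add] at this
  exact this

theorem a8d_anti (Λ : ℕ) {s t : Fin 3 → ℕ} (hst : ∀ i, s i ≤ t i) : KK θ Λ t ≤ KK θ Λ s := by
  intro x hx
  unfold KK at *
  rw [AddSubgroup.mem_iInf] at *
  intro i
  exact J_anti_le θ _ (Nat.mul_le_mul_left _ (hst i)) (hx i)

theorem KK_bot (h : RM θ ν) {Λ : ℕ} (hΛ : 2 ≤ Λ)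
    (hN : ∀ l : List (FreeGroup (Fin 3)), Λ ≤ l.length → (l.map (fun g => θ g - 1)).prod = 0)
    {s : Fin 3 → ℕ} {i : Fin 3} (hs : 8 ≤ s i) : KK θ Λ s = ⊥ := by
  rw [eq_bot_iff]
  have h1 : 8 * Λ ≤ (Λ + 1) * s i := by
    calc 8 * Λ ≤ 8 * (Λ + 1) := by omega
      _ = (Λ + 1) * 8 := by ring
      _ ≤ (Λ + 1) * s i := Nat.mul_le_mul_left _ hs
  rw [← J_bot h hΛ hN i h1]
  exact iInf_le _ i

theorem a8d_letter (Λ : ℕ) (i : Fin 3) :
    θ (FreeGroup.of i) - 1 ∈ KK θ Λ (Pi.single i 1) := by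
  unfold KK
  rw [AddSubgroup.mem_iInf]
  intro j
  apply J_sub_one
  by_cases hj : j = i
  · subst hj
    rw [Pi.single_eq_same, mul_one]
    have h1 := wf_letter (FreeGroup.of : Fin 3 → FreeGroup (Fin 3)) (w3_pos Λ j) j
    unfold w3 at h1 ⊢
    rwa [if_pos rfl] at h1
  · rw [Pi.single_eq_of_ne hj, mul_zero, wf_le_one _ _ (Nat.zero_le _)]
    exact Subgroup.mem_top _

theorem a8d_pow (Λ : ℕ) (i : Fin 3) (m : ℕ) :
    (θ (FreeGroup.of i) - 1) ^ m ∈ KK θ Λ (Pi.single i m) := by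
  induction m with
  | zero =>
    rw [pow_zero, Pi.single_zero]
    exact KK_one Λ
  | succ m ih =>
    rw [pow_succ, Pi.single_add]
    exact KK_mul Λ ih (a8d_letter Λ i)

theorem a8d_pow_le (Λ : ℕ) (i : Fin 3) {m k : ℕ} (hk : m ≤ k) (c : ℕ) :
    (c : R) * (θ (FreeGroup.of i) - 1) ^ k ∈ KK θ Λ (Pi.single i m) := by
  rw [← nsmul_eq_mul]
  apply AddSubgroup.nsmul_mem
  refine a8d_anti Λ ?_ (a8d_pow Λ i k)
  intro j
  by_cases hj : j = i
  · subst hj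
    simpa using hk
  · simp [Pi.single_eq_of_ne hj]

/-- `θ xᵢ - 1` has degree `1` in the letter `i`, so `X5 (θ xᵢ) m` has degree `m`. -/
theorem KK_X5 (Λ : ℕ) (i : Fin 3) (m : ℕ) :
    X5 (θ (FreeGroup.of i)) m ∈ KK θ Λ (Pi.single i m) := by
  have H : ∀ {m k : ℕ} (_ : m ≤ k) (c : ℕ), (c : R) * (θ (FreeGroup.of i) - 1) ^ k ∈
      KK θ Λ (Pi.single i m) := fun hk c => a8d_pow_le Λ i hk c
  match m with
  | 0 =>
    rw [Pi.single_zero]
    exact KK_one Λ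
  | 1 =>
    have h1 := H (le_refl 1) 1
    have h2 := H (show 1 ≤ 2 by norm_num) 2
    have h3 := H (show 1 ≤ 3 by norm_num) 2
    have h4 := H (show 1 ≤ 4 by norm_num) 1
    have h5 := add_mem (add_mem (add_mem h1 h2) h3) h4
    simpa [X5] using h5
  | 2 =>
    have h2 := H (le_refl 2) 3
    have h3 := H (show 2 ≤ 3 by norm_num) 2
    have h4 := H (show 2 ≤ 4 by norm_num) 4
    have h5 := add_mem (add_mem h2 h3) h4
    simpa [X5] using h5
  | 3 =>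
    have h3 := H (le_refl 3) 1
    have h4 := H (show 3 ≤ 4 by norm_num) 1
    have h5 := add_mem h3 h4
    simpa [X5] using h5
  | 4 =>
    have h4 := H (le_refl 4) 4
    simpa [X5] using h4
  | (m + 5) =>
    show (0 : R) ∈ _
    exact zero_mem _

end Pool.Agent.Lib.H80F
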