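import Pool.Agent.Lib.H80F.A4a

/-!
# H80F, A8: the formula for `ν`, I
-/

namespace Pool.Agent.Lib.H80F

open Subgroup
open scoped commutatorElement

variable {R : Type} [Ring R] [Algebra (ZMod 5) R] {θ : FreeGroup (Fin 3) →* R} {ν : R}


/-- `θ g ^ 5 = 1`: `(θ g - 1) ∑ (θ g) ^ j = 0`. -/
theorem th_pow (h : RM θ ν) (g : FreeGroup (Fin 3)) : θ g ^ 5 = 1 := by
  have h1 := mul_geom_sum (θ g) 5
  rw [h.pow g, mul_smul_comm, h.left g, smul_zero] at h1
  exact (sub_eq_zero.mp h1.symm)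

/-- `X5 (θ xᵢ) 4 = 4 (θ xᵢ - 1) ^ 4 = 4 ψ (xᵢ) ν = 0`. -/
theorem X5_four (h : RM θ ν) (i : Fin 3) : X5 (θ (FreeGroup.of i)) 4 = 0 := by
  have h5 : (5 : R) = 0 := by
    have h1 : ((5 : ZMod 5) : ZMod 5) = 0 := by decide
    have h2 := congrArg (algebraMap (ZMod 5) R) h1
    rwa [map_ofNat, map_zero] at h2
  have hpsi : psi (FreeGroup.of i) = 0 := by
    unfold psi
    have h3 : ∃ j : Fin 3, j ≠ i := by
      revert i; decide
    obtain ⟨j, hj⟩ := h3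
    apply Finset.prod_eq_zero (Finset.mem_univ j)
    have h4 : e3 j (FreeGroup.of i) = Multiplicative.ofAdd (0 : ZMod 5) := by
      unfold e3
      rw [FreeGroup.lift_apply_of, if_neg (Ne.symm hj)]
    rw [h4]
    rfl
  show 4 * (θ (FreeGroup.of i) - 1) ^ 4 = 0
  rw [sub_one_pow_four h5, h.pow, hpsi, zero_smul, mul_zero]

/-- One variable. -/
theorem a8e_one (x : R) (hx : X5 x 4 = 0) (A B C : R) :
    ∑ a : ZMod 5, A * x ^ a.val * B * x ^ a.val * C =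
      - ∑ i ∈ Finset.Icc 1 3, A * X5 x i * B * X5 x (4 - i) * C := by
  have h1 : ∀ a : ZMod 5, A * x ^ a.val * B * x ^ a.val * C =
      ∑ i ∈ Finset.range 5, ∑ j ∈ Finset.range 5, a ^ (i + j) • (A * X5 x i * B * X5 x j * C) := by
    intro a
    rw [pow_eq_X5 x a]
    simp only [Finset.mul_sum, Finset.sum_mul, mul_smul_comm, smul_mul_assoc]
    rw [Finset.sum_comm]
    simp only [Finset.smul_sum]
    refine Finset.sum_congr rfl fun i _ => Finset.sum_congr rfl fun j _ => ?_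
    rw [smul_smul, ← pow_add, add_comm i j]
  rw [Finset.sum_congr rfl fun a _ => h1 a]
  rw [Finset.sum_comm]
  have h2 : ∀ i ∈ Finset.range 5, ∑ a : ZMod 5, ∑ j ∈ Finset.range 5,
      a ^ (i + j) • (A * X5 x i * B * X5 x j * C) =
      ∑ j ∈ Finset.range 5, (if 0 < i + j ∧ (i + j) % 4 = 0 then (-1 : ZMod 5) else 0) •
        (A * X5 x i * B * X5 x j * C) := by
    intro i _
    rw [Finset.sum_comm]
    refine Finset.sum_congr rfl fun j _ => ?_
    rw [← Finset.sum_smul, sum_pow_zmod5]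
  rw [Finset.sum_congr rfl h2]
  have h3 : Finset.Icc 1 3 = ({1, 2, 3} : Finset ℕ) := by decide
  rw [h3]
  simp [Finset.sum_range_succ, hx]
  abel

/-- `∑_{a,b,c} (x ^ a y ^ b z ^ c) ^ 2 = - ∑ Xᵢ Yⱼ Zₖ X₄₋ᵢ Y₄₋ⱼ Z₄₋ₖ`, if `X₄ = Y₄ = Z₄ = 0`: expand
by `pow_eq_X5` and sum over `a`, `b`, `c` (`sum_pow_zmod5`). -/
theorem sum_sq (x y z : R) (hx : X5 x 4 = 0) (hy : X5 y 4 = 0) (hz : X5 z 4 = 0) :
    ∑ a : ZMod 5, ∑ b : ZMod 5, ∑ c : ZMod 5,
      x ^ a.val * y ^ b.val * z ^ c.val * (x ^ a.val * y ^ b.val * z ^ c.val) =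
    - ∑ i ∈ Finset.Icc 1 3, ∑ j ∈ Finset.Icc 1 3, ∑ k ∈ Finset.Icc 1 3,
      pr6 (X5 x) (X5 y) (X5 z) i j k := by
  have hc : ∀ a b : ZMod 5, ∑ c : ZMod 5,
      x ^ a.val * y ^ b.val * z ^ c.val * (x ^ a.val * y ^ b.val * z ^ c.val) =
      - ∑ k ∈ Finset.Icc 1 3, x ^ a.val * y ^ b.val * X5 z k * x ^ a.val * y ^ b.val *
        X5 z (4 - k) := by
    intro a b
    have := a8e_one z hz (x ^ a.val * y ^ b.val) (x ^ a.val * y ^ b.val) 1
    simp only [mul_one] at this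
    simpa only [mul_assoc] using this
  have hb : ∀ a : ZMod 5, ∑ b : ZMod 5, ∑ c : ZMod 5,
      x ^ a.val * y ^ b.val * z ^ c.val * (x ^ a.val * y ^ b.val * z ^ c.val) =
      ∑ k ∈ Finset.Icc 1 3, ∑ j ∈ Finset.Icc 1 3, x ^ a.val * X5 y j * X5 z k * x ^ a.val *
        X5 y (4 - j) * X5 z (4 - k) := by
    intro a
    rw [Finset.sum_congr rfl fun b _ => hc a b, Finset.sum_neg_distrib, Finset.sum_comm,
      ← Finset.sum_neg_distrib]
    refine Finset.sum_congr rfl fun k _ => ?_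
    have := a8e_one y hy (x ^ a.val) (X5 z k * x ^ a.val) (X5 z (4 - k))
    rw [← neg_eq_iff_eq_neg] at this
    simpa only [mul_assoc] using this
  rw [Finset.sum_congr rfl fun a _ => hb a, Finset.sum_comm, ← Finset.sum_neg_distrib]
  have ha : ∀ k ∈ Finset.Icc 1 3, ∑ a : ZMod 5, ∑ j ∈ Finset.Icc 1 3,
      x ^ a.val * X5 y j * X5 z k * x ^ a.val * X5 y (4 - j) * X5 z (4 - k) =
      - ∑ j ∈ Finset.Icc 1 3, ∑ i ∈ Finset.Icc 1 3, pr6 (X5 x) (X5 y) (X5 z) i j k := by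
    intro k _
    rw [Finset.sum_comm, ← Finset.sum_neg_distrib]
    refine Finset.sum_congr rfl fun j _ => ?_
    have := a8e_one x hx 1 (X5 y j * X5 z k) (X5 y (4 - j) * X5 z (4 - k))
    simp only [one_mul] at this
    unfold pr6
    simpa only [mul_assoc] using this
  rw [Finset.sum_congr rfl ha, Finset.sum_neg_distrib, Finset.sum_neg_distrib]
  congr 1
  rw [Finset.sum_congr rfl fun k _ => Finset.sum_comm, Finset.sum_comm]
  refine Finset.sum_congr rfl fun i _ => ?_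
  rw [Finset.sum_comm]

end Pool.Agent.Lib.H80F
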