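import Pool.Agent.Lib.H80F.A8e

/-!
# H80F, A8: the formula for `ν`, II
-/

namespace Pool.Agent.Lib.H80F

open Subgroup
open scoped commutatorElement

variable {R : Type} [Ring R] [Algebra (ZMod 5) R] {θ : FreeGroup (Fin 3) →* R} {ν : R}

omit [Algebra (ZMod 5) R] in
private theorem a8f_neg (x : R) (hx : x ^ 5 = 1) (a : ZMod 5) :
    x ^ a.val * x ^ (-a).val = 1 := by
  rw [← pow_add]
  have h : a.val + (-a).val = 0 ∨ a.val + (-a).val = 5 := by
    revert a; decide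
  rcases h with h | h
  · rw [h, pow_zero]
  · rw [h, hx]

omit [Algebra (ZMod 5) R] in
private theorem a8f_inv (x y z : R) (hx : x ^ 5 = 1) (hy : y ^ 5 = 1) (hz : z ^ 5 = 1)
    (a b c : ZMod 5) :
    (x ^ a.val * y ^ b.val * z ^ c.val) * (z ^ (-c).val * y ^ (-b).val * x ^ (-a).val) = 1 := by
  calc (x ^ a.val * y ^ b.val * z ^ c.val) * (z ^ (-c).val * y ^ (-b).val * x ^ (-a).val)
      = x ^ a.val * (y ^ b.val * (z ^ c.val * z ^ (-c).val) * y ^ (-b).val) * x ^ (-a).val := by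
        simp only [mul_assoc]
    _ = 1 := by
        rw [a8f_neg z hz, mul_one, a8f_neg y hy, mul_one, a8f_neg x hx]

omit [Algebra (ZMod 5) R] in
private theorem a8f_four (g i : R) (h5 : g ^ 5 = 1) (hi : g * i = 1) : g ^ 4 = i := by
  calc g ^ 4 = g ^ 4 * (g * i) := by rw [hi, mul_one]
    _ = g ^ 5 * i := by rw [← mul_assoc, ← pow_succ]
    _ = i := by rw [h5, one_mul]

omit [Algebra (ZMod 5) R] in
private theorem a8f_three (g i : R) (h5 : g ^ 5 = 1) (hi : g * i = 1) : g ^ 3 = i * i := by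
  calc g ^ 3 = g ^ 3 * (g * i) := by rw [hi, mul_one]
    _ = g ^ 4 * i := by rw [← mul_assoc, ← pow_succ]
    _ = i * i := by rw [a8f_four g i h5 hi]

private theorem a8f_sumN (h : RM θ ν) (i : Fin 3) :
    ∑ a : ZMod 5, (θ (FreeGroup.of i)) ^ a.val = 0 := by
  have h1 := h.pow (FreeGroup.of i)
  have h2 : psi (FreeGroup.of i) = 0 := by
    fin_cases i <;> simp [psi, e3, Fin.prod_univ_three]
  rw [h2, zero_smul] at h1
  rw [← h1]
  exact Fin.sum_univ_eq_sum_range (fun j => (θ (FreeGroup.of i)) ^ j) 5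

private theorem a8f_psi (a b c : ZMod 5) :
    psi (FreeGroup.of 0 ^ a.val * FreeGroup.of 1 ^ b.val * FreeGroup.of 2 ^ c.val) =
      a ^ 4 * b ^ 4 * c ^ 4 := by
  simp [psi, e3, Fin.prod_univ_three]

/-- **The formula for `ν`.** Sum `∑_j (θ g) ^ j = ψ (g) ν` over `g = x ^ a y ^ b z ^ c`. The right
hand side is `- ν`. On the left `(θ g) ^ 5 = 1`, so `(θ g) ^ 3 = (θ g⁻¹) ^ 2`, `(θ g) ^ 4 = θ g⁻¹`. The
sum of the `1` is `125 = 0`, the sum of the `θ g` is `N_x N_y N_z = 0` (`N_x = ∑ (θ x) ^ a =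
ψ (x) ν = 0`), that of the `θ g⁻¹` is `N_z N_y N_x = 0` (`(θ x) ^ (-a)`, reindex `a ↦ - a`), and the
sums of the squares are given by `sum_sq` (for the inverses with the order `z, y, x`, after
`a ↦ - a`). -/
theorem nu_eq (h : RM θ ν) :
    ν = ∑ i ∈ Finset.Icc 1 3, ∑ j ∈ Finset.Icc 1 3, ∑ k ∈ Finset.Icc 1 3,
      pr6 (X5 (θ (FreeGroup.of 0))) (X5 (θ (FreeGroup.of 1))) (X5 (θ (FreeGroup.of 2))) i j k +
      ∑ i ∈ Finset.Icc 1 3, ∑ j ∈ Finset.Icc 1 3, ∑ k ∈ Finset.Icc 1 3,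
      pr6 (X5 (θ (FreeGroup.of 2))) (X5 (θ (FreeGroup.of 1))) (X5 (θ (FreeGroup.of 0))) i j k := by
  have hgen : ∀ a b c : ZMod 5,
      θ (FreeGroup.of 0 ^ a.val * FreeGroup.of 1 ^ b.val * FreeGroup.of 2 ^ c.val) =
      (θ (FreeGroup.of 0)) ^ a.val * (θ (FreeGroup.of 1)) ^ b.val *
        (θ (FreeGroup.of 2)) ^ c.val := by
    intro a b c
    simp only [map_mul, map_pow]
  have hx5 := th_pow h (FreeGroup.of 0)
  have hy5 := th_pow h (FreeGroup.of 1)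
  have hz5 := th_pow h (FreeGroup.of 2)
  have hx4 := X5_four h 0
  have hy4 := X5_four h 1
  have hz4 := X5_four h 2
  have hNx := a8f_sumN h 0
  have hNz := a8f_sumN h 2
  have hg5 : ∀ a b c : ZMod 5, ((θ (FreeGroup.of 0)) ^ a.val * (θ (FreeGroup.of 1)) ^ b.val *
        (θ (FreeGroup.of 2)) ^ c.val) ^ 5 = 1 := by
    intro a b c
    rw [← hgen]
    exact th_pow h _
  have hpow : ∀ a b c : ZMod 5, ∑ j ∈ Finset.range 5,
      ((θ (FreeGroup.of 0)) ^ a.val * (θ (FreeGroup.of 1)) ^ b.val *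
        (θ (FreeGroup.of 2)) ^ c.val) ^ j = (a ^ 4 * b ^ 4 * c ^ 4) • ν := by
    intro a b c
    rw [← hgen, h.pow, a8f_psi]
  generalize θ (FreeGroup.of 0) = x at *
  generalize θ (FreeGroup.of 1) = y at *
  generalize θ (FreeGroup.of 2) = z at *
  have h5 : (5 : R) = 0 := by
    have e : (5 : ZMod 5) = 0 := by decide
    rw [← map_ofNat (algebraMap (ZMod 5) R) 5, e, map_zero]
  -- the sums
  have hA : ∑ a : ZMod 5, ∑ b : ZMod 5, ∑ c : ZMod 5, (1 : R) = 0 := by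
    simp [ZMod.card, h5]
  have hB : ∑ a : ZMod 5, ∑ b : ZMod 5, ∑ c : ZMod 5, x ^ a.val * y ^ b.val * z ^ c.val = 0 := by
    refine Finset.sum_eq_zero fun a _ => Finset.sum_eq_zero fun b _ => ?_
    rw [← Finset.mul_sum, hNz, mul_zero]
  have hE : ∑ a : ZMod 5, ∑ b : ZMod 5, ∑ c : ZMod 5,
      z ^ (-c).val * y ^ (-b).val * x ^ (-a).val = 0 := by
    refine Finset.sum_eq_zero fun a _ => Finset.sum_eq_zero fun b _ => ?_
    have e : ∑ c : ZMod 5, z ^ (-c).val = 0 := by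
      rw [← hNz]
      exact Equiv.sum_comp (Equiv.neg (ZMod 5)) (fun c => z ^ c.val)
    simp only [mul_assoc]
    rw [← Finset.sum_mul, e, zero_mul]
  have hD : ∑ a : ZMod 5, ∑ b : ZMod 5, ∑ c : ZMod 5,
      z ^ (-c).val * y ^ (-b).val * x ^ (-a).val * (z ^ (-c).val * y ^ (-b).val * x ^ (-a).val) =
      - ∑ i ∈ Finset.Icc 1 3, ∑ j ∈ Finset.Icc 1 3, ∑ k ∈ Finset.Icc 1 3,
      pr6 (X5 z) (X5 y) (X5 x) i j k := by
    rw [← sum_sq z y x hz4 hy4 hx4]
    have e1 := Equiv.sum_comp (Equiv.neg (ZMod 5)) (fun a => ∑ b : ZMod 5, ∑ c : ZMod 5,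
      z ^ (-c).val * y ^ (-b).val * x ^ a.val * (z ^ (-c).val * y ^ (-b).val * x ^ a.val))
    simp only [Equiv.neg_apply] at e1
    rw [e1]
    have e2 : ∀ a : ZMod 5, ∑ b : ZMod 5, ∑ c : ZMod 5,
      z ^ (-c).val * y ^ (-b).val * x ^ a.val * (z ^ (-c).val * y ^ (-b).val * x ^ a.val) =
      ∑ b : ZMod 5, ∑ c : ZMod 5,
      z ^ (-c).val * y ^ b.val * x ^ a.val * (z ^ (-c).val * y ^ b.val * x ^ a.val) := by
      intro a
      exact Equiv.sum_comp (Equiv.neg (ZMod 5)) (fun b => ∑ c : ZMod 5,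
        z ^ (-c).val * y ^ b.val * x ^ a.val * (z ^ (-c).val * y ^ b.val * x ^ a.val))
    have e3 : ∀ a b : ZMod 5, ∑ c : ZMod 5,
      z ^ (-c).val * y ^ b.val * x ^ a.val * (z ^ (-c).val * y ^ b.val * x ^ a.val) =
      ∑ c : ZMod 5,
      z ^ c.val * y ^ b.val * x ^ a.val * (z ^ c.val * y ^ b.val * x ^ a.val) := by
      intro a b
      exact Equiv.sum_comp (Equiv.neg (ZMod 5)) (fun c => 
        z ^ c.val * y ^ b.val * x ^ a.val * (z ^ c.val * y ^ b.val * x ^ a.val))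
    rw [Finset.sum_congr rfl fun a _ => e2 a]
    simp only [e3]
    rw [Finset.sum_comm]
    have e4 : ∀ b : ZMod 5, ∑ a : ZMod 5, ∑ c : ZMod 5,
      z ^ c.val * y ^ b.val * x ^ a.val * (z ^ c.val * y ^ b.val * x ^ a.val) =
      ∑ c : ZMod 5, ∑ a : ZMod 5,
      z ^ c.val * y ^ b.val * x ^ a.val * (z ^ c.val * y ^ b.val * x ^ a.val) := by
      intro b
      rw [Finset.sum_comm]
    simp only [e4]
    rw [Finset.sum_comm]
  have hC := sum_sq x y z hx4 hy4 hz4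
  -- the total
  have hsum : ∑ a : ZMod 5, ∑ b : ZMod 5, ∑ c : ZMod 5, ∑ j ∈ Finset.range 5,
      (x ^ a.val * y ^ b.val * z ^ c.val) ^ j = - ν := by
    simp only [hpow, ← Finset.sum_smul]
    have e : ∑ a : ZMod 5, ∑ b : ZMod 5, ∑ c : ZMod 5, a ^ 4 * b ^ 4 * c ^ 4 = -1 := by
      have e1 : ∑ a : ZMod 5, a ^ 4 = -1 := by decide
      simp only [← Finset.mul_sum, e1, ← Finset.sum_mul]
      decide
    rw [e]
    simp
  have hterm : ∀ a b c : ZMod 5, ∑ j ∈ Finset.range 5, (x ^ a.val * y ^ b.val * z ^ c.val) ^ j =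
      1 + x ^ a.val * y ^ b.val * z ^ c.val +
      x ^ a.val * y ^ b.val * z ^ c.val * (x ^ a.val * y ^ b.val * z ^ c.val) +
      z ^ (-c).val * y ^ (-b).val * x ^ (-a).val * (z ^ (-c).val * y ^ (-b).val * x ^ (-a).val) +
      z ^ (-c).val * y ^ (-b).val * x ^ (-a).val := by
    intro a b c
    have hi := a8f_inv x y z hx5 hy5 hz5 a b c
    rw [Finset.sum_range_succ, Finset.sum_range_succ, Finset.sum_range_succ,
      Finset.sum_range_succ, Finset.sum_range_one, a8f_three _ _ (hg5 a b c) hi,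
      a8f_four _ _ (hg5 a b c) hi, pow_zero, pow_one, sq]
  simp only [hterm, Finset.sum_add_distrib] at hsum
  rw [hA, hB, hE, hD, hC] at hsum
  have := neg_eq_iff_eq_neg.1 hsum.symm
  rw [this]
  abel

end Pool.Agent.Lib.H80F
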