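import Pool.Agent.Lib.H80F.A2a
import Pool.Agent.Lib.H80F.A4a

/-!
# H80F, A8: leading terms
-/

namespace Pool.Agent.Lib.H80F

open Subgroup
open scoped commutatorElement

variable {R : Type} [Ring R] [Algebra (ZMod 5) R] {θ : FreeGroup (Fin 3) →* R} {ν : R}


/-- Equality of leading terms in degree `m`. -/
def a8g_L (J : ℕ → AddSubgroup R) (m : ℕ) (a b : R) : Prop :=
  a ∈ J m ∧ b ∈ J m ∧ a - b ∈ J (m + 1)

theorem a8g_mul {J : ℕ → AddSubgroup R} (hJ : RFilt J) {m n : ℕ} {a b c d : R}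
    (h1 : a8g_L J m a b) (h2 : a8g_L J n c d) : a8g_L J (m + n) (a * c) (b * d) := by
  refine ⟨hJ.mul _ _ _ _ h1.1 h2.1, hJ.mul _ _ _ _ h1.2.1 h2.2.1, ?_⟩
  have e : a * c - b * d = (a - b) * c + b * (c - d) := by noncomm_ring
  rw [e]
  apply add_mem
  · have := hJ.mul _ _ _ _ h1.2.2 h2.1
    rwa [show m + 1 + n = m + n + 1 by ring] at this
  · have := hJ.mul _ _ _ _ h1.2.1 h2.2.2
    rwa [← add_assoc] at this

/-- The coefficients of the leading terms. -/
def a8g_c (i : ℕ) : ℕ := if i = 2 then 3 else 1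

theorem a8g_anti {J : ℕ → AddSubgroup R} (hJ : RFilt J) {m n : ℕ} (h : m ≤ n) : J n ≤ J m := by
  induction n, h using Nat.le_induction with
  | base => exact le_rfl
  | succ n _ ih => exact (hJ.anti n).trans ih

theorem a8g_X {J : ℕ → AddSubgroup R} (hJ : RFilt J) {x : R} (hx : x - 1 ∈ J 1) {i : ℕ}
    (hi : i ∈ Finset.Icc 1 3) : a8g_L J i (X5 x i) ((a8g_c i) • (x - 1) ^ i) := by
  have hp : ∀ k, (x - 1) ^ k ∈ J k := by
    intro k
    induction k with
    | zero => rw [pow_zero]; exact hJ.one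
    | succ k ih => rw [pow_succ]; exact hJ.mul _ _ _ _ ih hx
  have H : ∀ {m k : ℕ} (_ : m ≤ k) (c : ℕ), (c : R) * (x - 1) ^ k ∈ J m := by
    intro m k hk c
    rw [← nsmul_eq_mul]
    exact AddSubgroup.nsmul_mem _ (a8g_anti hJ hk (hp k)) c
  have h0 : a8g_c i • (x - 1) ^ i ∈ J i := AddSubgroup.nsmul_mem _ (hp i) _
  have h1 : X5 x i - a8g_c i • (x - 1) ^ i ∈ J (i + 1) := by
    rw [Finset.mem_Icc] at hi
    have h3 : i = 1 ∨ i = 2 ∨ i = 3 := by omega
    rcases h3 with rfl | rfl | rfl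
    · have h2 := H (show 2 ≤ 2 by norm_num) 2
      have h3 := H (show 2 ≤ 3 by norm_num) 2
      have h4 := H (show 2 ≤ 4 by norm_num) 1
      have h5 := add_mem (add_mem h2 h3) h4
      convert h5 using 1
      simp [X5, a8g_c]
      abel
    · have h3 := H (show 3 ≤ 3 by norm_num) 2
      have h4 := H (show 3 ≤ 4 by norm_num) 4
      have h5 := add_mem h3 h4
      convert h5 using 1
      simp [X5, a8g_c]
      abel
    · have h4 := H (show 4 ≤ 4 by norm_num) 1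
      convert h4 using 1
      simp [X5, a8g_c]
  refine ⟨?_, h0, h1⟩
  have h2 := add_mem (hJ.anti _ h1) h0
  rwa [sub_add_cancel] at h2

/-- `X5 g i * (X5 g (4 - i))` has the leading term `cf i (g - 1) ^ 4`; here for the product of six
factors: `X₁ ≡ u`, `X₂ ≡ 3 u²`, `X₃ ≡ u³` modulo higher terms and `9 = -1`. `J` is any filtration with
`x - 1, y - 1, z - 1 ∈ J 1`. -/
theorem pr6_lead {J : ℕ → AddSubgroup R} (hJ : RFilt J) {x y z : R} (hx : x - 1 ∈ J 1)
    (hy : y - 1 ∈ J 1) (hz : z - 1 ∈ J 1) {i j k : ℕ} (hi : i ∈ Finset.Icc 1 3)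
    (hj : j ∈ Finset.Icc 1 3) (hk : k ∈ Finset.Icc 1 3) :
    pr6 (X5 x) (X5 y) (X5 z) i j k -
      (cf i * cf j * cf k) • (qword (x - 1) (y - 1) (z - 1) i j k).prod ∈ J 13 := by
  have hsub : ∀ i ∈ Finset.Icc 1 3, 4 - i ∈ Finset.Icc 1 3 := by decide
  have h1 := a8g_mul hJ (a8g_mul hJ (a8g_mul hJ (a8g_mul hJ (a8g_mul hJ (a8g_X hJ hx hi)
    (a8g_X hJ hy hj)) (a8g_X hJ hz hk)) (a8g_X hJ hx (hsub i hi))) (a8g_X hJ hy (hsub j hj)))
    (a8g_X hJ hz (hsub k hk))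
  have h2 := h1.2.2
  have hd : i + j + k + (4 - i) + (4 - j) + (4 - k) + 1 = 13 := by
    rw [Finset.mem_Icc] at hi hj hk
    omega
  rw [hd] at h2
  have h5 : (5 : R) = 0 := by
    have h1 : ((5 : ZMod 5) : ZMod 5) = 0 := by decide
    have h2 := congrArg (algebraMap (ZMod 5) R) h1
    rwa [map_ofNat, map_zero] at h2
  have hc : ∀ i ∈ Finset.Icc 1 3, ∀ r : R, (a8g_c i * a8g_c (4 - i)) • r = cf i • r := by
    intro i hi r
    rw [Finset.mem_Icc] at hi
    have h3 : i = 1 ∨ i = 2 ∨ i = 3 := by omega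
    rcases h3 with rfl | rfl | rfl
    · simp [a8g_c, cf]
    · have e : (9 : ℕ) • r = (10 : ℕ) • r - r := by
        rw [show (10 : ℕ) = 9 + 1 by norm_num, add_smul, one_smul, add_sub_cancel_right]
      have e2 : (10 : ℕ) • r = 0 := by
        rw [nsmul_eq_mul]
        have : ((10 : ℕ) : R) = 2 * 5 := by norm_num
        rw [this, h5, mul_zero, zero_mul]
      show (3 * 3 : ℕ) • r = (-1 : ℤ) • r
      rw [show (3 * 3 : ℕ) = 9 by norm_num, e, e2]
      simp
    · simp [a8g_c, cf]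
  have hq : (qword (x - 1) (y - 1) (z - 1) i j k).prod =
      (x - 1) ^ i * (y - 1) ^ j * (z - 1) ^ k * (x - 1) ^ (4 - i) * (y - 1) ^ (4 - j) *
        (z - 1) ^ (4 - k) := by
    unfold qword
    simp only [List.prod_append, List.prod_replicate]
  rw [hq]
  have e : (cf i * cf j * cf k) • ((x - 1) ^ i * (y - 1) ^ j * (z - 1) ^ k *
      (x - 1) ^ (4 - i) * (y - 1) ^ (4 - j) * (z - 1) ^ (4 - k)) =
      a8g_c i • (x - 1) ^ i * a8g_c j • (y - 1) ^ j * a8g_c k • (z - 1) ^ k *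
        a8g_c (4 - i) • (x - 1) ^ (4 - i) * a8g_c (4 - j) • (y - 1) ^ (4 - j) *
        a8g_c (4 - k) • (z - 1) ^ (4 - k) := by
    simp only [smul_mul_assoc, mul_smul_comm, smul_smul]
    rw [mul_smul, mul_smul, ← hc k hk, ← hc j hj, ← hc i hi, smul_smul, smul_smul]
    congr 1
    ring
  rw [e]
  exact h2

end Pool.Agent.Lib.H80F
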