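import Pool.Agent.Lib.H80F.A5b
import Pool.Agent.Lib.H80F.A8b
import Pool.Agent.Lib.H80F.A8f
import Pool.Agent.Lib.H80F.A8g
import Pool.Agent.Lib.H80F.A2c
import Pool.Agent.Lib.H80F.A2d

/-!
# H80F, A8: standard weights
-/

namespace Pool.Agent.Lib.H80F

open Subgroup
open scoped commutatorElement

variable {R : Type} [Ring R] [Algebra (ZMod 5) R] {θ : FreeGroup (Fin 3) →* R} {ν : R}


/-- The leading term vanishes: `q444_words` for `wE_wf4` with the standard weights, `n = 12 > 4`. -/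
theorem q_mem (h : RM θ ν) (i₀ j₀ k₀ : Fin 3) :
    ∑ i ∈ Finset.Icc 1 3, ∑ j ∈ Finset.Icc 1 3, ∑ k ∈ Finset.Icc 1 3,
      (cf i * cf j * cf k) • (qword (θ (FreeGroup.of i₀) - 1) (θ (FreeGroup.of j₀) - 1)
        (θ (FreeGroup.of k₀) - 1) i j k).prod ∈ J θ (wf FreeGroup.of w1) 13 := by
  have h5 : (5 : R) = 0 := by
    have h1 : ((5 : ZMod 5) : ZMod 5) = 0 := by decide
    have h2 := congrArg (algebraMap (ZMod 5) R) h1
    rwa [map_ofNat, map_zero] at h2
  have hM : ∀ m : R ⧸ J θ (wf FreeGroup.of w1) 13, (5 : ℕ) • m = 0 := by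
    intro m
    induction m using QuotientAddGroup.induction_on with
    | H r =>
      rw [← QuotientAddGroup.mk_nsmul, nsmul_eq_mul]
      have : ((5 : ℕ) : R) = 5 := by norm_num
      rw [this, h5, zero_mul, QuotientAddGroup.mk_zero]
  have hE := wE_wf4 h w1_pos (W := 1) (fun _ => le_rfl) (n := 12) (by norm_num)
  have hl : ∀ i : Fin 3, FreeGroup.of i ∈ wf (FreeGroup.of : Fin 3 → FreeGroup (Fin 3)) w1 1 :=
    fun i => wf_letter _ w1_pos i
  let X : AlF (wf (FreeGroup.of : Fin 3 → FreeGroup (Fin 3)) w1) :=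
    ⟨(1, FreeGroup.of i₀), le_rfl, hl i₀⟩
  let Y : AlF (wf (FreeGroup.of : Fin 3 → FreeGroup (Fin 3)) w1) :=
    ⟨(1, FreeGroup.of j₀), le_rfl, hl j₀⟩
  let Z : AlF (wf (FreeGroup.of : Fin 3 → FreeGroup (Fin 3)) w1) :=
    ⟨(1, FreeGroup.of k₀), le_rfl, hl k₀⟩
  have h1 := q444_words hM hE X Y Z
  rw [← QuotientAddGroup.eq_zero_iff]
  rw [← h1]
  have h2 : ∀ i ∈ Finset.Icc 1 3, ∀ j ∈ Finset.Icc 1 3, ∀ k ∈ Finset.Icc 1 3,
      wE θ 12 (qword X Y Z i j k) = (QuotientAddGroup.mk (qword (θ (FreeGroup.of i₀) - 1)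
        (θ (FreeGroup.of j₀) - 1) (θ (FreeGroup.of k₀) - 1) i j k).prod :
          R ⧸ J θ (wf FreeGroup.of w1) 13) := by
    intro i hi j hj k hk
    rw [Finset.mem_Icc] at hi hj hk
    have hw : wtF (qword X Y Z i j k) = 12 := by
      unfold wtF qword
      simp only [List.map_append, List.map_replicate, List.sum_append, List.sum_replicate, X, Y, Z,
        smul_eq_mul, mul_one]
      omega
    unfold wE
    rw [if_pos hw]
    congr 2
    unfold qword
    simp only [List.map_append, List.map_replicate, X, Y, Z]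
  have h3 : ∀ r : R, (QuotientAddGroup.mk r : R ⧸ J θ (wf FreeGroup.of w1) 13) =
      QuotientAddGroup.mk' _ r := fun r => rfl
  rw [h3, map_sum]
  refine Finset.sum_congr rfl fun i hi => ?_
  rw [map_sum]
  refine Finset.sum_congr rfl fun j hj => ?_
  rw [map_sum]
  refine Finset.sum_congr rfl fun k hk => ?_
  rw [map_zsmul, h2 i hi j hj k hk]
  rfl

/-- `nu_eq`, `pr6_lead`, `q_mem`. -/
theorem nu_mem (h : RM θ ν) : ν ∈ J θ (wf FreeGroup.of w1) 13 := by
  have hl : ∀ i : Fin 3, θ (FreeGroup.of i) - 1 ∈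
      J θ (wf (FreeGroup.of : Fin 3 → FreeGroup (Fin 3)) w1) 1 :=
    fun i => J_sub_one θ (wf_letter _ w1_pos i)
  have hR := J_rfilt θ (wf (FreeGroup.of : Fin 3 → FreeGroup (Fin 3)) w1)
  have key : ∀ i₀ j₀ k₀ : Fin 3, ∑ i ∈ Finset.Icc 1 3, ∑ j ∈ Finset.Icc 1 3,
      ∑ k ∈ Finset.Icc 1 3, pr6 (X5 (θ (FreeGroup.of i₀))) (X5 (θ (FreeGroup.of j₀)))
        (X5 (θ (FreeGroup.of k₀))) i j k ∈
        J θ (wf (FreeGroup.of : Fin 3 → FreeGroup (Fin 3)) w1) 13 := by
    intro i₀ j₀ k₀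
    have h1 := q_mem h i₀ j₀ k₀
    have h2 : ∑ i ∈ Finset.Icc 1 3, ∑ j ∈ Finset.Icc 1 3,
      ∑ k ∈ Finset.Icc 1 3, (pr6 (X5 (θ (FreeGroup.of i₀))) (X5 (θ (FreeGroup.of j₀)))
        (X5 (θ (FreeGroup.of k₀))) i j k -
        (cf i * cf j * cf k) • (qword (θ (FreeGroup.of i₀) - 1) (θ (FreeGroup.of j₀) - 1)
        (θ (FreeGroup.of k₀) - 1) i j k).prod) ∈
        J θ (wf (FreeGroup.of : Fin 3 → FreeGroup (Fin 3)) w1) 13 :=
      AddSubgroup.sum_mem _ fun i hi => AddSubgroup.sum_mem _ fun j hj =>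
        AddSubgroup.sum_mem _ fun k hk => pr6_lead hR (hl i₀) (hl j₀) (hl k₀) hi hj hk
    simp only [Finset.sum_sub_distrib] at h2
    have h3 := add_mem h2 h1
    rwa [sub_add_cancel] at h3
  have h4 := add_mem (key 0 1 2) (key 2 1 0)
  rw [← nu_eq h] at h4
  exact h4

/-- `J_words` and the nilpotency: downward induction. -/
theorem J_le_words (h : RM θ ν) (n : ℕ) :
    J θ (wf FreeGroup.of w1) n ≤ AddSubgroup.closure {x : R | ∃ l : List (Fin 3), n ≤ l.length ∧
      x = (l.map (fun i => θ (FreeGroup.of i) - 1)).prod} := by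
  obtain ⟨N, hN⟩ := h.nil
  have h1 : ∀ n, N ≤ n → J θ (wf (FreeGroup.of : Fin 3 → FreeGroup (Fin 3)) w1) n ≤ ⊥ := by
    intro n hn
    have h2 := J_deep θ w1_pos 1 (fun _ => le_rfl) le_rfl fg_gen n
    rw [mul_one] at h2
    refine h2.trans ?_
    rw [AddSubgroup.closure_le]
    rintro x ⟨l, hl, rfl⟩
    exact hN l (hn.trans hl)
  have h3 : ∀ d n : ℕ, N ≤ n + d → J θ (wf (FreeGroup.of : Fin 3 → FreeGroup (Fin 3)) w1) n ≤
      AddSubgroup.closure {x : R | ∃ l : List (Fin 3), n ≤ l.length ∧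
      x = (l.map (fun i => θ (FreeGroup.of i) - 1)).prod} := by
    intro d
    induction d with
    | zero =>
      intro n hn
      exact (h1 n hn).trans bot_le
    | succ d ih =>
      intro n hn
      refine (J_words θ w1_pos fg_gen n).trans (sup_le ?_ ?_)
      · apply AddSubgroup.closure_mono
        rintro x ⟨l, hl, rfl⟩
        refine ⟨l, ?_, rfl⟩
        have : (l.map w1).sum = l.length := by
          unfold w1
          simp
        rw [← hl, this]
      · refine (ih (n + 1) (by omega)).trans ?_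
        apply AddSubgroup.closure_mono
        rintro x ⟨l, hl, rfl⟩
        exact ⟨l, by omega, rfl⟩
  exact h3 N n (by omega)

end Pool.Agent.Lib.H80F
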