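import Pool.Agent.Lib.H80F.Defs2

/-!
# H80F, A8: the torus
-/

namespace Pool.Agent.Lib.H80F

open Subgroup
open scoped commutatorElement

variable {R : Type} [Ring R] [Algebra (ZMod 5) R] {θ : FreeGroup (Fin 3) →* R} {ν : R}


theorem psi_st (τ : Fin 3 → (ZMod 5)ˣ) (g : FreeGroup (Fin 3)) : psi (st τ g) = psi g := by
  have h1 : ∀ i : Fin 3, Multiplicative.toAdd (e3 i (st τ g)) =
      (τ i : ZMod 5) * Multiplicative.toAdd (e3 i g) := by
    intro i
    have h2 : (e3 i).comp (st τ) = ((AddMonoidHom.mulLeft (τ i : ZMod 5)).toMultiplicative).comp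
        (e3 i) := by
      apply FreeGroup.ext_hom
      intro j
      simp only [MonoidHom.comp_apply, st, e3, FreeGroup.lift_apply_of, map_pow]
      apply Multiplicative.toAdd.injective
      by_cases hj : j = i
      · subst hj
        simp
      · simp [hj]
    have h3 := congrArg Multiplicative.toAdd (DFunLike.congr_fun h2 g)
    exact h3
  unfold psi
  refine Finset.prod_congr rfl fun i _ => ?_
  rw [h1, mul_pow]
  have h4 : ((τ i : ZMod 5)) ^ 4 = 1 := by
    have : ∀ u : (ZMod 5)ˣ, ((u : ZMod 5)) ^ 4 = 1 := by decide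
    exact this (τ i)
  rw [h4, one_mul]

theorem thT_RM (h : RM θ ν) : RM (thT θ) (fun _ => ν) := by
  refine ⟨fun g => ?_, fun g => ?_, fun g => ?_, ?_⟩
  · funext τ
    rw [Finset.sum_apply]
    show ∑ j ∈ Finset.range 5, (θ (st τ g)) ^ j = psi g • ν
    rw [h.pow, psi_st]
  · funext τ
    exact h.left (st τ g)
  · funext τ
    exact h.right (st τ g)
  · obtain ⟨N, hN⟩ := h.nil
    refine ⟨N, fun l hl => ?_⟩
    funext τ
    have h1 : ∀ l : List (FreeGroup (Fin 3)), (l.map (fun g => thT θ g - 1)).prod τ =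
        ((l.map (st τ)).map (fun g => θ g - 1)).prod := by
      intro l
      induction l with
      | nil => rfl
      | cons a l ih =>
        rw [List.map_cons, List.prod_cons, Pi.mul_apply, ih]
        rfl
    rw [h1]
    exact hN _ (by simpa using hl)

end Pool.Agent.Lib.H80F
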