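import Pool.Agent.Lib.H80F.A8d
import Pool.Agent.Lib.H80F.A4a

/-!
# H80F, A8: functions on the torus
-/

namespace Pool.Agent.Lib.H80F

open Subgroup
open scoped commutatorElement

variable {R : Type} [Ring R] [Algebra (ZMod 5) R] {θ : FreeGroup (Fin 3) →* R} {ν : R}


theorem QF_anti (Λ : ℕ) {d e : ℕ} (h : d ≤ e) : QF θ Λ e ≤ QF θ Λ d := by
  unfold QF
  apply AddSubgroup.closure_mono
  rintro q ⟨s, r, hs, hr, hq⟩
  exact ⟨s, r, h.trans hs, hr, hq⟩

theorem QF_one (Λ : ℕ) : (1 : (Fin 3 → (ZMod 5)ˣ) → R) ∈ QF θ Λ 0 := by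
  apply AddSubgroup.subset_closure
  refine ⟨0, 1, by simp, KK_one Λ, ?_⟩
  funext τ
  simp

theorem QF_mul (Λ : ℕ) {d e : ℕ} {q q' : (Fin 3 → (ZMod 5)ˣ) → R} (hq : q ∈ QF θ Λ d)
    (hq' : q' ∈ QF θ Λ e) : q * q' ∈ QF θ Λ (d + e) := by
  unfold QF at *
  induction hq using AddSubgroup.closure_induction with
  | mem x hx =>
    induction hq' using AddSubgroup.closure_induction with
    | mem y hy =>
      obtain ⟨s, r, hs, hr, rfl⟩ := hx
      obtain ⟨t, r', ht, hr', rfl⟩ := hy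
      apply AddSubgroup.subset_closure
      refine ⟨s + t, r * r', ?_, KK_mul Λ hr hr', ?_⟩
      · simp only [Pi.add_apply, Finset.sum_add_distrib]
        omega
      · funext τ
        simp only [Pi.mul_apply, Pi.add_apply, pow_add, Finset.prod_mul_distrib, smul_mul_smul_comm]
    | zero => rw [mul_zero]; exact zero_mem _
    | add y z _ _ h1 h2 => rw [mul_add]; exact add_mem h1 h2
    | neg y _ h1 => rw [mul_neg]; exact neg_mem h1
  | zero => rw [zero_mul]; exact zero_mem _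
  | add y z _ _ h1 h2 => rw [add_mul]; exact add_mem h1 h2
  | neg y _ h1 => rw [neg_mul]; exact neg_mem h1

/-- `(thT θ xᵢ - 1) (τ) = (θ xᵢ) ^ (τᵢ) - 1 = ∑_{m = 1, ..., 4} τᵢ ^ m X5 (θ xᵢ) m` (`pow_eq_X5`,
`KK_X5`). -/
theorem QF_letter (Λ : ℕ) (i : Fin 3) : thT θ (FreeGroup.of i) - 1 ∈ QF θ Λ 1 := by
  have h1 : thT θ (FreeGroup.of i) - 1 = ∑ m ∈ Finset.Icc 1 4,
      (fun τ : Fin 3 → (ZMod 5)ˣ => (τ i : ZMod 5) ^ m • X5 (θ (FreeGroup.of i)) m) := by
    funext τ
    rw [Finset.sum_apply]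
    show θ (st τ (FreeGroup.of i)) - 1 = _
    have h2 : st τ (FreeGroup.of i) = FreeGroup.of i ^ (τ i : ZMod 5).val := by
      unfold st
      rw [FreeGroup.lift_apply_of]
    rw [h2, map_pow, pow_eq_X5]
    have h3 : Finset.Icc 1 4 = ({1, 2, 3, 4} : Finset ℕ) := by decide
    rw [h3]
    simp only [Finset.sum_range_succ, Finset.sum_range_zero]
    simp only [Finset.mem_insert, Finset.mem_singleton, Finset.sum_insert, Finset.sum_singleton,
      OfNat.one_ne_ofNat, OfNat.ofNat_ne_one, or_self, not_false_eq_true, Nat.reduceEqDiff]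
    rw [pow_zero, one_smul]
    show 0 + 1 + _ + _ + _ + _ - 1 = _
    abel
  rw [h1]
  apply AddSubgroup.sum_mem
  intro m hm
  rw [Finset.mem_Icc] at hm
  apply AddSubgroup.subset_closure
  refine ⟨Pi.single i m, X5 (θ (FreeGroup.of i)) m, ?_, KK_X5 Λ i m, ?_⟩
  · rw [Finset.sum_pi_single']
    simp only [Finset.mem_univ, if_true]
    exact hm.1
  · funext τ
    congr 1
    rw [Finset.prod_eq_single i]
    · rw [Pi.single_eq_same]
    · intro j _ hj
      rw [Pi.single_eq_of_ne hj, pow_zero]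
    · intro h
      exact absurd (Finset.mem_univ i) h

/-- The sum over the torus of `(∏ τᵢ ^ sᵢ) r` is `0` unless all `sᵢ ≡ 0 (mod 4)`; with
`∑ s ≥ 13` some `sᵢ ≥ 8`, and `r = 0` by `KK_bot`. -/
theorem QF_avg (h : RM θ ν) {Λ : ℕ} (hΛ : 2 ≤ Λ)
    (hN : ∀ l : List (FreeGroup (Fin 3)), Λ ≤ l.length → (l.map (fun g => θ g - 1)).prod = 0)
    {q : (Fin 3 → (ZMod 5)ˣ) → R} (hq : q ∈ QF θ Λ 13) : ∑ τ, q τ = 0 := by
  unfold QF at hq
  induction hq using AddSubgroup.closure_induction with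
  | mem x hx =>
    obtain ⟨s, r, hs, hr, rfl⟩ := hx
    by_cases h8 : ∃ i, 8 ≤ s i
    · obtain ⟨i, hi⟩ := h8
      rw [KK_bot h hΛ hN hi, AddSubgroup.mem_bot] at hr
      simp [hr]
    · push Not at h8
      simp only
      rw [← Finset.sum_smul]
      have h1 : ∑ τ : Fin 3 → (ZMod 5)ˣ, ∏ i, (τ i : ZMod 5) ^ s i =
          ∏ i, ∑ u : (ZMod 5)ˣ, (u : ZMod 5) ^ s i := by
        rw [Finset.prod_univ_sum, Fintype.piFinset_univ]
      rw [h1]
      have h2 : ∃ i, s i % 4 ≠ 0 := by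
        by_contra hcon
        push Not at hcon
        have e0 := h8 0
        have e1 := h8 1
        have e2 := h8 2
        have f0 := hcon 0
        have f1 := hcon 1
        have f2 := hcon 2
        rw [Fin.sum_univ_three] at hs
        omega
      obtain ⟨i, hi⟩ := h2
      have h3 : ∑ u : (ZMod 5)ˣ, (u : ZMod 5) ^ s i = 0 := by
        have h4 : ∀ u : (ZMod 5)ˣ, (u : ZMod 5) ^ s i = (u : ZMod 5) ^ (s i % 4) := by
          intro u
          have h5 : ((u : ZMod 5)) ^ 4 = 1 := by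
            have : ∀ u : (ZMod 5)ˣ, ((u : ZMod 5)) ^ 4 = 1 := by decide
            exact this u
          conv_lhs => rw [← Nat.div_add_mod (s i) 4, pow_add, pow_mul, h5, one_pow, one_mul]
        rw [Finset.sum_congr rfl fun u _ => h4 u]
        have h6 : s i % 4 = 1 ∨ s i % 4 = 2 ∨ s i % 4 = 3 := by omega
        rcases h6 with h6 | h6 | h6 <;> rw [h6] <;> decide
      rw [Finset.prod_eq_zero (Finset.mem_univ i) h3, zero_smul]
  | zero => simp
  | add x y _ _ hx hy =>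
    simp only [Pi.add_apply, Finset.sum_add_distrib, hx, hy, add_zero]
  | neg x _ hx =>
    simp only [Pi.neg_apply, Finset.sum_neg_distrib, hx, neg_zero]

end Pool.Agent.Lib.H80F
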