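import Pool.Agent.Lib.H80F.A8h
import Pool.Agent.Lib.H80F.A8i
import Pool.Agent.Lib.H80F.A8j

/-!
# H80F, A8: there is no such ring
-/

namespace Pool.Agent.Lib.H80F

open Subgroup
open scoped commutatorElement

variable {R : Type} [Ring R] [Algebra (ZMod 5) R] {θ : FreeGroup (Fin 3) →* R} {ν : R}


/-- **There is no such ring.** By `nu_mem` and `J_le_words` for `thT θ`, `QF_letter` and `QF_mul`, the
constant function `ν` is in `QF 13`; by `QF_avg` its sum over the torus, `4 ^ 3 ν = - ν`, is `0`. -/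
theorem noRM (h : RM θ ν) : ν = 0 := by
  obtain ⟨N, hN⟩ := h.nil
  have hΛ : 2 ≤ max 2 N := le_max_left _ _
  have hN' : ∀ l : List (FreeGroup (Fin 3)), max 2 N ≤ l.length →
      (l.map (fun g => θ g - 1)).prod = 0 := fun l hl => hN l ((le_max_right _ _).trans hl)
  have h1 := nu_mem (thT_RM h)
  have h2 := J_le_words (thT_RM h) 13 h1
  have h3 : AddSubgroup.closure {x : (Fin 3 → (ZMod 5)ˣ) → R | ∃ l : List (Fin 3),
      13 ≤ l.length ∧ x = (l.map (fun i => thT θ (FreeGroup.of i) - 1)).prod} ≤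
      QF θ (max 2 N) 13 := by
    rw [AddSubgroup.closure_le]
    rintro x ⟨l, hl, rfl⟩
    have h4 : ∀ l : List (Fin 3), (l.map (fun i => thT θ (FreeGroup.of i) - 1)).prod ∈
        QF θ (max 2 N) l.length := by
      intro l
      induction l with
      | nil => exact QF_one _
      | cons a l ih =>
        rw [List.map_cons, List.prod_cons, List.length_cons, add_comm]
        exact QF_mul _ (QF_letter _ a) ih
    exact QF_anti _ hl (h4 l)
  have h5 := QF_avg h hΛ hN' (h3 h2)
  rw [Finset.sum_const, Finset.card_univ] at h5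
  have h6 : Fintype.card (Fin 3 → (ZMod 5)ˣ) = 64 := by
    rw [Fintype.card_fun, Fintype.card_fin]
    have : Fintype.card (ZMod 5)ˣ = 4 := by decide
    rw [this]
    norm_num
  rw [h6] at h5
  have h7 : ((64 : ℕ) : ZMod 5) • ν = 0 := by
    rw [Nat.cast_smul_eq_nsmul]
    exact h5
  have h8 : ((64 : ℕ) : ZMod 5) = -1 := by decide
  rw [h8, neg_smul, one_smul, neg_eq_zero] at h7
  exact h7

end Pool.Agent.Lib.H80F
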