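import Pool.Agent.Lib.H80U.Final
import Pool.Agent.Lib.H80F.Defs2

/-!
# H80F, A9: from a power function to a realisation
-/

namespace Pool.Agent.Lib.H80F

open Subgroup Pool.Agent.Lib.H80U
open scoped commutatorElement

/-- The four letters. -/
def bb_A9a (i : Fin 4) : Option (Fin 3) := Fin.cases none some i

theorem bb_inj_A9a : Function.Injective bb_A9a := by decide

theorem bb_surj_A9a : Function.Surjective bb_A9a := by decide

/-- From a power function to a realisation. Let `h = (G₀, c₀, π, ...)`; put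
`E = exHom 5 (b)` with `b : Fin 4 → Option (Fin 3)`, `0 ↦ none`, `i + 1 ↦ some i`, and let `G` be the
range of `P = π.prod E : FreeGroup (Option (Fin 3)) →* G₀ × Multiplicative (Fin 4 → ZMod 5)`, `b i` the
images of the generators, `e` the second projection, `c = P (w₀) ^ 5` with `w₀` the product of the four
generators (`φ w₀ = 1`, so `c = (c₀, 1)`). -/
theorem exists_rz (h : PowFun 5 (Option (Fin 3)) (fun w => ((ex none w : ℤ) : ZMod 5) *
      ∏ i : Fin 3, ((ex (some i) w : ℤ) : ZMod 5) ^ 4)) :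
    ∃ (G : Type) (_ : Group G) (_ : Finite G) (b : Fin 4 → G)
      (e : G →* Multiplicative (Fin 4 → ZMod 5)) (c : G), IsPGroup 5 G ∧ Rz b e c := by
  have : Fact (Nat.Prime 5) := ⟨by norm_num⟩
  obtain ⟨G₀, i1, i2, c₀, π, h1, h2, h3, h4, h5⟩ := h
  let E : FreeGroup (Option (Fin 3)) →* Multiplicative (Fin 4 → ZMod 5) := exHom 5 bb_A9a
  let P : FreeGroup (Option (Fin 3)) →* G₀ × Multiplicative (Fin 4 → ZMod 5) := π.prod E
  have hE : ∀ w i, Multiplicative.toAdd (E w) i = ((ex (bb_A9a i) w : ℤ) : ZMod 5) :=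
    fun w i => rfl
  have hGM : IsPGroup 5 (G₀ × Multiplicative (Fin 4 → ZMod 5)) := by
    rintro ⟨g, k⟩
    obtain ⟨a, ha⟩ := h1 g
    refine ⟨a + 1, ?_⟩
    rw [Prod.pow_mk, pow_succ, pow_mul, ha, one_pow, mul_comm, pow_mul, mult_pow, one_pow]
    rfl
  have hpow : ∀ w, (P w) ^ 5 = (c₀ ^ (f4 (Multiplicative.toAdd (E w))).val, 1) := by
    intro w
    show (π w, E w) ^ 5 = _
    rw [Prod.pow_mk, h5, mult_pow]
    congr 3
    unfold f4
    rw [hE, hE, hE, hE]
    beta_reduce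
    rw [Fin.prod_univ_three]
    show _ = ((ex (none : Option (Fin 3)) w : ℤ) : ZMod 5) *
      ((ex (some 0 : Option (Fin 3)) w : ℤ) : ZMod 5) ^ 4 *
      ((ex (some 1 : Option (Fin 3)) w : ℤ) : ZMod 5) ^ 4 *
      ((ex (some 2 : Option (Fin 3)) w : ℤ) : ZMod 5) ^ 4
    ring
  let w₀ : FreeGroup (Option (Fin 3)) := FreeGroup.of none * FreeGroup.of (some 0) *
    FreeGroup.of (some 1) * FreeGroup.of (some 2)
  have hw₀ : f4 (Multiplicative.toAdd (E w₀)) = 1 := by
    unfold f4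
    rw [hE, hE, hE, hE]
    have hh : ∀ i, ex (bb_A9a i) w₀ = 1 := by
      intro i
      simp only [w₀, ex_mul, ex_of]
      revert i
      decide
    simp [hh]
  have hc : (P w₀) ^ 5 = (c₀, 1) := by
    rw [hpow, hw₀]
    simp [show (1 : ZMod 5).val = 1 from rfl]
  have hcr : ((P.rangeRestrict w₀ ^ 5 : P.range) : G₀ × Multiplicative (Fin 4 → ZMod 5)) =
      (c₀, 1) := hc
  refine ⟨P.range, inferInstance, inferInstance, fun i => P.rangeRestrict (FreeGroup.of (bb_A9a i)),
    (MonoidHom.snd G₀ _).comp P.range.subtype, P.rangeRestrict w₀ ^ 5, hGM.to_subgroup _, ?_⟩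
  refine ⟨?_, ?_, ?_, ?_, ?_, ?_⟩
  · have h6 : Subgroup.map P.rangeRestrict ⊤ = ⊤ :=
      Subgroup.map_top_of_surjective _ P.rangeRestrict_surjective
    rw [← h6, ← FreeGroup.closure_range_of, MonoidHom.map_closure]
    congr 1
    ext x
    constructor
    · rintro ⟨i, rfl⟩
      exact ⟨_, ⟨bb_A9a i, rfl⟩, rfl⟩
    · rintro ⟨_, ⟨o, rfl⟩, rfl⟩
      obtain ⟨i, rfl⟩ := bb_surj_A9a o
      exact ⟨i, rfl⟩
  · intro i
    show E (FreeGroup.of (bb_A9a i)) = _
    rw [← ofAdd_toAdd (E (FreeGroup.of (bb_A9a i)))]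
    congr 1
    funext j
    rw [hE, ex_of, Pi.single_apply]
    by_cases hij : j = i
    · subst hij
      simp
    · rw [if_neg (fun hh => hij (bb_inj_A9a hh.symm)), if_neg hij]
      simp
  · intro hh
    have h6 := congrArg Subtype.val hh
    rw [hcr] at h6
    exact h2 (congrArg Prod.fst h6)
  · apply Subtype.ext
    rw [Subgroup.coe_pow, hcr, Prod.pow_mk, h3, one_pow]
    rfl
  · intro g
    apply Subtype.ext
    rw [Subgroup.coe_mul, Subgroup.coe_mul, hcr]
    refine Prod.ext ?_ ?_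
    · exact (h4 _).eq
    · simp
  · intro g
    obtain ⟨w, rfl⟩ := P.rangeRestrict_surjective g
    apply Subtype.ext
    rw [Subgroup.coe_pow, Subgroup.coe_pow, hcr]
    show (P w) ^ 5 = _
    rw [hpow, Prod.pow_mk, one_pow]
    rfl

end Pool.Agent.Lib.H80F
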