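import Pool.Agent.Lib.H80F.A7f
import Pool.Agent.Lib.H80F.A8k
import Pool.Agent.Lib.H80F.A9a
import Pool.Agent.Lib.H51Loop.Final

/-!
# H80F, A9: the prime five
-/

namespace Pool.Agent.Lib.H80F

open Subgroup Pool.Agent.Lib.H80U
open scoped commutatorElement


/-- The Hughes subgroup of a finite `5`-group not of exponent `5` has index at most `25`:
`powFun_of_hughes` (`k = 2`), `powFun_block`, `exists_rz`, `RM_of_Rz`, `noRM`. -/
theorem hughes_five : HughesBound 5 2 := by
  intro G _ _ hG hg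
  by_contra hc
  push Not at hc
  have h5 : Fact (Nat.Prime 5) := ⟨by norm_num⟩
  obtain ⟨m, hm1, hm2⟩ := powFun_of_hughes (k := 2) hG hg hc
  have h3 := powFun_block (k := 2) hm1 hm2
  obtain ⟨G', iG, iF, b, e, c, hG', hR⟩ := exists_rz h3
  obtain ⟨R, iR, iA, θ, ν, hRM, hν⟩ := RM_of_Rz hG' hR
  exact hν (noRM hRM)

/-- `main` for `p = 5`, `k = 2`, `N = 5 ^ 9`, `hughes_five`, `Pool.H51Loop.pow_le_of_bound`,
`Pool.CharExpP.bound_mono`. -/
theorem bound_five (N : ℕ) : Pool.CharExpP.Bound 5 N ↔ 5 ^ 9 ≤ N := by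
  constructor
  · intro h
    exact Pool.H51Loop.pow_le_of_bound (by norm_num) le_rfl h
  · intro h
    refine Pool.CharExpP.bound_mono h ?_
    exact (main (p := 5) (by norm_num) 2 (5 ^ 9) (by norm_num) (by norm_num)).mpr hughes_five

end Pool.Agent.Lib.H80F
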