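import Mathlib

/-!
# H80F, B1: packed vectors

A vector with small natural entries is stored as a natural number, with digits in base `65536`.
-/

namespace Pool.Agent.Lib.H80F

/-- Evaluation of a packed vector at a list of values. -/
def ev {A : Type} [AddCommGroup A] : List A → ℕ → A
  | [], _ => 0
  | v :: vs, t => (t % 65536) • v + ev vs (t / 65536)

/-- `t` has at most `n` digits, all at most `c`. -/
def Bn (c : ℕ) : ℕ → ℕ → Prop
  | 0, t => t = 0
  | n + 1, t => t % 65536 ≤ c ∧ Bn c n (t / 65536)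

/-- `1 + B + ... + B ^ (n - 1)`, `B = 65536`. -/
noncomputable def rep (n : ℕ) : ℕ :=
  Nat.rec (motive := fun _ => ℕ) 0 (fun _ r => Nat.add (Nat.mul r 65536) 1) n

/-- The test that all digits are divisible by `5` (`m = 8191 * rep n`). -/
noncomputable def zc (m t : ℕ) : Bool :=
  Bool.rec (motive := fun _ => Bool) false (Nat.beq (Nat.land (Nat.div t 5) m) (Nat.div t 5))
    (Nat.beq (Nat.mod t 5) 0)

/-- Replace every digit `16 h + l` by `h + l` (`m1 = 15 * rep n`, `m2 = 4095 * rep n`). -/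
noncomputable def fl (m1 m2 x : ℕ) : ℕ :=
  Nat.add (Nat.land x m1) (Nat.land (Nat.shiftRight x 4) m2)

/-- Four times `fl`. -/
noncomputable def nm (m1 m2 x : ℕ) : ℕ := fl m1 m2 (fl m1 m2 (fl m1 m2 (fl m1 m2 x)))

/-- `acc + ∑ tᵢ rᵢ`, with the digits of `t` in base `65536`. -/
noncomputable def cmb (rows : List ℕ) : ℕ → ℕ → ℕ :=
  List.rec (motive := fun _ => ℕ → ℕ → ℕ) (fun _ acc => acc)
    (fun r _ ih t acc => ih (Nat.div t 65536) (Nat.add acc (Nat.mul (Nat.mod t 65536) r))) rows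

/-- `acc + ∑ tᵢ rᵢ`, with the digits of `t` in base `8`. -/
noncomputable def cm8 (rows : List ℕ) : ℕ → ℕ → ℕ :=
  List.rec (motive := fun _ => ℕ → ℕ → ℕ) (fun _ acc => acc)
    (fun r _ ih t acc => ih (Nat.div t 8) (Nat.add acc (Nat.mul (Nat.mod t 8) r))) rows

end Pool.Agent.Lib.H80F
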