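import Pool.Agent.Lib.H80F.B1

/-!
# H80F, B1a: digits
-/

namespace Pool.Agent.Lib.H80F

variable {A : Type} [AddCommGroup A]

theorem rep_zero : rep 0 = 0 := rfl

theorem rep_succ (n : ℕ) : rep (n + 1) = rep n * 65536 + 1 := rfl

theorem b1a_cons (v : A) (vs : List A) (t : ℕ) : ev (v :: vs) t = (t % 65536) • v + ev vs (t / 65536) := rfl

theorem b1a_succ (c n t : ℕ) : Bn c (n + 1) t = (t % 65536 ≤ c ∧ Bn c n (t / 65536)) := rfl

theorem b1a_nil (t : ℕ) : ev ([] : List A) t = 0 := rfl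

theorem b1a_bz (c t : ℕ) : Bn c 0 t = (t = 0) := rfl

theorem ev_zero (vs : List A) : ev vs 0 = 0 := by
  induction vs with
  | nil => rfl
  | cons v vs ih => rw [b1a_cons, Nat.zero_mod, Nat.zero_div, zero_smul, ih, add_zero]

theorem ev_one (v : A) (vs : List A) : ev (v :: vs) 1 = v := by
  rw [b1a_cons, show 1 % 65536 = 1 from rfl, show 1 / 65536 = 0 from rfl, ev_zero, one_smul, add_zero]

theorem ev_map {A' : Type} [AddCommGroup A'] (f : A →+ A') (vs : List A) (t : ℕ) :
    f (ev vs t) = ev (vs.map f) t := by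
  induction vs generalizing t with
  | nil => exact map_zero f
  | cons v vs ih => rw [List.map_cons, b1a_cons, b1a_cons, map_add, map_nsmul, ih]

theorem Bn_zero (c n : ℕ) : Bn c n 0 := by
  induction n with
  | zero => rfl
  | succ n ih =>
    rw [b1a_succ, Nat.zero_mod, Nat.zero_div]
    exact ⟨Nat.zero_le _, ih⟩

theorem Bn_mono {c c' n t : ℕ} (h : c ≤ c') (ht : Bn c n t) : Bn c' n t := by
  induction n generalizing t with
  | zero => exact ht
  | succ n ih =>
    rw [b1a_succ] at ht ⊢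
    exact ⟨ht.1.trans h, ih ht.2⟩

theorem Bn_len {c n m t : ℕ} (h : n ≤ m) (ht : Bn c n t) : Bn c m t := by
  induction n generalizing m t with
  | zero =>
    rw [b1a_bz] at ht
    rw [ht]
    exact Bn_zero c m
  | succ n ih =>
    obtain ⟨m, rfl⟩ : ∃ k, m = k + 1 := ⟨m - 1, by omega⟩
    rw [b1a_succ] at ht ⊢
    exact ⟨ht.1, ih (by omega) ht.2⟩

/-- No carries. -/
theorem Bn_add {c c' n t s : ℕ} (h : c + c' < 65536) (ht : Bn c n t) (hs : Bn c' n s) :
    Bn (c + c') n (t + s) := by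
  induction n generalizing t s with
  | zero =>
    rw [b1a_bz] at ht hs ⊢
    rw [ht, hs]
  | succ n ih =>
    rw [b1a_succ] at ht hs ⊢
    have h1 := ht.1
    have h2 := hs.1
    have e1 : (t + s) % 65536 = t % 65536 + s % 65536 := by omega
    have e2 : (t + s) / 65536 = t / 65536 + s / 65536 := by omega
    rw [e1, e2]
    exact ⟨add_le_add h1 h2, ih ht.2 hs.2⟩

theorem ev_add {c c' n t s : ℕ} (h : c + c' < 65536) (ht : Bn c n t) (hs : Bn c' n s)
    (vs : List A) : ev vs (t + s) = ev vs t + ev vs s := by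
  induction vs generalizing n t s with
  | nil => rw [b1a_nil, b1a_nil, b1a_nil, add_zero]
  | cons v vs ih =>
    obtain ⟨h1, h2, h3, h4⟩ : t % 65536 ≤ c ∧ s % 65536 ≤ c' ∧ Bn c (n - 1) (t / 65536) ∧
        Bn c' (n - 1) (s / 65536) := by
      cases n with
      | zero =>
        rw [b1a_bz] at ht hs
        rw [ht, hs, Nat.zero_mod, Nat.zero_div]
        exact ⟨Nat.zero_le _, Nat.zero_le _, Bn_zero _ _, Bn_zero _ _⟩
      | succ n =>
        rw [b1a_succ] at ht hs
        exact ⟨ht.1, hs.1, ht.2, hs.2⟩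
    have e1 : (t + s) % 65536 = t % 65536 + s % 65536 := by omega
    have e2 : (t + s) / 65536 = t / 65536 + s / 65536 := by omega
    rw [b1a_cons, b1a_cons, b1a_cons, e1, e2, add_smul, ih h3 h4]
    abel

theorem b1a_mul {c k t : ℕ} (h : k * c < 65536) (ht : t % 65536 ≤ c) :
    (k * t) % 65536 = k * (t % 65536) ∧ (k * t) / 65536 = k * (t / 65536) := by
  have h1 : k * (t % 65536) < 65536 := lt_of_le_of_lt (Nat.mul_le_mul_left k ht) h
  have h2 : k * t = k * (t % 65536) + 65536 * (k * (t / 65536)) := by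
    conv_lhs => rw [← Nat.mod_add_div t 65536]
    ring
  rw [h2, Nat.add_mul_mod_self_left, Nat.mod_eq_of_lt h1, Nat.add_mul_div_left _ _ (by norm_num),
    Nat.div_eq_of_lt h1, zero_add]
  exact ⟨rfl, rfl⟩

theorem Bn_mul {c k n t : ℕ} (h : k * c < 65536) (ht : Bn c n t) : Bn (k * c) n (k * t) := by
  induction n generalizing t with
  | zero =>
    rw [b1a_bz] at ht ⊢
    rw [ht, mul_zero]
  | succ n ih =>
    rw [b1a_succ] at ht ⊢
    obtain ⟨e1, e2⟩ := b1a_mul h ht.1
    rw [e1, e2]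
    exact ⟨Nat.mul_le_mul_left k ht.1, ih ht.2⟩

theorem ev_mul {c k n t : ℕ} (h : k * c < 65536) (ht : Bn c n t) (vs : List A) :
    ev vs (k * t) = k • ev vs t := by
  induction vs generalizing n t with
  | nil => rw [b1a_nil, b1a_nil, smul_zero]
  | cons v vs ih =>
    obtain ⟨h1, h3⟩ : t % 65536 ≤ c ∧ Bn c (n - 1) (t / 65536) := by
      cases n with
      | zero =>
        rw [b1a_bz] at ht
        rw [ht, Nat.zero_mod, Nat.zero_div]
        exact ⟨Nat.zero_le _, Bn_zero _ _⟩
      | succ n =>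
        rw [b1a_succ] at ht
        exact ⟨ht.1, ht.2⟩
    obtain ⟨e1, e2⟩ := b1a_mul h h1
    rw [b1a_cons, b1a_cons, e1, e2, mul_smul, ih h3, smul_add]

theorem ev_append {c t : ℕ} (vs ws : List A) (ht : Bn c vs.length t) :
    ev (vs ++ ws) t = ev vs t := by
  induction vs generalizing t with
  | nil =>
    rw [List.length_nil, b1a_bz] at ht
    rw [ht, ev_zero, ev_zero]
  | cons v vs ih =>
    rw [List.length_cons, b1a_succ] at ht
    rw [List.cons_append, b1a_cons, b1a_cons, ih ht.2]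

theorem b1a_shift (t m : ℕ) : Nat.shiftLeft t (16 * m) = t * 65536 ^ m := by
  have h1 : Nat.shiftLeft t (16 * m) = t * 2 ^ (16 * m) := Nat.shiftLeft_eq t (16 * m)
  rw [h1, pow_mul]
  norm_num

theorem b1a_shift_succ (t m : ℕ) : (t * 65536 ^ (m + 1)) % 65536 = 0 ∧
    (t * 65536 ^ (m + 1)) / 65536 = t * 65536 ^ m := by
  have h1 : t * 65536 ^ (m + 1) = t * 65536 ^ m * 65536 := by ring
  rw [h1]
  exact ⟨Nat.mul_mod_left _ _, Nat.mul_div_cancel _ (by norm_num)⟩

theorem ev_shift (us vs : List A) (t : ℕ) :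
    ev (us ++ vs) (Nat.shiftLeft t (16 * us.length)) = ev vs t := by
  rw [b1a_shift]
  induction us with
  | nil => rw [List.nil_append, List.length_nil, pow_zero, mul_one]
  | cons u us ih =>
    obtain ⟨e1, e2⟩ := b1a_shift_succ t us.length
    rw [List.cons_append, List.length_cons, b1a_cons, e1, e2, ih, zero_smul, zero_add]

theorem Bn_shift {c n t : ℕ} (m : ℕ) (ht : Bn c n t) :
    Bn c (m + n) (Nat.shiftLeft t (16 * m)) := by
  rw [b1a_shift]
  induction m with
  | zero =>
    rw [zero_add, pow_zero, mul_one]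
    exact ht
  | succ m ih =>
    obtain ⟨e1, e2⟩ := b1a_shift_succ t m
    rw [add_right_comm, b1a_succ, e1, e2]
    exact ⟨Nat.zero_le _, ih⟩

end Pool.Agent.Lib.H80F
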