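import Pool.Agent.Lib.H80F.B1a

/-!
# H80F, B1b: masks
-/

namespace Pool.Agent.Lib.H80F

variable {A : Type} [AddCommGroup A]

/-- one digit of the mask -/
theorem b1b_mask {k n x : ℕ} (hk : k ≤ 16) :
    (Nat.land x ((2 ^ k - 1) * rep (n + 1))) % 65536 = (x % 65536) % 2 ^ k ∧
      (Nat.land x ((2 ^ k - 1) * rep (n + 1))) / 65536 = Nat.land (x / 65536) ((2 ^ k - 1) * rep n) := by
  have hpow : 2 ^ k ≤ 65536 := by
    calc 2 ^ k ≤ 2 ^ 16 := Nat.pow_le_pow_right (by norm_num) hk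
      _ = 65536 := by norm_num
  have hpos : 0 < 2 ^ k := by positivity
  have hlt : 2 ^ k - 1 < 65536 := by omega
  have e0 : (2 ^ k - 1) * rep (n + 1) = (2 ^ k - 1) + 65536 * ((2 ^ k - 1) * rep n) := by
    rw [rep_succ]
    ring
  have e1 : ((2 ^ k - 1) * rep (n + 1)) % 65536 = 2 ^ k - 1 := by
    rw [e0, Nat.add_mul_mod_self_left, Nat.mod_eq_of_lt hlt]
  have e2 : ((2 ^ k - 1) * rep (n + 1)) / 65536 = (2 ^ k - 1) * rep n := by
    rw [e0, Nat.add_mul_div_left _ _ (by norm_num), Nat.div_eq_of_lt hlt, zero_add]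
  have h16 : (65536 : ℕ) = 2 ^ 16 := by norm_num
  have h1 : (x &&& ((2 ^ k - 1) * rep (n + 1))) % 65536 = (x % 65536) % 2 ^ k := by
    rw [h16, Nat.and_mod_two_pow, ← h16, e1, Nat.and_two_pow_sub_one_eq_mod]
  have h2 : (x &&& ((2 ^ k - 1) * rep (n + 1))) / 65536 = (x / 65536) &&& ((2 ^ k - 1) * rep n) := by
    rw [h16, Nat.and_div_two_pow, ← h16, e2]
  exact ⟨h1, h2⟩

theorem b1b_mask0 {k x : ℕ} : Nat.land x ((2 ^ k - 1) * rep 0) = 0 := by
  rw [rep_zero, mul_zero]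
  exact Nat.and_zero x

/-- If `t` is unchanged by the mask with the low `k` bits of `n` digits. Induction on `n`; with
`q = rep n`, `rep (n + 1) = q * 65536 + 1`: `Nat.and_mod_two_pow`, `Nat.and_div_two_pow`,
`Nat.and_two_pow_sub_one_eq_mod`. -/
theorem land_Bn {k n t : ℕ} (hk : k ≤ 16) (h : Nat.land t ((2 ^ k - 1) * rep n) = t) :
    Bn (2 ^ k - 1) n t := by
  induction n generalizing t with
  | zero =>
    rw [b1b_mask0] at h
    exact h.symm
  | succ n ih =>
    obtain ⟨h1, h2⟩ := b1b_mask (k := k) (n := n) (x := t) hk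
    rw [h] at h1 h2
    rw [b1a_succ]
    refine ⟨?_, ih h2.symm⟩
    rw [h1]
    have h3 := Nat.mod_lt (t % 65536) (show 0 < 2 ^ k by positivity)
    omega

/-- `t = 5 s` with `Bn 8191 n s` (`land_Bn`, `k = 13`), so `ev vs t = 5 • ev vs s = 0`. -/
theorem zc_ev (h5 : ∀ a : A, (5 : ℕ) • a = 0) {n t : ℕ} (h : zc (8191 * rep n) t = true)
    (vs : List A) : ev vs t = 0 := by
  have h1 : Nat.beq (Nat.mod t 5) 0 = true ∧
      Nat.beq (Nat.land (Nat.div t 5) (8191 * rep n)) (Nat.div t 5) = true := by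
    unfold zc at h
    cases hb : Nat.beq (Nat.mod t 5) 0 with
    | false =>
      rw [hb] at h
      exact absurd h (by simp)
    | true =>
      rw [hb] at h
      exact ⟨rfl, h⟩
  obtain ⟨h2, h3⟩ := h1
  have h4 : t % 5 = 0 := Nat.eq_of_beq_eq_true h2
  have h6 : Nat.land (t / 5) ((2 ^ 13 - 1) * rep n) = t / 5 := Nat.eq_of_beq_eq_true h3
  have h7 := land_Bn (by norm_num) h6
  have h8 : t = 5 * (t / 5) := by omega
  rw [h8, ev_mul (c := 8191) (n := n) (by norm_num) h7, h5]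

theorem b1b_fl_succ (n x : ℕ) :
    (fl (15 * rep (n + 1)) (4095 * rep (n + 1)) x) % 65536 = (x % 65536) % 16 + (x % 65536) / 16 ∧
      (fl (15 * rep (n + 1)) (4095 * rep (n + 1)) x) / 65536 = fl (15 * rep n) (4095 * rep n) (x / 65536) := by
  obtain ⟨h1, h2⟩ := b1b_mask (k := 4) (n := n) (x := x) (by norm_num)
  obtain ⟨h3, h4⟩ := b1b_mask (k := 12) (n := n) (x := x / 16) (by norm_num)
  have hs : ∀ y : ℕ, Nat.shiftRight y 4 = y / 16 := by
    intro y
    exact Nat.shiftRight_eq_div_pow y 4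
  have hf : ∀ (m y : ℕ), fl (15 * rep m) (4095 * rep m) y =
      Nat.land y ((2 ^ 4 - 1) * rep m) + Nat.land (y / 16) ((2 ^ 12 - 1) * rep m) := by
    intro m y
    rw [← hs]
    rfl
  rw [hf, hf]
  have e1 : x / 65536 / 16 = x / 16 / 65536 := by omega
  rw [e1, ← h2, ← h4]
  have e2 : (2 : ℕ) ^ 4 = 16 := by norm_num
  have e3 : (2 : ℕ) ^ 12 = 4096 := by norm_num
  rw [e2] at h1
  rw [e3] at h3
  rw [e2, e3]
  have e5 : x / 16 % 65536 % 4096 = x % 65536 / 16 := by omega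
  rw [e5] at h3
  have e6 : x % 65536 % 16 + x % 65536 / 16 < 65536 := by omega
  generalize Nat.land x ((16 - 1) * rep (n + 1)) = P at *
  generalize Nat.land (x / 16) ((4096 - 1) * rep (n + 1)) = Q at *
  generalize x % 65536 % 16 = u at *
  generalize x % 65536 / 16 = v at *
  constructor <;> omega

theorem b1b_smul {A : Type} [AddCommGroup A] (h5 : ∀ a : A, (5 : ℕ) • a = 0) (d : ℕ) (v : A) :
    (d % 16 + d / 16) • v = d • v := by
  have h1 : d = (d % 16 + d / 16) + 5 * (3 * (d / 16)) := by omega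
  conv_rhs => rw [h1]
  rw [add_smul (d % 16 + d / 16), mul_smul, h5, add_zero]

/-- `16 = 1` modulo `5`. -/
theorem fl_spec {c n x : ℕ} (hc : c < 65536) (hx : Bn c n x) :
    Bn (15 + c / 16) n (fl (15 * rep n) (4095 * rep n) x) ∧
      ∀ {A : Type} [AddCommGroup A] (_ : ∀ a : A, (5 : ℕ) • a = 0) (vs : List A),
        ev vs (fl (15 * rep n) (4095 * rep n) x) = ev vs x := by
  induction n generalizing x with
  | zero =>
    rw [b1a_bz] at hx
    have h1 : fl (15 * rep 0) (4095 * rep 0) x = 0 := by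
      rw [hx, rep_zero]
      rfl
    rw [h1, hx]
    exact ⟨rfl, fun _ _ => rfl⟩
  | succ n ih =>
    rw [b1a_succ] at hx
    obtain ⟨h1, h2⟩ := b1b_fl_succ n x
    obtain ⟨h3, h4⟩ := ih hx.2
    constructor
    · rw [b1a_succ, h1, h2]
      refine ⟨?_, h3⟩
      have h6 := hx.1
      omega
    · intro A _ h5 vs
      cases vs with
      | nil => rfl
      | cons v vs =>
        rw [b1a_cons, b1a_cons, h1, h2, h4 h5, b1b_smul h5]

theorem nm_spec {c n x : ℕ} (hc : c < 65536) (hx : Bn c n x) :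
    Bn 16 n (nm (15 * rep n) (4095 * rep n) x) ∧
      ∀ {A : Type} [AddCommGroup A] (_ : ∀ a : A, (5 : ℕ) • a = 0) (vs : List A),
        ev vs (nm (15 * rep n) (4095 * rep n) x) = ev vs x := by
  have hx0 : Bn 65535 n x := Bn_mono (by omega) hx
  obtain ⟨h1, e1⟩ := fl_spec (by norm_num) hx0
  obtain ⟨h2, e2⟩ := fl_spec (by norm_num) h1
  obtain ⟨h3, e3⟩ := fl_spec (by norm_num) h2
  obtain ⟨h4, e4⟩ := fl_spec (by norm_num) h3
  unfold nm
  refine ⟨Bn_mono (by norm_num) h4, ?_⟩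
  intro A _ h5 vs
  rw [e4 h5, e3 h5, e2 h5, e1 h5]

end Pool.Agent.Lib.H80F
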