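import Pool.Agent.Lib.H80F.B1a

/-!
# H80F, B1c: linear combinations
-/

namespace Pool.Agent.Lib.H80F

variable {A : Type} [AddCommGroup A]

theorem cmb_nil (t acc : ℕ) : cmb [] t acc = acc := rfl

theorem cmb_cons (r : ℕ) (rows : List ℕ) (t acc : ℕ) :
    cmb (r :: rows) t acc = cmb rows (t / 65536) (acc + t % 65536 * r) := rfl

theorem cm8_nil (t acc : ℕ) : cm8 [] t acc = acc := rfl

theorem cm8_cons (r : ℕ) (rows : List ℕ) (t acc : ℕ) :
    cm8 (r :: rows) t acc = cm8 rows (t / 8) (acc + t % 8 * r) := rfl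

/-- Linear combinations. -/
theorem cmb_spec {c e a n : ℕ} (rows : List ℕ) (hr : ∀ r ∈ rows, Bn c n r) {t acc : ℕ}
    (ht : Bn e rows.length t) (hacc : Bn a n acc) (hb : a + e * c * rows.length < 65536) :
    Bn (a + e * c * rows.length) n (cmb rows t acc) ∧
      ∀ {A : Type} [AddCommGroup A] (vs : List A),
        ev vs (cmb rows t acc) = ev vs acc + ev (rows.map (ev vs)) t := by
  induction rows generalizing t acc a with
  | nil =>
    rw [cmb_nil, List.length_nil, mul_zero, add_zero]
    refine ⟨hacc, fun {A} _ vs => ?_⟩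
    rw [List.map_nil, b1a_nil, add_zero]
  | cons r rows ih =>
    rw [List.length_cons, b1a_succ] at ht
    rw [List.length_cons] at hb ⊢
    have hr0 := hr r List.mem_cons_self
    have hb1 : a + e * c * (rows.length + 1) = (a + e * c) + e * c * rows.length := by ring
    rw [hb1] at hb ⊢
    have hd : t % 65536 * c ≤ e * c := Nat.mul_le_mul_right c ht.1
    have hlt : t % 65536 * c < 65536 := by omega
    have h1 : Bn (e * c) n (t % 65536 * r) := Bn_mono hd (Bn_mul hlt hr0)
    have h2 : Bn (a + e * c) n (acc + t % 65536 * r) := Bn_add (by omega) hacc h1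
    obtain ⟨h3, h4⟩ := ih (fun x hx => hr x (List.mem_cons_of_mem r hx)) ht.2 h2 hb
    rw [cmb_cons]
    refine ⟨h3, fun {A} _ vs => ?_⟩
    rw [h4 vs, ev_add (by omega) hacc h1, ev_mul hlt hr0, List.map_cons, b1a_cons, add_assoc]

/-- Linear combinations of relations. -/
theorem cm8_spec {c a n : ℕ} (rows : List ℕ) (hr : ∀ r ∈ rows, Bn c n r) {t acc : ℕ}
    (hacc : Bn a n acc) (hb : a + 7 * c * rows.length < 65536) (vs : List A)
    (hz : ∀ r ∈ rows, ev vs r = 0) : ev vs (cm8 rows t acc) = ev vs acc := by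
  induction rows generalizing t acc a with
  | nil => rw [cm8_nil]
  | cons r rows ih =>
    rw [List.length_cons] at hb
    have hr0 := hr r List.mem_cons_self
    have hb1 : a + 7 * c * (rows.length + 1) = (a + 7 * c) + 7 * c * rows.length := by ring
    rw [hb1] at hb
    have hd : t % 8 * c ≤ 7 * c := Nat.mul_le_mul_right c (by omega)
    have hlt : t % 8 * c < 65536 := by omega
    have h1 : Bn (7 * c) n (t % 8 * r) := Bn_mono hd (Bn_mul hlt hr0)
    have h2 : Bn (a + 7 * c) n (acc + t % 8 * r) := Bn_add (by omega) hacc h1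
    rw [cm8_cons, ih (fun x hx => hr x (List.mem_cons_of_mem r hx)) h2 hb
      (fun x hx => hz x (List.mem_cons_of_mem r hx)), ev_add (by omega) hacc h1, ev_mul hlt hr0,
      hz r List.mem_cons_self, smul_zero, add_zero]

end Pool.Agent.Lib.H80F
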