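import Pool.Agent.Lib.H80F.B1

/-!
# H80F, B2: tables of two-sided multiplication and their check

A node has labels `0, ..., n - 1`; for the label `a` there is a predecessor, with a list `U a` of
values; the values of the pre-space are the products `x a * v`, `v ∈ U a`, in order; the values of
the node are selected among them by bit masks.
-/

namespace Pool.Agent.Lib.H80F

/-- The table of a node: the number of values, the bit masks of the blocks, the rows of left
multiplication (`x a * U a`) and right multiplication (`U a * x a`). -/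
structure Tab where
  d : ℕ
  bm : List ℕ
  L : List (List ℕ)
  R : List (List ℕ)

/-- The empty table. -/
def T0 : Tab := ⟨0, [], [], []⟩

/-- The `i`-th element. -/
noncomputable def nth {X : Type} (l : List X) (x₀ : X) : ℕ → X :=
  List.rec (motive := fun _ => ℕ → X) (fun _ => x₀)
    (fun x _ ih i => Nat.rec (motive := fun _ => X) x (fun j _ => ih j) i) l

/-- The length. -/
noncomputable def lenn {X : Type} (l : List X) : ℕ :=
  List.rec (motive := fun _ => ℕ) 0 (fun _ _ ih => Nat.add ih 1) l

/-- Selection by a bit mask. -/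
noncomputable def sel {X : Type} (l : List X) : ℕ → List X :=
  List.rec (motive := fun _ => ℕ → List X) (fun _ => [])
    (fun x _ ih m => Bool.rec (motive := fun _ => List X) (ih (Nat.div m 2))
      (x :: ih (Nat.div m 2)) (Nat.beq (Nat.mod m 2) 1)) l

/-- `t`, written with a tag `k`. (The tags keep the terms apart in the kernel's cache, whose hash
uses the last `64` bits of a literal only.) -/
noncomputable def tg (k t : ℕ) : ℕ := Nat.sub (Nat.add t k) k

/-- Selection by a bit mask, with a function and a tail; `k` is a running tag. -/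
noncomputable def selm (g : ℕ → ℕ → ℕ) (l : List ℕ) : ℕ → ℕ → List ℕ → List ℕ :=
  List.rec (motive := fun _ => ℕ → ℕ → List ℕ → List ℕ) (fun _ _ tl => tl)
    (fun x _ ih k m tl => Bool.rec (motive := fun _ => List ℕ) (ih (Nat.add k 1) (Nat.div m 2) tl)
      (g k x :: ih (Nat.add k 1) (Nat.div m 2) tl) (Nat.beq (Nat.mod m 2) 1)) l

/-- Head and tail. -/
noncomputable def hdx (l : List ℕ) : ℕ := List.rec (motive := fun _ => ℕ) 0 (fun x _ _ => x) l

noncomputable def tlx (l : List ℕ) : List ℕ :=
  List.rec (motive := fun _ => List ℕ) [] (fun _ t _ => t) l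

/-- Selection from two lists. -/
noncomputable def sel2 (g : ℕ → ℕ → ℕ → ℕ) (ls : List ℕ) :
    List ℕ → ℕ → ℕ → List ℕ → List ℕ :=
  List.rec (motive := fun _ => List ℕ → ℕ → ℕ → List ℕ → List ℕ) (fun _ _ _ tl => tl)
    (fun l _ ih rs k m tl => Bool.rec (motive := fun _ => List ℕ)
      (ih (tlx rs) (Nat.add k 1) (Nat.div m 2) tl)
      (g k l (hdx rs) :: ih (tlx rs) (Nat.add k 1) (Nat.div m 2) tl)
      (Nat.beq (Nat.mod m 2) 1)) ls

/-- Fold with an index. -/
noncomputable def fix {X Y : Type} (f : ℕ → X → Y → Y) (y : Y) (l : List X) : ℕ → Y :=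
  List.rec (motive := fun _ => ℕ → Y) (fun _ => y) (fun x _ ih i => f i x (ih (Nat.add i 1))) l

/-- Conjunction. -/
noncomputable def an (x y : Bool) : Bool := Bool.rec (motive := fun _ => Bool) false y x

/-- The offset of the block `a`. -/
noncomputable def offT (Ts : List Tab) : ℕ → ℕ :=
  List.rec (motive := fun _ => ℕ → ℕ) (fun _ => 0)
    (fun P _ ih a => Nat.rec (motive := fun _ => ℕ) 0 (fun j _ => Nat.add P.d (ih j)) a) Ts

/-- `[u, B u, ..., B ^ (n - 1) u]`. -/
noncomputable def unl (n : ℕ) : ℕ → List ℕ :=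
  Nat.rec (motive := fun _ => ℕ → List ℕ) (fun _ => [])
    (fun _ ih u => u :: ih (Nat.shiftLeft u 16)) n

/-- The unit vectors of the selected elements of the pre-space. -/
noncomputable def units (Ts : List Tab) (T : Tab) : List ℕ :=
  fix (fun a P tl => selm (fun _ r => r) (unl P.d (Nat.shiftLeft 1 (Nat.mul 16 (offT Ts a)))) 0
    (nth T.bm 0 a) tl) [] Ts 0

/-- The rows of `U b * x b` in the pre-space. -/
noncomputable def rrow (up dn : ℕ → ℕ → ℕ) (Ts : List Tab) (b : ℕ) : List ℕ :=
  fix (fun a m tl => selm (fun k r => Nat.shiftLeft (tg k r) (Nat.mul 16 (offT Ts (up b a))))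
    (nth (nth Ts T0 (up b a)).R [] (dn b a)) (Nat.add 1000000 (Nat.mul 1000 a)) m tl) []
    (nth Ts T0 b).bm 0

/-- The relations obtained by multiplying the relations of the predecessor `b` on the right. -/
noncomputable def t1 (up dn : ℕ → ℕ → ℕ) (Ts : List Tab) (m1 m2 b : ℕ) (f : List ℕ)
    (tl : List ℕ) : List ℕ :=
  fix (fun a _ tl => sel2 (fun k l r => nm m1 m2 (Nat.add
      (Nat.shiftLeft r (Nat.mul 16 (offT Ts (up b a))))
      (Nat.mul 4 (cmb (rrow up dn Ts b) (tg k l) 0))))
    (nth (nth Ts T0 b).L [] a) (nth (nth Ts T0 (up b a)).R [] (dn b a))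
    (Nat.add 2000000 (Nat.mul 1000 (Nat.add (Nat.mul b 10) a))) (nth f 0 a) tl) tl
    (nth Ts T0 b).bm 0

/-- All relations. -/
noncomputable def rels (up dn : ℕ → ℕ → ℕ) (Ts : List Tab) (m1 m2 : ℕ) (r2 : List ℕ)
    (f1 : List (List ℕ)) : List ℕ :=
  fix (fun b _ tl => t1 up dn Ts m1 m2 b (nth f1 [] b) tl) r2 Ts 0

/-- Linear combination of the relations. -/
noncomputable def cmz (rs : List ℕ) (k m acc : ℕ) : ℕ :=
  Bool.rec (motive := fun _ => ℕ) (cm8 rs (tg k m) acc) acc (Nat.beq m 0)

/-- The check of the rows of one block. -/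
noncomputable def lrow (rs us : List ℕ) (mk : ℕ) (ls : List ℕ) : List ℕ → ℕ → ℕ → Bool :=
  List.rec (motive := fun _ => List ℕ → ℕ → ℕ → Bool) (fun _ _ _ => true)
    (fun l _ ih ms k u => an (zc mk (cmz rs k (hdx ms) (cmb us (tg k l) u)))
      (ih (tlx ms) (Nat.add k 1) (Nat.shiftLeft u 16))) ls

/-- The check of left multiplication. -/
noncomputable def chkL (Ts : List Tab) (T : Tab) (rs us : List ℕ) (mk : ℕ)
    (M : List (List ℕ)) : Bool :=
  fix (fun a _ t => an (lrow rs us mk (nth T.L [] a) (nth M [] a)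
    (Nat.add 3000000 (Nat.mul 1000 a)) (Nat.shiftLeft 4 (Nat.mul 16 (offT Ts a)))) t) true Ts 0

/-- Comparison of two lists of vectors. -/
noncomputable def all2 (mk : ℕ) (es : List ℕ) : List ℕ → Bool :=
  List.rec (motive := fun _ => List ℕ → Bool)
    (fun rs => List.rec (motive := fun _ => Bool) true (fun _ _ _ => false) rs)
    (fun e _ ih rs => List.rec (motive := fun _ => Bool) false
      (fun r rs' _ => an (zc mk (Nat.add e (Nat.mul 4 r))) (ih rs')) rs) es

/-- The rows of `U b * x b` in terms of the values. -/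
noncomputable def erow (up dn : ℕ → ℕ → ℕ) (Ts : List Tab) (T : Tab) (b : ℕ) : List ℕ :=
  fix (fun a m tl => selm (fun k r => cmb (nth T.L [] (up b a)) (tg k r) 0)
    (nth (nth Ts T0 (up b a)).R [] (dn b a))
    (Nat.add 4000000 (Nat.mul 1000 (Nat.add (Nat.mul b 10) a))) m tl) [] (nth Ts T0 b).bm 0

/-- The check of right multiplication. -/
noncomputable def chkR (up dn : ℕ → ℕ → ℕ) (Ts : List Tab) (T : Tab) (mk : ℕ) : Bool :=
  fix (fun b _ t => an (all2 mk (erow up dn Ts T b) (nth T.R [] b)) t) true Ts 0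

/-- Small digits. -/
noncomputable def allb (m : ℕ) (rs : List ℕ) : Bool :=
  List.rec (motive := fun _ => Bool) true (fun r _ ih => an (Nat.beq (Nat.land r m) r) ih) rs

/-- The check of the sizes. -/
noncomputable def chkS (Ts : List Tab) (T : Tab) (rs us : List ℕ) (m7 : ℕ) : Bool :=
  an (Nat.beq (lenn T.bm) (lenn Ts)) (an (Nat.beq (lenn us) T.d) (an (Nat.ble T.d 300)
    (an (Nat.ble (lenn rs) 500)
    (fix (fun a P t => an (Nat.beq (lenn (nth T.L [] a)) P.d) (an (allb m7 (nth T.L [] a))
      (an (allb m7 (nth T.R [] a)) t))) true Ts 0))))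

/-- The check of a node. -/
noncomputable def chk (up dn : ℕ → ℕ → ℕ) (Ts : List Tab) (T : Tab) (r2 : List ℕ)
    (f1 M : List (List ℕ)) : Bool :=
  an (chkS Ts T (rels up dn Ts (15 * rep (offT Ts (lenn Ts))) (4095 * rep (offT Ts (lenn Ts))) r2 f1)
      (units Ts T) (7 * rep T.d))
    (an (chkL Ts T
      (rels up dn Ts (15 * rep (offT Ts (lenn Ts))) (4095 * rep (offT Ts (lenn Ts))) r2 f1)
      (units Ts T) (8191 * rep (offT Ts (lenn Ts))) M)
    (chkR up dn Ts T (8191 * rep T.d)))

end Pool.Agent.Lib.H80F
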