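import Pool.Agent.Lib.H80F.B1b
import Pool.Agent.Lib.H80F.B1c
import Pool.Agent.Lib.H80F.B2

/-!
# H80F, B3: the meaning of the tables (definitions)
-/

namespace Pool.Agent.Lib.H80F

variable {A : Type} [Ring A]

/-- The values of the pre-space. -/
def pv (n : ℕ) (x : ℕ → A) (U : ℕ → List A) : List A :=
  (List.range n).flatMap (fun a => (U a).map (fun v => x a * v))

/-- The values of the node. -/
noncomputable def nv (n : ℕ) (x : ℕ → A) (U : ℕ → List A) (bm : List ℕ) : List A :=
  (List.range n).flatMap (fun a => sel ((U a).map (fun v => x a * v)) (nth bm 0 a))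

/-- The table `T` of a node with the labels `0, ..., n - 1`, with the values `x a`, and the values
`U a` of the predecessors, is correct; `V` are the values of the node. -/
structure NodeOK (n : ℕ) (x : ℕ → A) (U : ℕ → List A) (T : Tab) (V : List A) : Prop where
  val : V = nv n x U T.bm
  bm : T.bm.length = n
  len : V.length = T.d
  d : T.d ≤ 300
  bL : ∀ a < n, ∀ r ∈ nth T.L [] a, Bn 7 T.d r
  bR : ∀ a < n, ∀ r ∈ nth T.R [] a, Bn 7 T.d r
  left : ∀ a < n, (U a).map (fun v => x a * v) = (nth T.L [] a).map (ev V)
  right : ∀ a < n, (U a).map (fun v => v * x a) = (nth T.R [] a).map (ev V)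

/-- The tables `Ts` of the predecessors are correct. `W b a` are the values of the predecessor `a` of
the predecessor `b`; the label `a` of the predecessor `b` is the label `up b a` of the node, and `b`
is the label `dn b a` of the predecessor `up b a`. -/
structure Pre (up dn : ℕ → ℕ → ℕ) (Ts : List Tab) (x : ℕ → A) (U : ℕ → List A)
    (W : ℕ → ℕ → List A) : Prop where
  node : ∀ b < Ts.length, NodeOK (nth Ts T0 b).bm.length (fun a => x (up b a)) (W b) (nth Ts T0 b)
    (U b)
  lab : ∀ b < Ts.length, ∀ a < (nth Ts T0 b).bm.length, up b a < Ts.length ∧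
    dn b a < (nth Ts T0 (up b a)).bm.length ∧ W b a = W (up b a) (dn b a) ∧
    up (up b a) (dn b a) = b

end Pool.Agent.Lib.H80F
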