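import Pool.Agent.Lib.H80F.B3

/-!
# H80F, B3a: lists
-/

namespace Pool.Agent.Lib.H80F

theorem nth_nil {X : Type} (x₀ : X) (i : ℕ) : nth [] x₀ i = x₀ := rfl

theorem nth_cons_zero {X : Type} (x x₀ : X) (l : List X) : nth (x :: l) x₀ 0 = x := rfl

theorem nth_cons_succ {X : Type} (x x₀ : X) (l : List X) (i : ℕ) :
    nth (x :: l) x₀ (i + 1) = nth l x₀ i := rfl

theorem nth_eq {X : Type} (l : List X) (x₀ : X) (i : ℕ) : nth l x₀ i = l.getD i x₀ := by
  induction l generalizing i with
  | nil => rfl
  | cons x l ih =>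
    cases i with
    | zero => rfl
    | succ i =>
      rw [nth_cons_succ, ih]
      rfl

theorem lenn_eq {X : Type} (l : List X) : lenn l = l.length := by
  induction l with
  | nil => rfl
  | cons x l ih =>
    show Nat.add (lenn l) 1 = _
    rw [ih]
    rfl

theorem sel_nil {X : Type} (m : ℕ) : sel ([] : List X) m = [] := rfl

theorem sel_cons {X : Type} (x : X) (l : List X) (m : ℕ) :
    sel (x :: l) m = if m % 2 = 1 then x :: sel l (m / 2) else sel l (m / 2) := by
  show Bool.rec (motive := fun _ => List X) (sel l (Nat.div m 2)) (x :: sel l (Nat.div m 2))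
    (Nat.beq (Nat.mod m 2) 1) = _
  have h2 : Nat.div m 2 = m / 2 := rfl
  cases hb : Nat.beq (Nat.mod m 2) 1 with
  | false =>
    have h1 : ¬ m % 2 = 1 := fun h => by
      have : Nat.beq (Nat.mod m 2) 1 = true := Nat.beq_eq.mpr h
      rw [this] at hb
      exact absurd hb (by decide)
    rw [if_neg h1]
    rfl
  | true =>
    have h1 : m % 2 = 1 := Nat.eq_of_beq_eq_true hb
    rw [if_pos h1]
    rfl

theorem sel_map {X Y : Type} (f : X → Y) (l : List X) (m : ℕ) :
    sel (l.map f) m = (sel l m).map f := by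
  induction l generalizing m with
  | nil => rfl
  | cons x l ih =>
    rw [List.map_cons, sel_cons, sel_cons]
    split_ifs
    · rw [List.map_cons, ih]
    · exact ih _

theorem mem_of_mem_sel {X : Type} {x : X} {l : List X} {m : ℕ} (h : x ∈ sel l m) : x ∈ l := by
  induction l generalizing m with
  | nil => exact h
  | cons y l ih =>
    rw [sel_cons] at h
    split_ifs at h
    · rcases List.mem_cons.1 h with h | h
      · rw [h]
        exact List.mem_cons_self
      · exact List.mem_cons_of_mem _ (ih h)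
    · exact List.mem_cons_of_mem _ (ih h)

theorem tg_eq (k t : ℕ) : tg k t = t := by
  exact Nat.add_sub_cancel t k

theorem selm_eq {g : ℕ → ℕ → ℕ} {h : ℕ → ℕ} (hg : ∀ k x, g k x = h x) (l : List ℕ) (k m : ℕ)
    (tl : List ℕ) : selm g l k m tl = (sel l m).map h ++ tl := by
  induction l generalizing k m with
  | nil => rfl
  | cons x l ih =>
    have h0 : selm g (x :: l) k m tl = Bool.rec (motive := fun _ => List ℕ)
        (selm g l (Nat.add k 1) (Nat.div m 2) tl)
        (g k x :: selm g l (Nat.add k 1) (Nat.div m 2) tl) (Nat.beq (Nat.mod m 2) 1) := rfl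
    rw [h0, sel_cons]
    cases hb : Nat.beq (Nat.mod m 2) 1 with
    | false =>
      have h1 : ¬ m % 2 = 1 := fun h => by
        have : Nat.beq (Nat.mod m 2) 1 = true := Nat.beq_eq.mpr h
        rw [this] at hb
        exact absurd hb (by decide)
      rw [if_neg h1]
      exact ih _ _
    | true =>
      have h1 : m % 2 = 1 := Nat.eq_of_beq_eq_true hb
      rw [if_pos h1]
      show g k x :: selm g l (Nat.add k 1) (Nat.div m 2) tl = _
      rw [ih, hg]
      rfl

/-- Every element of `sel2` (before the tail) is `g k l r` with `l`, `r` at the same place. -/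
theorem mem_sel2 {g : ℕ → ℕ → ℕ → ℕ} (ls rs : List ℕ) (k m : ℕ) (tl : List ℕ) {y : ℕ}
    (h : y ∈ sel2 g ls rs k m tl) :
    y ∈ tl ∨ ∃ (i k' : ℕ), i < ls.length ∧ y = g k' (nth ls 0 i) (nth rs 0 i) := by
  induction ls generalizing rs k m with
  | nil => exact Or.inl h
  | cons l ls ih =>
    have h0 : sel2 g (l :: ls) rs k m tl = Bool.rec (motive := fun _ => List ℕ)
        (sel2 g ls (tlx rs) (Nat.add k 1) (Nat.div m 2) tl)
        (g k l (hdx rs) :: sel2 g ls (tlx rs) (Nat.add k 1) (Nat.div m 2) tl)
        (Nat.beq (Nat.mod m 2) 1) := rfl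
    have h1 : ∀ i, nth (tlx rs) 0 i = nth rs 0 (i + 1) := by
      intro i
      cases rs with
      | nil => rfl
      | cons r rs => rfl
    have h2 : nth rs 0 0 = hdx rs := by
      cases rs with
      | nil => rfl
      | cons r rs => rfl
    have h3 : y ∈ sel2 g ls (tlx rs) (Nat.add k 1) (Nat.div m 2) tl →
        y ∈ tl ∨ ∃ (i k' : ℕ), i < (l :: ls).length ∧
          y = g k' (nth (l :: ls) 0 i) (nth rs 0 i) := by
      intro h4
      rcases ih _ _ _ h4 with h5 | ⟨i, k', hi, hy⟩
      · exact Or.inl h5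
      · refine Or.inr ⟨i + 1, k', ?_, ?_⟩
        · rw [List.length_cons]
          exact Nat.succ_lt_succ hi
        · rw [nth_cons_succ, ← h1]
          exact hy
    rw [h0] at h
    cases hb : Nat.beq (Nat.mod m 2) 1 with
    | false =>
      rw [hb] at h
      exact h3 h
    | true =>
      rw [hb] at h
      rcases List.mem_cons.1 h with h | h
      · refine Or.inr ⟨0, k, Nat.succ_pos _, ?_⟩
        rw [nth_cons_zero, h2]
        exact h
      · exact h3 h

end Pool.Agent.Lib.H80F
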