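import Pool.Agent.Lib.H80F.B3a1

/-!
# H80F, B3a: folds
-/

namespace Pool.Agent.Lib.H80F

theorem an_iff (x y : Bool) : an x y = true ↔ x = true ∧ y = true := by
  cases x <;> cases y <;> simp [an]

theorem fix_nil {X Y : Type} (f : ℕ → X → Y → Y) (y : Y) (i : ℕ) : fix f y [] i = y := rfl

theorem fix_cons {X Y : Type} (f : ℕ → X → Y → Y) (y : Y) (x : X) (l : List X) (i : ℕ) :
    fix f y (x :: l) i = f i x (fix f y l (i + 1)) := rfl

theorem fix_list {X Y : Type} {f : ℕ → X → List Y → List Y} {F : ℕ → X → List Y}
    (hf : ∀ i x tl, f i x tl = F i x ++ tl) (y : List Y) (l : List X) (x₀ : X) (i : ℕ) :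
    fix f y l i = (List.range l.length).flatMap (fun j => F (i + j) (nth l x₀ j)) ++ y := by
  induction l generalizing i with
  | nil => rfl
  | cons x l ih =>
    rw [fix_cons, hf, ih, List.length_cons, List.range_succ_eq_map, List.flatMap_cons,
      List.flatMap_map, nth_cons_zero, List.append_assoc]
    have h : (fun j => F (i + 1 + j) (nth l x₀ j)) =
        fun a => F (i + a.succ) (nth (x :: l) x₀ a.succ) := by
      funext j
      rw [Nat.succ_eq_add_one, nth_cons_succ]
      have : i + 1 + j = i + (j + 1) := by omega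
      rw [this]
    rw [h]
    rfl

theorem fix_and {X : Type} (p : ℕ → X → Bool) (l : List X) (x₀ : X) (i : ℕ) :
    fix (fun a P t => an (p a P) t) true l i = true ↔
      ∀ j < l.length, p (i + j) (nth l x₀ j) = true := by
  induction l generalizing i with
  | nil =>
    constructor
    · intro _ j hj
      exact absurd hj (Nat.not_lt_zero j)
    · intro _
      rfl
  | cons x l ih =>
    rw [fix_cons, an_iff, ih]
    constructor
    · rintro ⟨h1, h2⟩ j hj
      cases j with
      | zero => exact h1
      | succ j =>
        have h3 := h2 j (Nat.lt_of_succ_lt_succ hj)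
        have h4 : i + (j + 1) = i + 1 + j := by omega
        rw [h4]
        exact h3
    · intro h
      refine ⟨h 0 (Nat.succ_pos _), fun j hj => ?_⟩
      have h3 := h (j + 1) (Nat.succ_lt_succ hj)
      have h4 : i + (j + 1) = i + 1 + j := by omega
      rw [h4] at h3
      exact h3

/-- Membership version for lists of relations with a tail. -/
theorem mem_fix {X Y : Type} {f : ℕ → X → List Y → List Y} {P : ℕ → X → Y → Prop}
    (hf : ∀ i x tl y, y ∈ f i x tl → y ∈ tl ∨ P i x y) (tl : List Y) (l : List X) (x₀ : X) (i : ℕ)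
    {y : Y} (h : y ∈ fix f tl l i) : y ∈ tl ∨ ∃ j < l.length, P (i + j) (nth l x₀ j) y := by
  induction l generalizing i with
  | nil => exact Or.inl h
  | cons x l ih =>
    rw [fix_cons] at h
    rcases hf _ _ _ _ h with h | h
    · rcases ih _ h with h | ⟨j, hj, hP⟩
      · exact Or.inl h
      · refine Or.inr ⟨j + 1, Nat.succ_lt_succ hj, ?_⟩
        have h4 : i + (j + 1) = i + 1 + j := by omega
        rw [h4]
        exact hP
    · exact Or.inr ⟨0, Nat.succ_pos _, h⟩

theorem offT_zero (Ts : List Tab) : offT Ts 0 = 0 := by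
  cases Ts with
  | nil => rfl
  | cons P Ts => rfl

theorem offT_succ (Ts : List Tab) {a : ℕ} (ha : a < Ts.length) :
    offT Ts (a + 1) = offT Ts a + (nth Ts T0 a).d := by
  induction Ts generalizing a with
  | nil => exact absurd ha (Nat.not_lt_zero a)
  | cons P Ts ih =>
    cases a with
    | zero =>
      show P.d + offT Ts 0 = 0 + P.d
      rw [offT_zero, Nat.add_comm]
    | succ a =>
      show P.d + offT Ts (a + 1) = P.d + offT Ts a + (nth Ts T0 a).d
      rw [ih (Nat.lt_of_succ_lt_succ ha), Nat.add_assoc]

theorem offT_eq (Ts : List Tab) (a : ℕ) : offT Ts a = ((Ts.take a).map Tab.d).sum := by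
  induction Ts generalizing a with
  | nil =>
    rw [List.take_nil]
    rfl
  | cons P Ts ih =>
    cases a with
    | zero => rfl
    | succ a =>
      rw [List.take_succ_cons, List.map_cons, List.sum_cons, ← ih]
      rfl

end Pool.Agent.Lib.H80F
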