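import Pool.Agent.Lib.H80F.B3a2

/-!
# H80F, B3a: unit vectors, comparison
-/

namespace Pool.Agent.Lib.H80F

theorem b3a3_shift (m : ℕ) :
    Nat.shiftLeft (Nat.shiftLeft 1 (16 * m)) 16 = Nat.shiftLeft 1 (16 * (m + 1)) := by
  rw [b1a_shift 1 m, b1a_shift 1 (m + 1)]
  have h := b1a_shift (1 * 65536 ^ m) 1
  rw [mul_one] at h
  rw [h, pow_one, pow_succ]
  ring

theorem b3a3_unl (n u : ℕ) : unl (n + 1) u = u :: unl n (Nat.shiftLeft u 16) := rfl

theorem b3a3_unl0 (u : ℕ) : unl 0 u = [] := rfl

/-- `unl` are the unit vectors of a block. -/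
theorem unl_map {A : Type} [AddCommGroup A] (us vs : List A) (ws : List A) :
    (unl vs.length (Nat.shiftLeft 1 (16 * us.length))).map (ev (us ++ vs ++ ws)) = vs := by
  induction vs generalizing us with
  | nil => rw [List.length_nil, b3a3_unl0, List.map_nil]
  | cons v vs ih =>
    rw [List.length_cons, b3a3_unl, List.map_cons, b3a3_shift]
    have h1 : ev (us ++ v :: vs ++ ws) (Nat.shiftLeft 1 (16 * us.length)) = v := by
      rw [List.append_assoc, ev_shift, List.cons_append, ev_one]
    have h2 := ih (us ++ [v])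
    rw [List.length_append, List.length_singleton] at h2
    have h3 : us ++ [v] ++ vs ++ ws = us ++ v :: vs ++ ws := by
      rw [List.append_assoc us [v] vs, List.singleton_append]
    rw [h3] at h2
    rw [h1, h2]

theorem unl_Bn {n m N : ℕ} (h : m + n ≤ N) {u : ℕ}
    (hu : u ∈ unl n (Nat.shiftLeft 1 (16 * m))) : Bn 1 N u := by
  induction n generalizing m with
  | zero =>
    rw [b3a3_unl0] at hu
    exact absurd hu List.not_mem_nil
  | succ n ih =>
    rw [b3a3_unl, b3a3_shift] at hu
    rcases List.mem_cons.mp hu with h1 | h1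
    · rw [h1]
      have h2 : Bn 1 1 1 := by
        rw [b1a_succ, b1a_bz]
        exact ⟨by norm_num, by norm_num⟩
      exact Bn_len (by omega) (Bn_shift m h2)
    · exact ih (by omega) h1

theorem b3a3_allb (m r : ℕ) (rs : List ℕ) :
    allb m (r :: rs) = an (Nat.beq (Nat.land r m) r) (allb m rs) := rfl

theorem allb_iff (n : ℕ) (rs : List ℕ) (h : allb (7 * rep n) rs = true) : ∀ r ∈ rs, Bn 7 n r := by
  induction rs with
  | nil => intro r hr; exact absurd hr List.not_mem_nil
  | cons r rs ih =>
    rw [b3a3_allb] at h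
    obtain ⟨h1, h2⟩ := (an_iff _ _).mp h
    have h3 : Nat.land r (7 * rep n) = r := Nat.eq_of_beq_eq_true h1
    have h4 : Bn (2 ^ 3 - 1) n r := land_Bn (by norm_num) h3
    intro s hs
    rcases List.mem_cons.mp hs with h5 | h5
    · rw [h5]; exact h4
    · exact ih h2 s h5

theorem b3a3_all2 (mk e r : ℕ) (es rs : List ℕ) :
    all2 mk (e :: es) (r :: rs) = an (zc mk (e + 4 * r)) (all2 mk es rs) := rfl

/-- The comparison of two lists of vectors. -/
theorem all2_spec {A : Type} [AddCommGroup A] (h5 : ∀ a : A, (5 : ℕ) • a = 0) {n c : ℕ}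
    (hc : c + 28 < 65536) (es rs : List ℕ) (he : ∀ e ∈ es, Bn c n e) (hr : ∀ r ∈ rs, Bn 7 n r)
    (h : all2 (8191 * rep n) es rs = true) (vs : List A) : es.map (ev vs) = rs.map (ev vs) := by
  induction es generalizing rs with
  | nil =>
    cases rs with
    | nil => rfl
    | cons r rs => exact absurd h (by intro h'; exact Bool.noConfusion h')
  | cons e es ih =>
    cases rs with
    | nil => exact absurd h (by intro h'; exact Bool.noConfusion h')
    | cons r rs =>
      rw [b3a3_all2] at h
      obtain ⟨h1, h2⟩ := (an_iff _ _).mp h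
      have h3 := zc_ev h5 h1 vs
      have hr0 : Bn 7 n r := hr r List.mem_cons_self
      have h4 : Bn (4 * 7) n (4 * r) := Bn_mul (by norm_num) hr0
      have h6 := ev_add (c := c) (c' := 4 * 7) (by omega) (he e List.mem_cons_self) h4 vs
      have h7 := ev_mul (c := 7) (k := 4) (by norm_num) hr0 vs
      rw [h6, h7] at h3
      have h8 : ev vs e = ev vs r := by
        have h9 := h5 (ev vs r)
        have h10 : (5 : ℕ) • ev vs r = (4 : ℕ) • ev vs r + ev vs r := by
          rw [show (5 : ℕ) = 4 + 1 from rfl, add_smul, one_smul]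
        rw [h10] at h9
        have h11 : ev vs e + (4 : ℕ) • ev vs r = ev vs r + (4 : ℕ) • ev vs r := by
          rw [h3, add_comm, h9]
        exact add_right_cancel h11
      rw [List.map_cons, List.map_cons, h8]
      rw [ih rs (fun e' he' => he e' (List.mem_cons_of_mem _ he'))
        (fun r' hr' => hr r' (List.mem_cons_of_mem _ hr')) h2]

end Pool.Agent.Lib.H80F
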