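import Pool.Agent.Lib.H80F.B3a3

/-!
# H80F, B3b: the pre-space
-/

namespace Pool.Agent.Lib.H80F

variable {A : Type} [Ring A] {up dn : ℕ → ℕ → ℕ} {Ts : List Tab} {x : ℕ → A} {U : ℕ → List A}
  {W : ℕ → ℕ → List A}

theorem b3b1_pv_succ (x : ℕ → A) (U : ℕ → List A) (k : ℕ) :
    pv (k + 1) x U = pv k x U ++ (U k).map (fun v => x k * v) := by
  unfold pv
  rw [List.range_succ, List.flatMap_append, List.flatMap_singleton]

theorem b3b1_len (hl : ∀ b < Ts.length, (U b).length = (nth Ts T0 b).d) (x : ℕ → A) (k : ℕ)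
    (hk : k ≤ Ts.length) : (pv k x U).length = offT Ts k := by
  induction k with
  | zero => rw [offT_zero]; rfl
  | succ k ih =>
    rw [b3b1_pv_succ, List.length_append, List.length_map, ih (by omega), hl k (by omega),
      offT_succ Ts (by omega)]

theorem b3b1_split (x : ℕ → A) (U : ℕ → List A) (a m : ℕ) :
    ∃ ws : List A, pv (a + 1 + m) x U = pv a x U ++ (U a).map (fun v => x a * v) ++ ws := by
  induction m with
  | zero => exact ⟨[], by rw [Nat.add_zero, b3b1_pv_succ, List.append_nil]⟩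
  | succ m ih =>
    obtain ⟨ws, hws⟩ := ih
    refine ⟨ws ++ (U (a + 1 + m)).map (fun v => x (a + 1 + m) * v), ?_⟩
    rw [← Nat.add_assoc, b3b1_pv_succ, hws, List.append_assoc _ ws]

/-- The place of the block `a`. -/
theorem pv_split (hl : ∀ b < Ts.length, (U b).length = (nth Ts T0 b).d) {a : ℕ}
    (ha : a < Ts.length) :
    ∃ us ws : List A, pv Ts.length x U = us ++ (U a).map (fun v => x a * v) ++ ws ∧
      us.length = offT Ts a ∧ offT Ts a + (nth Ts T0 a).d + ws.length = offT Ts Ts.length := by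
  obtain ⟨m, hm⟩ := Nat.exists_eq_add_of_le (show a + 1 ≤ Ts.length from ha)
  obtain ⟨ws, hws⟩ := b3b1_split x U a m
  rw [← hm] at hws
  have h1 := b3b1_len hl x a (le_of_lt ha)
  have h2 := b3b1_len hl x Ts.length le_rfl
  refine ⟨pv a x U, ws, hws, h1, ?_⟩
  rw [← h2, hws, List.length_append, List.length_append, List.length_map, h1, hl a ha]

theorem pv_length (hl : ∀ b < Ts.length, (U b).length = (nth Ts T0 b).d) :
    (pv Ts.length x U).length = offT Ts Ts.length :=
  b3b1_len hl x Ts.length le_rfl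

/-- `ev_shift`, `ev_append`, and `x a * ev (U a) r = ev ((U a).map (x a * ·)) r` (`ev_map`). -/
theorem ev_block (hl : ∀ b < Ts.length, (U b).length = (nth Ts T0 b).d) {a c r : ℕ}
    (ha : a < Ts.length) (hr : Bn c (nth Ts T0 a).d r) :
    ev (pv Ts.length x U) (Nat.shiftLeft r (16 * offT Ts a)) = x a * ev (U a) r ∧
      Bn c (offT Ts Ts.length) (Nat.shiftLeft r (16 * offT Ts a)) := by
  obtain ⟨us, ws, h1, h2, h3⟩ := pv_split (x := x) hl ha
  constructor
  · have h4 : Bn c ((U a).map (fun v => x a * v)).length r := by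
      rw [List.length_map, hl a ha]
      exact hr
    rw [h1, ← h2, List.append_assoc, ev_shift, ev_append _ _ h4]
    exact (ev_map (AddMonoidHom.mulLeft (x a)) (U a) r).symm
  · exact Bn_len (by omega) (Bn_shift (offT Ts a) hr)

/-- `fix_list`, `selm_eq`, `sel_map`, `unl_map`. -/
theorem units_spec (hl : ∀ b < Ts.length, (U b).length = (nth Ts T0 b).d) (T : Tab) :
    (units Ts T).map (ev (pv Ts.length x U)) = nv Ts.length x U T.bm ∧
      ∀ u ∈ units Ts T, Bn 1 (offT Ts Ts.length) u := by
  have h0 : units Ts T = (List.range Ts.length).flatMap (fun j =>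
      sel (unl (nth Ts T0 j).d (Nat.shiftLeft 1 (16 * offT Ts j))) (nth T.bm 0 j)) := by
    have h1 := fix_list (f := fun a (P : Tab) tl => selm (fun _ r => r)
        (unl P.d (Nat.shiftLeft 1 (Nat.mul 16 (offT Ts a)))) 0 (nth T.bm 0 a) tl)
      (F := fun a (P : Tab) => sel (unl P.d (Nat.shiftLeft 1 (16 * offT Ts a))) (nth T.bm 0 a))
      (by
        intro i P tl
        have h2 := selm_eq (g := fun _ r => r) (h := fun r => r) (fun _ _ => rfl)
          (unl P.d (Nat.shiftLeft 1 (Nat.mul 16 (offT Ts i)))) 0 (nth T.bm 0 i) tl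
        rw [List.map_id'] at h2
        exact h2) [] Ts T0 0
    rw [List.append_nil] at h1
    have h3 : (fun j => sel (unl (nth Ts T0 j).d (Nat.shiftLeft 1 (16 * offT Ts (0 + j))))
        (nth T.bm 0 (0 + j))) = (fun j => sel (unl (nth Ts T0 j).d
          (Nat.shiftLeft 1 (16 * offT Ts j))) (nth T.bm 0 j)) := by
      funext j
      rw [Nat.zero_add]
    exact h1.trans (by rw [h3])
  constructor
  · rw [h0, List.map_flatMap]
    unfold nv
    refine List.flatMap_congr fun j hj => ?_
    have hj' : j < Ts.length := List.mem_range.mp hj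
    obtain ⟨us, ws, h1, h2, h3⟩ := pv_split (x := x) hl hj'
    rw [← sel_map]
    have h4 := unl_map us ((U j).map (fun v => x j * v)) ws
    rw [List.length_map, hl j hj', h2, ← h1] at h4
    rw [h4]
  · intro u hu
    rw [h0] at hu
    obtain ⟨j, hj, hu⟩ := List.mem_flatMap.mp hu
    have hj' : j < Ts.length := List.mem_range.mp hj
    obtain ⟨us, ws, h1, h2, h3⟩ := pv_split (x := x) hl hj'
    exact unl_Bn (m := offT Ts j) (n := (nth Ts T0 j).d) (by omega) (mem_of_mem_sel hu)

end Pool.Agent.Lib.H80F
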