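import Pool.Agent.Lib.H80F.B3b1

/-!
# H80F, B3b: right multiplication in the pre-space
-/

namespace Pool.Agent.Lib.H80F

variable {A : Type} [Ring A] {up dn : ℕ → ℕ → ℕ} {Ts : List Tab} {x : ℕ → A} {U : ℕ → List A}
  {W : ℕ → ℕ → List A}

theorem b3b2_rrow (up dn : ℕ → ℕ → ℕ) (Ts : List Tab) (b : ℕ) :
    rrow up dn Ts b = (List.range (nth Ts T0 b).bm.length).flatMap (fun a =>
      (sel (nth (nth Ts T0 (up b a)).R [] (dn b a)) (nth (nth Ts T0 b).bm 0 a)).map
        (fun r => Nat.shiftLeft r (16 * offT Ts (up b a)))) := by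
  have h1 := fix_list (f := fun a (m : ℕ) tl =>
      selm (fun k r => Nat.shiftLeft (tg k r) (Nat.mul 16 (offT Ts (up b a))))
        (nth (nth Ts T0 (up b a)).R [] (dn b a)) (Nat.add 1000000 (Nat.mul 1000 a)) m tl)
    (F := fun a (m : ℕ) => (sel (nth (nth Ts T0 (up b a)).R [] (dn b a)) m).map
        (fun r => Nat.shiftLeft r (16 * offT Ts (up b a))))
    (by
      intro i m tl
      exact selm_eq (fun k r => by rw [tg_eq]; rfl) _ _ _ _) [] (nth Ts T0 b).bm 0 0
  rw [List.append_nil] at h1
  have h3 : (fun a => (sel (nth (nth Ts T0 (up b (0 + a))).R [] (dn b (0 + a)))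
      (nth (nth Ts T0 b).bm 0 a)).map (fun r => Nat.shiftLeft r (16 * offT Ts (up b (0 + a))))) =
      (fun a => (sel (nth (nth Ts T0 (up b a)).R [] (dn b a)) (nth (nth Ts T0 b).bm 0 a)).map
        (fun r => Nat.shiftLeft r (16 * offT Ts (up b a)))) := by
    funext a
    rw [Nat.zero_add]
  exact h1.trans (by rw [h3])

theorem b3b2_hl (h : Pre up dn Ts x U W) : ∀ b < Ts.length, (U b).length = (nth Ts T0 b).d :=
  fun b hb => (h.node b hb).len

theorem b3b2_row (h : Pre up dn Ts x U W) {b a : ℕ} (hb : b < Ts.length)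
    (ha : a < (nth Ts T0 b).bm.length) :
    ∀ r ∈ nth (nth Ts T0 (up b a)).R [] (dn b a), Bn 7 (nth Ts T0 (up b a)).d r := by
  obtain ⟨h1, h2, _, _⟩ := h.lab b hb a ha
  exact (h.node (up b a) h1).bR (dn b a) h2

/-- By `NodeOK.val` the elements of `U b` are the selected `x (up b a) * w`, `w ∈ W b a`. For the
place `i` of `W b a = W a' b'` (`a' = up b a`, `b' = dn b a`), `w * x b` is, by `NodeOK.right` for the
predecessor `a'` and the label `b'` (`x (up a' b') = x b`), `ev (U a') r` with `r` the `i`-th row of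
`R b'` in the table of `a'`; and `x a' * ev (U a') r` is given by `ev_block`. -/
theorem rrow_spec (h : Pre up dn Ts x U W) {b : ℕ} (hb : b < Ts.length) :
    (rrow up dn Ts b).map (ev (pv Ts.length x U)) = (U b).map (fun v => v * x b) ∧
      ∀ r ∈ rrow up dn Ts b, Bn 7 (offT Ts Ts.length) r := by
  constructor
  · have h0 : (U b).map (fun v => v * x b) = (List.range (nth Ts T0 b).bm.length).flatMap
        (fun a => (sel ((W b a).map (fun v => x (up b a) * v)) (nth (nth Ts T0 b).bm 0 a)).map
          (fun v => v * x b)) := by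
      have h1 := (h.node b hb).val
      unfold nv at h1
      rw [h1, List.map_flatMap]
    rw [h0, b3b2_rrow, List.map_flatMap]
    refine List.flatMap_congr fun a ha => ?_
    have ha' : a < (nth Ts T0 b).bm.length := List.mem_range.mp ha
    obtain ⟨h1, h2, h3, h4⟩ := h.lab b hb a ha'
    have h5 := (h.node (up b a) h1).right (dn b a) h2
    have h6 := b3b2_row h hb ha'
    rw [List.map_map]
    have h7 : (sel (nth (nth Ts T0 (up b a)).R [] (dn b a)) (nth (nth Ts T0 b).bm 0 a)).map
        (ev (pv Ts.length x U) ∘ fun r => Nat.shiftLeft r (16 * offT Ts (up b a))) =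
        (sel (nth (nth Ts T0 (up b a)).R [] (dn b a)) (nth (nth Ts T0 b).bm 0 a)).map
        (fun r => x (up b a) * ev (U (up b a)) r) := by
      refine List.map_congr_left fun r hr => ?_
      exact (ev_block (x := x) (b3b2_hl h) h1 (h6 r (mem_of_mem_sel hr))).1
    rw [h7, ← sel_map, ← sel_map, List.map_map]
    have h8 : (nth (nth Ts T0 (up b a)).R [] (dn b a)).map
        (fun r => x (up b a) * ev (U (up b a)) r) =
        ((nth (nth Ts T0 (up b a)).R [] (dn b a)).map (ev (U (up b a)))).map
          (fun v => x (up b a) * v) := by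
      rw [List.map_map]
      rfl
    rw [h8, ← h5, List.map_map, ← h3, h4]
    have h9 : (W b a).map ((fun v => x (up b a) * v) ∘ fun v => v * x b) =
        (W b a).map ((fun v => v * x b) ∘ fun v => x (up b a) * v) := by
      refine List.map_congr_left fun w _ => ?_
      show x (up b a) * (w * x b) = x (up b a) * w * x b
      rw [mul_assoc]
    rw [h9]
  · intro r hr
    rw [b3b2_rrow] at hr
    obtain ⟨a, ha, hr⟩ := List.mem_flatMap.mp hr
    have ha' : a < (nth Ts T0 b).bm.length := List.mem_range.mp ha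
    obtain ⟨s, hs, hsr⟩ := List.mem_map.mp hr
    rw [← hsr]
    obtain ⟨h1, h2, h3, h4⟩ := h.lab b hb a ha'
    exact (ev_block (x := x) (b3b2_hl h) h1 (b3b2_row h hb ha' s (mem_of_mem_sel hs))).2

end Pool.Agent.Lib.H80F
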