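import Pool.Agent.Lib.H80F.B3b2

/-!
# H80F, B3b: one relation
-/

namespace Pool.Agent.Lib.H80F

variable {A : Type} [Ring A] {up dn : ℕ → ℕ → ℕ} {Ts : List Tab} {x : ℕ → A} {U : ℕ → List A}
  {W : ℕ → ℕ → List A}

theorem b3b3_idx {X Y Z : Type} {f : X → Z} {g : Y → Z} {l : List X} {m : List Y}
    (h : l.map f = m.map g) (x₀ : X) (y₀ : Y) {i : ℕ} (hi : i < m.length) :
    f (nth l x₀ i) = g (nth m y₀ i) := by
  have h1 : l.length = m.length := by
    have h2 := congrArg List.length h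
    rwa [List.length_map, List.length_map] at h2
  have hi' : i < l.length := by omega
  rw [nth_eq, nth_eq, List.getD_eq_getElem _ _ hi, List.getD_eq_getElem _ _ hi']
  have h3 : (l.map f)[i]? = (m.map g)[i]? := by rw [h]
  rw [List.getElem?_map, List.getElem?_map, List.getElem?_eq_getElem hi,
    List.getElem?_eq_getElem hi'] at h3
  exact Option.some.inj h3

theorem b3b3_mem {X : Type} (l : List X) (x₀ : X) {i : ℕ} (hi : i < l.length) :
    nth l x₀ i ∈ l := by
  rw [nth_eq, List.getD_eq_getElem _ _ hi]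
  exact List.getElem_mem hi

/-- One relation. With `w` the `i`-th element of `W b a`: `(x a' w) x b = ev (U b) l x b`, where `l`
is the `i`-th row of the block `a` of the table of `b`; the left hand side is
`x a' (w x b) = ev (pv ..) (shiftLeft r ..)` as in `rrow_spec`, the right hand side is
`ev ((U b).map (· * x b)) l = ev (pv ..) (cmb (rrow ..) l 0)` (`cmb_spec`, `rrow_spec`). So the sum
`y + 4 y = 5 y` is `0`. The bounds: `7 + 4 * (7 * 7 * 300) < 65536`; `nm_spec`. -/
theorem rel_spec (h5 : (5 : A) = 0) (h : Pre up dn Ts x U W) {b a i : ℕ} (hb : b < Ts.length)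
    (ha : a < (nth Ts T0 b).bm.length) (hi : i < (nth (nth Ts T0 b).L [] a).length) :
    ev (pv Ts.length x U) (nm (15 * rep (offT Ts Ts.length)) (4095 * rep (offT Ts Ts.length))
      (Nat.add (Nat.shiftLeft (nth (nth (nth Ts T0 (up b a)).R [] (dn b a)) 0 i)
        (Nat.mul 16 (offT Ts (up b a))))
        (Nat.mul 4 (cmb (rrow up dn Ts b) (nth (nth (nth Ts T0 b).L [] a) 0 i) 0)))) = 0 ∧
    Bn 16 (offT Ts Ts.length) (nm (15 * rep (offT Ts Ts.length)) (4095 * rep (offT Ts Ts.length))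
      (Nat.add (Nat.shiftLeft (nth (nth (nth Ts T0 (up b a)).R [] (dn b a)) 0 i)
        (Nat.mul 16 (offT Ts (up b a))))
        (Nat.mul 4 (cmb (rrow up dn Ts b) (nth (nth (nth Ts T0 b).L [] a) 0 i) 0)))) := by
  have h5' : ∀ y : A, (5 : ℕ) • y = 0 := by
    intro y
    rw [nsmul_eq_mul, Nat.cast_ofNat, h5, zero_mul]
  have hl : ∀ c < Ts.length, (U c).length = (nth Ts T0 c).d := fun c hc => (h.node c hc).len
  obtain ⟨h1, h2, h3, h4⟩ := h.lab b hb a ha
  have nb := h.node b hb
  have na := h.node (up b a) h1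
  have eL := nb.left a ha
  have eR := na.right (dn b a) h2
  rw [← h3] at eR
  have hlenL : (W b a).length = (nth (nth Ts T0 b).L [] a).length := by
    have h6 := congrArg List.length eL
    rwa [List.length_map, List.length_map] at h6
  have hlenR : (W b a).length = (nth (nth Ts T0 (up b a)).R [] (dn b a)).length := by
    have h6 := congrArg List.length eR
    rwa [List.length_map, List.length_map] at h6
  have hiR : i < (nth (nth Ts T0 (up b a)).R [] (dn b a)).length := by omega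
  have e1 := b3b3_idx eL (0 : A) 0 hi
  have e2 := b3b3_idx eR (0 : A) 0 hiR
  simp only [h4] at e2
  obtain ⟨l, hl'⟩ : ∃ l, l = nth (nth (nth Ts T0 b).L [] a) 0 i := ⟨_, rfl⟩
  obtain ⟨r, hr'⟩ : ∃ r, r = nth (nth (nth Ts T0 (up b a)).R [] (dn b a)) 0 i := ⟨_, rfl⟩
  have hlB : Bn 7 (nth Ts T0 b).d l := by
    rw [hl']
    exact nb.bL a ha _ (b3b3_mem _ _ hi)
  have hrB : Bn 7 (nth Ts T0 (up b a)).d r := by
    rw [hr']
    exact na.bR (dn b a) h2 _ (b3b3_mem _ _ hiR)
  rw [← hl'] at e1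
  rw [← hr'] at e2
  rw [← hl', ← hr']
  obtain ⟨f1, f2⟩ := ev_block (x := x) hl h1 hrB
  obtain ⟨g1, g2⟩ := rrow_spec h hb
  have glen : (rrow up dn Ts b).length = (nth Ts T0 b).d := by
    have h6 := congrArg List.length g1
    rw [List.length_map, List.length_map] at h6
    rw [h6, hl b hb]
  have hd := nb.d
  have hlB' : Bn 7 (rrow up dn Ts b).length l := by
    rw [glen]
    exact hlB
  obtain ⟨k1, k2⟩ := cmb_spec (c := 7) (e := 7) (a := 0) (n := offT Ts Ts.length)
    (rrow up dn Ts b) g2 (t := l) (acc := 0) hlB' (Bn_zero 0 _) (by rw [glen]; omega)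
  have k1' : Bn 14700 (offT Ts Ts.length) (cmb (rrow up dn Ts b) l 0) :=
    Bn_mono (by rw [glen]; omega) k1
  have k3 : ev (pv Ts.length x U) (cmb (rrow up dn Ts b) l 0) = x (up b a) * nth (W b a) 0 i * x b := by
    rw [k2, ev_zero, zero_add, g1]
    have h6 := ev_map (AddMonoidHom.mulRight (x b)) (U b) l
    have h7 : (U b).map (AddMonoidHom.mulRight (x b)) = (U b).map (fun v => v * x b) := rfl
    rw [h7] at h6
    rw [← h6, ← e1]
    rfl
  have k4 : Bn 58800 (offT Ts Ts.length) (4 * cmb (rrow up dn Ts b) l 0) :=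
    Bn_mul (k := 4) (by norm_num) k1'
  have k5 := ev_mul (k := 4) (by norm_num) k1' (pv Ts.length x U)
  have k6 := ev_add (by norm_num) f2 k4 (pv Ts.length x U)
  have k7 := Bn_add (by norm_num) f2 k4
  obtain ⟨m1, m2⟩ := nm_spec (by norm_num) k7
  have m3 := m2 h5' (pv Ts.length x U)
  refine ⟨?_, m1⟩
  refine Eq.trans m3 ?_
  rw [k6, k5, f1, k3, ← e2]
  have k8 : x (up b a) * (nth (W b a) 0 i * x b) = x (up b a) * nth (W b a) 0 i * x b :=
    (mul_assoc _ _ _).symm
  rw [k8]
  have k9 := h5' (x (up b a) * nth (W b a) 0 i * x b)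
  have k10 : (5 : ℕ) • (x (up b a) * nth (W b a) 0 i * x b) =
      x (up b a) * nth (W b a) 0 i * x b + 4 • (x (up b a) * nth (W b a) 0 i * x b) := by
    rw [show (5 : ℕ) = 4 + 1 from rfl, succ_nsmul, add_comm]
  rw [← k10, k9]

end Pool.Agent.Lib.H80F
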