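import Pool.Agent.Lib.H80F.B3b3

/-!
# H80F, B3b: the relations
-/

namespace Pool.Agent.Lib.H80F

variable {A : Type} [Ring A] {up dn : ℕ → ℕ → ℕ} {Ts : List Tab} {x : ℕ → A} {U : ℕ → List A}
  {W : ℕ → ℕ → List A}

/-- `mem_fix`, `mem_sel2`, `rel_spec`. -/
theorem rels_spec (h5 : (5 : A) = 0) (h : Pre up dn Ts x U W) {r2 : List ℕ}
    (h2 : ∀ r ∈ r2, Bn 16 (offT Ts Ts.length) r ∧ ev (pv Ts.length x U) r = 0)
    (f1 : List (List ℕ)) :
    ∀ r ∈ rels up dn Ts (15 * rep (offT Ts Ts.length)) (4095 * rep (offT Ts Ts.length)) r2 f1,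
      Bn 16 (offT Ts Ts.length) r ∧ ev (pv Ts.length x U) r = 0 := by
  have key : ∀ r, r ∈ rels up dn Ts (15 * rep (offT Ts Ts.length))
      (4095 * rep (offT Ts Ts.length)) r2 f1 → r ∈ r2 ∨ ∃ b < Ts.length,
        ∃ a < (nth Ts T0 b).bm.length, ∃ i < (nth (nth Ts T0 b).L [] a).length,
        r = nm (15 * rep (offT Ts Ts.length)) (4095 * rep (offT Ts Ts.length))
      (Nat.add (Nat.shiftLeft (nth (nth (nth Ts T0 (up b a)).R [] (dn b a)) 0 i)
        (Nat.mul 16 (offT Ts (up b a))))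
        (Nat.mul 4 (cmb (rrow up dn Ts b) (nth (nth (nth Ts T0 b).L [] a) 0 i) 0))) := by
    intro r hr
    unfold rels at hr
    have h1 := mem_fix (P := fun b _ r => ∃ a < (nth Ts T0 b).bm.length,
        ∃ i < (nth (nth Ts T0 b).L [] a).length,
        r = nm (15 * rep (offT Ts Ts.length)) (4095 * rep (offT Ts Ts.length))
      (Nat.add (Nat.shiftLeft (nth (nth (nth Ts T0 (up b a)).R [] (dn b a)) 0 i)
        (Nat.mul 16 (offT Ts (up b a))))
        (Nat.mul 4 (cmb (rrow up dn Ts b) (nth (nth (nth Ts T0 b).L [] a) 0 i) 0)))) ?_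
        r2 Ts T0 0 hr
    · rcases h1 with h1 | ⟨j, hj, h1⟩
      · exact Or.inl h1
      · rw [zero_add] at h1
        exact Or.inr ⟨j, hj, h1⟩
    · intro b T tl y hy
      unfold t1 at hy
      have h2 := mem_fix (P := fun a _ r =>
        ∃ i < (nth (nth Ts T0 b).L [] a).length,
        r = nm (15 * rep (offT Ts Ts.length)) (4095 * rep (offT Ts Ts.length))
      (Nat.add (Nat.shiftLeft (nth (nth (nth Ts T0 (up b a)).R [] (dn b a)) 0 i)
        (Nat.mul 16 (offT Ts (up b a))))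
        (Nat.mul 4 (cmb (rrow up dn Ts b) (nth (nth (nth Ts T0 b).L [] a) 0 i) 0)))) ?_
        tl (nth Ts T0 b).bm 0 0 hy
      · rcases h2 with h2 | ⟨j, hj, h2⟩
        · exact Or.inl h2
        · rw [zero_add] at h2
          exact Or.inr ⟨j, hj, h2⟩
      · intro a m tl' z hz
        rcases mem_sel2 _ _ _ _ _ hz with h3 | ⟨i, k', hi, h3⟩
        · exact Or.inl h3
        · refine Or.inr ⟨i, hi, ?_⟩
          rw [h3, tg_eq]
  intro r hr
  rcases key r hr with h3 | ⟨b, hb, a, ha, i, hi, rfl⟩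
  · exact h2 r h3
  · obtain ⟨h4, h6⟩ := rel_spec h5 h hb ha hi
    exact ⟨h6, h4⟩

end Pool.Agent.Lib.H80F
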