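import Pool.Agent.Lib.H80F.B3b1

/-!
# H80F, B3c: left multiplication
-/

namespace Pool.Agent.Lib.H80F

variable {A : Type} [Ring A] {up dn : ℕ → ℕ → ℕ} {Ts : List Tab} {x : ℕ → A} {U : ℕ → List A}
  {W : ℕ → ℕ → List A}

theorem b3c1_five (h5 : (5 : A) = 0) (a : A) : (5 : ℕ) • a = 0 := by
  rw [nsmul_eq_mul, Nat.cast_ofNat, h5, zero_mul]

theorem b3c1_lrow (rs us : List ℕ) (mk l : ℕ) (ls ms : List ℕ) (k u : ℕ) :
    lrow rs us mk (l :: ls) ms k u = an (zc mk (cmz rs k (hdx ms) (cmb us (tg k l) u)))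
      (lrow rs us mk ls (tlx ms) (k + 1) (Nat.shiftLeft u 16)) := rfl

theorem b3c1_cmz {rs : List ℕ} {n a : ℕ} (k m : ℕ) {acc : ℕ} (V : List A)
    (hr : ∀ r ∈ rs, Bn 16 n r ∧ ev V r = 0) (hacc : Bn a n acc)
    (hb : a + 7 * 16 * rs.length < 65536) : ev V (cmz rs k m acc) = ev V acc := by
  unfold cmz
  cases Nat.beq m 0 with
  | false => exact cm8_spec rs (fun r h => (hr r h).1) hacc hb V (fun r h => (hr r h).2)
  | true => rfl

theorem b3c1_shift (m : ℕ) :
    Nat.shiftLeft (Nat.shiftLeft 4 (16 * m)) 16 = Nat.shiftLeft 4 (16 * (m + 1)) := by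
  rw [b1a_shift 4 m, b1a_shift 4 (m + 1)]
  have h := b1a_shift (4 * 65536 ^ m) 1
  rw [mul_one] at h
  rw [h, pow_one, pow_succ]
  ring

theorem b3c1_ev4 (v : A) (vs : List A) : ev (v :: vs) 4 = (4 : ℕ) • v := by
  rw [b1a_cons, show 4 % 65536 = 4 from rfl, show 4 / 65536 = 0 from rfl, ev_zero, add_zero]

/-- The rows of one block. -/
theorem b3c1_rows (h5 : (5 : A) = 0) {rs us : List ℕ} {d n : ℕ} (hd : d ≤ 300)
    (hu : us.length = d) (hrs : rs.length ≤ 500) {V : List A}
    (hr : ∀ r ∈ rs, Bn 16 n r ∧ ev V r = 0) (hus : ∀ u ∈ us, Bn 1 n u)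
    (ls : List ℕ) : ∀ (vs pre post : List A) (ms : List ℕ) (k : ℕ), V = pre ++ (vs ++ post) →
    V.length = n → vs.length = ls.length → (∀ l ∈ ls, Bn 7 d l) →
    lrow rs us (8191 * rep n) ls ms k (Nat.shiftLeft 4 (16 * pre.length)) = true →
    vs = ls.map (ev (us.map (ev V))) := by
  induction ls with
  | nil =>
    intro vs pre post ms k hV hn hlen hl hc
    rw [List.length_nil] at hlen
    rw [List.length_eq_zero_iff.mp hlen, List.map_nil]
  | cons l ls ih =>
    intro vs pre post ms k hV hn hlen hl hc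
    cases vs with
    | nil => simp at hlen
    | cons v vs =>
      rw [b3c1_lrow, tg_eq, b3c1_shift, an_iff] at hc
      obtain ⟨hc1, hc2⟩ := hc
      have h1 := ih vs (pre ++ [v]) post (tlx ms) (k + 1)
        (by rw [hV]; simp) hn (by simpa using hlen)
        (fun r hr => hl r (List.mem_cons_of_mem _ hr))
        (by rw [List.length_append, List.length_singleton]; exact hc2)
      rw [List.map_cons, ← h1]
      have hl0 : Bn 7 us.length l := by rw [hu]; exact hl l List.mem_cons_self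
      have hacc : Bn 4 n (Nat.shiftLeft 4 (16 * pre.length)) := by
        have h2 : Bn 4 1 4 := by
          rw [b1a_succ, b1a_bz]
          exact ⟨by norm_num, by norm_num⟩
        have h3 := Bn_shift pre.length h2
        refine Bn_len ?_ h3
        rw [← hn, hV]
        simp
      obtain ⟨c1, c2⟩ := cmb_spec (c := 1) (e := 7) us hus hl0 hacc (by rw [hu]; omega)
      have h4 := zc_ev (b3c1_five h5) hc1 V
      rw [b3c1_cmz k (hdx ms) V hr c1 (by rw [hu]; omega), c2, hV, ev_shift, List.cons_append,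
        b3c1_ev4, ← List.cons_append, ← hV] at h4
      have h6 := b3c1_five h5 v
      have h7 : (5 : ℕ) • v = (4 : ℕ) • v + v := by
        rw [show (5 : ℕ) = 4 + 1 from rfl, add_smul, one_smul]
      rw [h7] at h6
      have h8 : (4 : ℕ) • v + v = (4 : ℕ) • v + ev (us.map (ev V)) l := by
        rw [h6, h4]
      rw [← add_left_cancel h8]

/-- Left multiplication. For the row `l` at the place `i` of the block `a`, and the `i`-th element `v`
of `U a`: `ev (pv ..) (cmz rs m (cmb us l (4 * B ^ (off + i)))) = 0` by `zc_ev`; by `cm8_spec`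
(`7 * 16 * 500 + ... < 65536`) it is `ev (pv ..) (4 B ^ (off + i)) + ev (nv ..) l =
4 (x a * v) + ev (nv ..) l` (`cmb_spec`, `units_spec`), so `ev (nv ..) l = x a * v`. -/
theorem chkL_spec (h5 : (5 : A) = 0) (hl : ∀ b < Ts.length, (U b).length = (nth Ts T0 b).d)
    (T : Tab) (hd : T.d ≤ 300) (hlen : ∀ a < Ts.length, (nth T.L [] a).length = (nth Ts T0 a).d)
    (hbL : ∀ a < Ts.length, ∀ r ∈ nth T.L [] a, Bn 7 T.d r)
    (hu : (units Ts T).length = T.d) {rs : List ℕ} (hrs : rs.length ≤ 500)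
    (hr : ∀ r ∈ rs, Bn 16 (offT Ts Ts.length) r ∧ ev (pv Ts.length x U) r = 0)
    (M : List (List ℕ))
    (hc : chkL Ts T rs (units Ts T) (8191 * rep (offT Ts Ts.length)) M = true) :
    ∀ a < Ts.length, (U a).map (fun v => x a * v) =
      (nth T.L [] a).map (ev (nv Ts.length x U T.bm)) := by
  intro a ha
  unfold chkL at hc
  have h1 := (fix_and (fun (a : ℕ) (_ : Tab) => lrow rs (units Ts T)
    (8191 * rep (offT Ts Ts.length)) (nth T.L [] a) (nth M [] a)
    (Nat.add 3000000 (Nat.mul 1000 a)) (Nat.shiftLeft 4 (Nat.mul 16 (offT Ts a)))) Ts T0 0).mp hc a ha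
  obtain ⟨us, ws, e1, e2, e3⟩ := pv_split (x := x) hl ha
  obtain ⟨u1, u2⟩ := units_spec (x := x) hl T
  rw [← u1]
  rw [zero_add] at h1
  refine b3c1_rows h5 hd hu hrs hr u2 (nth T.L [] a) _ us ws (nth M [] a)
    (Nat.add 3000000 (Nat.mul 1000 a)) ?_ (pv_length hl) ?_ (hbL a ha) ?_
  · rw [e1, List.append_assoc]
  · rw [List.length_map, hl a ha, hlen a ha]
  · rw [e2]
    exact h1

end Pool.Agent.Lib.H80F
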