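import Pool.Agent.Lib.H80F.B3b2

/-!
# H80F, B3c: right multiplication
-/

namespace Pool.Agent.Lib.H80F

variable {A : Type} [Ring A] {up dn : ℕ → ℕ → ℕ} {Ts : List Tab} {x : ℕ → A} {U : ℕ → List A}
  {W : ℕ → ℕ → List A}

theorem b3c2_five (h5 : (5 : A) = 0) (a : A) : (5 : ℕ) • a = 0 := by
  rw [nsmul_eq_mul, Nat.cast_ofNat, h5, zero_mul]

theorem b3c2_flatMap_map {X Y Z : Type} (f : Y → Z) (g : X → List Y) (l : List X) :
    (l.flatMap g).map f = l.flatMap (fun a => (g a).map f) := by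
  rw [List.map_flatMap]

/-- The rows of `erow`. -/
theorem b3c2_erow (up dn : ℕ → ℕ → ℕ) (Ts : List Tab) (T : Tab) (b : ℕ) :
    erow up dn Ts T b = (List.range (nth Ts T0 b).bm.length).flatMap (fun a =>
      (sel (nth (nth Ts T0 (up b a)).R [] (dn b a)) (nth (nth Ts T0 b).bm 0 a)).map
        (fun r => cmb (nth T.L [] (up b a)) r 0)) := by
  unfold erow
  rw [fix_list (F := fun a m => (sel (nth (nth Ts T0 (up b a)).R [] (dn b a)) m).map
        (fun r => cmb (nth T.L [] (up b a)) r 0)) (x₀ := 0), List.append_nil]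
  · simp only [zero_add]
  · intro a m tl
    exact selm_eq (fun k r => by rw [tg_eq]) _ _ _ _

/-- Right multiplication of the values of a predecessor. -/
theorem b3c2_right (h : Pre up dn Ts x U W) {b : ℕ} (hb : b < Ts.length) :
    (U b).map (fun v => v * x b) = (List.range (nth Ts T0 b).bm.length).flatMap (fun a =>
      (sel (nth (nth Ts T0 (up b a)).R [] (dn b a)) (nth (nth Ts T0 b).bm 0 a)).map
        (fun r => x (up b a) * ev (U (up b a)) r)) := by
  have hv := (h.node b hb).val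
  rw [hv]
  unfold nv
  rw [b3c2_flatMap_map]
  refine List.flatMap_congr ?_
  intro a ha
  rw [List.mem_range] at ha
  obtain ⟨l1, l2, l3, l4⟩ := h.lab b hb a ha
  have hr := (h.node (up b a) l1).right (dn b a) l2
  rw [l4, ← l3] at hr
  rw [← sel_map, List.map_map]
  have e1 : ((fun v => v * x b) ∘ fun v => x (up b a) * v) =
      ((fun v => x (up b a) * v) ∘ fun v => v * x b) := by
    funext v
    show x (up b a) * v * x b = x (up b a) * (v * x b)
    rw [mul_assoc]
  rw [e1, ← List.map_map, hr, List.map_map, sel_map]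
  rfl

/-- Right multiplication, given left multiplication: as in `rrow_spec`, with
`x a' * ev (U a') r = ev ((U a').map (x a' * ·)) r = ev (nv ..) (cmb (L a') r 0)`; `all2_spec` with
`c = 7 * 7 * 300`. -/
theorem chkR_spec (h5 : (5 : A) = 0) (h : Pre up dn Ts x U W) (T : Tab) (hd : T.d ≤ 300)
    (hlen : ∀ a < Ts.length, (nth T.L [] a).length = (nth Ts T0 a).d)
    (hbL : ∀ a < Ts.length, ∀ r ∈ nth T.L [] a, Bn 7 T.d r)
    (hbR : ∀ a < Ts.length, ∀ r ∈ nth T.R [] a, Bn 7 T.d r)
    (hL : ∀ a < Ts.length, (U a).map (fun v => x a * v) =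
      (nth T.L [] a).map (ev (nv Ts.length x U T.bm)))
    (hc : chkR up dn Ts T (8191 * rep T.d) = true) :
    ∀ a < Ts.length, (U a).map (fun v => v * x a) =
      (nth T.R [] a).map (ev (nv Ts.length x U T.bm)) := by
  intro b hb
  unfold chkR at hc
  have h1 := (fix_and (fun (b : ℕ) (_ : Tab) => all2 (8191 * rep T.d) (erow up dn Ts T b)
    (nth T.R [] b)) Ts T0 0).mp hc b hb
  rw [zero_add] at h1
  -- the entries
  have key : ∀ a < (nth Ts T0 b).bm.length,
      ∀ r ∈ sel (nth (nth Ts T0 (up b a)).R [] (dn b a)) (nth (nth Ts T0 b).bm 0 a),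
      Bn (7 * 7 * 300) T.d (cmb (nth T.L [] (up b a)) r 0) ∧
        ev (nv Ts.length x U T.bm) (cmb (nth T.L [] (up b a)) r 0) =
          x (up b a) * ev (U (up b a)) r := by
    intro a ha r hr
    obtain ⟨l1, l2, l3, l4⟩ := h.lab b hb a ha
    have hn := h.node (up b a) l1
    have hr7 := hn.bR (dn b a) l2 r (mem_of_mem_sel hr)
    have hd' := hn.d
    rw [← hlen _ l1] at hr7 hd'
    obtain ⟨c1, c2⟩ := cmb_spec (nth T.L [] (up b a)) (hbL _ l1) hr7 (Bn_zero 0 T.d)
      (by omega)
    refine ⟨Bn_mono (by omega) c1, ?_⟩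
    rw [c2, ev_zero, zero_add, ← hL _ l1]
    exact (ev_map (AddMonoidHom.mulLeft (x (up b a))) (U (up b a)) r).symm
  have h2 : ∀ e ∈ erow up dn Ts T b, Bn (7 * 7 * 300) T.d e := by
    intro e he
    rw [b3c2_erow, List.mem_flatMap] at he
    obtain ⟨a, ha, he⟩ := he
    rw [List.mem_range] at ha
    rw [List.mem_map] at he
    obtain ⟨r, hr, rfl⟩ := he
    exact (key a ha r hr).1
  have h3 := all2_spec (b3c2_five h5) (by norm_num) _ _ h2 (hbR b hb) h1 (nv Ts.length x U T.bm)
  rw [← h3, b3c2_right h hb, b3c2_erow, b3c2_flatMap_map]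
  refine List.flatMap_congr ?_
  intro a ha
  rw [List.mem_range] at ha
  rw [List.map_map]
  refine List.map_congr_left ?_
  intro r hr
  exact (key a ha r hr).2.symm

end Pool.Agent.Lib.H80F
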