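import Pool.Agent.Lib.H80F.B3b4
import Pool.Agent.Lib.H80F.B3c1
import Pool.Agent.Lib.H80F.B3c2

/-!
# H80F, B3c: a checked node is correct
-/

namespace Pool.Agent.Lib.H80F

variable {A : Type} [Ring A] {up dn : ℕ → ℕ → ℕ} {Ts : List Tab} {x : ℕ → A} {U : ℕ → List A}
  {W : ℕ → ℕ → List A}

/-- The conditions on the sizes. -/
theorem b3c3_sizes {T : Tab} {rs us : List ℕ} (hc : chkS Ts T rs us (7 * rep T.d) = true) :
    T.bm.length = Ts.length ∧ us.length = T.d ∧ T.d ≤ 300 ∧ rs.length ≤ 500 ∧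
      ∀ a < Ts.length, (nth T.L [] a).length = (nth Ts T0 a).d ∧
        (∀ r ∈ nth T.L [] a, Bn 7 T.d r) ∧ (∀ r ∈ nth T.R [] a, Bn 7 T.d r) := by
  unfold chkS at hc
  have e : (fun (a : ℕ) (P : Tab) (t : Bool) => an (Nat.beq (lenn (nth T.L [] a)) P.d)
      (an (allb (7 * rep T.d) (nth T.L [] a)) (an (allb (7 * rep T.d) (nth T.R [] a)) t))) =
      (fun (a : ℕ) (P : Tab) (t : Bool) => an ((fun (a : ℕ) (P : Tab) =>
        an (Nat.beq (lenn (nth T.L [] a)) P.d)
        (an (allb (7 * rep T.d) (nth T.L [] a)) (allb (7 * rep T.d) (nth T.R [] a)))) a P) t) := by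
    funext a P t
    show an _ (an _ (an _ t)) = an (an _ (an _ _)) t
    generalize Nat.beq (lenn (nth T.L [] a)) P.d = b1
    generalize allb (7 * rep T.d) (nth T.L [] a) = b2
    generalize allb (7 * rep T.d) (nth T.R [] a) = b3
    cases b1 <;> cases b2 <;> cases b3 <;> rfl
  rw [e, an_iff, an_iff, an_iff, an_iff, lenn_eq, lenn_eq, lenn_eq, lenn_eq] at hc
  obtain ⟨h1, h2, h3, h4, h5⟩ := hc
  refine ⟨Nat.eq_of_beq_eq_true h1, Nat.eq_of_beq_eq_true h2, Nat.le_of_ble_eq_true h3,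
    Nat.le_of_ble_eq_true h4, ?_⟩
  intro a ha
  have h6 := (fix_and _ Ts T0 0).mp h5 a ha
  rw [zero_add] at h6
  rw [an_iff, an_iff, lenn_eq] at h6
  exact ⟨Nat.eq_of_beq_eq_true h6.1, allb_iff _ _ h6.2.1, allb_iff _ _ h6.2.2⟩

/-- **A checked node is correct.** -/
theorem node_ok (h5 : (5 : A) = 0) (h : Pre up dn Ts x U W) {T : Tab} {r2 : List ℕ}
    {f1 M : List (List ℕ)}
    (h2 : ∀ r ∈ r2, Bn 16 (offT Ts Ts.length) r ∧ ev (pv Ts.length x U) r = 0)
    (hc : chk up dn Ts T r2 f1 M = true) :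
    NodeOK Ts.length x U T (nv Ts.length x U T.bm) := by
  unfold chk at hc
  rw [an_iff, an_iff, lenn_eq] at hc
  obtain ⟨c1, c2, c3⟩ := hc
  obtain ⟨s1, s2, s3, s4, s5⟩ := b3c3_sizes c1
  have hl : ∀ b < Ts.length, (U b).length = (nth Ts T0 b).d := fun b hb => (h.node b hb).len
  have hr := rels_spec h5 h h2 f1
  have hL := chkL_spec h5 hl T s3 (fun a ha => (s5 a ha).1) (fun a ha => (s5 a ha).2.1) s2 s4 hr M c2
  have hR := chkR_spec h5 h T s3 (fun a ha => (s5 a ha).1) (fun a ha => (s5 a ha).2.1)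
    (fun a ha => (s5 a ha).2.2) hL c3
  exact
    { val := rfl
      bm := s1
      len := by
        obtain ⟨u1, u2⟩ := units_spec (x := x) hl T
        rw [← u1, List.length_map, s2]
      d := s3
      bL := fun a ha => (s5 a ha).2.1
      bR := fun a ha => (s5 a ha).2.2
      left := hL
      right := hR }

end Pool.Agent.Lib.H80F
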