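import Mathlib

/-!
# H80F: definitions for the prime `5` of MP_a092f6_al
-/

namespace Pool.Agent.Lib.H80F

open Subgroup
open scoped commutatorElement

/-! ## Linear extension -/

/-- The linear extension of a function to the monoid algebra. -/
noncomputable def lext (p : ℕ) {G V : Type} [AddCommGroup V] [Module (ZMod p) V] (t : G → V) :
    MonoidAlgebra (ZMod p) G →ₗ[ZMod p] V :=
  (Finsupp.lift V (ZMod p) G t) ∘ₗ (MonoidAlgebra.coeffLinearEquiv (ZMod p)).toLinearMap

theorem lext_of {p : ℕ} {G V : Type} [Monoid G] [AddCommGroup V] [Module (ZMod p) V] (t : G → V)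
    (g : G) : lext p t (MonoidAlgebra.of (ZMod p) G g) = t g := by
  simp [lext, MonoidAlgebra.of]

/-- Two additive maps on the monoid algebra over `ZMod p` which agree on `G` are equal. -/
theorem hom_ext_of {p : ℕ} [NeZero p] {G V : Type} [Monoid G] [AddCommGroup V]
    {f g : MonoidAlgebra (ZMod p) G →+ V}
    (h : ∀ x : G, f (MonoidAlgebra.of (ZMod p) G x) = g (MonoidAlgebra.of (ZMod p) G x)) :
    f = g := by
  apply MonoidAlgebra.addMonoidHom_ext
  intro x r
  have e : MonoidAlgebra.single x r = r.val • MonoidAlgebra.of (ZMod p) G x := by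
    rw [MonoidAlgebra.of_apply, MonoidAlgebra.smul_single]
    simp
  rw [e, map_nsmul, map_nsmul, h]

/-! ## Filtrations of groups -/

/-- An `N`-series. -/
structure NSer {G : Type} [Group G] (F : ℕ → Subgroup G) : Prop where
  zero : F 0 = ⊤
  one : F 1 = ⊤
  anti : ∀ i, F (i + 1) ≤ F i
  comm : ∀ i j, ⁅F i, F j⁆ ≤ F (i + j)

/-- The filtration generated by the letters `b i` of weight `wt i` (all weights `≥ 1`). -/
def wf {G ι : Type} [Group G] (b : ι → G) (wt : ι → ℕ) (m : ℕ) : Subgroup G :=
  if h : m ≤ 1 then ⊤ else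
    ⨆ i : ι, if m ≤ wt i then normalClosure {b i} else
      ⁅wf b wt (m - (wt i - 1) - 1), normalClosure {b i}⁆
termination_by m
decreasing_by omega

/-! ## Filtrations of rings -/

/-- A filtration of a ring. -/
structure RFilt {R : Type} [Ring R] (J : ℕ → AddSubgroup R) : Prop where
  one : (1 : R) ∈ J 0
  anti : ∀ m, J (m + 1) ≤ J m
  mul : ∀ m n a b, a ∈ J m → b ∈ J n → a * b ∈ J (m + n)

/-- The span of the products of elements `θ g - 1` (`g` of weight `w`, that is `g ∈ F w`) of total
weight at least `m`. -/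
def J {G R : Type} [Group G] [Ring R] (θ : G →* R) (F : ℕ → Subgroup G) (m : ℕ) : AddSubgroup R :=
  AddSubgroup.closure {x | ∃ l : List (ℕ × G), (∀ q ∈ l, q.2 ∈ F q.1) ∧
    m ≤ (l.map Prod.fst).sum ∧ x = (l.map (fun q => θ q.2 - 1)).prod}

/-- Left normed ring commutators `[[u i, u j₁], ..., u jᵣ]`, for the list `jᵣ :: ... :: [j₁]`. -/
def lw {R ι : Type} [Ring R] (u : ι → R) (i : ι) : List ι → R
  | [] => u i
  | j :: l => lw u i l * u j - u j * lw u i l

/-! ## Functionals on words -/

/-- A functional on words which behaves like the product in an algebra with a set of elements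
closed under commutators, in which the symmetrised products of four elements vanish. -/
structure WF4 {α M : Type} [AddCommGroup M] (br : α → α → α) (E : List α → M) : Prop where
  br : ∀ u v a b, E (u ++ br a b :: v) = E (u ++ a :: b :: v) - E (u ++ b :: a :: v)
  s4 : ∀ u v (a : Fin 4 → α), ∑ σ : Equiv.Perm (Fin 4),
    E (u ++ a (σ 0) :: a (σ 1) :: a (σ 2) :: a (σ 3) :: v) = 0

/-- A set of elements closed under commutators in which the symmetrised products of four elements
vanish. -/
structure LieSet {A : Type} [Ring A] (L : Set A) : Prop where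
  br : ∀ a ∈ L, ∀ b ∈ L, a * b - b * a ∈ L
  s4 : ∀ a : Fin 4 → A, (∀ i, a i ∈ L) →
    ∑ σ : Equiv.Perm (Fin 4), a (σ 0) * a (σ 1) * a (σ 2) * a (σ 3) = 0

/-- The coefficients `1, -1, 1` for `i = 1, 2, 3`. -/
def cf (i : ℕ) : ℤ := if i = 2 then -1 else 1

/-- The word `x ^ i y ^ j z ^ k x ^ (4 - i) y ^ (4 - j) z ^ (4 - k)`. -/
def qword {α : Type} (x y z : α) (i j k : ℕ) : List α :=
  List.replicate i x ++ List.replicate j y ++ List.replicate k z ++
    List.replicate (4 - i) x ++ List.replicate (4 - j) y ++ List.replicate (4 - k) z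

/-! ## Realisations of the power function `e₀ e₁⁴ e₂⁴ e₃⁴` -/

/-- The function `e₀ e₁⁴ e₂⁴ e₃⁴`. -/
def f4 (v : Fin 4 → ZMod 5) : ZMod 5 := v 0 * v 1 ^ 4 * v 2 ^ 4 * v 3 ^ 4

/-- `G` is generated by `b 0, ..., b 3`, `c` is central of order `5`, and the fifth powers are given
by the function `f4` of the exponents modulo `5`. -/
structure Rz {G : Type} [Group G] (b : Fin 4 → G) (e : G →* Multiplicative (Fin 4 → ZMod 5))
    (c : G) : Prop where
  gen : closure (Set.range b) = ⊤
  he : ∀ i, e (b i) = Multiplicative.ofAdd (Pi.single i 1)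
  c1 : c ≠ 1
  c5 : c ^ 5 = 1
  cc : ∀ g, Commute c g
  pow : ∀ g, g ^ 5 = c ^ (f4 (Multiplicative.toAdd (e g))).val

/-- The weights: `1` for the first three letters, `Λ + 1` for the last one. -/
def w4 (Λ : ℕ) (i : Fin 4) : ℕ := if i = 3 then Λ + 1 else 1

/-- The exponent sum (modulo `5`) of the letter `i`. -/
def e3 (i : Fin 3) : FreeGroup (Fin 3) →* Multiplicative (ZMod 5) :=
  FreeGroup.lift (fun j => Multiplicative.ofAdd (if j = i then 1 else 0))

/-- The function `∏ eᵢ⁴` on the free group on three letters. -/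
def psi (g : FreeGroup (Fin 3)) : ZMod 5 := ∏ i, (Multiplicative.toAdd (e3 i g)) ^ 4

end Pool.Agent.Lib.H80F
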