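import Pool.Agent.Lib.H80F.B3
import Pool.Agent.Lib.H80F.Defs

/-!
# H80F, B4: words and symmetrised products of four Lie monomials (definitions)

A code is a natural number which describes a multidegree; multiplication on the left by the letter
`a` changes the code by `un a`.
-/

namespace Pool.Agent.Lib.H80F

/-- An environment: the table of a code, the units of the letters, the block of the letter `a` in the
node of code `c + un a`, and a test for the pairs `c`, `a` that may be used. -/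
structure Env where
  tb : ℕ → Tab
  un : ℕ → ℕ
  rk : ℕ → ℕ → ℕ
  ok : ℕ → ℕ → Bool

/-- A faster formula for `rep`. -/
noncomputable def rpf (n : ℕ) : ℕ := Nat.div (Nat.sub (Nat.pow 65536 n) 1) 65535

theorem rpf_eq (n : ℕ) : rpf n = rep n := by
  have h : ∀ n, 65535 * rep n + 1 = 65536 ^ n := by
    intro n
    induction n with
    | zero => rfl
    | succ n ih =>
      have e : rep (n + 1) = rep n * 65536 + 1 := rfl
      rw [e, pow_succ, ← ih]
      ring
  show (65536 ^ n - 1) / 65535 = rep n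
  rw [← h n]
  omega

/-- Reduction of the digits of a vector in the node of code `c`. -/
noncomputable def nmc (E : Env) (c t : ℕ) : ℕ :=
  nm (Nat.mul 15 (rpf (E.tb c).d)) (Nat.mul 4095 (rpf (E.tb c).d)) t

theorem nmc_eq (E : Env) (c t : ℕ) :
    nmc E c t = nm (15 * rep (E.tb c).d) (4095 * rep (E.tb c).d) t := by
  unfold nmc
  rw [rpf_eq]
  rfl

/-- Left multiplication by the letter `a`, from the code `c`. -/
noncomputable def lmv (E : Env) (c a t : ℕ) : ℕ :=
  nmc E (Nat.add c (E.un a)) (cmb (nth (E.tb (Nat.add c (E.un a))).L [] (E.rk c a)) t 0)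

/-- The sum of the units. -/
noncomputable def ul (E : Env) (l : List ℕ) : ℕ :=
  List.rec (motive := fun _ => ℕ) 0 (fun a _ ih => Nat.add (E.un a) ih) l

/-- The sum of the units of a Lie monomial `lw X h l`. -/
noncomputable def uq (E : Env) (q : ℕ × List ℕ) : ℕ := Nat.add (E.un q.1) (ul E q.2)

/-- Left multiplication by the Lie monomial `lw X h l`. -/
noncomputable def lv (E : Env) (h : ℕ) (l : List ℕ) : ℕ → ℕ → ℕ :=
  List.rec (motive := fun _ => ℕ → ℕ → ℕ) (fun c t => lmv E c h t)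
    (fun j l' ih c t => nmc E (Nat.add c (Nat.add (E.un h) (Nat.add (E.un j) (ul E l'))))
      (Nat.add (ih (Nat.add c (E.un j)) (lmv E c j t))
        (Nat.mul 4 (lmv E (Nat.add c (Nat.add (E.un h) (ul E l'))) j (ih c t))))) l

/-- The tests for `lv`. -/
noncomputable def lvok (E : Env) (h : ℕ) (l : List ℕ) : ℕ → Bool :=
  List.rec (motive := fun _ => ℕ → Bool) (fun c => E.ok c h)
    (fun j l' ih c => an (ih (Nat.add c (E.un j))) (an (E.ok c j)
      (an (E.ok (Nat.add c (Nat.add (E.un h) (ul E l'))) j) (ih c)))) l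

/-- Left multiplication by the Lie monomial `lw X h l`, with values in the pre-space of the node of
code `C`. -/
noncomputable def pvec (E : Env) (Ts : List Tab) (h : ℕ) (l : List ℕ) : ℕ → ℕ → ℕ :=
  List.rec (motive := fun _ => ℕ → ℕ → ℕ)
    (fun _ t => Nat.shiftLeft t (Nat.mul 16 (offT Ts h)))
    (fun j l' ih c t => Nat.add (ih (Nat.add c (E.un j)) (lmv E c j t))
      (Nat.mul 4 (Nat.shiftLeft (lv E h l' c t) (Nat.mul 16 (offT Ts j))))) l

/-- The tests for `pvec`: `tk c j` says that `c + un j = C` and `c` may be used. -/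
noncomputable def pvok (E : Env) (tk : ℕ → ℕ → Bool) (h : ℕ) (l : List ℕ) : ℕ → Bool :=
  List.rec (motive := fun _ => ℕ → Bool) (fun c => tk c h)
    (fun j l' ih c => an (ih (Nat.add c (E.un j))) (an (E.ok c j)
      (an (tk (Nat.add c (Nat.add (E.un h) (ul E l'))) j) (lvok E h l' c)))) l

/-- Symmetrised products of one, two, three Lie monomials. -/
noncomputable def F1 (E : Env) (p : ℕ × List ℕ) : ℕ := lv E p.1 p.2 0 1

noncomputable def F2 (E : Env) (p q : ℕ × List ℕ) : ℕ :=
  nmc E (Nat.add (uq E p) (uq E q))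
    (Nat.add (lv E p.1 p.2 (uq E q) (F1 E q)) (lv E q.1 q.2 (uq E p) (F1 E p)))

noncomputable def F3 (E : Env) (p q r : ℕ × List ℕ) : ℕ :=
  nmc E (Nat.add (uq E p) (Nat.add (uq E q) (uq E r)))
    (Nat.add (lv E p.1 p.2 (Nat.add (uq E q) (uq E r)) (F2 E q r))
      (Nat.add (lv E q.1 q.2 (Nat.add (uq E p) (uq E r)) (F2 E p r))
        (lv E r.1 r.2 (Nat.add (uq E p) (uq E q)) (F2 E p q))))

/-- The symmetrised product of four Lie monomials in the pre-space. -/
noncomputable def F4 (E : Env) (Ts : List Tab) (p q r s : ℕ × List ℕ) : ℕ :=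
  Nat.add (pvec E Ts p.1 p.2 (Nat.add (uq E q) (Nat.add (uq E r) (uq E s))) (F3 E q r s))
    (Nat.add (pvec E Ts q.1 q.2 (Nat.add (uq E p) (Nat.add (uq E r) (uq E s))) (F3 E p r s))
      (Nat.add (pvec E Ts r.1 r.2 (Nat.add (uq E p) (Nat.add (uq E q) (uq E s))) (F3 E p q s))
        (pvec E Ts s.1 s.2 (Nat.add (uq E p) (Nat.add (uq E q) (uq E r))) (F3 E p q r))))

/-- The tests. -/
noncomputable def K1 (E : Env) (p : ℕ × List ℕ) : Bool := lvok E p.1 p.2 0

noncomputable def K2 (E : Env) (p q : ℕ × List ℕ) : Bool :=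
  an (an (lvok E p.1 p.2 (uq E q)) (K1 E q)) (an (lvok E q.1 q.2 (uq E p)) (K1 E p))

noncomputable def K3 (E : Env) (p q r : ℕ × List ℕ) : Bool :=
  an (an (lvok E p.1 p.2 (Nat.add (uq E q) (uq E r))) (K2 E q r))
    (an (an (lvok E q.1 q.2 (Nat.add (uq E p) (uq E r))) (K2 E p r))
      (an (lvok E r.1 r.2 (Nat.add (uq E p) (uq E q))) (K2 E p q)))

noncomputable def K4 (E : Env) (tk : ℕ → ℕ → Bool) (p q r s : ℕ × List ℕ) : Bool :=
  an (an (pvok E tk p.1 p.2 (Nat.add (uq E q) (Nat.add (uq E r) (uq E s)))) (K3 E q r s))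
    (an (an (pvok E tk q.1 q.2 (Nat.add (uq E p) (Nat.add (uq E r) (uq E s)))) (K3 E p r s))
      (an (an (pvok E tk r.1 r.2 (Nat.add (uq E p) (Nat.add (uq E q) (uq E s)))) (K3 E p q s))
        (an (pvok E tk s.1 s.2 (Nat.add (uq E p) (Nat.add (uq E q) (uq E r)))) (K3 E p q r))))

/-- The check of one relation `v`. -/
noncomputable def chk4 (E : Env) (tk : ℕ → ℕ → Bool) (Ts : List Tab) (p q r s : ℕ × List ℕ)
    (v : ℕ) : Bool :=
  an (Nat.ble (lenn p.2) 3) (an (Nat.ble (lenn q.2) 3) (an (Nat.ble (lenn r.2) 3)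
    (an (Nat.ble (lenn s.2) 3) (an (K4 E tk p q r s)
      (an (Nat.beq (Nat.land v (7 * rep (offT Ts (lenn Ts)))) v)
        (zc (8191 * rep (offT Ts (lenn Ts))) (Nat.add (F4 E Ts p q r s) (Nat.mul 4 v))))))))

/-- The environment is correct for the values `X` of the letters and `Vc c` of the codes. -/
structure EnvOK {A : Type} [Ring A] (E : Env) (X : ℕ → A) (Vc : ℕ → List A) : Prop where
  root : Vc 0 = [1] ∧ (E.tb 0).d = 1
  rule : ∀ c a, E.ok c a = true →
    (Vc c).map (fun v => X a * v) = (nth (E.tb (c + E.un a)).L [] (E.rk c a)).map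
      (ev (Vc (c + E.un a))) ∧
    (∀ r ∈ nth (E.tb (c + E.un a)).L [] (E.rk c a), Bn 7 (E.tb (c + E.un a)).d r) ∧
    (Vc c).length = (E.tb c).d ∧ (E.tb c).d ≤ 300 ∧
    (Vc (c + E.un a)).length = (E.tb (c + E.un a)).d

end Pool.Agent.Lib.H80F
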