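import Pool.Agent.Lib.H80F.B4
import Pool.Agent.Lib.H80F.B3b1

/-!
# H80F, B4a: left multiplication by letters and Lie monomials
-/

namespace Pool.Agent.Lib.H80F

variable {A : Type} [Ring A] {E : Env} {X : ℕ → A} {Vc : ℕ → List A}

theorem b4a_five (h5 : (5 : A) = 0) (a : A) : (5 : ℕ) • a = 0 := by
  rw [nsmul_eq_mul, Nat.cast_ofNat, h5, zero_mul]

/-- `cmb_spec` (`16 * 7 * 300 < 65536`; `ev` of the list of the `ev` of the rows is
`ev ((Vc c).map (X a * ·)) t = X a * ev (Vc c) t`), `nm_spec`. -/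
theorem lmv_spec (h5 : (5 : A) = 0) (hE : EnvOK E X Vc) {c a t : ℕ} (hok : E.ok c a = true)
    (ht : Bn 16 (E.tb c).d t) :
    Bn 16 (E.tb (c + E.un a)).d (lmv E c a t) ∧
      ev (Vc (c + E.un a)) (lmv E c a t) = X a * ev (Vc c) t := by
  obtain ⟨h1, h2, h3, h4, h6⟩ := hE.rule c a hok
  have hlen : (nth (E.tb (c + E.un a)).L [] (E.rk c a)).length = (E.tb c).d := by
    have h := congrArg List.length h1
    rw [List.length_map, List.length_map] at h
    rw [← h, h3]
  obtain ⟨hb, hev⟩ := cmb_spec (c := 7) (e := 16) (a := 0) (n := (E.tb (c + E.un a)).d)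
    (nth (E.tb (c + E.un a)).L [] (E.rk c a)) h2 (t := t) (acc := 0)
    (by rw [hlen]; exact ht) (Bn_zero _ _) (by rw [hlen]; omega)
  obtain ⟨hn1, hn2⟩ := nm_spec (by rw [hlen]; omega) hb
  have e1 : lmv E c a t = nm (15 * rep (E.tb (c + E.un a)).d) (4095 * rep (E.tb (c + E.un a)).d)
      (cmb (nth (E.tb (c + E.un a)).L [] (E.rk c a)) t 0) := nmc_eq E _ _
  rw [e1]
  refine ⟨hn1, ?_⟩
  rw [hn2 (b4a_five h5), hev, ev_zero, zero_add, ← h1]
  exact (ev_map (AddMonoidHom.mulLeft (X a)) (Vc c) t).symm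

theorem b4a_lv_nil (E : Env) (h : ℕ) (c t : ℕ) : lv E h [] c t = lmv E c h t := rfl

theorem b4a_lv_cons (E : Env) (h j : ℕ) (l : List ℕ) (c t : ℕ) :
    lv E h (j :: l) c t = nmc E (c + (E.un h + (E.un j + ul E l)))
      (lv E h l (c + E.un j) (lmv E c j t) +
        4 * lmv E (c + (E.un h + ul E l)) j (lv E h l c t)) := rfl

theorem b4a_lvok_nil (E : Env) (h : ℕ) (c : ℕ) : lvok E h [] c = E.ok c h := rfl

theorem b4a_lvok_cons (E : Env) (h j : ℕ) (l : List ℕ) (c : ℕ) :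
    lvok E h (j :: l) c = an (lvok E h l (c + E.un j)) (an (E.ok c j)
      (an (E.ok (c + (E.un h + ul E l)) j) (lvok E h l c))) := rfl

theorem b4a_four (h5 : (5 : A) = 0) (a b : A) : a + (4 : ℕ) • b = a - b := by
  have h := b4a_five h5 b
  have h1 : (5 : ℕ) • b = (4 : ℕ) • b + b := by
    rw [show (5 : ℕ) = 4 + 1 from rfl, add_smul, one_smul]
  rw [h1] at h
  have h2 : (4 : ℕ) • b = - b := eq_neg_of_add_eq_zero_left h
  rw [h2, sub_eq_add_neg]

/-- Induction on `l`, from the right multiplication formula for `lw`: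
`lw X h (j :: l) = lw X h l * X j - X j * lw X h l`; `4 = -1`; the codes agree by associativity and
commutativity of the addition. -/
theorem lv_spec (h5 : (5 : A) = 0) (hE : EnvOK E X Vc) (h : ℕ) (l : List ℕ) : ∀ {c t : ℕ},
    lvok E h l c = true → Bn 16 (E.tb c).d t →
    Bn 16 (E.tb (c + (E.un h + ul E l))).d (lv E h l c t) ∧
      ev (Vc (c + (E.un h + ul E l))) (lv E h l c t) = lw X h l * ev (Vc c) t := by
  induction l with
  | nil =>
    intro c t hok ht
    exact lmv_spec h5 hE hok ht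
  | cons j l ih =>
    intro c t hok ht
    rw [b4a_lvok_cons, an_iff, an_iff, an_iff] at hok
    obtain ⟨k1, k2, k3, k4⟩ := hok
    obtain ⟨a1, a2⟩ := lmv_spec h5 hE k2 ht
    obtain ⟨b1, b2⟩ := ih k1 a1
    obtain ⟨c1, c2⟩ := ih k4 ht
    obtain ⟨d1, d2⟩ := lmv_spec h5 hE k3 c1
    have e1 : c + E.un j + (E.un h + ul E l) = c + (E.un h + ul E (j :: l)) := by
      show c + E.un j + (E.un h + ul E l) = c + (E.un h + (E.un j + ul E l))
      omega
    have e2 : c + (E.un h + ul E l) + E.un j = c + (E.un h + ul E (j :: l)) := by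
      show c + (E.un h + ul E l) + E.un j = c + (E.un h + (E.un j + ul E l))
      omega
    rw [e1] at b1 b2
    rw [e2] at d1 d2
    have f1 := Bn_mul (k := 4) (by norm_num) d1
    have f2 := ev_mul (k := 4) (by norm_num) d1 (Vc (c + (E.un h + ul E (j :: l))))
    have g1 := Bn_add (by norm_num) b1 f1
    have g2 := ev_add (by norm_num) b1 f1 (Vc (c + (E.un h + ul E (j :: l))))
    obtain ⟨n1, n2⟩ := nm_spec (by norm_num) g1
    rw [b4a_lv_cons, nmc_eq]
    refine ⟨n1, ?_⟩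
    have n3 := n2 (b4a_five h5) (Vc (c + (E.un h + ul E (j :: l))))
    refine n3.trans ?_
    rw [g2, f2, b2, d2, c2, a2, b4a_four h5]
    show _ = (lw X h l * X j - X j * lw X h l) * ev (Vc c) t
    rw [sub_mul, mul_assoc, mul_assoc]

end Pool.Agent.Lib.H80F
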