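import Pool.Agent.Lib.H80F.B4a

/-!
# H80F, B4b: the pre-space
-/

namespace Pool.Agent.Lib.H80F

variable {A : Type} [Ring A] {E : Env} {X : ℕ → A} {Vc : ℕ → List A} {Ts : List Tab}
  {U : ℕ → List A} {tk : ℕ → ℕ → Bool}

theorem b4b1_pvec_cons (E : Env) (Ts : List Tab) (h j : ℕ) (l : List ℕ) (c t : ℕ) :
    pvec E Ts h (j :: l) c t = pvec E Ts h l (c + E.un j) (lmv E c j t) +
      4 * Nat.shiftLeft (lv E h l c t) (16 * offT Ts j) := rfl

theorem b4b1_pvok_cons (E : Env) (tk : ℕ → ℕ → Bool) (h j : ℕ) (l : List ℕ) (c : ℕ) :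
    pvok E tk h (j :: l) c = an (pvok E tk h l (c + E.un j)) (an (E.ok c j)
      (an (tk (c + (E.un h + ul E l)) j) (lvok E h l c))) := rfl

/-- The hypothesis on the pre-space (`hT`): if `tk c j` then `U j = Vc c`, with the same number of
digits. Induction on `l` with `ev_block` (`x = X`), `lmv_spec`, `lv_spec`. -/
theorem pvec_spec (h5 : (5 : A) = 0) (hE : EnvOK E X Vc)
    (hl : ∀ b < Ts.length, (U b).length = (nth Ts T0 b).d)
    (hT : ∀ c j, tk c j = true → j < Ts.length ∧ U j = Vc c ∧ (nth Ts T0 j).d = (E.tb c).d)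
    (h : ℕ) (l : List ℕ) : ∀ {c t : ℕ}, pvok E tk h l c = true → Bn 16 (E.tb c).d t →
    l.length ≤ 3 →
    Bn (16 + 64 * l.length) (offT Ts Ts.length) (pvec E Ts h l c t) ∧
      ev (pv Ts.length X U) (pvec E Ts h l c t) = lw X h l * ev (Vc c) t := by
  induction l with
  | nil =>
    intro c t hok ht _
    obtain ⟨h1, h2, h3⟩ := hT c h hok
    rw [← h3] at ht
    obtain ⟨e1, e2⟩ := ev_block (x := X) hl h1 ht
    rw [← h2]
    exact ⟨e2, e1⟩
  | cons j l ih =>
    intro c t hok ht hlen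
    rw [List.length_cons] at hlen
    rw [b4b1_pvok_cons, an_iff, an_iff, an_iff] at hok
    obtain ⟨k1, k2, k3, k4⟩ := hok
    obtain ⟨a1, a2⟩ := lmv_spec h5 hE k2 ht
    obtain ⟨b1, b2⟩ := ih k1 a1 (by omega)
    obtain ⟨c1, c2⟩ := lv_spec h5 hE h l k4 ht
    obtain ⟨h1, h2, h3⟩ := hT _ j k3
    rw [← h3] at c1
    obtain ⟨d1, d2⟩ := ev_block (x := X) hl h1 c1
    have f1 := Bn_mul (k := 4) (by norm_num) d2
    have f2 := ev_mul (k := 4) (by norm_num) d2 (pv Ts.length X U)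
    have g1 := Bn_add (by omega) b1 f1
    have g2 := ev_add (by omega) b1 f1 (pv Ts.length X U)
    rw [b4b1_pvec_cons, List.length_cons]
    refine ⟨Bn_mono (by omega) g1, ?_⟩
    rw [g2, f2, b2, d1, h2, c2, a2, b4a_four h5]
    show _ = (lw X h l * X j - X j * lw X h l) * ev (Vc c) t
    rw [sub_mul, mul_assoc, mul_assoc]

end Pool.Agent.Lib.H80F
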