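import Pool.Agent.Lib.H80F.B4a

/-!
# H80F, B4b: symmetrised products
-/

namespace Pool.Agent.Lib.H80F

variable {A : Type} [Ring A] {E : Env} {X : ℕ → A} {Vc : ℕ → List A} {Ts : List Tab}
  {U : ℕ → List A} {tk : ℕ → ℕ → Bool}

theorem F1_spec (h5 : (5 : A) = 0) (hE : EnvOK E X Vc) {p : ℕ × List ℕ} (hk : K1 E p = true) :
    Bn 16 (E.tb (uq E p)).d (F1 E p) ∧ ev (Vc (uq E p)) (F1 E p) = lw X p.1 p.2 := by
  obtain ⟨hr1, hr2⟩ := hE.root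
  have h0 : Bn 16 (E.tb 0).d 1 := by
    rw [hr2, b1a_succ, b1a_bz]
    exact ⟨by norm_num, by norm_num⟩
  obtain ⟨h1, h2⟩ := lv_spec h5 hE p.1 p.2 hk h0
  rw [zero_add] at h1 h2
  refine ⟨h1, ?_⟩
  refine h2.trans ?_
  rw [hr1, ev_one, mul_one]

/-- A letter sum of two. -/
theorem b4b2_add {c u v : ℕ} {V : List A} {a b : A} {n : ℕ}
    (h1 : Bn 16 n u) (h2 : ev V u = a) (h3 : Bn c n v) (h4 : ev V v = b) (hc : 16 + c < 65536) :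
    Bn (16 + c) n (u + v) ∧ ev V (u + v) = a + b := by
  refine ⟨Bn_add hc h1 h3, ?_⟩
  rw [ev_add hc h1 h3, h2, h4]

theorem F2_spec (h5 : (5 : A) = 0) (hE : EnvOK E X Vc) {p q : ℕ × List ℕ}
    (hk : K2 E p q = true) :
    Bn 16 (E.tb (uq E p + uq E q)).d (F2 E p q) ∧ ev (Vc (uq E p + uq E q)) (F2 E p q) =
      lw X p.1 p.2 * lw X q.1 q.2 + lw X q.1 q.2 * lw X p.1 p.2 := by
  unfold K2 at hk
  rw [an_iff, an_iff, an_iff] at hk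
  obtain ⟨⟨k1, k2⟩, k3, k4⟩ := hk
  obtain ⟨a1, a2⟩ := F1_spec h5 hE k2
  obtain ⟨b1, b2⟩ := F1_spec h5 hE k4
  obtain ⟨c1, c2⟩ := lv_spec h5 hE p.1 p.2 k1 a1
  obtain ⟨d1, d2⟩ := lv_spec h5 hE q.1 q.2 k3 b1
  have e1 : uq E q + (E.un p.1 + ul E p.2) = uq E p + uq E q := by
    rw [add_comm]; rfl
  have e2 : uq E p + (E.un q.1 + ul E q.2) = uq E p + uq E q := rfl
  rw [e1] at c1 c2
  rw [e2] at d1 d2
  obtain ⟨s1, s2⟩ := b4b2_add c1 c2 d1 d2 (by norm_num)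
  obtain ⟨n1, n2⟩ := nm_spec (by norm_num) s1
  have hF : F2 E p q = nmc E (uq E p + uq E q)
    (lv E p.1 p.2 (uq E q) (F1 E q) + lv E q.1 q.2 (uq E p) (F1 E p)) := rfl
  rw [hF, nmc_eq]
  refine ⟨n1, ?_⟩
  rw [n2 (b4a_five h5), s2, a2, b2]

theorem F3_spec (h5 : (5 : A) = 0) (hE : EnvOK E X Vc) {p q r : ℕ × List ℕ}
    (hk : K3 E p q r = true) :
    Bn 16 (E.tb (uq E p + (uq E q + uq E r))).d (F3 E p q r) ∧
      ev (Vc (uq E p + (uq E q + uq E r))) (F3 E p q r) =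
      lw X p.1 p.2 * (lw X q.1 q.2 * lw X r.1 r.2 + lw X r.1 r.2 * lw X q.1 q.2) +
      (lw X q.1 q.2 * (lw X p.1 p.2 * lw X r.1 r.2 + lw X r.1 r.2 * lw X p.1 p.2) +
      lw X r.1 r.2 * (lw X p.1 p.2 * lw X q.1 q.2 + lw X q.1 q.2 * lw X p.1 p.2)) := by
  unfold K3 at hk
  rw [an_iff, an_iff, an_iff, an_iff, an_iff] at hk
  obtain ⟨⟨k1, k2⟩, ⟨k3, k4⟩, k5, k6⟩ := hk
  obtain ⟨a1, a2⟩ := F2_spec h5 hE k2
  obtain ⟨b1, b2⟩ := F2_spec h5 hE k4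
  obtain ⟨c1, c2⟩ := F2_spec h5 hE k6
  obtain ⟨p1, p2⟩ := lv_spec h5 hE p.1 p.2 k1 a1
  obtain ⟨q1, q2⟩ := lv_spec h5 hE q.1 q.2 k3 b1
  obtain ⟨r1, r2⟩ := lv_spec h5 hE r.1 r.2 k5 c1
  have e1 : Nat.add (uq E q) (uq E r) + (E.un p.1 + ul E p.2) = uq E p + (uq E q + uq E r) := by
    show uq E q + uq E r + uq E p = _
    omega
  have e2 : Nat.add (uq E p) (uq E r) + (E.un q.1 + ul E q.2) = uq E p + (uq E q + uq E r) := by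
    show uq E p + uq E r + uq E q = _
    omega
  have e3 : Nat.add (uq E p) (uq E q) + (E.un r.1 + ul E r.2) = uq E p + (uq E q + uq E r) := by
    show uq E p + uq E q + uq E r = _
    omega
  rw [e1] at p1 p2
  rw [e2] at q1 q2
  rw [e3] at r1 r2
  obtain ⟨s1, s2⟩ := b4b2_add q1 q2 r1 r2 (by norm_num)
  obtain ⟨t1, t2⟩ := b4b2_add p1 p2 s1 s2 (by norm_num)
  obtain ⟨n1, n2⟩ := nm_spec (by norm_num) t1
  have hF : F3 E p q r = nmc E (uq E p + (uq E q + uq E r))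
    (lv E p.1 p.2 (Nat.add (uq E q) (uq E r)) (F2 E q r) +
      (lv E q.1 q.2 (Nat.add (uq E p) (uq E r)) (F2 E p r) +
        lv E r.1 r.2 (Nat.add (uq E p) (uq E q)) (F2 E p q))) := rfl
  rw [hF, nmc_eq]
  refine ⟨n1, ?_⟩
  rw [n2 (b4a_five h5), t2]
  have a3 : ev (Vc (Nat.add (uq E q) (uq E r))) (F2 E q r) = _ := a2
  have b3 : ev (Vc (Nat.add (uq E p) (uq E r))) (F2 E p r) = _ := b2
  have c3 : ev (Vc (Nat.add (uq E p) (uq E q))) (F2 E p q) = _ := c2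
  rw [a3, b3, c3]

end Pool.Agent.Lib.H80F
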