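import Pool.Agent.Lib.H80F.B4b1
import Pool.Agent.Lib.H80F.B4b2

/-!
# H80F, B4b: the check of a relation
-/

namespace Pool.Agent.Lib.H80F

variable {A : Type} [Ring A] {E : Env} {X : ℕ → A} {Vc : ℕ → List A} {Ts : List Tab}
  {U : ℕ → List A} {tk : ℕ → ℕ → Bool}

/-- Lie monomials in the elements of a `LieSet`. -/
theorem lw_mem_lieSet {L : Set A} (hL : LieSet L) (h : ℕ) (l : List ℕ) (hh : X h ∈ L)
    (hl : ∀ j ∈ l, X j ∈ L) : lw X h l ∈ L := by
  induction l with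
  | nil => exact hh
  | cons j l ih =>
    exact hL.br _ (ih (fun i hi => hl i (List.mem_cons_of_mem _ hi))) _ (hl j List.mem_cons_self)

theorem b4b3_perms : ((Finset.univ : Finset (Equiv.Perm (Fin 4))).val.map
    (fun σ => (σ 0, σ 1, σ 2, σ 3))) =
    {(0,1,2,3), (0,1,3,2), (0,2,1,3), (0,2,3,1), (0,3,1,2), (0,3,2,1),
     (1,0,2,3), (1,0,3,2), (1,2,0,3), (1,2,3,0), (1,3,0,2), (1,3,2,0),
     (2,0,1,3), (2,0,3,1), (2,1,0,3), (2,1,3,0), (2,3,0,1), (2,3,1,0),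
     (3,0,1,2), (3,0,2,1), (3,1,0,2), (3,1,2,0), (3,2,0,1), (3,2,1,0)} := by
  decide

/-- The symmetrised product of four elements, with the first factor in front. -/
theorem b4b3_s4 {L : Set A} (hL : LieSet L) {P Q R S : A} (hP : P ∈ L) (hQ : Q ∈ L) (hR : R ∈ L)
    (hS : S ∈ L) :
    P * (Q * (R * S + S * R) + (R * (Q * S + S * Q) + S * (Q * R + R * Q))) +
      (Q * (P * (R * S + S * R) + (R * (P * S + S * P) + S * (P * R + R * P))) +
        (R * (P * (Q * S + S * Q) + (Q * (P * S + S * P) + S * (P * Q + Q * P))) +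
          S * (P * (Q * R + R * Q) + (Q * (P * R + R * P) + R * (P * Q + Q * P))))) = 0 := by
  have h := hL.s4 ![P, Q, R, S] (by
    intro i
    fin_cases i
    · exact hP
    · exact hQ
    · exact hR
    · exact hS)
  have e : ∑ σ : Equiv.Perm (Fin 4), (![P, Q, R, S] : Fin 4 → A) (σ 0) *
      (![P, Q, R, S] : Fin 4 → A) (σ 1) * (![P, Q, R, S] : Fin 4 → A) (σ 2) *
      (![P, Q, R, S] : Fin 4 → A) (σ 3) =
      (((Finset.univ : Finset (Equiv.Perm (Fin 4))).val.map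
        (fun σ => (σ 0, σ 1, σ 2, σ 3))).map (fun t : Fin 4 × Fin 4 × Fin 4 × Fin 4 =>
        (![P, Q, R, S] : Fin 4 → A) t.1 * (![P, Q, R, S] : Fin 4 → A) t.2.1 *
        (![P, Q, R, S] : Fin 4 → A) t.2.2.1 * (![P, Q, R, S] : Fin 4 → A) t.2.2.2)).sum := by
    rw [Multiset.map_map]
    rfl
  rw [e, b4b3_perms] at h
  simp only [Multiset.insert_eq_cons, Multiset.map_cons, Multiset.sum_cons, Multiset.map_singleton,
    Multiset.sum_singleton, Matrix.cons_val_zero, Matrix.cons_val_one, Matrix.cons_val] at h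
  rw [← h]
  simp only [mul_add, mul_assoc]
  abel

theorem b4b3_F4 (h5 : (5 : A) = 0) (hE : EnvOK E X Vc)
    (hl : ∀ b < Ts.length, (U b).length = (nth Ts T0 b).d)
    (hT : ∀ c j, tk c j = true → j < Ts.length ∧ U j = Vc c ∧ (nth Ts T0 j).d = (E.tb c).d)
    {p q r s : ℕ × List ℕ} (hp : p.2.length ≤ 3) (hq : q.2.length ≤ 3) (hr : r.2.length ≤ 3)
    (hs : s.2.length ≤ 3) (hk : K4 E tk p q r s = true) {L : Set A} (hL : LieSet L)
    (hX : ∀ a, X a ∈ L) :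
    Bn 832 (offT Ts Ts.length) (F4 E Ts p q r s) ∧
      ev (pv Ts.length X U) (F4 E Ts p q r s) = 0 := by
  unfold K4 at hk
  rw [an_iff, an_iff, an_iff, an_iff, an_iff, an_iff, an_iff] at hk
  obtain ⟨⟨k1, k2⟩, ⟨k3, k4⟩, ⟨k5, k6⟩, k7, k8⟩ := hk
  obtain ⟨a1, a2⟩ := F3_spec h5 hE k2
  obtain ⟨b1, b2⟩ := F3_spec h5 hE k4
  obtain ⟨c1, c2⟩ := F3_spec h5 hE k6
  obtain ⟨d1, d2⟩ := F3_spec h5 hE k8
  obtain ⟨p1, p2⟩ := pvec_spec h5 hE hl hT p.1 p.2 k1 a1 hp
  obtain ⟨q1, q2⟩ := pvec_spec h5 hE hl hT q.1 q.2 k3 b1 hq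
  obtain ⟨r1, r2⟩ := pvec_spec h5 hE hl hT r.1 r.2 k5 c1 hr
  obtain ⟨s1, s2⟩ := pvec_spec h5 hE hl hT s.1 s.2 k7 d1 hs
  have p1' := Bn_mono (show 16 + 64 * p.2.length ≤ 208 by omega) p1
  have q1' := Bn_mono (show 16 + 64 * q.2.length ≤ 208 by omega) q1
  have r1' := Bn_mono (show 16 + 64 * r.2.length ≤ 208 by omega) r1
  have s1' := Bn_mono (show 16 + 64 * s.2.length ≤ 208 by omega) s1
  have t1 := Bn_add (by norm_num) r1' s1'
  have t2 := ev_add (by norm_num) r1' s1' (pv Ts.length X U)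
  have u1 := Bn_add (by norm_num) q1' t1
  have u2 := ev_add (by norm_num) q1' t1 (pv Ts.length X U)
  have v1 := Bn_add (by norm_num) p1' u1
  have v2 := ev_add (by norm_num) p1' u1 (pv Ts.length X U)
  refine ⟨v1, ?_⟩
  refine v2.trans ?_
  rw [u2, t2, p2, q2, r2, s2]
  have a3 : ev (Vc (Nat.add (uq E q) (Nat.add (uq E r) (uq E s)))) (F3 E q r s) = _ := a2
  have b3 : ev (Vc (Nat.add (uq E p) (Nat.add (uq E r) (uq E s)))) (F3 E p r s) = _ := b2
  have c3 : ev (Vc (Nat.add (uq E p) (Nat.add (uq E q) (uq E s)))) (F3 E p q s) = _ := c2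
  have d3 : ev (Vc (Nat.add (uq E p) (Nat.add (uq E q) (uq E r)))) (F3 E p q r) = _ := d2
  rw [a3, b3, c3, d3]
  exact b4b3_s4 hL (lw_mem_lieSet hL _ _ (hX _) (fun j _ => hX j))
    (lw_mem_lieSet hL _ _ (hX _) (fun j _ => hX j)) (lw_mem_lieSet hL _ _ (hX _) (fun j _ => hX j))
    (lw_mem_lieSet hL _ _ (hX _) (fun j _ => hX j))

/-- **The check of a relation is correct.** `F4` is, up to the order of the summands, the symmetrised
product of the four Lie monomials, which is `0` by `LieSet.s4` (`Equiv.Perm (Fin 4)` has 24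
elements; expand the sum, e.g. by `Fin.sum_univ_succ` and `Equiv.Perm.decomposeFin`, or
`Finset.sum_equiv`); `zc_ev`; `832 + 28 < 65536`. The hypothesis `hX`: all letters which are used are
in `L`. -/
theorem chk4_spec (h5 : (5 : A) = 0) (hE : EnvOK E X Vc) {L : Set A} (hL : LieSet L)
    (hX : ∀ a, X a ∈ L)
    (hl : ∀ b < Ts.length, (U b).length = (nth Ts T0 b).d)
    (hT : ∀ c j, tk c j = true → j < Ts.length ∧ U j = Vc c ∧ (nth Ts T0 j).d = (E.tb c).d)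
    {p q r s : ℕ × List ℕ} {v : ℕ} (hc : chk4 E tk Ts p q r s v = true) :
    Bn 16 (offT Ts Ts.length) v ∧ ev (pv Ts.length X U) v = 0 := by
  unfold chk4 at hc
  rw [an_iff, an_iff, an_iff, an_iff, an_iff, an_iff, lenn_eq, lenn_eq, lenn_eq, lenn_eq,
    lenn_eq] at hc
  obtain ⟨hp, hq, hr, hs, hk, hb, hz⟩ := hc
  have hp' := Nat.le_of_ble_eq_true hp
  have hq' := Nat.le_of_ble_eq_true hq
  have hr' := Nat.le_of_ble_eq_true hr
  have hs' := Nat.le_of_ble_eq_true hs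
  obtain ⟨f1, f2⟩ := b4b3_F4 h5 hE hl hT hp' hq' hr' hs' hk hL hX
  have hb' : Nat.land v (7 * rep (offT Ts Ts.length)) = v := Nat.eq_of_beq_eq_true hb
  have hv : Bn 7 (offT Ts Ts.length) v := land_Bn (k := 3) (by norm_num) hb'
  refine ⟨Bn_mono (by norm_num) hv, ?_⟩
  have h1 := zc_ev (b4a_five h5) hz (pv Ts.length X U)
  have g1 := Bn_mul (k := 4) (by norm_num) hv
  have g2 := ev_mul (k := 4) (by norm_num) hv (pv Ts.length X U)
  have g3 := ev_add (by norm_num) f1 g1 (pv Ts.length X U)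
  have h2 : ev (pv Ts.length X U) (F4 E Ts p q r s) +
      (4 : ℕ) • ev (pv Ts.length X U) v = 0 := by
    rw [← g2, ← g3]
    exact h1
  rw [f2, zero_add] at h2
  have h3 := b4a_five h5 (ev (pv Ts.length X U) v)
  rw [show (5 : ℕ) = 4 + 1 from rfl, add_smul, one_smul, h2, zero_add] at h3
  exact h3

end Pool.Agent.Lib.H80F
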