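import Pool.Agent.Lib.H80F.C1

/-!
# H80F, C1a: contents
-/

namespace Pool.Agent.Lib.H80F

variable {A : Type} [Ring A] {r : ℕ}

theorem Wd_mul (y : Option (Fin r) → A) {κ κ' : Option (Fin r) → ℕ} {a b : A}
    (ha : a ∈ Wd y κ) (hb : b ∈ Wd y κ') : a * b ∈ Wd y (κ + κ') := by
  unfold Wd at ha
  refine AddSubgroup.closure_induction (p := fun x _ => x * b ∈ Wd y (κ + κ')) ?_ ?_ ?_ ?_ ha
  · rintro x ⟨l, hl, rfl⟩
    unfold Wd at hb
    refine AddSubgroup.closure_induction (p := fun z _ => (l.map y).prod * z ∈ Wd y (κ + κ'))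
      ?_ ?_ ?_ ?_ hb
    · rintro z ⟨l', hl', rfl⟩
      refine AddSubgroup.subset_closure ⟨l ++ l', fun o => ?_, ?_⟩
      · rw [List.count_append, hl, hl', Pi.add_apply]
      · rw [List.map_append, List.prod_append]
    · rw [mul_zero]
      exact zero_mem _
    · intro z z' _ _ h1 h2
      rw [mul_add]
      exact add_mem h1 h2
    · intro z _ h1
      rw [mul_neg]
      exact neg_mem h1
  · rw [zero_mul]
    exact zero_mem _
  · intro z z' _ _ h1 h2
    rw [add_mul]
    exact add_mem h1 h2
  · intro z _ h1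
    rw [neg_mul]
    exact neg_mem h1

/-- Induction on the Lie monomial. -/
theorem vl_mem_Wd (y : Option (Fin r) → A) (a : Al r) : vl y a ∈ Wd y (ct a) := by
  induction a with
  | of o =>
    refine AddSubgroup.subset_closure ⟨[o], fun o' => ?_, ?_⟩
    · show List.count o' [o] = (Pi.single o 1 : Option (Fin r) → ℕ) o'
      by_cases h : o = o'
      · subst h
        simp
      · rw [Pi.single_eq_of_ne (Ne.symm h)]
        simp [List.count_cons, h]
    · simp [vl]
  | mul a b iha ihb =>
    show vl y a * vl y b - vl y b * vl y a ∈ Wd y (ct a + ct b)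
    refine sub_mem (Wd_mul y iha ihb) ?_
    rw [add_comm (ct a) (ct b)]
    exact Wd_mul y ihb iha

theorem prod_mem_Wd (y : Option (Fin r) → A) (w : List (Al r)) :
    (w.map (vl y)).prod ∈ Wd y (cw w) := by
  induction w with
  | nil =>
    refine AddSubgroup.subset_closure ⟨[], fun o => ?_, ?_⟩
    · simp [cw]
    · simp
  | cons a w ih =>
    have h : cw (a :: w) = ct a + cw w := by simp [cw]
    rw [h, List.map_cons, List.prod_cons]
    exact Wd_mul y (vl_mem_Wd y a) ih

theorem vl_mem {L : Set A} (hL : LieSet L) (y : Option (Fin r) → A) (hy : ∀ o, y o ∈ L)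
    (a : Al r) : vl y a ∈ L := by
  induction a with
  | of o => exact hy o
  | mul a b iha ihb => exact hL.br _ iha _ ihb

/-- The functional is of the type `WF4` (`br = FreeMagma.mul`): contents are additive. -/
theorem Ec_wf4 {L : Set A} (hL : LieSet L) (y : Option (Fin r) → A) (hy : ∀ o, y o ∈ L)
    (κ : Option (Fin r) → ℕ) : WF4 (fun a b : Al r => FreeMagma.mul a b) (Ec y κ) := by
  refine ⟨?_, ?_⟩
  · intro u v a b
    have h1 : cw (u ++ FreeMagma.mul a b :: v) = cw u + (ct a + ct b) + cw v := by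
      simp [cw, ct, add_assoc]
    have h2 : cw (u ++ a :: b :: v) = cw u + (ct a + ct b) + cw v := by
      simp [cw, add_assoc]
    have h3 : cw (u ++ b :: a :: v) = cw u + (ct a + ct b) + cw v := by
      rw [add_comm (ct a) (ct b)]
      simp [cw, add_assoc]
    show Ec y κ (u ++ FreeMagma.mul a b :: v) = _
    unfold Ec
    rw [h1, h2, h3]
    by_cases h : cw u + (ct a + ct b) + cw v = κ
    · rw [if_pos h, if_pos h, if_pos h]
      simp only [List.map_append, List.map_cons, List.prod_append, List.prod_cons, vl]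
      noncomm_ring
    · rw [if_neg h, if_neg h, if_neg h, sub_zero]
  · intro u v a
    have h1 : ∀ σ : Equiv.Perm (Fin 4), cw (u ++ a (σ 0) :: a (σ 1) :: a (σ 2) :: a (σ 3) :: v) =
        cw u + (∑ i, ct (a i)) + cw v := by
      intro σ
      rw [← Equiv.sum_comp σ (fun i => ct (a i))]
      simp [cw, Fin.sum_univ_four, add_assoc]
    unfold Ec
    by_cases h : cw u + (∑ i, ct (a i)) + cw v = κ
    · have h2 : ∀ σ : Equiv.Perm (Fin 4),
          (if cw (u ++ a (σ 0) :: a (σ 1) :: a (σ 2) :: a (σ 3) :: v) = κ then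
            ((u ++ a (σ 0) :: a (σ 1) :: a (σ 2) :: a (σ 3) :: v).map (vl y)).prod else 0) =
          (u.map (vl y)).prod * (vl y (a (σ 0)) * vl y (a (σ 1)) * vl y (a (σ 2)) *
            vl y (a (σ 3))) * (v.map (vl y)).prod := by
        intro σ
        rw [if_pos ((h1 σ).trans h)]
        simp only [List.map_append, List.map_cons, List.prod_append, List.prod_cons, mul_assoc]
      rw [Finset.sum_congr rfl (fun σ _ => h2 σ), ← Finset.sum_mul, ← Finset.mul_sum,
        hL.s4 (fun i => vl y (a i)) (fun i => vl_mem hL y hy (a i)), mul_zero, zero_mul]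
    · refine Finset.sum_eq_zero fun σ _ => ?_
      rw [if_neg]
      rw [h1 σ]
      exact h

end Pool.Agent.Lib.H80F
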