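import Pool.Agent.Lib.H80F.C1a

/-!
# H80F, C1b: the commutators of two letters `some i`, `some j` do not occur
-/

namespace Pool.Agent.Lib.H80F

variable {A : Type} [Ring A] {r : ℕ}

theorem c1b_countP_some (l : List (Option (Fin r))) :
    l.countP Option.isSome = ∑ i : Fin r, l.count (some i) := by
  induction l with
  | nil => simp
  | cons a l ih =>
    rw [List.countP_cons, ih]
    simp_rw [List.count_cons]
    rw [Finset.sum_add_distrib]
    congr 1
    cases a with
    | none => simp
    | some k => simp

theorem c1b_countP_none (l : List (Option (Fin r))) :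
    l.countP Option.isNone = l.count none := by
  unfold List.count
  apply List.countP_congr
  intro a _
  cases a <;> simp

theorem c1b_zero (h5 : (5 : A) = 0) {L : Set A} (hL : LieSet L) (y : Option (Fin r) → A)
    (hy : ∀ o, y o ∈ L) (hR : Nc7r (r - 1)) {κ κ₁ κ₂ : Option (Fin r) → ℕ} (h7 : 7 ≤ κ none)
    (h1 : ∀ i, κ (some i) = 1) {i j : Fin r} (hij : i ≠ j)
    (hκ : κ₁ + (Pi.single (some i) 1 + Pi.single (some j) 1) + κ₂ = κ)
    (l₁ l₂ : List (Option (Fin r))) (hl₁ : ∀ o, l₁.count o = κ₁ o)
    (hl₂ : ∀ o, l₂.count o = κ₂ o) :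
    (l₁.map y).prod * (y (some i) * y (some j) - y (some j) * y (some i)) *
      (l₂.map y).prod = 0 := by
  obtain ⟨z, hz⟩ : ∃ z, z = y (some i) * y (some j) - y (some j) * y (some i) := ⟨_, rfl⟩
  rw [← hz]
  have hzL : z ∈ L := by
    rw [hz]
    exact hL.br _ (hy _) _ (hy _)
  obtain ⟨g, hg⟩ : ∃ g : Option (Fin r) → Option A, g = Option.map (fun k => y (some k)) :=
    ⟨_, rfl⟩
  have hgy : ∀ o, (g o).getD (y none) = y o := by
    intro o
    rw [hg]
    cases o <;> simp
  have hgL : ∀ (l : List (Option (Fin r))) (b : A), some b ∈ l.map g → b ∈ L := by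
    intro l b hb
    obtain ⟨o, _, ho⟩ := List.mem_map.1 hb
    rw [hg] at ho
    cases o with
    | none => simp at ho
    | some k =>
      simp only [Option.map_some, Option.some.injEq] at ho
      rw [← ho]
      exact hy _
  have hs : ∀ l : List (Option (Fin r)), (l.map g).countP Option.isSome =
      l.countP Option.isSome := by
    intro l
    rw [List.countP_map]
    apply List.countP_congr
    intro a _
    rw [hg]
    cases a <;> simp
  have hn : ∀ l : List (Option (Fin r)), (l.map g).countP Option.isNone =
      l.countP Option.isNone := by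
    intro l
    rw [List.countP_map]
    apply List.countP_congr
    intro a _
    rw [hg]
    cases a <;> simp
  have key := hR A h5 L hL (y none) (hy none) (l₁.map g ++ some z :: l₂.map g) ?_ ?_ ?_
  · rw [List.map_append, List.map_cons, List.prod_append, List.prod_cons, List.map_map,
      List.map_map] at key
    have e : (fun o : Option A => o.getD (y none)) ∘ g = y := by
      funext o
      exact hgy o
    rw [e] at key
    rw [← mul_assoc] at key
    exact key
  · intro b hb
    rcases List.mem_append.1 hb with h | h
    · exact hgL _ _ h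
    · rcases List.mem_cons.1 h with h | h
      · rw [Option.some.injEq] at h
        rw [h]
        exact hzL
      · exact hgL _ _ h
  · rw [List.countP_append, List.countP_cons, hs, hs, c1b_countP_some, c1b_countP_some]
    have e1 : ∀ k : Fin r, l₁.count (some k) + l₂.count (some k) +
        ((if k = i then 1 else 0) + (if k = j then 1 else 0)) = 1 := by
      intro k
      have e0 := h1 k
      rw [← hκ] at e0
      simp only [Pi.add_apply, Pi.single_apply, Option.some.injEq] at e0
      rw [hl₁, hl₂]
      linarith
    have e2 : ∑ k : Fin r, (l₁.count (some k) + l₂.count (some k) +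
        ((if k = i then 1 else 0) + (if k = j then 1 else 0))) = r := by
      rw [Finset.sum_congr rfl (fun k _ => e1 k)]
      simp
    rw [Finset.sum_add_distrib, Finset.sum_add_distrib, Finset.sum_add_distrib] at e2
    simp only [Finset.sum_ite_eq', Finset.mem_univ, if_true] at e2
    simp only [Option.isSome_some, if_true]
    omega
  · rw [List.countP_append, List.countP_cons, hn, hn, c1b_countP_none, c1b_countP_none, hl₁, hl₂]
    have e1 : κ₁ none + κ₂ none = κ none := by
      rw [← hκ]
      simp only [Pi.add_apply, Pi.single_apply]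
      simp
    omega

/-- Let `κ none ≥ 7`, `κ (some i) = 1` for all `i`, and suppose `Nc7r (r - 1)`. For `i ≠ j` every word
containing the letter `c = [some i, some j]` has `Ec = 0`. If the content is `κ`, the product is
`P * vl y c * Q` with `P ∈ Wd y κ₁`, `Q ∈ Wd y κ₂` (`prod_mem_Wd`), `κ₁ + ct c + κ₂ = κ`; by induction
over the closures it is enough to take products of letters `l₁`, `l₂` of the contents `κ₁`, `κ₂`. Then
the word `l₁`, `vl y c`, `l₂` has `κ none ≥ 7` letters `x = y none` and `(r - 2) + 1` other letters, all
in `L`. -/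
theorem Ec_comm_zero (h5 : (5 : A) = 0) {L : Set A} (hL : LieSet L) (y : Option (Fin r) → A)
    (hy : ∀ o, y o ∈ L) (hR : Nc7r (r - 1)) {κ : Option (Fin r) → ℕ} (h7 : 7 ≤ κ none)
    (h1 : ∀ i, κ (some i) = 1) {i j : Fin r} (hij : i ≠ j) (u v : List (Al r)) :
    Ec y κ (u ++ FreeMagma.mul (.of (some i)) (.of (some j)) :: v) = 0 := by
  unfold Ec
  have h2 : cw (u ++ FreeMagma.mul (.of (some i)) (.of (some j)) :: v) =
      cw u + (Pi.single (some i) 1 + Pi.single (some j) 1) + cw v := by
    simp [cw, ct, add_assoc]
  rw [h2]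
  by_cases hκ : cw u + (Pi.single (some i) 1 + Pi.single (some j) 1) + cw v = κ
  · rw [if_pos hκ, List.map_append, List.map_cons, List.prod_append, List.prod_cons, ← mul_assoc]
    show (u.map (vl y)).prod * (y (some i) * y (some j) - y (some j) * y (some i)) *
      (v.map (vl y)).prod = 0
    have hP := prod_mem_Wd y u
    have hQ := prod_mem_Wd y v
    generalize (u.map (vl y)).prod = P at hP ⊢
    generalize (v.map (vl y)).prod = Q at hQ ⊢
    refine AddSubgroup.closure_induction (p := fun P _ => P * (y (some i) * y (some j) -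
      y (some j) * y (some i)) * Q = 0) ?_ ?_ ?_ ?_ hP
    · rintro x ⟨l₁, hl₁, rfl⟩
      refine AddSubgroup.closure_induction (p := fun Q _ => (l₁.map y).prod *
        (y (some i) * y (some j) - y (some j) * y (some i)) * Q = 0) ?_ ?_ ?_ ?_ hQ
      · rintro x ⟨l₂, hl₂, rfl⟩
        exact c1b_zero h5 hL y hy hR h7 h1 hij hκ l₁ l₂ hl₁ hl₂
      · rw [mul_zero]
      · intro z z' _ _ e1 e2
        rw [mul_add, e1, e2, add_zero]
      · intro z _ e1
        rw [mul_neg, e1, neg_zero]
    · rw [zero_mul, zero_mul]
    · intro z z' _ _ e1 e2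
      rw [add_mul, add_mul, e1, e2, add_zero]
    · intro z _ e1
      rw [neg_mul, neg_mul, e1, neg_zero]
  · rw [if_neg hκ]

end Pool.Agent.Lib.H80F
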