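import Pool.Agent.Lib.H80F.D2_00
import Pool.Agent.Lib.H80F.D2_01
import Pool.Agent.Lib.H80F.D2_02
import Pool.Agent.Lib.H80F.D2_03
import Pool.Agent.Lib.H80F.D2_04
import Pool.Agent.Lib.H80F.D2_05
import Pool.Agent.Lib.H80F.D2_06
import Pool.Agent.Lib.H80F.D2_07
import Pool.Agent.Lib.H80F.D2_08

/-!
# H80F, data (generated)
-/

namespace Pool.Agent.Lib.H80F

/-- The tables for three letters. -/
def TL2 : List (List (List Tab)) :=
  [[[tA0, tA1, tA2, tA3, tA4],
    [tA8, tA9, tA10, tA11, tA12],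
    [tA16, tA17, tA18, tA19, tA20],
    [tA24, tA25, tA26, tA27, tA28],
    [tA32, tA33, tA34, tA35, tA36]],
   [[tA64, tA65, tA66, tA67, tA68],
    [tA72, tA73, tA74, tA75, tA76],
    [tA80, tA81, tA82, tA83, tA84],
    [tA88, tA89, tA90, tA91, tA92],
    [tA96, tA97, tA98, tA99, tA100]],
   [[tA128, tA129, tA130, tA131, tA132],
    [tA136, tA137, tA138, tA139, tA140],
    [tA144, tA145, tA146, tA147, tA148],
    [tA152, tA153, tA154, tA155, tA156],
    [tA160, tA161, tA162, tA163, tA164]],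
   [[tA192, tA193, tA194, tA195, tA196],
    [tA200, tA201, tA202, tA203, tA204],
    [tA208, tA209, tA210, tA211, tA212],
    [tA216, tA217, tA218, tA219, tA220],
    [tA224, tA225, tA226, tA227, tA228]],
   [[tA256, tA257, tA258, tA259, tA260],
    [tA264, tA265, tA266, tA267, tA268],
    [tA272, tA273, tA274, tA275, tA276],
    [tA280, tA281, tA282, tA283, tA284],
    [tA288, tA289, tA290, tA291, tA292]]]

end Pool.Agent.Lib.H80F
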