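import Pool.Agent.Lib.H80F.S1
import Pool.Agent.Lib.H80F.B3a2

/-!
# H80F, G: the form of the checks in the data files
-/

namespace Pool.Agent.Lib.H80F

/-- The check of a list of relations, given with their Lie monomials. -/
noncomputable def chks (E : Env) (tk : ℕ → ℕ → Bool) (Ts : List Tab)
    (l : List (List (ℕ × List ℕ) × ℕ)) : Bool :=
  List.rec (motive := fun _ => Bool) true
    (fun q _ ih => an (chk4 E tk Ts (nth q.1 (0, []) 0) (nth q.1 (0, []) 1) (nth q.1 (0, []) 2)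
      (nth q.1 (0, []) 3) q.2) ih) l

theorem chks_spec {E : Env} {tk : ℕ → ℕ → Bool} {Ts : List Tab}
    (l : List (List (ℕ × List ℕ) × ℕ)) (h : chks E tk Ts l = true) :
    ∀ v ∈ l.map Prod.snd, ∃ p q r s : ℕ × List ℕ, chk4 E tk Ts p q r s v = true := by
  induction l with
  | nil => simp
  | cons q l ih =>
    have h' : an (chk4 E tk Ts (nth q.1 (0, []) 0) (nth q.1 (0, []) 1) (nth q.1 (0, []) 2)
      (nth q.1 (0, []) 3) q.2) (chks E tk Ts l) = true := h
    have hx : ∀ x y : Bool, an x y = true → x = true ∧ y = true := by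
      intro x y; cases x <;> cases y <;> simp [an]
    obtain ⟨h1, h2⟩ := hx _ _ h'
    intro v hv
    rw [List.map_cons] at hv
    rcases List.mem_cons.mp hv with rfl | hv
    · exact ⟨_, _, _, _, h1⟩
    · exact ih h2 v hv

theorem ck2_mk {TL : List (List (List Tab))} {c : ℕ} (l : List (List (ℕ × List ℕ) × ℕ))
    (f1 M : List (List ℕ))
    (h : chk upP dnP (Ts2 TL c) (tb2 TL c) (l.map Prod.snd) f1 M = true)
    (h' : chks (E2 TL (de2 c)) (tk2 c) (Ts2 TL c) l = true) : CK2 TL c :=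
  ⟨_, f1, M, h, chks_spec l h'⟩

theorem ck1_mk {TL : List (List Tab)} {kk m : ℕ} (l : List (List (ℕ × List ℕ) × ℕ))
    (f1 M : List (List ℕ))
    (h : chk up1 dn1 (Ts1 TL kk m) (tb1 TL kk m) (l.map Prod.snd) f1 M = true)
    (h' : chks (E1 TL m (Nat.sub (Nat.add kk m) 1)) (tk1 kk m) (Ts1 TL kk m) l = true) :
    CK1 TL kk m :=
  ⟨_, f1, M, h, chks_spec l h'⟩

/-- The relations of a node. -/
noncomputable def RL (up dn : ℕ → ℕ → ℕ) (Ts : List Tab) (r2 : List ℕ) (f1 : List (List ℕ)) :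
    List ℕ :=
  rels up dn Ts (15 * rep (offT Ts (lenn Ts))) (4095 * rep (offT Ts (lenn Ts))) r2 f1

/-- The check of the block `i`. -/
noncomputable def LB (up dn : ℕ → ℕ → ℕ) (Ts : List Tab) (T : Tab) (r2 : List ℕ)
    (f1 : List (List ℕ)) (Mi : List ℕ) (i : ℕ) : Bool :=
  lrow (RL up dn Ts r2 f1) (units Ts T) (8191 * rep (offT Ts (lenn Ts))) (nth T.L [] i) Mi
    (Nat.add 3000000 (Nat.mul 1000 i)) (Nat.shiftLeft 4 (Nat.mul 16 (offT Ts i)))

/-- The check of the sizes. -/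
noncomputable def SB (up dn : ℕ → ℕ → ℕ) (Ts : List Tab) (T : Tab) (r2 : List ℕ)
    (f1 : List (List ℕ)) : Bool :=
  chkS Ts T (RL up dn Ts r2 f1) (units Ts T) (7 * rep T.d)

/-- The parts of the check. -/
theorem chk_of_parts {up dn : ℕ → ℕ → ℕ} {Ts : List Tab} {T : Tab} {r2 : List ℕ}
    {f1 M : List (List ℕ)} (hS : SB up dn Ts T r2 f1 = true)
    (hL : ∀ i < Ts.length, LB up dn Ts T r2 f1 (nth M [] i) i = true)
    (hR : chkR up dn Ts T (8191 * rep T.d) = true) : chk up dn Ts T r2 f1 M = true := by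
  have hL' : chkL Ts T (RL up dn Ts r2 f1) (units Ts T) (8191 * rep (offT Ts (lenn Ts))) M =
      true := by
    unfold chkL
    refine (fix_and (fun a _ => lrow (RL up dn Ts r2 f1) (units Ts T)
      (8191 * rep (offT Ts (lenn Ts))) (nth T.L [] a) (nth M [] a)
      (Nat.add 3000000 (Nat.mul 1000 a)) (Nat.shiftLeft 4 (Nat.mul 16 (offT Ts a)))) Ts T0 0).mpr ?_
    intro j hj
    have e : 0 + j = j := Nat.zero_add j
    simp only [e]
    exact hL j hj
  show an (SB up dn Ts T r2 f1) (an (chkL Ts T (RL up dn Ts r2 f1) (units Ts T)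
    (8191 * rep (offT Ts (lenn Ts))) M) (chkR up dn Ts T (8191 * rep T.d))) = true
  rw [hS, hL', hR]
  rfl

theorem ck2_mk3 {TL : List (List (List Tab))} {c : ℕ} (l : List (List (ℕ × List ℕ) × ℕ))
    (f1 : List (List ℕ)) (M0 M1 M2 : List ℕ)
    (hS : SB upP dnP (Ts2 TL c) (tb2 TL c) (l.map Prod.snd) f1 = true)
    (h0 : LB upP dnP (Ts2 TL c) (tb2 TL c) (l.map Prod.snd) f1 M0 0 = true)
    (h1 : LB upP dnP (Ts2 TL c) (tb2 TL c) (l.map Prod.snd) f1 M1 1 = true)
    (h2 : LB upP dnP (Ts2 TL c) (tb2 TL c) (l.map Prod.snd) f1 M2 2 = true)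
    (hR : chkR upP dnP (Ts2 TL c) (tb2 TL c) (8191 * rep (tb2 TL c).d) = true)
    (h' : chks (E2 TL (de2 c)) (tk2 c) (Ts2 TL c) l = true) : CK2 TL c := by
  refine ⟨_, f1, [M0, M1, M2], chk_of_parts hS ?_ hR, chks_spec l h'⟩
  intro i hi
  have hi3 : i < 3 := hi
  interval_cases i
  · exact h0
  · exact h1
  · exact h2

/-- The condition on all blocks, as a list. -/
theorem forall_of_list {p : ℕ → Prop} {n : ℕ} (h : ∀ i ∈ List.range n, p i) : ∀ i < n, p i :=
  fun i hi => h i (List.mem_range.mpr hi)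

theorem ck1_mk3 {TL : List (List Tab)} {kk m : ℕ} (l : List (List (ℕ × List ℕ) × ℕ))
    (f1 M : List (List ℕ))
    (hS : SB up1 dn1 (Ts1 TL kk m) (tb1 TL kk m) (l.map Prod.snd) f1 = true)
    (hL : ∀ i < m + 1,
      LB up1 dn1 (Ts1 TL kk m) (tb1 TL kk m) (l.map Prod.snd) f1 (nth M [] i) i = true)
    (hR : chkR up1 dn1 (Ts1 TL kk m) (tb1 TL kk m) (8191 * rep (tb1 TL kk m).d) = true)
    (h' : chks (E1 TL m (Nat.sub (Nat.add kk m) 1)) (tk1 kk m) (Ts1 TL kk m) l = true) :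
    CK1 TL kk m := by
  refine ⟨_, f1, M, chk_of_parts hS ?_ hR, chks_spec l h'⟩
  intro i hi
  have e : (Ts1 TL kk m).length = m + 1 := by
    have h2 : ∀ n, (Nat.rec (motive := fun _ => List Tab) []
        (fun _ l => tb1 TL kk (Nat.sub m 1) :: l) n : List Tab).length = n := by
      intro n
      induction n with
      | zero => rfl
      | succ n ih =>
        show (List.length _) + 1 = n + 1
        rw [ih]
    show (List.length _) + 1 = m + 1
    rw [h2]
  exact hL i (by rw [← e]; exact hi)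

end Pool.Agent.Lib.H80F
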