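import Pool.Agent.Lib.H80F.G
import Pool.Agent.Lib.H80F.D4

/-!
# H80F, checks (generated)
-/

namespace Pool.Agent.Lib.H80F

set_option maxRecDepth 1000000

theorem ck1_6_3 : CK1 TL1 7 3 :=
  ck1_mk [([(0, []), (0, []), (0, [0, 1]), (0, [3, 0, 2])], (nat_lit 0x20000000100040000000400030004000100030002000300020003000400040003000100010004000100040004000400000000000100010003000000000004000000020000000000000001000000040004000400020002)),
  ([(0, []), (0, []), (0, [0, 1]), (0, [0, 3, 2])], (nat_lit 0x30000000000030000000000040003000100000002000100010000000300010001000000000001000200010004000300040003000200020000000200000004000300030001000000030003000300020003000100000002)),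
  ([(0, []), (0, []), (0, [2, 1]), (0, [0, 0, 3])], (nat_lit 0x10002000400000004000000000004000000010000000300000004000200000000000200010000000000020002000100020001000400040003000100030002000200000004000200020004000200040001000000030003))]
  [[(nat_lit 0x2071ffdff), (nat_lit 0), (nat_lit 0), (nat_lit 0)], [(nat_lit 0xb), (nat_lit 0), (nat_lit 0)], [(nat_lit 0x1), (nat_lit 0), (nat_lit 0)], [(nat_lit 0), (nat_lit 0), (nat_lit 0)]]
  [[(nat_lit 0xcc4187048e190c80b62029b), (nat_lit 0xc01014138a14e32110c04d2), (nat_lit 0xe00932d424140c24480a001), (nat_lit 0x4472182309a4100a491948c), (nat_lit 0xc01010621088cb8c3011521), (nat_lit 0xd95192620590d264b0888dc), (nat_lit 0x4170a4d345c2e33024918c8), (nat_lit 0xe00cb2d424140c24480a001), (nat_lit 0xe28186548c049060c2c080a), (nat_lit 0x102586103140a32884c8010), (nat_lit 0x596193245112892a13018e0), (nat_lit 0xcc0592424420a46e261444b), (nat_lit 0xe48018d06518216da2410db), (nat_lit 0xd248169c2e212105c48964a), (nat_lit 0x546d284331404032049060c),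 (nat_lit 0x4928242300031a710684258), (nat_lit 0x210d00cc919092019013703), (nat_lit 0x4b5124200a26cc61a04b889), (nat_lit 0x11885341426489231b8144d3), (nat_lit 0x486620492814913114a330a), (nat_lit 0x10381b11b50321850920a502), (nat_lit 0x4170a2542db8e33024898c8), (nat_lit 0x189102c42418da453709840), (nat_lit 0xb4502ca88c2a470124b054), (nat_lit 0xa32643030a12834d8920213), (nat_lit 0x10381b24891b40885c2e16da), (nat_lit 0x1310811a4a30c902300c884), (nat_lit 0), (nat_lit 0x118a02e390c70166410b71b), (nat_lit 0xb45088c4138a311905151c), (nat_lit 0x8920429851c20c4d3904092), (nat_lit 0x11885310c2522810596c900b), (nat_lit 0), (nat_lit 0), (nat_lit 0)],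
  [(nat_lit 0), (nat_lit 0), (nat_lit 0)],
  [(nat_lit 0), (nat_lit 0), (nat_lit 0)],
  [(nat_lit 0), (nat_lit 0), (nat_lit 0)]]
  (by decide +kernel) (by decide +kernel)

theorem sB5_4 : SB up1 dn1 (Ts1 TL1 6 4) (tb1 TL1 6 4) (lB5_4.map Prod.snd) fB5_4 = true := by
  decide +kernel

theorem bB5_4_0 : LB up1 dn1 (Ts1 TL1 6 4) (tb1 TL1 6 4) (lB5_4.map Prod.snd) fB5_4 mB5_4_0 0 = true ∧ LB up1 dn1 (Ts1 TL1 6 4) (tb1 TL1 6 4) (lB5_4.map Prod.snd) fB5_4 mB5_4_1 1 = true ∧ LB up1 dn1 (Ts1 TL1 6 4) (tb1 TL1 6 4) (lB5_4.map Prod.snd) fB5_4 mB5_4_2 2 = true ∧ LB up1 dn1 (Ts1 TL1 6 4) (tb1 TL1 6 4) (lB5_4.map Prod.snd) fB5_4 mB5_4_3 3 = true ∧ LB up1 dn1 (Ts1 TL1 6 4) (tb1 TL1 6 4) (lB5_4.map Prod.snd) fB5_4 mB5_4_4 4 = true := by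
  decide +kernel

theorem rB5_4 : chkR up1 dn1 (Ts1 TL1 6 4) (tb1 TL1 6 4) (8191 * rep (tb1 TL1 6 4).d) = true := by
  decide +kernel

theorem tB5_4_t : chks (E1 TL1 4 (Nat.sub (Nat.add 6 4) 1)) (tk1 6 4) (Ts1 TL1 6 4) lB5_4 = true := by
  decide +kernel

theorem sB4_5 : SB up1 dn1 (Ts1 TL1 5 5) (tb1 TL1 5 5) (lB4_5.map Prod.snd) fB4_5 = true := by
  decide +kernel

end Pool.Agent.Lib.H80F
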