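import Pool.Agent.Lib.H80F.G
import Pool.Agent.Lib.H80F.D4

/-!
# H80F, checks (generated)
-/

namespace Pool.Agent.Lib.H80F

set_option maxRecDepth 1000000

theorem bB4_5_4 : LB up1 dn1 (Ts1 TL1 5 5) (tb1 TL1 5 5) (lB4_5.map Prod.snd) fB4_5 mB4_5_4 4 = true ∧ LB up1 dn1 (Ts1 TL1 5 5) (tb1 TL1 5 5) (lB4_5.map Prod.snd) fB4_5 mB4_5_5 5 = true := by
  decide +kernel

theorem rB4_5 : chkR up1 dn1 (Ts1 TL1 5 5) (tb1 TL1 5 5) (8191 * rep (tb1 TL1 5 5).d) = true := by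
  decide +kernel

end Pool.Agent.Lib.H80F
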