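import Pool.Agent.Lib.H80F.G
import Pool.Agent.Lib.H80F.D4

/-!
# H80F, checks (generated)
-/

namespace Pool.Agent.Lib.H80F

set_option maxRecDepth 1000000

theorem bB5_5_0 : LB up1 dn1 (Ts1 TL1 6 5) (tb1 TL1 6 5) (lB5_5.map Prod.snd) fB5_5 mB5_5_0 0 = true ∧ LB up1 dn1 (Ts1 TL1 6 5) (tb1 TL1 6 5) (lB5_5.map Prod.snd) fB5_5 mB5_5_1 1 = true ∧ LB up1 dn1 (Ts1 TL1 6 5) (tb1 TL1 6 5) (lB5_5.map Prod.snd) fB5_5 mB5_5_2 2 = true ∧ LB up1 dn1 (Ts1 TL1 6 5) (tb1 TL1 6 5) (lB5_5.map Prod.snd) fB5_5 mB5_5_3 3 = true ∧ LB up1 dn1 (Ts1 TL1 6 5) (tb1 TL1 6 5) (lB5_5.map Prod.snd) fB5_5 mB5_5_4 4 = true ∧ LB up1 dn1 (Ts1 TL1 6 5) (tb1 TL1 6 5) (lB5_5.map Prod.snd) fB5_5 mB5_5_5 5 = true := by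
  decide +kernel

theorem rB5_5 : chkR up1 dn1 (Ts1 TL1 6 5) (tb1 TL1 6 5) (8191 * rep (tb1 TL1 6 5).d) = true := by
  decide +kernel

theorem tB5_5_t : chks (E1 TL1 5 (Nat.sub (Nat.add 6 5) 1)) (tk1 6 5) (Ts1 TL1 6 5) lB5_5 = true := by
  decide +kernel

theorem sB4_6 : SB up1 dn1 (Ts1 TL1 5 6) (tb1 TL1 5 6) (lB4_6.map Prod.snd) fB4_6 = true := by
  decide +kernel

end Pool.Agent.Lib.H80F
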