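import Pool.Agent.Lib.H80F.K1_00
import Pool.Agent.Lib.H80F.K1_01
import Pool.Agent.Lib.H80F.K1_02
import Pool.Agent.Lib.H80F.K1_03
import Pool.Agent.Lib.H80F.K1_04
import Pool.Agent.Lib.H80F.K1_05
import Pool.Agent.Lib.H80F.K1_06
import Pool.Agent.Lib.H80F.K1_07
import Pool.Agent.Lib.H80F.K1_08
import Pool.Agent.Lib.H80F.K1_09
import Pool.Agent.Lib.H80F.K1_10
import Pool.Agent.Lib.H80F.S1d

/-!
# H80F, all checks for commuting letters (generated)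
-/

namespace Pool.Agent.Lib.H80F

set_option maxRecDepth 1000000

theorem ck1_4_4 : CK1 TL1 5 4 := by
  refine ck1_mk3 lB4_4 fB4_4 [mB4_4_0, mB4_4_1, mB4_4_2, mB4_4_3, mB4_4_4] sB4_4 ?_ rB4_4 tB4_4_t
  intro i hi
  have hi2 : i < 5 := hi
  clear hi
  interval_cases i
  · exact bB4_4_0.1
  · exact bB4_4_0.2.1
  · exact bB4_4_0.2.2.1
  · exact bB4_4_0.2.2.2.1
  · exact bB4_4_0.2.2.2.2

theorem ck1_3_5 : CK1 TL1 4 5 := by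
  refine ck1_mk3 lB3_5 fB3_5 [mB3_5_0, mB3_5_1, mB3_5_2, mB3_5_3, mB3_5_4, mB3_5_5] sB3_5 ?_ rB3_5 tB3_5_t
  intro i hi
  have hi2 : i < 6 := hi
  clear hi
  interval_cases i
  · exact bB3_5_0.1
  · exact bB3_5_0.2.1
  · exact bB3_5_0.2.2.1
  · exact bB3_5_0.2.2.2.1
  · exact bB3_5_0.2.2.2.2.1
  · exact bB3_5_0.2.2.2.2.2

theorem ck1_5_4 : CK1 TL1 6 4 := by
  refine ck1_mk3 lB5_4 fB5_4 [mB5_4_0, mB5_4_1, mB5_4_2, mB5_4_3, mB5_4_4] sB5_4 ?_ rB5_4 tB5_4_t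
  intro i hi
  have hi2 : i < 5 := hi
  clear hi
  interval_cases i
  · exact bB5_4_0.1
  · exact bB5_4_0.2.1
  · exact bB5_4_0.2.2.1
  · exact bB5_4_0.2.2.2.1
  · exact bB5_4_0.2.2.2.2

theorem ck1_4_5 : CK1 TL1 5 5 := by
  refine ck1_mk3 lB4_5 fB4_5 [mB4_5_0, mB4_5_1, mB4_5_2, mB4_5_3, mB4_5_4, mB4_5_5] sB4_5 ?_ rB4_5 tB4_5_t
  intro i hi
  have hi2 : i < 6 := hi
  clear hi
  interval_cases i
  · exact bB4_5_0.1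
  · exact bB4_5_0.2
  · exact bB4_5_2.1
  · exact bB4_5_2.2
  · exact bB4_5_4.1
  · exact bB4_5_4.2

theorem ck1_3_6 : CK1 TL1 4 6 := by
  refine ck1_mk3 lB3_6 fB3_6 [mB3_6_0, mB3_6_1, mB3_6_2, mB3_6_3, mB3_6_4, mB3_6_5, mB3_6_6] sB3_6 ?_ rB3_6 tB3_6_t
  intro i hi
  have hi2 : i < 7 := hi
  clear hi
  interval_cases i
  · exact bB3_6_0.1
  · exact bB3_6_0.2.1
  · exact bB3_6_0.2.2.1
  · exact bB3_6_0.2.2.2.1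
  · exact bB3_6_0.2.2.2.2.1
  · exact bB3_6_0.2.2.2.2.2.1
  · exact bB3_6_0.2.2.2.2.2.2

theorem ck1_5_5 : CK1 TL1 6 5 := by
  refine ck1_mk3 lB5_5 fB5_5 [mB5_5_0, mB5_5_1, mB5_5_2, mB5_5_3, mB5_5_4, mB5_5_5] sB5_5 ?_ rB5_5 tB5_5_t
  intro i hi
  have hi2 : i < 6 := hi
  clear hi
  interval_cases i
  · exact bB5_5_0.1
  · exact bB5_5_0.2.1
  · exact bB5_5_0.2.2.1
  · exact bB5_5_0.2.2.2.1
  · exact bB5_5_0.2.2.2.2.1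
  · exact bB5_5_0.2.2.2.2.2

theorem ck1_4_6 : CK1 TL1 5 6 := by
  refine ck1_mk3 lB4_6 fB4_6 [mB4_6_0, mB4_6_1, mB4_6_2, mB4_6_3, mB4_6_4, mB4_6_5, mB4_6_6] sB4_6 ?_ rB4_6 tB4_6_t
  intro i hi
  have hi2 : i < 7 := hi
  clear hi
  interval_cases i
  · exact bB4_6_0.1
  · exact bB4_6_0.2.1
  · exact bB4_6_0.2.2.1
  · exact bB4_6_0.2.2.2.1
  · exact bB4_6_0.2.2.2.2.1
  · exact bB4_6_0.2.2.2.2.2.1
  · exact bB4_6_0.2.2.2.2.2.2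

theorem k1c_0 : ∀ c ∈ ([48, 33, 64, 49, 34, 19, 80, 65, 50, 35, 20, 96, 81, 66, 51, 36, 21, 112, 97, 82] : List ℕ), CK1 TL1 (c / 16) (c % 16) :=
  List.forall_mem_cons.2 ⟨ck1_2_0, List.forall_mem_cons.2 ⟨ck1_1_1, List.forall_mem_cons.2 ⟨ck1_3_0, List.forall_mem_cons.2 ⟨ck1_2_1, List.forall_mem_cons.2 ⟨ck1_1_2, List.forall_mem_cons.2 ⟨ck1_0_3, List.forall_mem_cons.2 ⟨ck1_4_0, List.forall_mem_cons.2 ⟨ck1_3_1, List.forall_mem_cons.2 ⟨ck1_2_2, List.forall_mem_cons.2 ⟨ck1_1_3, List.forall_mem_cons.2 ⟨ck1_0_4, List.forall_mem_cons.2 ⟨ck1_5_0, List.forall_mem_cons.2 ⟨ck1_4_1, List.forall_mem_cons.2 ⟨ck1_3_2, List.forall_mem_cons.2 ⟨ck1_2_3, List.forall_mem_cons.2 ⟨ck1_1_4, List.forall_mem_cons.2 ⟨ck1_0_5, List.forall_mem_cons.2 ⟨ck1_6_0, List.forall_mem_cons.2 ⟨ck1_5_1, List.forall_mem_cons.2 ⟨ck1_4_2, List.forall_mem_nil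 _⟩⟩⟩⟩⟩⟩⟩⟩⟩⟩⟩⟩⟩⟩⟩⟩⟩⟩⟩⟩

theorem k1c_1 : ∀ c ∈ ([67, 52, 37, 22, 128, 113, 98, 83, 68, 53, 38, 23, 129, 114, 99, 84, 69, 54, 39, 130] : List ℕ), CK1 TL1 (c / 16) (c % 16) :=
  List.forall_mem_cons.2 ⟨ck1_3_3, List.forall_mem_cons.2 ⟨ck1_2_4, List.forall_mem_cons.2 ⟨ck1_1_5, List.forall_mem_cons.2 ⟨ck1_0_6, List.forall_mem_cons.2 ⟨ck1_7_0, List.forall_mem_cons.2 ⟨ck1_6_1, List.forall_mem_cons.2 ⟨ck1_5_2, List.forall_mem_cons.2 ⟨ck1_4_3, List.forall_mem_cons.2 ⟨ck1_3_4, List.forall_mem_cons.2 ⟨ck1_2_5, List.forall_mem_cons.2 ⟨ck1_1_6, List.forall_mem_cons.2 ⟨ck1_0_7, List.forall_mem_cons.2 ⟨ck1_7_1, List.forall_mem_cons.2 ⟨ck1_6_2, List.forall_mem_cons.2 ⟨ck1_5_3, List.forall_mem_cons.2 ⟨ck1_4_4, List.forall_mem_cons.2 ⟨ck1_3_5, List.forall_mem_cons.2 ⟨ck1_2_6, List.forall_mem_cons.2 ⟨ck1_1_7, List.forall_mem_cons.2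 ⟨ck1_7_2, List.forall_mem_nil _⟩⟩⟩⟩⟩⟩⟩⟩⟩⟩⟩⟩⟩⟩⟩⟩⟩⟩⟩⟩

theorem k1c_2 : ∀ c ∈ ([115, 100, 85, 70, 55, 131, 116, 101, 86, 71, 132, 117, 102, 87, 133, 118, 103] : List ℕ), CK1 TL1 (c / 16) (c % 16) :=
  List.forall_mem_cons.2 ⟨ck1_6_3, List.forall_mem_cons.2 ⟨ck1_5_4, List.forall_mem_cons.2 ⟨ck1_4_5, List.forall_mem_cons.2 ⟨ck1_3_6, List.forall_mem_cons.2 ⟨ck1_2_7, List.forall_mem_cons.2 ⟨ck1_7_3, List.forall_mem_cons.2 ⟨ck1_6_4, List.forall_mem_cons.2 ⟨ck1_5_5, List.forall_mem_cons.2 ⟨ck1_4_6, List.forall_mem_cons.2 ⟨ck1_3_7, List.forall_mem_cons.2 ⟨ck1_7_4, List.forall_mem_cons.2 ⟨ck1_6_5, List.forall_mem_cons.2 ⟨ck1_5_6, List.forall_mem_cons.2 ⟨ck1_4_7, List.forall_mem_cons.2 ⟨ck1_7_5, List.forall_mem_cons.2 ⟨ck1_6_6, List.forall_mem_cons.2 ⟨ck1_5_7, List.forall_mem_nil _⟩⟩⟩⟩⟩⟩⟩⟩⟩⟩⟩⟩⟩⟩⟩⟩⟩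

theorem k1_cover : (List.range 144).all (fun c => !(av1 (c / 16) (c % 16)) ||
    (!(Nat.ble 2 (c / 16 - 1 + c % 16)) || (Nat.beq c 18 || (([48, 33, 64, 49, 34, 19, 80, 65, 50, 35, 20, 96, 81, 66, 51, 36, 21, 112, 97, 82] : List ℕ).contains c ||
    (([67, 52, 37, 22, 128, 113, 98, 83, 68, 53, 38, 23, 129, 114, 99, 84, 69, 54, 39, 130] : List ℕ).contains c ||
    (([115, 100, 85, 70, 55, 131, 116, 101, 86, 71, 132, 117, 102, 87, 133, 118, 103] : List ℕ).contains c)))))) = true := by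
  decide +kernel

theorem ck1_all (kk m : ℕ) (hc : av1 kk m = true) (h2 : 2 ≤ kk - 1 + m) (h3 : ¬(kk = 1 ∧ m = 2)) :
    CK1 TL1 kk m := by
  have h4 := s1d_av.mp hc
  have e1 : (16 * kk + m) / 16 = kk := by omega
  have e2 : (16 * kk + m) % 16 = m := by omega
  have h5 := List.all_eq_true.mp k1_cover (16 * kk + m) (List.mem_range.mpr (by omega))
  rw [e1, e2, hc] at h5
  simp only [Bool.or_eq_true, Bool.not_eq_true', List.contains_iff_mem] at h5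
  rcases h5 with h | h | h | h | h | h
  · exact absurd h (by decide)
  · rw [Nat.ble_eq_true_of_le h2] at h
    exact absurd h (by decide)
  · have := Nat.eq_of_beq_eq_true h
    omega
  · have h6 := k1c_0 _ h
    rwa [e1, e2] at h6
  · have h6 := k1c_1 _ h
    rwa [e1, e2] at h6
  · have h6 := k1c_2 _ h
    rwa [e1, e2] at h6

end Pool.Agent.Lib.H80F
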