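import Pool.Agent.Lib.H80F.S2

/-!
# H80F, S1: the system with one letter `x` and commuting letters (definitions)

The node `(k, m)` has the labels `0` (the letter `x`, `k` times) and `1, ..., m` (the elements of a
tuple `v` of length `m`, once each). In the tables and values the first index is `k + 1` (`0` stands for
an absent node). The code of a subword is `256 k + s`, with the bit mask `s` of the elements of `v`
which occur.
-/

namespace Pool.Agent.Lib.H80F

/-- The empty table with `m + 1` labels. -/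
noncomputable def z1 (m : ℕ) : Tab :=
  ⟨0, Nat.rec (motive := fun _ => List ℕ) [0] (fun _ l => 0 :: l) m,
    Nat.rec (motive := fun _ => List (List ℕ)) [[]] (fun _ l => [] :: l) m,
    Nat.rec (motive := fun _ => List (List ℕ)) [[]] (fun _ l => [] :: l) m⟩

/-- The table of a node, `kk = k + 1`; `TL` contains the tables for `kk = 1, ...`. -/
noncomputable def tb1 (TL : List (List Tab)) (kk m : ℕ) : Tab :=
  nth (Nat.rec (motive := fun _ => List Tab) [] (fun k _ => nth TL [] k) kk) (z1 m) m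

/-- The tables of the predecessors. -/
noncomputable def Ts1 (TL : List (List Tab)) (kk m : ℕ) : List Tab :=
  tb1 TL (Nat.sub kk 1) m ::
    Nat.rec (motive := fun _ => List Tab) [] (fun _ l => tb1 TL kk (Nat.sub m 1) :: l) m

/-- The label in the node of the label `a` of the predecessor `b`. -/
noncomputable def up1 (b a : ℕ) : ℕ :=
  Nat.rec (motive := fun _ => ℕ) a
    (fun _ _ => Nat.rec (motive := fun _ => ℕ) 0
      (fun _ _ => Bool.rec (motive := fun _ => ℕ) (Nat.add a 1) a (Nat.ble (Nat.add a 1) b)) a) b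

/-- The label of `b` in the predecessor `up1 b a`. -/
noncomputable def dn1 (b a : ℕ) : ℕ :=
  Nat.rec (motive := fun _ => ℕ) 0
    (fun b' _ => Nat.rec (motive := fun _ => ℕ) b
      (fun _ _ => Bool.rec (motive := fun _ => ℕ) b b' (Nat.ble (Nat.add a 1) b)) a) b

/-- The available nodes: `k ≤ 6, m ≤ 6`; `k = 7, m ≤ 5`; `k ≤ 5, m = 7`. -/
noncomputable def av1 (kk m : ℕ) : Bool :=
  an (Nat.ble 1 kk) (Bool.rec (motive := fun _ => Bool)
    (Bool.rec (motive := fun _ => Bool) (an (Nat.ble kk 6) (Nat.ble m 7))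
      (Nat.ble m 5) (Nat.beq kk 8))
    true (an (Nat.ble kk 7) (Nat.ble m 6)))

/-- The number of bits, for `s < 128`. -/
noncomputable def pop (s : ℕ) : ℕ :=
  Nat.add (Nat.mod s 2) (Nat.add (Nat.mod (Nat.div s 2) 2) (Nat.add (Nat.mod (Nat.div s 4) 2)
    (Nat.add (Nat.mod (Nat.div s 8) 2) (Nat.add (Nat.mod (Nat.div s 16) 2)
      (Nat.add (Nat.mod (Nat.div s 32) 2) (Nat.mod (Nat.div s 64) 2))))))

/-- The units. -/
noncomputable def un1 (a : ℕ) : ℕ :=
  Nat.rec (motive := fun _ => ℕ) 256 (fun t _ => Nat.pow 2 t) a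

/-- The environment for a tuple of length `m`, for words of degree less than `D`. -/
noncomputable def E1 (TL : List (List Tab)) (m D : ℕ) : Env where
  tb := fun c => tb1 TL (Nat.add (Nat.div c 256) 1) (pop (Nat.mod c 256))
  un := un1
  rk := fun c a => Nat.rec (motive := fun _ => ℕ) 0
    (fun t _ => Nat.add 1 (pop (Nat.mod (Nat.mod c 256) (Nat.pow 2 t)))) a
  ok := fun c a => an (Nat.ble a m) (an (Nat.ble (Nat.add (Nat.mod c 256) 1) (Nat.pow 2 m))
    (Nat.rec (motive := fun _ => Bool)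
      (an (av1 (Nat.add (Nat.div c 256) 2) (pop (Nat.mod c 256)))
        (Nat.ble (Nat.add (Nat.add (Nat.div c 256) 2) (pop (Nat.mod c 256))) D))
      (fun t _ => an (Nat.beq (Nat.mod (Nat.div (Nat.mod c 256) (Nat.pow 2 t)) 2) 0)
        (an (av1 (Nat.add (Nat.div c 256) 1) (Nat.add (pop (Nat.mod c 256)) 1))
        (Nat.ble (Nat.add (Nat.add (Nat.div c 256) 2) (pop (Nat.mod c 256))) D))) a))

/-- The test for the last letter: the whole word has code `256 (kk - 1) + 2 ^ m - 1`. -/
noncomputable def tk1 (kk m c j : ℕ) : Bool :=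
  an (Nat.ble j m) (an (Nat.ble (Nat.add (Nat.mod c 256) 1) (Nat.pow 2 m))
    (Nat.beq (Nat.add (Nat.add c (un1 j)) 257) (Nat.add (Nat.mul 256 kk) (Nat.pow 2 m))))

/-- The check of a node. -/
def CK1 (TL : List (List Tab)) (kk m : ℕ) : Prop :=
  ∃ (r2 : List ℕ) (f1 M : List (List ℕ)),
    chk up1 dn1 (Ts1 TL kk m) (tb1 TL kk m) r2 f1 M = true ∧
    ∀ v ∈ r2, ∃ p q r s : ℕ × List ℕ,
      chk4 (E1 TL m (Nat.sub (Nat.add kk m) 1)) (tk1 kk m) (Ts1 TL kk m) p q r s v = true

/-- The check of the node `(0, 2)`, with the relation `v₀ v₁ = v₁ v₀`. -/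
def CKc (TL : List (List Tab)) : Prop :=
  ∃ (f1 M : List (List ℕ)), chk up1 dn1 (Ts1 TL 1 2) (tb1 TL 1 2) [262145] f1 M = true

/-- The values of the letters. -/
def lb {A : Type} (x : A) (v : List A) : ℕ → A
  | 0 => x
  | t + 1 => v.getD t x

/-- The values of the nodes, with the degree as fuel. -/
noncomputable def V1 {A : Type} [Ring A] (TL : List (List Tab)) (x : A) :
    ℕ → ℕ → List A → List A
  | 0, kk, v => if kk = 1 ∧ v = [] then [1] else []
  | n + 1, kk, v => nv (v.length + 1) (lb x v)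
      (fun a => Nat.rec (motive := fun _ => List A) (V1 TL x n (kk - 1) v)
        (fun t _ => V1 TL x n kk (v.eraseIdx t)) a) (tb1 TL kk v.length).bm

/-- The predecessors. -/
noncomputable def U1 {A : Type} [Ring A] (TL : List (List Tab)) (x : A) (n kk : ℕ)
    (v : List A) (a : ℕ) : List A :=
  Nat.rec (motive := fun _ => List A) (V1 TL x n (kk - 1) v)
    (fun t _ => V1 TL x n kk (v.eraseIdx t)) a

/-- The tables of degree at most one, and the shape of the list. -/
structure Low1 (TL : List (List Tab)) : Prop where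
  t0 : (tb1 TL 1 0).d = 1
  t1 : tb1 TL 2 0 = ⟨1, [1], [[1]], [[1]]⟩
  t2 : tb1 TL 1 1 = ⟨1, [0, 1], [[], [1]], [[], [1]]⟩

/-- The nodes without values. -/
structure Zero1 (TL : List (List Tab)) : Prop where
  a : ∀ m ≤ 5, (tb1 TL 8 m).d = 0
  b : (tb1 TL 7 6).d = 0
  c : ∀ kk, 1 ≤ kk → kk ≤ 6 → (tb1 TL kk 7).d = 0

end Pool.Agent.Lib.H80F
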