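import Pool.Agent.Lib.H80F.S1
import Pool.Agent.Lib.H80F.B3c3
import Pool.Agent.Lib.H80F.B4b3

/-!
# H80F, S1a: labels, erasing
-/

namespace Pool.Agent.Lib.H80F

theorem up1_eq (b a : ℕ) : up1 b a = if b = 0 then a else if a = 0 then 0 else
    if a < b then a else a + 1 := by
  cases b with
  | zero => rfl
  | succ b =>
    cases a with
    | zero => rfl
    | succ a =>
      have e : up1 (b + 1) (a + 1) = Bool.rec (motive := fun _ => ℕ) (Nat.add (a + 1) 1) (a + 1)
        (Nat.ble (Nat.add (a + 1) 1) (b + 1)) := rfl
      rw [e, if_neg (Nat.succ_ne_zero b), if_neg (Nat.succ_ne_zero a)]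
      cases h : Nat.ble (Nat.add (a + 1) 1) (b + 1)
      · have h' : ¬ (a + 1 < b + 1) := by
          intro h2
          have h3 : Nat.ble (Nat.add (a + 1) 1) (b + 1) = true := Nat.ble_eq_true_of_le h2
          rw [h] at h3
          exact absurd h3 (by decide)
        rw [if_neg h']
      · have h' : a + 1 < b + 1 := Nat.le_of_ble_eq_true h
        rw [if_pos h']

theorem dn1_eq (b a : ℕ) : dn1 b a = if b = 0 then 0 else if a = 0 then b else
    if a < b then b - 1 else b := by
  cases b with
  | zero => rfl
  | succ b =>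
    cases a with
    | zero => rfl
    | succ a =>
      have e : dn1 (b + 1) (a + 1) = Bool.rec (motive := fun _ => ℕ) (b + 1) b
        (Nat.ble (Nat.add (a + 1) 1) (b + 1)) := rfl
      rw [e, if_neg (Nat.succ_ne_zero b), if_neg (Nat.succ_ne_zero a)]
      cases h : Nat.ble (Nat.add (a + 1) 1) (b + 1)
      · have h' : ¬ (a + 1 < b + 1) := by
          intro h2
          have h3 : Nat.ble (Nat.add (a + 1) 1) (b + 1) = true := Nat.ble_eq_true_of_le h2
          rw [h] at h3
          exact absurd h3 (by decide)
        rw [if_neg h']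
      · have h' : a + 1 < b + 1 := Nat.le_of_ble_eq_true h
        rw [if_pos h']
        rfl

theorem up1_dn1 (b a : ℕ) : up1 (up1 b a) (dn1 b a) = b := by
  simp only [up1_eq, dn1_eq]
  split_ifs <;> first | omega | contradiction

theorem up1_lt {b a m : ℕ} (hb : 1 ≤ b) (hb' : b ≤ m) (ha : a < m) :
    up1 b a < m + 1 ∧ dn1 b a < (if a = 0 then m + 1 else m) := by
  simp only [up1_eq, dn1_eq]
  constructor <;> split_ifs <;> first | omega | contradiction

/-- Erasing the two elements in the other order (`b = t + 1`, `a = s + 1`). -/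
theorem erase_erase {X : Type} (v : List X) {t s : ℕ} (ht : t < v.length)
    (hs : s + 1 < v.length) :
    (v.eraseIdx t).eraseIdx s = (v.eraseIdx (up1 (t + 1) (s + 1) - 1)).eraseIdx
      (dn1 (t + 1) (s + 1) - 1) := by
  have e1 : up1 (t + 1) (s + 1) - 1 = if s < t then s else s + 1 := by
    simp only [up1_eq]
    split_ifs <;> first | omega | contradiction
  have e2 : dn1 (t + 1) (s + 1) - 1 = if s < t then t - 1 else t := by
    simp only [dn1_eq]
    split_ifs <;> first | omega | contradiction
  rw [e1, e2]
  apply List.ext_getElem?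
  intro i
  simp only [List.getElem?_eraseIdx]
  split_ifs <;> first | rfl | omega | contradiction | (congr 1; omega)

/-- The letters of a predecessor. -/
theorem lb_erase {A : Type} (x : A) (v : List A) {t a : ℕ} (ht : t < v.length)
    (ha : a < v.length) : lb x (v.eraseIdx t) a = lb x v (up1 (t + 1) a) := by
  cases a with
  | zero => rfl
  | succ s =>
    have e1 : up1 (t + 1) (s + 1) = (if s < t then s else s + 1) + 1 := by
      simp only [up1_eq]
      split_ifs <;> first | omega | contradiction
    rw [e1]
    show (v.eraseIdx t).getD s x = v.getD (if s < t then s else s + 1) x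
    rw [List.getD_eq_getElem?_getD, List.getD_eq_getElem?_getD, List.getElem?_eraseIdx]
    split_ifs <;> rfl

/-- `NodeOK` depends only on the labels `a < n`. -/
theorem NodeOK.congr {A : Type} [Ring A] {n : ℕ} {x x' : ℕ → A} {U U' : ℕ → List A} {T : Tab}
    {V : List A} (h : NodeOK n x U T V) (hx : ∀ a < n, x a = x' a) (hU : ∀ a < n, U a = U' a) :
    NodeOK n x' U' T V := by
  have hnv : nv n x U T.bm = nv n x' U' T.bm := by
    unfold nv
    rw [List.flatMap_def, List.flatMap_def]
    refine congrArg List.flatten (List.map_congr_left fun a ha => ?_)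
    rw [List.mem_range] at ha
    rw [hx a ha, hU a ha]
  exact ⟨h.val.trans hnv, h.bm, h.len, h.d, h.bL, h.bR,
    fun a ha => by rw [← hx a ha, ← hU a ha]; exact h.left a ha,
    fun a ha => by rw [← hx a ha, ← hU a ha]; exact h.right a ha⟩

end Pool.Agent.Lib.H80F
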