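import Pool.Agent.Lib.H80F.S1a1

/-!
# H80F, S1a: bit masks
-/

namespace Pool.Agent.Lib.H80F

/-- The number of ones among the last `n` bits. -/
def s1a2_pc : ℕ → ℕ → ℕ
  | 0, _ => 0
  | n + 1, s => s % 2 + s1a2_pc n (s / 2)

theorem s1a2_pop (s : ℕ) : pop s = s1a2_pc 7 s := by
  have e : pop s = s % 2 + (s / 2 % 2 + (s / 4 % 2 + (s / 8 % 2 + (s / 16 % 2 + (s / 32 % 2
    + s / 64 % 2))))) := rfl
  rw [e]
  simp only [s1a2_pc, Nat.div_div_eq_div_mul]
  norm_num

theorem s1a2_len {X : Type} (v : List X) : ∀ {s : ℕ}, s < 2 ^ v.length → ∀ {n : ℕ}, s < 2 ^ n →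
    (sel v s).length = s1a2_pc n s := by
  induction v with
  | nil =>
    intro s hs n hn
    have h0 : s = 0 := by
      simp only [List.length_nil, pow_zero] at hs
      omega
    subst h0
    have : ∀ n, s1a2_pc n 0 = 0 := by
      intro n
      induction n with
      | zero => rfl
      | succ n ih =>
        show 0 % 2 + s1a2_pc n (0 / 2) = 0
        rw [Nat.zero_div, ih]
    rw [this]
    rfl
  | cons y v ih =>
    intro s hs n hn
    rw [List.length_cons, pow_succ] at hs
    rw [sel_cons]
    cases n with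
    | zero =>
      have h0 : s = 0 := by
        rw [pow_zero] at hn
        omega
      subst h0
      rw [if_neg (by decide)]
      exact ih (s := 0) (n := 0) (by positivity) (by decide)
    | succ n =>
      rw [pow_succ] at hn
      have h2 := ih (s := s / 2) (n := n) (by omega) (by omega)
      show _ = s % 2 + s1a2_pc n (s / 2)
      split_ifs with h1
      · rw [List.length_cons, h2, h1, add_comm]
      · rw [h2]
        omega

theorem s1a2_zero {X : Type} (v : List X) : sel v 0 = [] := by
  induction v with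
  | nil => rfl
  | cons y v ih =>
    rw [sel_cons, if_neg (by decide)]
    exact ih

theorem s1a2_add {X : Type} (x : X) (v : List X) : ∀ {s t : ℕ}, s < 2 ^ v.length → t < v.length →
    s / 2 ^ t % 2 = 0 →
    (sel v (s + 2 ^ t)).eraseIdx (sel v (s % 2 ^ t)).length = sel v s ∧
      (sel v (s + 2 ^ t)).getD (sel v (s % 2 ^ t)).length x = v.getD t x ∧
      (sel v (s % 2 ^ t)).length < (sel v (s + 2 ^ t)).length ∧ s + 2 ^ t < 2 ^ v.length ∧
      (sel v (s + 2 ^ t)).length = (sel v s).length + 1 := by
  induction v with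
  | nil =>
    intro s t _ ht _
    exact absurd ht (Nat.not_lt_zero _)
  | cons y v ih =>
    intro s t hs ht h0
    rw [List.length_cons, pow_succ] at hs
    rw [List.length_cons, pow_succ]
    cases t with
    | zero =>
      rw [pow_zero, Nat.div_one] at h0
      rw [pow_zero, Nat.mod_one, s1a2_zero, List.length_nil, sel_cons, sel_cons,
        if_pos (show (s + 1) % 2 = 1 by omega), if_neg (show ¬ s % 2 = 1 by omega),
        show (s + 1) / 2 = s / 2 by omega]
      refine ⟨rfl, rfl, Nat.zero_lt_succ _, by omega, rfl⟩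
    | succ t =>
      have e1 : 2 ^ (t + 1) = 2 ^ t * 2 := pow_succ 2 t
      have h0' : s / 2 / 2 ^ t % 2 = 0 := by
        rw [Nat.div_div_eq_div_mul, mul_comm, ← e1]
        exact h0
      obtain ⟨i1, i2, i3, i4, i5⟩ := ih (s := s / 2) (t := t) (by omega) (by
        rw [List.length_cons] at ht
        omega) h0'
      have e2 : (s + 2 ^ (t + 1)) % 2 = s % 2 := by omega
      have e3 : (s + 2 ^ (t + 1)) / 2 = s / 2 + 2 ^ t := by omega
      have e4 : s % 2 ^ (t + 1) % 2 = s % 2 := by
        rw [e1, mul_comm]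
        exact Nat.mod_mul_right_mod s 2 (2 ^ t)
      have e5 : s % 2 ^ (t + 1) / 2 = s / 2 % 2 ^ t := by
        rw [e1, mul_comm]
        exact Nat.mod_mul_right_div_self s 2 (2 ^ t)
      rw [sel_cons, sel_cons y v s, sel_cons y v (s % 2 ^ (t + 1)), e2, e3, e4, e5]
      split_ifs with h1
      · refine ⟨?_, ?_, ?_, by omega, ?_⟩
        · rw [List.length_cons, List.eraseIdx_cons_succ, i1]
        · rw [List.length_cons, List.getD_cons_succ, i2, List.getD_cons_succ]
        · rw [List.length_cons, List.length_cons]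
          omega
        · rw [List.length_cons, List.length_cons, i5]
      · exact ⟨i1, by rw [i2, List.getD_cons_succ], i3, by omega, i5⟩

theorem pop_eq {s : ℕ} (hs : s < 128) {X : Type} (v : List X) (h : s < 2 ^ v.length) :
    (sel v s).length = pop s := by
  rw [s1a2_pop]
  exact s1a2_len v h (n := 7) (by norm_num; exact hs)

/-- Adding an element to a selection: the bit `t` of `s` is `0`. -/
theorem sel_add {X : Type} (v : List X) (x : X) {s t : ℕ} (hs : s < 2 ^ v.length) (hs' : s < 128)
    (ht : t < v.length) (ht' : v.length ≤ 7) (h0 : s / 2 ^ t % 2 = 0) :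
    (sel v (s + 2 ^ t)).eraseIdx (pop (s % 2 ^ t)) = sel v s ∧
      (sel v (s + 2 ^ t)).getD (pop (s % 2 ^ t)) x = v.getD t x ∧
      pop (s % 2 ^ t) < (sel v (s + 2 ^ t)).length ∧ s + 2 ^ t < 2 ^ v.length ∧
      pop (s + 2 ^ t) = pop s + 1 := by
  obtain ⟨i1, i2, i3, i4, i5⟩ := s1a2_add x v hs ht h0
  have hp : 2 ^ v.length ≤ 128 := by
    calc 2 ^ v.length ≤ 2 ^ 7 := Nat.pow_le_pow_right (by norm_num) ht'
      _ = 128 := by norm_num
  have hm : s % 2 ^ t ≤ s := Nat.mod_le _ _
  have e1 : pop (s % 2 ^ t) = (sel v (s % 2 ^ t)).length :=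
    (pop_eq (by omega) v (by omega)).symm
  rw [e1, ← pop_eq hs' v hs, ← pop_eq (s := s + 2 ^ t) (by omega) v i4]
  exact ⟨i1, i2, i3, i4, i5⟩

/-- Selecting everything, and everything but one element. -/
theorem sel_all {X : Type} (v : List X) : sel v (2 ^ v.length - 1) = v := by
  induction v with
  | nil => rfl
  | cons y v ih =>
    have hp : 0 < 2 ^ v.length := by positivity
    rw [List.length_cons, pow_succ, sel_cons, if_pos (by omega),
      show (2 ^ v.length * 2 - 1) / 2 = 2 ^ v.length - 1 by omega, ih]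

theorem sel_all_sub {X : Type} (v : List X) {t : ℕ} (ht : t < v.length) :
    sel v (2 ^ v.length - 1 - 2 ^ t) = v.eraseIdx t := by
  induction v generalizing t with
  | nil => exact absurd ht (Nat.not_lt_zero _)
  | cons y v ih =>
    have hp : 0 < 2 ^ v.length := by positivity
    rw [List.length_cons, pow_succ, sel_cons]
    cases t with
    | zero =>
      rw [pow_zero, if_neg (by omega),
        show (2 ^ v.length * 2 - 1 - 1) / 2 = 2 ^ v.length - 1 by omega, sel_all]
      rfl
    | succ t =>
      have ht2 : t < v.length := by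
        rw [List.length_cons] at ht
        omega
      have hlt : 2 ^ t < 2 ^ v.length := Nat.pow_lt_pow_right (by norm_num) ht2
      have e1 : 2 ^ (t + 1) = 2 ^ t * 2 := pow_succ 2 t
      rw [e1, if_pos (by omega),
        show (2 ^ v.length * 2 - 1 - 2 ^ t * 2) / 2 = 2 ^ v.length - 1 - 2 ^ t by omega, ih ht2,
        List.eraseIdx_cons_succ]

end Pool.Agent.Lib.H80F
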