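import Pool.Agent.Lib.H80F.S1a2

/-!
# H80F, S1b: nodes of low degree
-/

namespace Pool.Agent.Lib.H80F

variable {A : Type} [Ring A] {TL : List (List Tab)}

theorem s1b1_nv_nil {n : ℕ} {x : ℕ → A} {U : ℕ → List A} {bm : List ℕ}
    (h : ∀ a < n, sel ((U a).map (fun v => x a * v)) (nth bm 0 a) = []) : nv n x U bm = [] := by
  unfold nv
  rw [List.flatMap_eq_nil_iff]
  intro a ha
  exact h a (List.mem_range.1 ha)

theorem s1b1_z_bm (m : ℕ) : (z1 m).bm = List.replicate (m + 1) 0 := by
  induction m with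
  | zero => rfl
  | succ m ih =>
    show 0 :: (z1 m).bm = _
    rw [ih]
    rfl

theorem s1b1_z_L (m : ℕ) : (z1 m).L = List.replicate (m + 1) [] := by
  induction m with
  | zero => rfl
  | succ m ih =>
    show [] :: (z1 m).L = _
    rw [ih]
    rfl

theorem s1b1_z_R (m : ℕ) : (z1 m).R = List.replicate (m + 1) [] := by
  induction m with
  | zero => rfl
  | succ m ih =>
    show [] :: (z1 m).R = _
    rw [ih]
    rfl

theorem s1b1_nth_rep {X : Type} (n : ℕ) (y : X) (a : ℕ) : nth (List.replicate n y) y a = y := by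
  induction n generalizing a with
  | zero => rfl
  | succ n ih =>
    cases a with
    | zero => rfl
    | succ a => exact ih a

theorem s1b1_rec {X : Type} (y : X) (m : ℕ) :
    Nat.rec (motive := fun _ => List X) [] (fun _ l => y :: l) m = List.replicate m y := by
  induction m with
  | zero => rfl
  | succ m ih =>
    show y :: _ = _
    rw [ih]
    rfl

theorem s1b1_nth_rep' {X : Type} {n : ℕ} (y y₀ : X) {a : ℕ} (h : a < n) :
    nth (List.replicate n y) y₀ a = y := by
  induction n generalizing a with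
  | zero => exact absurd h (Nat.not_lt_zero _)
  | succ n ih =>
    cases a with
    | zero => rfl
    | succ a => exact ih (Nat.lt_of_succ_lt_succ h)

theorem tb1_zero (TL : List (List Tab)) (m : ℕ) : tb1 TL 0 m = z1 m := by
  rfl

/-- An absent node has no values (the bit masks of `z1 m` are `0`). -/
theorem V1_zero (x : A) (n : ℕ) (v : List A) : V1 TL x n 0 v = [] := by
  cases n with
  | zero =>
    show (if 0 = 1 ∧ v = [] then [1] else []) = []
    rw [if_neg (fun h => absurd h.1 (by decide))]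
  | succ n =>
    show nv (v.length + 1) (lb x v) _ (tb1 TL 0 v.length).bm = []
    apply s1b1_nv_nil
    intro a _
    rw [tb1_zero, s1b1_z_bm, s1b1_nth_rep, s1a2_zero]

/-- The empty table is correct. -/
theorem z1_ok (m : ℕ) (x : ℕ → A) (U : ℕ → List A) (hU : ∀ a < m + 1, U a = []) :
    NodeOK (m + 1) x U (z1 m) [] := by
  have hL : ∀ a, nth (z1 m).L [] a = [] := fun a => by rw [s1b1_z_L, s1b1_nth_rep]
  have hR : ∀ a, nth (z1 m).R [] a = [] := fun a => by rw [s1b1_z_R, s1b1_nth_rep]
  refine ⟨?_, ?_, rfl, Nat.zero_le _, ?_, ?_, ?_, ?_⟩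
  · symm
    apply s1b1_nv_nil
    intro a _
    rw [s1b1_z_bm, s1b1_nth_rep, s1a2_zero]
  · rw [s1b1_z_bm, List.length_replicate]
  · intro a _ r hr
    rw [hL] at hr
    exact absurd hr List.not_mem_nil
  · intro a _ r hr
    rw [hR] at hr
    exact absurd hr List.not_mem_nil
  · intro a ha
    rw [hL, hU a ha]
    rfl
  · intro a ha
    rw [hR, hU a ha]
    rfl

theorem Ts1_length (TL : List (List Tab)) (kk m : ℕ) : (Ts1 TL kk m).length = m + 1 := by
  unfold Ts1
  rw [s1b1_rec, List.length_cons, List.length_replicate]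

theorem nth_Ts1 (TL : List (List Tab)) (kk m : ℕ) : nth (Ts1 TL kk m) T0 0 = tb1 TL (kk - 1) m ∧
    ∀ t < m, nth (Ts1 TL kk m) T0 (t + 1) = tb1 TL kk (m - 1) := by
  unfold Ts1
  rw [s1b1_rec]
  exact ⟨rfl, fun t ht => s1b1_nth_rep' _ _ ht⟩

/-- The nodes `(1, 0)` and `(0, 1)`. -/
theorem node1_one (hT : Low1 TL) (x : A) {kk : ℕ} {v : List A} (hkk : 1 ≤ kk)
    (h : kk - 1 + v.length = 1) :
    NodeOK (v.length + 1) (lb x v) (U1 TL x 0 kk v) (tb1 TL kk v.length) (V1 TL x 1 kk v) := by
  rcases v with _ | ⟨b, _ | ⟨c, v⟩⟩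
  · obtain rfl : kk = 2 := by
      rw [List.length_nil] at h
      omega
    have e : V1 TL x 1 2 ([] : List A) = [x * 1] := by
      show nv 1 (lb x []) _ (tb1 TL 2 0).bm = _
      rw [hT.t1]
      rfl
    have eU : U1 TL x 0 2 ([] : List A) 0 = [1] := rfl
    rw [e]
    show NodeOK 1 _ _ (tb1 TL 2 0) _
    rw [hT.t1]
    have h0 : ∀ a < 1, a = 0 := fun a ha => by omega
    refine ⟨rfl, rfl, rfl, by norm_num, ?_, ?_, ?_, ?_⟩
    · intro a ha r hr
      rw [h0 a ha, nth_cons_zero, List.mem_singleton] at hr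
      rw [hr]
      exact ⟨by norm_num, rfl⟩
    · intro a ha r hr
      rw [h0 a ha, nth_cons_zero, List.mem_singleton] at hr
      rw [hr]
      exact ⟨by norm_num, rfl⟩
    · intro a ha
      rw [h0 a ha, nth_cons_zero, eU, List.map_cons, List.map_nil, List.map_cons, List.map_nil,
        ev_one]
      rfl
    · intro a ha
      rw [h0 a ha, nth_cons_zero, eU, List.map_cons, List.map_nil, List.map_cons, List.map_nil,
        ev_one, one_mul, mul_one]
      rfl
  · obtain rfl : kk = 1 := by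
      rw [List.length_cons, List.length_nil] at h
      omega
    have e : V1 TL x 1 1 ([b] : List A) = [b * 1] := by
      show nv 2 (lb x [b]) _ (tb1 TL 1 1).bm = _
      rw [hT.t2]
      rfl
    have eU0 : U1 TL x 0 1 ([b] : List A) 0 = [] := rfl
    have eU1 : U1 TL x 0 1 ([b] : List A) 1 = [1] := rfl
    rw [e]
    show NodeOK 2 _ _ (tb1 TL 1 1) _
    rw [hT.t2]
    have h0 : ∀ a < 2, a = 0 ∨ a = 1 := fun a ha => by omega
    refine ⟨rfl, rfl, rfl, by norm_num, ?_, ?_, ?_, ?_⟩
    · intro a ha r hr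
      rcases h0 a ha with rfl | rfl
      · rw [nth_cons_zero] at hr
        exact absurd hr List.not_mem_nil
      · rw [nth_cons_succ, nth_cons_zero, List.mem_singleton] at hr
        rw [hr]
        exact ⟨by norm_num, rfl⟩
    · intro a ha r hr
      rcases h0 a ha with rfl | rfl
      · rw [nth_cons_zero] at hr
        exact absurd hr List.not_mem_nil
      · rw [nth_cons_succ, nth_cons_zero, List.mem_singleton] at hr
        rw [hr]
        exact ⟨by norm_num, rfl⟩
    · intro a ha
      rcases h0 a ha with rfl | rfl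
      · rw [nth_cons_zero, eU0]
        rfl
      · rw [nth_cons_succ, nth_cons_zero, eU1, List.map_cons, List.map_nil, List.map_cons,
          List.map_nil, ev_one]
        rfl
    · intro a ha
      rcases h0 a ha with rfl | rfl
      · rw [nth_cons_zero, eU0]
        rfl
      · rw [nth_cons_succ, nth_cons_zero, eU1, List.map_cons, List.map_nil, List.map_cons,
          List.map_nil, ev_one, one_mul, mul_one]
        rfl
  · rw [List.length_cons, List.length_cons] at h
    omega

/-- Predecessors of available nodes are available or absent. -/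
theorem av1_pred {kk m : ℕ} (h : av1 kk m = true) :
    1 ≤ kk ∧ (kk = 1 ∨ av1 (kk - 1) m = true) ∧ (m = 0 ∨ av1 kk (m - 1) = true) := by
  have hr : ∀ c y z : Bool, (Bool.rec (motive := fun _ => Bool) y z c) = true ↔
      (c = true ∧ z = true) ∨ (c = false ∧ y = true) := by
    intro c y z
    cases c <;> simp
  have hb : ∀ a b : ℕ, Nat.ble a b = true ↔ a ≤ b := fun a b =>
    ⟨Nat.le_of_ble_eq_true, Nat.ble_eq_true_of_le⟩
  have hf : ∀ a b : Bool, an a b = false ↔ ¬ (a = true ∧ b = true) := by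
    intro a b
    rw [← an_iff, Bool.not_eq_true]
  have hq : ∀ a b : ℕ, Nat.beq a b = true ↔ a = b := fun a b =>
    ⟨Nat.eq_of_beq_eq_true, fun h => by rw [h]; exact Nat.beq_refl b⟩
  have hq' : ∀ a b : ℕ, Nat.beq a b = false ↔ ¬ a = b := by
    intro a b
    rw [← hq, Bool.not_eq_true]
  have key : ∀ kk m, av1 kk m = true ↔ 1 ≤ kk ∧ ((kk ≤ 7 ∧ m ≤ 6) ∨ (¬ (kk ≤ 7 ∧ m ≤ 6) ∧
      ((kk = 8 ∧ m ≤ 5) ∨ (¬ kk = 8 ∧ kk ≤ 6 ∧ m ≤ 7)))) := by
    intro kk m
    unfold av1
    rw [an_iff, hr, hr, an_iff, hf, an_iff]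
    simp only [hb, hq, hq', and_true]
  rw [key] at h
  rw [key, key]
  omega

end Pool.Agent.Lib.H80F
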