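import Pool.Agent.Lib.H80F.S1b1

/-!
# H80F, S1b: the predecessors
-/

namespace Pool.Agent.Lib.H80F

variable {A : Type} [Ring A] {TL : List (List Tab)}

/-- The statement for all available nodes of degree less than `D`, for tuples of commuting elements of
`L`. -/
def Ok1 (TL : List (List Tab)) (L : Set A) (x : A) (D : ℕ) : Prop :=
  ∀ (kk : ℕ) (v : List A), av1 kk v.length = true → 1 ≤ kk - 1 + v.length →
    kk - 1 + v.length < D → (∀ b ∈ v, b ∈ L) → (∀ b ∈ v, ∀ b' ∈ v, b * b' = b' * b) →
    NodeOK (v.length + 1) (lb x v) (U1 TL x (kk - 1 + v.length - 1) kk v)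
      (tb1 TL kk v.length) (V1 TL x (kk - 1 + v.length) kk v)

theorem s1b2_U1_zero (TL : List (List Tab)) (x : A) (n kk : ℕ) (v : List A) :
    U1 TL x n kk v 0 = V1 TL x n (kk - 1) v := rfl

theorem s1b2_U1_succ (TL : List (List Tab)) (x : A) (n kk : ℕ) (v : List A) (t : ℕ) :
    U1 TL x n kk v (t + 1) = V1 TL x n kk (v.eraseIdx t) := rfl

/-- The predecessor `0`. -/
theorem s1b2_node0 {L : Set A} {x : A} {kk : ℕ} {v : List A} (hav : av1 kk v.length = true)
    (h2 : 2 ≤ kk - 1 + v.length) (hD : Ok1 TL L x (kk - 1 + v.length))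
    (hv : ∀ b ∈ v, b ∈ L) (hc : ∀ b ∈ v, ∀ b' ∈ v, b * b' = b' * b) :
    NodeOK (v.length + 1) (lb x v) (U1 TL x (kk - 1 + v.length - 2) (kk - 1) v)
      (tb1 TL (kk - 1) v.length) (V1 TL x (kk - 1 + v.length - 1) (kk - 1) v) := by
  obtain ⟨h1, h3, h4⟩ := av1_pred hav
  by_cases hk : kk = 1
  · rw [hk]
    show NodeOK (v.length + 1) (lb x v) (U1 TL x (1 - 1 + v.length - 2) 0 v)
      (tb1 TL 0 v.length) (V1 TL x (1 - 1 + v.length - 1) 0 v)
    rw [tb1_zero, V1_zero]
    refine z1_ok _ _ _ ?_
    intro a ha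
    cases a with
    | zero => exact V1_zero _ _ _
    | succ t => exact V1_zero _ _ _
  · have h6 : av1 (kk - 1) v.length = true := by
      rcases h3 with h3 | h3
      · exact absurd h3 hk
      · exact h3
    have h7 := hD (kk - 1) v h6 (by omega) (by omega) hv hc
    have e1 : kk - 1 - 1 + v.length - 1 = kk - 1 + v.length - 2 := by omega
    have e2 : kk - 1 - 1 + v.length = kk - 1 + v.length - 1 := by omega
    rw [e1, e2] at h7
    exact h7

/-- The predecessor `t + 1`. -/
theorem s1b2_node1 {L : Set A} {x : A} {kk : ℕ} {v : List A} (hav : av1 kk v.length = true)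
    (h2 : 2 ≤ kk - 1 + v.length) (hD : Ok1 TL L x (kk - 1 + v.length))
    (hv : ∀ b ∈ v, b ∈ L) (hc : ∀ b ∈ v, ∀ b' ∈ v, b * b' = b' * b) {t : ℕ} (ht : t < v.length) :
    NodeOK v.length (fun a => lb x v (up1 (t + 1) a))
      (U1 TL x (kk - 1 + v.length - 2) kk (v.eraseIdx t))
      (tb1 TL kk (v.length - 1)) (V1 TL x (kk - 1 + v.length - 1) kk (v.eraseIdx t)) := by
  obtain ⟨h1, h3, h4⟩ := av1_pred hav
  have h6 : av1 kk (v.length - 1) = true := by
    rcases h4 with h4 | h4
    · omega
    · exact h4
  have hl : (v.eraseIdx t).length = v.length - 1 := List.length_eraseIdx_of_lt ht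
  have h7 := hD kk (v.eraseIdx t) (by rw [hl]; exact h6) (by rw [hl]; omega) (by rw [hl]; omega)
    (fun b hb => hv b (List.mem_of_mem_eraseIdx hb))
    (fun b hb b' hb' => hc b (List.mem_of_mem_eraseIdx hb) b' (List.mem_of_mem_eraseIdx hb'))
  rw [hl] at h7
  have e1 : kk - 1 + (v.length - 1) - 1 = kk - 1 + v.length - 2 := by omega
  have e2 : kk - 1 + (v.length - 1) = kk - 1 + v.length - 1 := by omega
  have e3 : v.length - 1 + 1 = v.length := by omega
  rw [e1, e2, e3] at h7
  exact h7.congr (fun a ha => lb_erase x v ht ha) (fun _ _ => rfl)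

/-- The hypothesis of `node_ok`: `U1 .. 0 = V1 .. (kk - 1) v` and `U1 .. (t + 1) =
V1 .. kk (v.eraseIdx t)`; the predecessor `0` is absent if `kk = 1` (`tb1_zero`, `V1_zero`, `z1_ok`).
`W b a` is `U1` of the predecessor `b`. -/
theorem pre1 {L : Set A} {x : A} {kk : ℕ} {v : List A} (hav : av1 kk v.length = true)
    (h2 : 2 ≤ kk - 1 + v.length) (hD : Ok1 TL L x (kk - 1 + v.length))
    (hv : ∀ b ∈ v, b ∈ L) (hc : ∀ b ∈ v, ∀ b' ∈ v, b * b' = b' * b) :
    Pre up1 dn1 (Ts1 TL kk v.length) (lb x v) (U1 TL x (kk - 1 + v.length - 1) kk v)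
      (fun b a => Nat.rec (motive := fun _ => List A)
        (U1 TL x (kk - 1 + v.length - 2) (kk - 1) v a)
        (fun t _ => U1 TL x (kk - 1 + v.length - 2) kk (v.eraseIdx t) a) b) := by
  have hN0 := s1b2_node0 hav h2 hD hv hc
  have hN1 := fun (t : ℕ) (ht : t < v.length) => s1b2_node1 hav h2 hD hv hc ht
  obtain ⟨n0, n1⟩ := nth_Ts1 TL kk v.length
  have hb0 : (nth (Ts1 TL kk v.length) T0 0).bm.length = v.length + 1 := by
    rw [n0]; exact hN0.bm
  have hb1 : ∀ t < v.length, (nth (Ts1 TL kk v.length) T0 (t + 1)).bm.length = v.length := by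
    intro t ht
    rw [n1 t ht]; exact (hN1 t ht).bm
  have up0 : ∀ a, up1 0 a = a := fun a => by rw [up1_eq, if_pos rfl]
  have dn0 : ∀ a, dn1 0 a = 0 := fun a => by rw [dn1_eq, if_pos rfl]
  refine ⟨?_, ?_⟩
  · intro b hb
    rw [Ts1_length] at hb
    cases b with
    | zero =>
      rw [hb0, n0]
      refine hN0.congr (fun a _ => ?_) (fun _ _ => rfl)
      rw [up0]
    | succ t =>
      have ht : t < v.length := by omega
      rw [hb1 t ht, n1 t ht]
      exact hN1 t ht
  · intro b hb a ha
    refine ⟨?_, ?_, ?_, up1_dn1 b a⟩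
    · rw [Ts1_length] at hb ⊢
      cases b with
      | zero =>
        rw [hb0] at ha
        rw [up0]
        exact ha
      | succ t =>
        have ht : t < v.length := by omega
        rw [hb1 t ht] at ha
        exact (up1_lt (by omega) (by omega) ha).1
    · rw [Ts1_length] at hb
      cases b with
      | zero =>
        rw [hb0] at ha
        rw [up0, dn0]
        cases a with
        | zero => rw [hb0]; omega
        | succ s => rw [hb1 s (by omega)]; omega
      | succ t =>
        have ht : t < v.length := by omega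
        rw [hb1 t ht] at ha
        cases a with
        | zero =>
          have e1 : up1 (t + 1) 0 = 0 := by rw [up1_eq, if_neg (by omega), if_pos rfl]
          have e2 : dn1 (t + 1) 0 = t + 1 := by rw [dn1_eq, if_neg (by omega), if_pos rfl]
          rw [e1, e2, hb0]
          omega
        | succ s =>
          obtain ⟨l1, l2⟩ := up1_lt (b := t + 1) (a := s + 1) (m := v.length) (by omega)
            (by omega) ha
          rw [if_neg (by omega)] at l2
          have e1 : up1 (t + 1) (s + 1) = (up1 (t + 1) (s + 1) - 1) + 1 := by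
            rw [up1_eq, if_neg (by omega), if_neg (by omega)]
            split <;> omega
          rw [e1] at l1 ⊢
          rw [hb1 _ (by omega)]
          exact l2
    · rw [Ts1_length] at hb
      cases b with
      | zero =>
        rw [hb0] at ha
        rw [up0, dn0]
        cases a with
        | zero => rfl
        | succ s => rfl
      | succ t =>
        have ht : t < v.length := by omega
        rw [hb1 t ht] at ha
        cases a with
        | zero =>
          have e1 : up1 (t + 1) 0 = 0 := by rw [up1_eq, if_neg (by omega), if_pos rfl]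
          have e2 : dn1 (t + 1) 0 = t + 1 := by rw [dn1_eq, if_neg (by omega), if_pos rfl]
          rw [e1, e2]
          rfl
        | succ s =>
          have e1 : up1 (t + 1) (s + 1) = (up1 (t + 1) (s + 1) - 1) + 1 := by
            rw [up1_eq, if_neg (by omega), if_neg (by omega)]
            split <;> omega
          have e2 : dn1 (t + 1) (s + 1) = (dn1 (t + 1) (s + 1) - 1) + 1 := by
            rw [dn1_eq, if_neg (by omega), if_neg (by omega)]
            split <;> omega
          have e3 := erase_erase v ht ha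
          rw [e1, e2]
          show V1 TL x (kk - 1 + v.length - 2) kk ((v.eraseIdx t).eraseIdx s) =
            V1 TL x (kk - 1 + v.length - 2) kk ((v.eraseIdx (up1 (t + 1) (s + 1) - 1)).eraseIdx
              (dn1 (t + 1) (s + 1) - 1))
          rw [e3]

end Pool.Agent.Lib.H80F
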