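import Pool.Agent.Lib.H80F.S1b2

/-!
# H80F, S1c: the environment
-/

namespace Pool.Agent.Lib.H80F

variable {A : Type} [Ring A] {TL : List (List Tab)}

/-- The values of the codes. -/
noncomputable def Vc1 (TL : List (List Tab)) (x : A) (v : List A) (c : ℕ) : List A :=
  V1 TL x (c / 256 + pop (c % 256)) (c / 256 + 1) (sel v (c % 256))

theorem s1c1_sel_zero {X : Type} (v : List X) : sel v 0 = [] := by
  induction v with
  | nil => rfl
  | cons a v ih =>
    rw [sel_cons, if_neg (by norm_num), Nat.zero_div, ih]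

theorem s1c1_pow {m : ℕ} (hm : m ≤ 7) : 2 ^ m ≤ 128 := by
  calc 2 ^ m ≤ 2 ^ 7 := Nat.pow_le_pow_right (by norm_num) hm
    _ = 128 := by norm_num

/-- The number of values of a code. -/
theorem s1c1_len (hT : Low1 TL) {L : Set A} {x : A} {v : List A} (hm : v.length ≤ 7) {D : ℕ}
    (hD : Ok1 TL L x D) (hv : ∀ b ∈ v, b ∈ L) (hc : ∀ b ∈ v, ∀ b' ∈ v, b * b' = b' * b)
    {k s : ℕ} (hs : s < 2 ^ v.length) (hav : av1 (k + 1) (pop s) = true) (hd : k + pop s < D) :
    (V1 TL x (k + pop s) (k + 1) (sel v s)).length = (tb1 TL (k + 1) (pop s)).d ∧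
      (tb1 TL (k + 1) (pop s)).d ≤ 300 := by
  have hs' : s < 128 := lt_of_lt_of_le hs (s1c1_pow hm)
  have hl := pop_eq hs' v hs
  by_cases h0 : k + pop s = 0
  · have hk : k = 0 := by omega
    have hp : pop s = 0 := by omega
    rw [hp] at hl
    rw [h0, hk, hp, List.length_eq_zero_iff.mp hl]
    have h1 : (tb1 TL (0 + 1) 0).d = 1 := hT.t0
    rw [h1]
    exact ⟨rfl, by norm_num⟩
  · have h1 := hD (k + 1) (sel v s) (by rw [hl]; exact hav) (by rw [hl]; omega)
      (by rw [hl]; omega) (fun b hb => hv b (mem_of_mem_sel hb))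
      (fun b hb b' hb' => hc b (mem_of_mem_sel hb) b' (mem_of_mem_sel hb'))
    rw [hl] at h1
    exact ⟨h1.len, h1.d⟩

/-- The environment is correct: for `a = 0` the node of the code `c + 256` is `(k + 1, pop s)`, with
the same tuple `sel v s`; for `a = t + 1` it is `(k, pop s + 1)`, with the tuple `sel v (s + 2 ^ t)`
(`sel_add`); `NodeOK.left` for the block `rk c a`. -/
theorem env1 (hT : Low1 TL) {L : Set A} {x : A} {v : List A} (hm : v.length ≤ 7) {D : ℕ}
    (hD : Ok1 TL L x D) (hv : ∀ b ∈ v, b ∈ L) (hc : ∀ b ∈ v, ∀ b' ∈ v, b * b' = b' * b) :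
    EnvOK (E1 TL v.length D) (lb x v) (Vc1 TL x v) := by
  refine ⟨⟨?_, ?_⟩, ?_⟩
  · show V1 TL x (0 + pop 0) (0 + 1) (sel v 0) = [1]
    rw [s1c1_sel_zero]
    rfl
  · exact hT.t0
  · intro c a hok
    have hp := s1c1_pow hm
    have hok' : an (Nat.ble a v.length) (an (Nat.ble (c % 256 + 1) (2 ^ v.length))
      (Nat.rec (motive := fun _ => Bool)
        (an (av1 (c / 256 + 2) (pop (c % 256)))
          (Nat.ble (c / 256 + 2 + pop (c % 256)) D))
        (fun t _ => an (Nat.beq (c % 256 / 2 ^ t % 2) 0)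
          (an (av1 (c / 256 + 1) (pop (c % 256) + 1))
          (Nat.ble (c / 256 + 2 + pop (c % 256)) D))) a)) = true := hok
    rw [an_iff, an_iff] at hok'
    obtain ⟨o1, o2, o3⟩ := hok'
    have o1' := Nat.le_of_ble_eq_true o1
    have o2' := Nat.le_of_ble_eq_true o2
    have hsv : c % 256 < 2 ^ v.length := by omega
    have hs' : c % 256 < 128 := by omega
    have hl := pop_eq hs' v hsv
    cases a with
    | zero =>
      have o4 : an (av1 (c / 256 + 2) (pop (c % 256)))
          (Nat.ble (c / 256 + 2 + pop (c % 256)) D) = true := o3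
      rw [an_iff] at o4
      obtain ⟨o5, o6⟩ := o4
      have o6' := Nat.le_of_ble_eq_true o6
      have e1 : (c + 256) / 256 = c / 256 + 1 := by omega
      have e2 : (c + 256) % 256 = c % 256 := by omega
      have hN := hD (c / 256 + 2) (sel v (c % 256)) (by rw [hl]; exact o5) (by omega)
        (by rw [hl]; omega) (fun b hb => hv b (mem_of_mem_sel hb))
        (fun b hb b' hb' => hc b (mem_of_mem_sel hb) b' (mem_of_mem_sel hb'))
      rw [hl] at hN
      have e3 : c / 256 + 2 - 1 + pop (c % 256) - 1 = c / 256 + pop (c % 256) := by omega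
      have e4 : c / 256 + 2 - 1 + pop (c % 256) = c / 256 + 1 + pop (c % 256) := by omega
      rw [e3, e4] at hN
      have hav : av1 (c / 256 + 1) (pop (c % 256)) = true := by
        obtain ⟨_, q, _⟩ := av1_pred o5
        rcases q with q | q
        · omega
        · exact q
      obtain ⟨g1, g2⟩ := s1c1_len hT hm hD hv hc hsv hav (by omega)
      have f1 : Vc1 TL x v (c + 256) =
          V1 TL x (c / 256 + 1 + pop (c % 256)) (c / 256 + 2) (sel v (c % 256)) := by
        unfold Vc1
        rw [e1, e2]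
      have f2 : (E1 TL v.length D).tb (c + 256) = tb1 TL (c / 256 + 2) (pop (c % 256)) := by
        show tb1 TL ((c + 256) / 256 + 1) (pop ((c + 256) % 256)) = _
        rw [e1, e2]
      show (Vc1 TL x v c).map (fun w => lb x v 0 * w) =
          (nth ((E1 TL v.length D).tb (c + 256)).L [] 0).map (ev (Vc1 TL x v (c + 256))) ∧
        (∀ r ∈ nth ((E1 TL v.length D).tb (c + 256)).L [] 0,
          Bn 7 ((E1 TL v.length D).tb (c + 256)).d r) ∧
        (Vc1 TL x v c).length = (tb1 TL (c / 256 + 1) (pop (c % 256))).d ∧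
        (tb1 TL (c / 256 + 1) (pop (c % 256))).d ≤ 300 ∧
        (Vc1 TL x v (c + 256)).length = ((E1 TL v.length D).tb (c + 256)).d
      rw [f1, f2]
      exact ⟨hN.left 0 (by omega), hN.bL 0 (by omega), g1, g2, hN.len⟩
    | succ t =>
      have o4 : an (Nat.beq (c % 256 / 2 ^ t % 2) 0)
          (an (av1 (c / 256 + 1) (pop (c % 256) + 1))
          (Nat.ble (c / 256 + 2 + pop (c % 256)) D)) = true := o3
      rw [an_iff, an_iff] at o4
      obtain ⟨o5, o6, o7⟩ := o4
      have o5' := Nat.eq_of_beq_eq_true o5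
      have o7' := Nat.le_of_ble_eq_true o7
      obtain ⟨a1, a2, a3, a4, a5⟩ := sel_add v x hsv hs' (show t < v.length by omega) hm o5'
      have hpt : 0 < 2 ^ t := by positivity
      have e1 : (c + 2 ^ t) / 256 = c / 256 := by omega
      have e2 : (c + 2 ^ t) % 256 = c % 256 + 2 ^ t := by omega
      have hl2 := pop_eq (show c % 256 + 2 ^ t < 128 by omega) v a4
      rw [a5] at hl2
      have hN := hD (c / 256 + 1) (sel v (c % 256 + 2 ^ t)) (by rw [hl2]; exact o6) (by omega)
        (by rw [hl2]; omega) (fun b hb => hv b (mem_of_mem_sel hb))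
        (fun b hb b' hb' => hc b (mem_of_mem_sel hb) b' (mem_of_mem_sel hb'))
      rw [hl2] at hN a3
      have e3 : c / 256 + 1 - 1 + (pop (c % 256) + 1) - 1 = c / 256 + pop (c % 256) := by omega
      have e4 : c / 256 + 1 - 1 + (pop (c % 256) + 1) = c / 256 + (pop (c % 256) + 1) := by omega
      rw [e3, e4] at hN
      have hav : av1 (c / 256 + 1) (pop (c % 256)) = true := by
        obtain ⟨_, _, q⟩ := av1_pred o6
        rcases q with q | q
        · omega
        · exact q
      obtain ⟨g1, g2⟩ := s1c1_len hT hm hD hv hc hsv hav (by omega)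
      have f1 : Vc1 TL x v (c + 2 ^ t) =
          V1 TL x (c / 256 + (pop (c % 256) + 1)) (c / 256 + 1) (sel v (c % 256 + 2 ^ t)) := by
        unfold Vc1
        rw [e1, e2, a5]
      have f2 : (E1 TL v.length D).tb (c + 2 ^ t) = tb1 TL (c / 256 + 1) (pop (c % 256) + 1) := by
        show tb1 TL ((c + 2 ^ t) / 256 + 1) (pop ((c + 2 ^ t) % 256)) = _
        rw [e1, e2, a5]
      show (Vc1 TL x v c).map (fun w => lb x v (t + 1) * w) =
          (nth ((E1 TL v.length D).tb (c + 2 ^ t)).L [] (1 + pop (c % 256 % 2 ^ t))).map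
            (ev (Vc1 TL x v (c + 2 ^ t))) ∧
        (∀ r ∈ nth ((E1 TL v.length D).tb (c + 2 ^ t)).L [] (1 + pop (c % 256 % 2 ^ t)),
          Bn 7 ((E1 TL v.length D).tb (c + 2 ^ t)).d r) ∧
        (Vc1 TL x v c).length = (tb1 TL (c / 256 + 1) (pop (c % 256))).d ∧
        (tb1 TL (c / 256 + 1) (pop (c % 256))).d ≤ 300 ∧
        (Vc1 TL x v (c + 2 ^ t)).length = ((E1 TL v.length D).tb (c + 2 ^ t)).d
      rw [f1, f2, add_comm 1 (pop (c % 256 % 2 ^ t))]
      refine ⟨?_, hN.bL _ (by omega), g1, g2, hN.len⟩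
      have h := hN.left (pop (c % 256 % 2 ^ t) + 1) (by omega)
      rw [s1b2_U1_succ, a1] at h
      have h' : lb x (sel v (c % 256 + 2 ^ t)) (pop (c % 256 % 2 ^ t) + 1) = lb x v (t + 1) := a2
      rw [h'] at h
      exact h

/-- The condition of `chk4_spec` on the last letter (`sel_all_sub`, `sel_all`). -/
theorem tk1_spec {L : Set A} {x : A} {kk : ℕ} {v : List A} (hm : v.length ≤ 7)
    (hav : av1 kk v.length = true) (h2 : 2 ≤ kk - 1 + v.length) (c j : ℕ)
    (h : tk1 kk v.length c j = true) :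
    j < (Ts1 TL kk v.length).length ∧
      U1 TL x (kk - 1 + v.length - 1) kk v j = Vc1 TL x v c ∧
      (nth (Ts1 TL kk v.length) T0 j).d =
        ((E1 TL v.length (kk + v.length - 1)).tb c).d := by
  have hp := s1c1_pow hm
  have hk1 := (av1_pred hav).1
  have h' : an (Nat.ble j v.length) (an (Nat.ble (c % 256 + 1) (2 ^ v.length))
    (Nat.beq (c + un1 j + 257) (256 * kk + 2 ^ v.length))) = true := h
  rw [an_iff, an_iff] at h'
  obtain ⟨o1, o2, o3⟩ := h'
  have o1' := Nat.le_of_ble_eq_true o1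
  have o2' := Nat.le_of_ble_eq_true o2
  have o3' := Nat.eq_of_beq_eq_true o3
  have hpos : 0 < 2 ^ v.length := by positivity
  obtain ⟨n0, n1⟩ := nth_Ts1 TL kk v.length
  rw [Ts1_length]
  refine ⟨by omega, ?_⟩
  cases j with
  | zero =>
    have o4 : c + 256 + 257 = 256 * kk + 2 ^ v.length := o3'
    have e1 : c / 256 + 2 = kk := by omega
    have e2 : c % 256 = 2 ^ v.length - 1 := by omega
    have e3 : sel v (c % 256) = v := by rw [e2]; exact sel_all v
    have e4 : pop (c % 256) = v.length := by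
      rw [← pop_eq (show c % 256 < 128 by omega) v (by omega), e3]
    refine ⟨?_, ?_⟩
    · rw [s1b2_U1_zero]
      unfold Vc1
      rw [e3, e4]
      have e5 : c / 256 + v.length = kk - 1 + v.length - 1 := by omega
      have e6 : c / 256 + 1 = kk - 1 := by omega
      rw [e5, e6]
    · rw [n0]
      show _ = (tb1 TL (c / 256 + 1) (pop (c % 256))).d
      have e6 : c / 256 + 1 = kk - 1 := by omega
      rw [e4, e6]
  | succ t =>
    have o4 : c + 2 ^ t + 257 = 256 * kk + 2 ^ v.length := o3'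
    have ht : t < v.length := by omega
    have hp2 : 2 * 2 ^ t ≤ 2 ^ v.length := by
      calc 2 * 2 ^ t = 2 ^ (t + 1) := by rw [pow_succ]; ring
        _ ≤ 2 ^ v.length := Nat.pow_le_pow_right (by norm_num) ht
    have e1 : c / 256 + 1 = kk := by omega
    have e2 : c % 256 = 2 ^ v.length - 1 - 2 ^ t := by omega
    have e3 : sel v (c % 256) = v.eraseIdx t := by rw [e2]; exact sel_all_sub v ht
    have e4 : pop (c % 256) = v.length - 1 := by
      rw [← pop_eq (show c % 256 < 128 by omega) v (by omega), e3,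
        List.length_eraseIdx_of_lt ht]
    refine ⟨?_, ?_⟩
    · rw [s1b2_U1_succ]
      unfold Vc1
      rw [e3, e4]
      have e5 : c / 256 + (v.length - 1) = kk - 1 + v.length - 1 := by omega
      rw [e5, e1]
    · rw [n1 t ht]
      show _ = (tb1 TL (c / 256 + 1) (pop (c % 256))).d
      rw [e4, e1]

end Pool.Agent.Lib.H80F
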