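import Pool.Agent.Lib.H80F.S1b2

/-!
# H80F, S1c: two commuting letters
-/

namespace Pool.Agent.Lib.H80F

variable {A : Type} [Ring A] {TL : List (List Tab)}

theorem s1c2_five (h5 : (5 : A) = 0) (a : A) : (5 : ℕ) • a = 0 := by
  rw [nsmul_eq_mul, Nat.cast_ofNat, h5, zero_mul]

theorem s1c2_root (TL : List (List Tab)) (x : A) : V1 TL x 0 1 [] = [1] := by
  show (if 1 = 1 ∧ ([] : List A) = [] then [1] else []) = [(1 : A)]
  rw [if_pos ⟨rfl, rfl⟩]

theorem s1c2_one (hT : Low1 TL) (x b : A) : V1 TL x 1 1 [b] = [b * 1] := by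
  have e : V1 TL x 1 1 [b] = sel ((V1 TL x 0 (1 - 1) [b]).map (fun v => lb x [b] 0 * v))
      (nth (tb1 TL 1 1).bm 0 0) ++ (sel ((V1 TL x 0 1 []).map (fun v => lb x [b] 1 * v))
      (nth (tb1 TL 1 1).bm 0 1) ++ []) := rfl
  rw [e, hT.t2, s1c2_root]
  have e0 : V1 TL x 0 (1 - 1) [b] = [] := V1_zero _ _ _
  rw [e0]
  rfl

/-- The node `(0, 2)`: the relation `262145 = 1 + 4 * 65536` has the value
`v₀ v₁ + 4 v₁ v₀ = 0`. -/
theorem node_comm (hT : Low1 TL) (hk : CKc TL) (h5 : (5 : A) = 0) {L : Set A} {x : A}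
    (hD : Ok1 TL L x 2) (v : List A) (hv2 : v.length = 2) (hv : ∀ b ∈ v, b ∈ L)
    (hc : ∀ b ∈ v, ∀ b' ∈ v, b * b' = b' * b) :
    NodeOK (v.length + 1) (lb x v) (U1 TL x 1 1 v) (tb1 TL 1 v.length) (V1 TL x 2 1 v) := by
  obtain ⟨f1, M, hck⟩ := hk
  obtain ⟨p, q, rfl⟩ := List.length_eq_two.mp hv2
  have hpre := pre1 (kk := 1) (TL := TL) (L := L) (x := x) (v := [p, q]) rfl (by simp)
    hD hv hc
  have ho : offT (Ts1 TL 1 2) 3 = 2 := by
    obtain ⟨n0, n1⟩ := nth_Ts1 TL 1 2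
    have hl := Ts1_length TL 1 2
    rw [offT_succ _ (by omega), offT_succ _ (by omega), offT_succ _ (by omega), offT_zero,
      n1 1 (by norm_num), n1 0 (by norm_num), n0]
    have e0 : tb1 TL (1 - 1) 2 = z1 2 := tb1_zero TL 2
    rw [e0, hT.t2]
    rfl
  have hU0 : U1 TL x 1 1 [p, q] 0 = [] := V1_zero _ _ _
  have hU1 : U1 TL x 1 1 [p, q] 1 = [q * 1] := s1c2_one hT x q
  have hU2 : U1 TL x 1 1 [p, q] 2 = [p * 1] := s1c2_one hT x p
  have hpv : pv 3 (lb x [p, q]) (U1 TL x 1 1 [p, q]) = [p * (q * 1), q * (p * 1)] := by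
    have e : pv 3 (lb x [p, q]) (U1 TL x 1 1 [p, q]) =
        (U1 TL x 1 1 [p, q] 0).map (fun v => lb x [p, q] 0 * v) ++
        ((U1 TL x 1 1 [p, q] 1).map (fun v => lb x [p, q] 1 * v) ++
        ((U1 TL x 1 1 [p, q] 2).map (fun v => lb x [p, q] 2 * v) ++ [])) := rfl
    rw [e, hU0, hU1, hU2]
    rfl
  have hcomm : p * q = q * p := hc p (by simp) q (by simp)
  have hrel : ∀ r ∈ [262145], Bn 16 (offT (Ts1 TL 1 2) (Ts1 TL 1 2).length) r ∧
      ev (pv (Ts1 TL 1 2).length (lb x [p, q]) (U1 TL x 1 1 [p, q])) r = 0 := by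
    intro r hr
    rw [List.mem_singleton.mp hr, Ts1_length, ho, hpv]
    refine ⟨?_, ?_⟩
    · rw [b1a_succ, b1a_succ, b1a_bz]
      exact ⟨by norm_num, by norm_num, by norm_num⟩
    · rw [b1a_cons, b1a_cons, b1a_nil, add_zero, show 262145 % 65536 = 1 from by norm_num,
        show 262145 / 65536 % 65536 = 4 from by norm_num, one_smul, mul_one, mul_one, ← hcomm]
      have h6 := s1c2_five h5 (p * q)
      rw [show (5 : ℕ) = 1 + 4 from rfl, add_smul, one_smul] at h6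
      exact h6
  have hfin := node_ok h5 hpre hrel hck
  rw [Ts1_length] at hfin
  exact hfin

end Pool.Agent.Lib.H80F
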