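import Pool.Agent.Lib.H80F.S1c1
import Pool.Agent.Lib.H80F.S1c2

/-!
# H80F, S1c: all nodes are correct
-/

namespace Pool.Agent.Lib.H80F

variable {A : Type} [Ring A] {TL : List (List Tab)}

theorem s1c3_av {kk m : ℕ} (h : av1 kk m = true) : 1 ≤ kk ∧ m ≤ 7 ∧
    ((kk ≤ 7 ∧ m ≤ 6) ∨ (kk = 8 ∧ m ≤ 5) ∨ (kk ≤ 6 ∧ m = 7)) := by
  unfold av1 at h
  rw [an_iff] at h
  obtain ⟨h1, h2⟩ := h
  have h1' := Nat.le_of_ble_eq_true h1
  refine ⟨h1', ?_⟩
  cases e1 : an (Nat.ble kk 7) (Nat.ble m 6) with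
  | true =>
    rw [an_iff] at e1
    have a := Nat.le_of_ble_eq_true e1.1
    have b := Nat.le_of_ble_eq_true e1.2
    exact ⟨by omega, Or.inl ⟨a, b⟩⟩
  | false =>
    rw [e1] at h2
    change Bool.rec (motive := fun _ => Bool) (an (Nat.ble kk 6) (Nat.ble m 7))
      (Nat.ble m 5) (Nat.beq kk 8) = true at h2
    cases e2 : Nat.beq kk 8 with
    | true =>
      rw [e2] at h2
      have a := Nat.eq_of_beq_eq_true e2
      have b := Nat.le_of_ble_eq_true h2
      exact ⟨by omega, Or.inr (Or.inl ⟨a, b⟩)⟩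
    | false =>
      rw [e2] at h2
      change an (Nat.ble kk 6) (Nat.ble m 7) = true at h2
      rw [an_iff] at h2
      have a := Nat.le_of_ble_eq_true h2.1
      have b := Nat.le_of_ble_eq_true h2.2
      have c : ¬ (kk ≤ 7 ∧ m ≤ 6) := by
        rintro ⟨c1, c2⟩
        rw [Nat.ble_eq_true_of_le c1, Nat.ble_eq_true_of_le c2] at e1
        exact absurd e1 (by decide)
      refine ⟨b, Or.inr (Or.inr ⟨a, ?_⟩)⟩
      omega

theorem s1c3_lb {L : Set A} {x : A} (hx : x ∈ L) {v : List A} (hv : ∀ b ∈ v, b ∈ L) (a : ℕ) :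
    lb x v a ∈ L := by
  cases a with
  | zero => exact hx
  | succ t =>
    show v.getD t x ∈ L
    by_cases ht : t < v.length
    · rw [List.getD_eq_getElem _ _ ht]
      exact hv _ (List.getElem_mem ht)
    · rw [List.getD_eq_default _ _ (not_lt.1 ht)]
      exact hx

/-- Strong induction on the degree. -/
theorem all1_ok (hT : Low1 TL) (hk : CKc TL)
    (hck : ∀ kk m, av1 kk m = true → 2 ≤ kk - 1 + m → ¬(kk = 1 ∧ m = 2) → CK1 TL kk m)
    (h5 : (5 : A) = 0) {L : Set A} (hL : LieSet L) {x : A} (hx : x ∈ L) (D : ℕ) :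
    Ok1 TL L x D := by
  induction D with
  | zero =>
    intro kk v _ _ h
    exact absurd h (Nat.not_lt_zero _)
  | succ D ih =>
    intro kk v hav h1 hlt hv hc
    by_cases hD : kk - 1 + v.length < D
    · exact ih kk v hav h1 hD hv hc
    have hDe : kk - 1 + v.length = D := by omega
    obtain ⟨hkk, hm7, _⟩ := s1c3_av hav
    by_cases hone : kk - 1 + v.length = 1
    · have h := node1_one hT x hkk hone
      rw [hone]
      exact h
    have h2 : 2 ≤ kk - 1 + v.length := by omega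
    by_cases hcc : kk = 1 ∧ v.length = 2
    · obtain ⟨rfl, hv2⟩ := hcc
      have hD2 : D = 2 := by omega
      subst hD2
      have h := node_comm hT hk h5 ih v hv2 hv hc
      have e1 : 1 - 1 + v.length = 2 := by omega
      rw [e1]
      exact h
    obtain ⟨r2, f1, M, c1, c2⟩ := hck kk v.length hav h2 hcc
    have hD' : Ok1 TL L x (kk - 1 + v.length) := by rw [hDe]; exact ih
    have hpre := pre1 hav h2 hD' hv hc
    have eD : Nat.sub (Nat.add kk v.length) 1 = kk - 1 + v.length := by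
      show kk + v.length - 1 = kk - 1 + v.length
      omega
    have hE : EnvOK (E1 TL v.length (Nat.sub (Nat.add kk v.length) 1)) (lb x v) (Vc1 TL x v) :=
      env1 hT hm7 (by rw [eD]; exact hD') hv hc
    have hr2 : ∀ r ∈ r2, Bn 16 (offT (Ts1 TL kk v.length) (Ts1 TL kk v.length).length) r ∧
        ev (pv (Ts1 TL kk v.length).length (lb x v) (U1 TL x (kk - 1 + v.length - 1) kk v)) r =
          0 := by
      intro r hr
      obtain ⟨p, q, r', s, hch⟩ := c2 r hr
      exact chk4_spec h5 hE hL (s1c3_lb hx hv) (fun b hb => (hpre.node b hb).len)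
        (fun c j hcj => tk1_spec (L := L) hm7 hav h2 c j hcj) hch
    have hfin := node_ok h5 hpre hr2 c1
    rw [Ts1_length] at hfin
    obtain ⟨n, hn⟩ : ∃ n, kk - 1 + v.length = n + 1 := ⟨kk - 1 + v.length - 1, by omega⟩
    rw [hn] at hfin ⊢
    exact hfin

end Pool.Agent.Lib.H80F
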