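import Pool.Agent.Lib.H80F.B4

/-!
# H80F, S2: the system with three letters (definitions)

The code of the multidegree `(i, j, k)`, `i, j, k ≤ 4`, is `64 i + 8 j + k`.
-/

namespace Pool.Agent.Lib.H80F

/-- The empty table with three labels. -/
def z3 : Tab := ⟨0, [0, 0, 0], [[], [], []], [[], [], []]⟩

/-- The units. -/
noncomputable def un2 (a : ℕ) : ℕ :=
  Nat.rec (motive := fun _ => ℕ) 64
    (fun a' _ => Nat.rec (motive := fun _ => ℕ) 8 (fun _ _ => 1) a') a

/-- The digit of the letter `a`. -/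
noncomputable def dg2 (c a : ℕ) : ℕ := Nat.mod (Nat.div c (un2 a)) 8

/-- The table of a code, from the tables in a nested list. -/
noncomputable def tb2 (TL : List (List (List Tab))) (c : ℕ) : Tab :=
  nth (nth (nth TL [] (Nat.div c 64)) [] (Nat.mod (Nat.div c 8) 8)) z3 (Nat.mod c 8)

/-- Valid codes. -/
noncomputable def vd2 (c : ℕ) : Bool :=
  an (Nat.ble (Nat.div c 64) 4) (an (Nat.ble (Nat.mod (Nat.div c 8) 8) 4)
    (Nat.ble (Nat.mod c 8) 4))

/-- The degree. -/
noncomputable def de2 (c : ℕ) : ℕ :=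
  Nat.add (Nat.div c 64) (Nat.add (Nat.mod (Nat.div c 8) 8) (Nat.mod c 8))

/-- The predecessor (`511` is an invalid code). -/
noncomputable def pc2 (c a : ℕ) : ℕ :=
  Bool.rec (motive := fun _ => ℕ) (Nat.sub c (un2 a)) 511 (Nat.beq (dg2 c a) 0)

/-- The tables of the predecessors. -/
noncomputable def Ts2 (TL : List (List (List Tab))) (c : ℕ) : List Tab :=
  [tb2 TL (pc2 c 0), tb2 TL (pc2 c 1), tb2 TL (pc2 c 2)]

/-- The environment for words of degree less than `D`. -/
noncomputable def E2 (TL : List (List (List Tab))) (D : ℕ) : Env where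
  tb := tb2 TL
  un := un2
  rk := fun _ a => a
  ok := fun c a => an (Nat.ble a 2) (an (vd2 c) (an (vd2 (Nat.add c (un2 a)))
    (Nat.ble (Nat.add (de2 (Nat.add c (un2 a))) 1) D)))

/-- The test for the last letter of a word of code `C`. -/
noncomputable def tk2 (C c j : ℕ) : Bool :=
  an (Nat.ble j 2) (an (vd2 c) (Nat.beq (Nat.add c (un2 j)) C))

noncomputable def upP : ℕ → ℕ → ℕ := fun _ a => a

noncomputable def dnP : ℕ → ℕ → ℕ := fun b _ => b

/-- The check of the node of code `c`. -/
def CK2 (TL : List (List (List Tab))) (c : ℕ) : Prop :=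
  ∃ (r2 : List ℕ) (f1 M : List (List ℕ)), chk upP dnP (Ts2 TL c) (tb2 TL c) r2 f1 M = true ∧
    ∀ v ∈ r2, ∃ p q r s : ℕ × List ℕ,
      chk4 (E2 TL (de2 c)) (tk2 c) (Ts2 TL c) p q r s v = true

/-- The values of the nodes, with the degree as fuel. -/
noncomputable def V2 {A : Type} [Ring A] (TL : List (List (List Tab))) (X : ℕ → A) :
    ℕ → ℕ → List A
  | 0, c => if c = 0 then [1] else []
  | n + 1, c => nv 3 X (fun a => V2 TL X n (pc2 c a)) (tb2 TL c).bm

/-- The tables of degree at most one. -/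
structure Low2 (TL : List (List (List Tab))) : Prop where
  t0 : (tb2 TL 0).d = 1
  t1 : tb2 TL 64 = ⟨1, [1, 0, 0], [[1], [], []], [[1], [], []]⟩
  t2 : tb2 TL 8 = ⟨1, [0, 1, 0], [[], [1], []], [[], [1], []]⟩
  t3 : tb2 TL 1 = ⟨1, [0, 0, 1], [[], [], [1]], [[], [], [1]]⟩
  inv : ∀ c, vd2 c = false → tb2 TL c = z3

/-- The vector of a word. -/
noncomputable def wv (E : Env) (w : List ℕ) : ℕ :=
  List.rec (motive := fun _ => ℕ) 1 (fun a w' ih => lmv E (ul E w') a ih) w

/-- The tests for `wv`. -/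
noncomputable def wk (E : Env) (w : List ℕ) : Bool :=
  List.rec (motive := fun _ => Bool) true (fun a w' ih => an (E.ok (ul E w') a) ih) w

/-- A linear combination of words. -/
noncomputable def wc (E : Env) (l : List (ℕ × List ℕ)) : ℕ :=
  List.rec (motive := fun _ => ℕ) 0 (fun q _ ih => Nat.add (Nat.mul q.1 (wv E q.2)) ih) l

/-- All words of a linear combination have code `C`, coefficients `≤ 4`, and may be used. -/
noncomputable def wck (E : Env) (C : ℕ) (l : List (ℕ × List ℕ)) : Bool :=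
  List.rec (motive := fun _ => Bool) true (fun q _ ih => an (Nat.ble q.1 4) (an (wk E q.2)
    (an (Nat.beq (ul E q.2) C) ih))) l

/-- The words of the identity of degree `(4, 4, 4)`, with their coefficients (`4` for `-1`). -/
def q27 : List (ℕ × List ℕ) :=
  [1, 2, 3].flatMap (fun i => [1, 2, 3].flatMap (fun j => [1, 2, 3].map (fun k =>
    (if (i + j + k) % 2 = 1 then 1 else 4, qword 0 1 2 i j k))))

end Pool.Agent.Lib.H80F
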