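import Pool.Agent.Lib.H80F.S2
import Pool.Agent.Lib.H80F.B3c3
import Pool.Agent.Lib.H80F.B4b3

/-!
# H80F, S2a: codes
-/

namespace Pool.Agent.Lib.H80F

theorem un2_0 : un2 0 = 64 := rfl

theorem un2_1 : un2 1 = 8 := rfl

theorem un2_2 : un2 2 = 1 := rfl

/-- Valid codes are `< 320` and the following statements about codes can be checked by
`decide +kernel` for all `c < 320` (or `< 512`). -/
theorem vd2_lt {c : ℕ} (h : vd2 c = true) : c < 320 := by
  rw [vd2, an_iff] at h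
  have h1 : c / 64 ≤ 4 := Nat.le_of_ble_eq_true h.1
  omega

theorem s2a1_cases : ∀ c, c < 320 → ∀ a, a < 3 → vd2 c = true →
    (vd2 (pc2 c a) = true ∧ de2 c = de2 (pc2 c a) + 1 ∧ pc2 c a + un2 a = c) ∨
      vd2 (pc2 c a) = false := by
  decide +kernel

theorem s2a1_add : ∀ c, c < 320 → ∀ a, a < 3 → vd2 c = true → vd2 (c + un2 a) = true →
    pc2 (c + un2 a) a = c ∧ de2 (c + un2 a) = de2 c + 1 := by
  decide +kernel

theorem s2a1_comm : ∀ c, c < 320 → ∀ a, a < 3 → ∀ b, b < 3 → vd2 c = true →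
    pc2 (pc2 c b) a = pc2 (pc2 c a) b ∨
      (vd2 (pc2 (pc2 c b) a) = false ∧ vd2 (pc2 (pc2 c a) b) = false) := by
  decide +kernel

theorem s2a1_one : ∀ c, c < 320 → vd2 c = true → de2 c = 1 → c = 64 ∨ c = 8 ∨ c = 1 := by
  decide +kernel

/-- Present predecessors are valid, of degree one less; `pc2` is inverse to adding the unit. -/
theorem pc2_cases {c a : ℕ} (hc : vd2 c = true) (ha : a < 3) :
    (vd2 (pc2 c a) = true ∧ de2 c = de2 (pc2 c a) + 1 ∧ pc2 c a + un2 a = c) ∨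
      vd2 (pc2 c a) = false :=
  s2a1_cases c (vd2_lt hc) a ha hc

theorem pc2_add {c a : ℕ} (hc : vd2 c = true) (ha : a < 3) (h : vd2 (c + un2 a) = true) :
    pc2 (c + un2 a) a = c ∧ de2 (c + un2 a) = de2 c + 1 :=
  s2a1_add c (vd2_lt hc) a ha hc h

theorem pc2_comm {c a b : ℕ} (hc : vd2 c = true) (ha : a < 3) (hb : b < 3) :
    pc2 (pc2 c b) a = pc2 (pc2 c a) b ∨
      (vd2 (pc2 (pc2 c b) a) = false ∧ vd2 (pc2 (pc2 c a) b) = false) :=
  s2a1_comm c (vd2_lt hc) a ha b hb hc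

theorem de2_one {c : ℕ} (hc : vd2 c = true) (h : de2 c = 1) : c = 64 ∨ c = 8 ∨ c = 1 :=
  s2a1_one c (vd2_lt hc) hc h

end Pool.Agent.Lib.H80F
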