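import Pool.Agent.Lib.H80F.S2a2

/-!
# H80F, S2b: the predecessors
-/

namespace Pool.Agent.Lib.H80F

variable {A : Type} [Ring A] {TL : List (List (List Tab))}

/-- The statement for all valid codes of degree less than `D`. -/
def Ok2 (TL : List (List (List Tab))) (X : ℕ → A) (D : ℕ) : Prop :=
  ∀ c, vd2 c = true → 1 ≤ de2 c → de2 c < D →
    NodeOK 3 X (fun a => V2 TL X (de2 c - 1) (pc2 c a)) (tb2 TL c) (V2 TL X (de2 c) c)

theorem s2b1_len {c b : ℕ} (hb : b < (Ts2 TL c).length) : b < 3 := hb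

/-- The predecessors of an invalid predecessor are invalid. -/
theorem s2b1_inv {c b a : ℕ} (hc : vd2 c = true) (hb : b < 3) (ha : a < 3)
    (h : vd2 (pc2 c b) = false) : vd2 (pc2 (pc2 c b) a) = false := by
  have key : ∀ c < 320, ∀ b < 3, ∀ a < 3, vd2 c = true → vd2 (pc2 c b) = false →
      vd2 (pc2 (pc2 c b) a) = false := by decide +kernel
  exact key c (vd2_lt hc) b hb a ha hc h

theorem s2b1_T {c b : ℕ} (hb : b < 3) : nth (Ts2 TL c) T0 b = tb2 TL (pc2 c b) := by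
  interval_cases b <;> rfl

/-- The hypothesis of `node_ok` for a valid code of degree at least two: `U b = V2 (de2 c - 1)
(pc2 c b)`, `W b a = V2 (de2 c - 2) (pc2 (pc2 c b) a)`; `pc2_cases`, `pc2_comm`, `V2_inv`, `z3_ok`. -/
theorem pre2 (hT : Low2 TL) (X : ℕ → A) {c : ℕ} (hc : vd2 c = true) (h2 : 2 ≤ de2 c)
    (hD : Ok2 TL X (de2 c)) :
    Pre upP dnP (Ts2 TL c) X (fun b => V2 TL X (de2 c - 1) (pc2 c b))
      (fun b a => V2 TL X (de2 c - 2) (pc2 (pc2 c b) a)) := by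
  have hn : ∀ b < 3, NodeOK 3 X (fun a => V2 TL X (de2 c - 2) (pc2 (pc2 c b) a))
      (tb2 TL (pc2 c b)) (V2 TL X (de2 c - 1) (pc2 c b)) := by
    intro b hb
    rcases pc2_cases hc hb with ⟨h1, h3, -⟩ | h
    · have h := hD (pc2 c b) h1 (by omega) (by omega)
      have e1 : de2 (pc2 c b) = de2 c - 1 := by omega
      have e2 : de2 (pc2 c b) - 1 = de2 c - 2 := by omega
      rw [e2, e1] at h
      exact h
    · rw [hT.inv _ h, V2_inv hT X _ h]
      refine z3_ok _ _ fun a ha => ?_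
      refine V2_inv hT X _ ?_
      exact s2b1_inv hc hb ha h
  refine ⟨?_, ?_⟩
  · intro b hb
    have hb3 : b < 3 := hb
    rw [s2b1_T hb3]
    have h := hn b hb3
    have e := h.bm
    rw [e]
    exact h
  · intro b hb a ha
    have hb3 : b < 3 := hb
    rw [s2b1_T hb3, (hn b hb3).bm] at ha
    refine ⟨ha, ?_, ?_, rfl⟩
    · show b < (nth (Ts2 TL c) T0 a).bm.length
      rw [s2b1_T ha, (hn a ha).bm]
      exact hb3
    · show V2 TL X (de2 c - 2) (pc2 (pc2 c b) a) = V2 TL X (de2 c - 2) (pc2 (pc2 c a) b)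
      rcases pc2_comm hc ha hb3 with h | ⟨h1, h2'⟩
      · rw [h]
      · rw [V2_inv hT X _ h1, V2_inv hT X _ h2']

end Pool.Agent.Lib.H80F
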