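import Pool.Agent.Lib.H80F.S2b1

/-!
# H80F, S2b: the environment
-/

namespace Pool.Agent.Lib.H80F

variable {A : Type} [Ring A] {TL : List (List (List Tab))}

theorem s2b2_zero {c : ℕ} (h : de2 c = 0) : c = 0 := by
  have h1 : c / 64 + (c / 8 % 8 + c % 8) = 0 := h
  have h2 : c / 64 = 0 := by omega
  have h3 : c < 64 := by omega
  have h4 : c / 8 < 8 := by omega
  have h5 : c / 8 % 8 = 0 := by
    generalize c / 8 % 8 = q at h1
    omega
  rw [Nat.mod_eq_of_lt h4] at h5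
  have h6 : c % 8 = 0 := by omega
  omega

theorem s2b2_lt {a : ℕ} (h : Nat.ble a 2 = true) : a < 3 := by
  have := Nat.le_of_ble_eq_true h
  omega

theorem s2b2_len (hT : Low2 TL) (X : ℕ → A) {D : ℕ} (hD : Ok2 TL X D) {c : ℕ} (hc : vd2 c = true)
    (h : de2 c < D) : (V2 TL X (de2 c) c).length = (tb2 TL c).d ∧ (tb2 TL c).d ≤ 300 := by
  rcases Nat.eq_zero_or_pos (de2 c) with h0 | h0
  · have h1 := s2b2_zero h0
    subst h1
    rw [hT.t0, h0]
    refine ⟨?_, by norm_num⟩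
    show (if 0 = 0 then [(1 : A)] else []).length = 1
    rw [if_pos rfl]
    rfl
  · have h1 := hD c hc h0 h
    exact ⟨h1.len, h1.d⟩

/-- The environment is correct, with `Vc c = V2 (de2 c) c`: `NodeOK.left`, `bL`, `len`, `d` for the
code `c + un2 a` (`pc2_add`), and `len`, `d` for `c` (for `c` of degree `0`, `c = 0`, `Low2.t0`). -/
theorem env2 (hT : Low2 TL) (X : ℕ → A) {D : ℕ} (hD : Ok2 TL X D) :
    EnvOK (E2 TL D) X (fun c => V2 TL X (de2 c) c) := by
  constructor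
  · refine ⟨?_, hT.t0⟩
    show V2 TL X (de2 0) 0 = [1]
    rw [show de2 0 = 0 from rfl]
    show (if 0 = 0 then [(1 : A)] else []) = [1]
    rw [if_pos rfl]
  · intro c a hok
    have hok' : an (Nat.ble a 2) (an (vd2 c) (an (vd2 (c + un2 a))
      (Nat.ble (de2 (c + un2 a) + 1) D))) = true := hok
    rw [an_iff, an_iff, an_iff] at hok'
    obtain ⟨h1, h2, h3, h4⟩ := hok'
    have ha := s2b2_lt h1
    have h4' := Nat.le_of_ble_eq_true h4
    obtain ⟨e1, e2⟩ := pc2_add h2 ha h3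
    have hN := hD (c + un2 a) h3 (by omega) (by omega)
    obtain ⟨l1, l2⟩ := s2b2_len hT X hD h2 (by omega)
    have hleft := hN.left a ha
    have e3 : de2 (c + un2 a) - 1 = de2 c := by omega
    rw [e3, e1] at hleft
    exact ⟨hleft, hN.bL a ha, l1, l2, hN.len⟩

/-- The condition of `chk4_spec` on the last letter. -/
theorem tk2_spec (hT : Low2 TL) (X : ℕ → A) {c : ℕ} (hc : vd2 c = true) (h2 : 2 ≤ de2 c)
    (hD : Ok2 TL X (de2 c)) (c' j : ℕ) (h : tk2 c c' j = true) :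
    j < (Ts2 TL c).length ∧ V2 TL X (de2 c - 1) (pc2 c j) = V2 TL X (de2 c') c' ∧
      (nth (Ts2 TL c) T0 j).d = ((E2 TL (de2 c)).tb c').d := by
  unfold tk2 at h
  rw [an_iff, an_iff] at h
  obtain ⟨h1, h3, h4⟩ := h
  have hj := s2b2_lt h1
  have h5 : c' + un2 j = c := Nat.eq_of_beq_eq_true h4
  obtain ⟨e1, e2⟩ := pc2_add h3 hj (by rw [h5]; exact hc)
  rw [h5] at e1 e2
  refine ⟨hj, ?_, ?_⟩
  · rw [e1, e2]
    rfl
  · show (nth (Ts2 TL c) T0 j).d = (tb2 TL c').d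
    rw [← e1]
    have : j = 0 ∨ j = 1 ∨ j = 2 := by omega
    rcases this with rfl | rfl | rfl <;> rfl

end Pool.Agent.Lib.H80F
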