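import Pool.Agent.Lib.H80F.S2b2

/-!
# H80F, S2b: all nodes are correct
-/

namespace Pool.Agent.Lib.H80F

variable {A : Type} [Ring A] {TL : List (List (List Tab))}

/-- Strong induction on the degree: `node_one`, `node_ok` with `pre2`, `chk4_spec` with `env2`,
`tk2_spec`. -/
theorem all2_ok (hT : Low2 TL) (hck : ∀ c, vd2 c = true → 2 ≤ de2 c → CK2 TL c)
    (h5 : (5 : A) = 0) {L : Set A} (hL : LieSet L) (X : ℕ → A) (hX : ∀ a, X a ∈ L) (D : ℕ) :
    Ok2 TL X D := by
  induction D using Nat.strong_induction_on with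
  | _ D ih =>
    intro c hc h1 hD
    rcases Nat.eq_or_lt_of_le h1 with h | h
    · rw [← h]
      exact node_one hT X (de2_one hc h.symm)
    · have h2 : 2 ≤ de2 c := h
      have hO : Ok2 TL X (de2 c) := ih (de2 c) hD
      obtain ⟨r2, f1, M, hchk, hv⟩ := hck c hc h2
      have hp := pre2 hT X hc h2 hO
      have hE := env2 hT X hO
      have hl : ∀ b < (Ts2 TL c).length,
          (V2 TL X (de2 c - 1) (pc2 c b)).length = (nth (Ts2 TL c) T0 b).d :=
        fun b hb => (hp.node b hb).len
      have hr : ∀ r ∈ r2, Bn 16 (offT (Ts2 TL c) (Ts2 TL c).length) r ∧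
          ev (pv (Ts2 TL c).length X (fun b => V2 TL X (de2 c - 1) (pc2 c b))) r = 0 := by
        intro r hr
        obtain ⟨p, q, r', s, h4⟩ := hv r hr
        exact chk4_spec h5 hE hL hX hl (fun c' j hj => tk2_spec hT X hc h2 hO c' j hj) h4
      have key := node_ok h5 hp hr hchk
      obtain ⟨n, hn⟩ : ∃ n, de2 c = n + 1 := ⟨de2 c - 1, by omega⟩
      have e : V2 TL X (de2 c) c = nv 3 X (fun b => V2 TL X (de2 c - 1) (pc2 c b))
          (tb2 TL c).bm := by
        rw [hn]
        rfl
      rw [e]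
      exact key

end Pool.Agent.Lib.H80F
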