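import Pool.Agent.Lib.H80F.S2b3

/-!
# H80F, S2c: words
-/

namespace Pool.Agent.Lib.H80F

variable {A : Type} [Ring A] {TL : List (List (List Tab))}

/-- `lmv_spec`. -/
theorem wv_spec (h5 : (5 : A) = 0) {E : Env} {X : ℕ → A} {Vc : ℕ → List A} (hE : EnvOK E X Vc)
    (w : List ℕ) (hk : wk E w = true) :
    Bn 16 (E.tb (ul E w)).d (wv E w) ∧ ev (Vc (ul E w)) (wv E w) = (w.map X).prod := by
  induction w with
  | nil =>
    obtain ⟨h1, h2⟩ := hE.root
    show Bn 16 (E.tb 0).d 1 ∧ ev (Vc 0) 1 = _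
    rw [h1, h2]
    refine ⟨?_, ?_⟩
    · show 1 % 65536 ≤ 16 ∧ 1 / 65536 = 0
      norm_num
    · rw [ev_one]
      rfl
  | cons a w ih =>
    have hk' : an (E.ok (ul E w) a) (wk E w) = true := hk
    rw [an_iff] at hk'
    obtain ⟨i1, i2⟩ := ih hk'.2
    obtain ⟨j1, j2⟩ := lmv_spec h5 hE hk'.1 i1
    have e1 : ul E (a :: w) = ul E w + E.un a := by
      show E.un a + ul E w = _
      exact Nat.add_comm _ _
    have e2 : wv E (a :: w) = lmv E (ul E w) a (wv E w) := rfl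
    rw [e1, e2]
    refine ⟨j1, ?_⟩
    rw [j2, i2, List.map_cons, List.prod_cons]

/-- The bound: `64 * l.length < 65536`. -/
theorem wc_spec (h5 : (5 : A) = 0) {E : Env} {X : ℕ → A} {Vc : ℕ → List A} (hE : EnvOK E X Vc)
    (C : ℕ) (l : List (ℕ × List ℕ)) (hl : l.length ≤ 1000) (hk : wck E C l = true) :
    Bn (64 * l.length) (E.tb C).d (wc E l) ∧
      ev (Vc C) (wc E l) = (l.map (fun q => q.1 • (q.2.map X).prod)).sum := by
  induction l with
  | nil =>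
    show Bn (64 * 0) (E.tb C).d 0 ∧ ev (Vc C) 0 = _
    refine ⟨Bn_zero _ _, ?_⟩
    rw [ev_zero]
    rfl
  | cons q l ih =>
    have hk' : an (Nat.ble q.1 4) (an (wk E q.2) (an (Nat.beq (ul E q.2) C) (wck E C l))) = true :=
      hk
    rw [an_iff, an_iff, an_iff] at hk'
    obtain ⟨k1, k2, k3, k4⟩ := hk'
    have k1' := Nat.le_of_ble_eq_true k1
    have k3' : ul E q.2 = C := Nat.eq_of_beq_eq_true k3
    rw [List.length_cons] at hl ⊢
    obtain ⟨i1, i2⟩ := ih (by omega) k4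
    obtain ⟨w1, w2⟩ := wv_spec h5 hE q.2 k2
    rw [k3'] at w1 w2
    have m0 : q.1 * 16 < 65536 := by omega
    have m1 : Bn (q.1 * 16) (E.tb C).d (q.1 * wv E q.2) := Bn_mul m0 w1
    have m2 : ev (Vc C) (q.1 * wv E q.2) = q.1 • ev (Vc C) (wv E q.2) := ev_mul m0 w1 (Vc C)
    have e2 : wc E (q :: l) = q.1 * wv E q.2 + wc E l := rfl
    rw [e2]
    refine ⟨Bn_mono (by omega) (Bn_add (by omega) m1 i1), ?_⟩
    rw [ev_add (by omega) m1 i1 (Vc C), m2, w2, i2, List.map_cons, List.sum_cons]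

end Pool.Agent.Lib.H80F
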